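import Pool.Agent.helper79.RS.FarA

/-!
RS-23: double lattice packings of affine images, and normalisation for general properties.
-/

open MeasureTheory
open scoped ENNReal Pointwise

namespace Pool.Agent.helper79.RS

open Pool.Agent.helper42.PD

theorem det2_linear (A : Plane →ₗ[ℝ] Plane) (u w : Plane) :
    det2 (A u) (A w) = LinearMap.det A * det2 u w := by
  set e := (EuclideanSpace.basisFun (Fin 2) ℝ).toBasis with he
  have key : ∀ a b : Plane, e.det ![a, b] = det2 a b := by
    intro a b
    rw [Module.Basis.det_apply, Matrix.det_fin_two]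
    simp only [Module.Basis.toMatrix_apply, he, OrthonormalBasis.coe_toBasis_repr_apply,
      EuclideanSpace.basisFun_repr, Matrix.cons_val_zero, Matrix.cons_val_one, det2]
    ring
  have h := e.det_comp A ![u, w]
  have h2 : (A ∘ ![u, w]) = ![A u, A w] := by
    ext i
    fin_cases i <;> rfl
  rw [h2, key, key] at h
  exact h

/-- The homeomorphism of an affine equivalence. -/
noncomputable def homeo (T : Plane ≃ᵃ[ℝ] Plane) : Plane ≃ₜ Plane :=
  T.toHomeomorphOfFiniteDimensional

theorem homeo_apply (T : Plane ≃ᵃ[ℝ] Plane) (z : Plane) : homeo T z = T z := rfl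

theorem interior_affine (T : Plane ≃ᵃ[ℝ] Plane) (K : Set Plane) :
    interior (T '' K) = T '' interior K :=
  ((homeo T).image_interior K).symm

theorem affine_apply (T : Plane ≃ᵃ[ℝ] Plane) (z : Plane) :
    T z = T.linear z + T 0 := by
  have h := T.map_vadd 0 z
  simp only [vadd_eq_add, add_zero] at h
  exact h

theorem volume_affine (T : Plane ≃ᵃ[ℝ] Plane) (K : Set Plane) :
    volume (T '' K) = ENNReal.ofReal |LinearMap.det (T.linear : Plane →ₗ[ℝ] Plane)| * volume K := by
  have h1 : T '' K = (fun z => z + T 0) '' ((T.linear : Plane →ₗ[ℝ] Plane) '' K) := by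
    rw [Set.image_image]
    apply Set.image_congr
    intro z _
    exact affine_apply T z
  rw [h1, Set.image_add_right, measure_preimage_add_right, Measure.addHaar_image_linearMap]

theorem good_image {K : Set Plane} {F : ℝ} (h : Good K F) (T : Plane ≃ᵃ[ℝ] Plane) :
    Good (T '' K) (|LinearMap.det (T.linear : Plane →ₗ[ℝ] Plane)| * F) := by
  obtain ⟨e₁, e₂, c, hD, hle⟩ := h
  set A : Plane →ₗ[ℝ] Plane := (T.linear : Plane →ₗ[ℝ] Plane) with hA
  have hdet : LinearMap.det A ≠ 0 := (LinearEquiv.isUnit_det' T.linear).ne_zero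
  refine ⟨A e₁, A e₂, A c + (2 : ℝ) • T 0, ⟨?_, ?_, ?_⟩, ?_⟩
  · rw [det2_linear]
    exact mul_ne_zero hdet hD.det_ne
  · intro i j hij z hz
    rw [interior_affine] at hz ⊢
    rintro ⟨w, hw, hw2⟩
    obtain ⟨z', hz', rfl⟩ := hz
    have h1 := hD.trans i j hij z' hz'
    apply h1
    have h2 : T w = T (z' + ((i : ℝ) • e₁ + (j : ℝ) • e₂)) := by
      rw [hw2, affine_apply T z', affine_apply T (z' + _)]
      change A z' + T 0 + _ = A _ + T 0
      rw [map_add, map_add, map_smul, map_smul]
      abel
    rw [← T.injective h2]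
    exact hw
  · intro i j hz
    rw [interior_affine] at hz
    obtain ⟨w, hw, hw2⟩ := hz
    apply hD.refl i j
    have h2 : T w = T ((1 / 2 : ℝ) • (c + ((i : ℝ) • e₁ + (j : ℝ) • e₂))) := by
      rw [hw2, affine_apply T ((1 / 2 : ℝ) • _)]
      change _ = A _ + T 0
      rw [map_smul, map_add, map_add, map_smul, map_smul]
      rw [smul_add, smul_add, smul_add, smul_smul]
      norm_num
      abel
    rw [← T.injective h2]
    exact hw
  · rw [det2_linear, abs_mul]
    exact mul_le_mul_of_nonneg_left hle (abs_nonneg _)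

/-- All affine images of `K` have packing density at least `c`. -/
def AffDens (c : ℝ) (K : Set Plane) : Prop :=
  ∀ T : Plane ≃ᵃ[ℝ] Plane, ENNReal.ofReal c ≤ packingDensity (T '' K)

theorem affDens_of_chords {K : Set Plane} (hK : Convex ℝ K) (hc : IsCompact K)
    (hi : (interior K).Nonempty) {L x0 y0 xr yr xl yl : ℝ}
    (h : Chords K L x0 y0 xr yr xl yl) {c : ℝ}
    (hvol : ENNReal.ofReal (c * (L * (xr - xl))) ≤ volume K) : AffDens c K := by
  intro T
  have hL := h.L_pos
  have hlt := h.lt hK hi
  have hpos : 0 < L * (xr - xl) := mul_pos hL (by linarith)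
  have hgood : Good K (2 * (L * (xr - xl))) := by
    refine ⟨_, _, _, h.doubleLattice hK hi, ?_⟩
    simp only [det2, pt_zero, pt_one]
    rw [abs_le]
    constructor <;> nlinarith
  set D := |LinearMap.det (T.linear : Plane →ₗ[ℝ] Plane)| with hD
  have hdet : 0 < D := abs_pos.mpr (LinearEquiv.isUnit_det' T.linear).ne_zero
  have hK' : Convex ℝ (T '' K) := hK.affine_image T.toAffineMap
  have hc' : IsCompact (T '' K) := hc.image (homeo T).continuous
  have hi' : (interior (T '' K)).Nonempty := by
    rw [interior_affine]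
    exact hi.image _
  have hvol' : ENNReal.ofReal (D * (c * (L * (xr - xl)))) ≤ volume (T '' K) := by
    rw [volume_affine, ENNReal.ofReal_mul hdet.le]
    exact mul_le_mul_right hvol _
  have h1 := (good_image hgood T).packingDensity_ge hK' hc' hi' (by positivity) hvol'
  refine le_trans (ENNReal.ofReal_le_ofReal ?_) h1
  rw [le_div_iff₀ (by positivity)]
  apply le_of_eq
  ring

theorem Ineq.affDens {c : ℝ} {K : Set Plane} (hK : Convex ℝ K) (hc : IsCompact K)
    (hi : (interior K).Nonempty) (h : Ineq c K) : AffDens c K := by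
  obtain ⟨L, x0, y0, xr, yr, xl, yl, hch⟩ := exists_chords hK hc hi
  exact affDens_of_chords hK hc hi hch (h _ _ _ _ _ _ _ hch)

theorem AffDens.of_image {c : ℝ} {K : Set Plane} (S : Plane ≃ᵃ[ℝ] Plane)
    (h : AffDens c (S '' K)) : AffDens c K := by
  intro T
  have h1 := h (S.symm.trans T)
  rw [Set.image_image] at h1
  convert h1 using 2
  apply Set.image_congr
  intro z _
  simp

theorem AffDens.mono {c c' : ℝ} (hc : c ≤ c') {K : Set Plane} (h : AffDens c' K) :
    AffDens c K := fun T => le_trans (ENNReal.ofReal_le_ofReal hc) (h T)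

/-- A property which passes from translates, rotated and scaled copies back to the body. -/
structure Inv (Q : Set Plane → Prop) : Prop where
  tr : ∀ (K : Set Plane) (o : Plane), Q ((fun z => -o + z) '' K) → Q K
  rt : ∀ (K : Set Plane) (θ : ℝ), Q (rot θ '' K) → Q K
  sm : ∀ (K : Set Plane) (r : ℝ), 0 < r → Q (r • K) → Q K

theorem inv_affDens (c : ℝ) : Inv (AffDens c) where
  tr K o h := by
    apply AffDens.of_image (AffineEquiv.constVAdd ℝ Plane (-o))
    exact h
  rt K θ h := by
    apply AffDens.of_image (rotIso θ).toLinearEquiv.toAffineEquiv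
    exact h
  sm K r hr h := by
    apply AffDens.of_image (LinearEquiv.smulOfNeZero ℝ Plane r hr.ne').toAffineEquiv
    exact h

end Pool.Agent.helper79.RS
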