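import Pool.Agent.helper79.RS.Hept

/-!
RS-8: the farthest point frame.
-/

open MeasureTheory
open scoped ENNReal Pointwise

namespace Pool.Agent.helper79.RS

open Pool.Agent.helper42.PD

/-- A closed convex set with a symmetry of order `n` in the farthest point frame. -/
structure FarK (n : ℕ) (K : Set Plane) : Prop where
  conv : Convex ℝ K
  zero : (0 : Plane) ∈ interior K
  sym : SymK n K
  ball : ∀ z ∈ K, ‖z‖ ≤ 1
  top : pt 0 1 ∈ K

theorem det_trans {u v w : Plane} (hu : u 1 < 0) (hv : v 1 < 0) (hw : w 1 < 0)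
    (h1 : 0 < det2 u v) (h2 : 0 < det2 v w) : 0 < det2 u w := by
  have e : det2 u w * (-v 1) = det2 u v * (-w 1) + det2 v w * (-u 1) := by
    simp only [det2]; ring
  have : 0 < det2 u w * (-v 1) := by
    rw [e]
    have i1 := mul_pos h1 (neg_pos.mpr hw)
    have i2 := mul_pos h2 (neg_pos.mpr hu)
    linarith
  exact (mul_pos_iff_of_pos_right (neg_pos.mpr hv)).mp this

theorem det_chain {P : ℕ → Plane} {m : ℕ} (hneg : ∀ i ≤ m, P i 1 < 0)
    (hcons : ∀ i < m, 0 < det2 (P i) (P (i + 1))) :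
    ∀ i j, i < j → j ≤ m → 0 < det2 (P i) (P j) := by
  intro i j
  induction j with
  | zero => intro h; omega
  | succ j ih =>
    intro h1 h2
    rcases Nat.lt_succ_iff_lt_or_eq.mp h1 with h3 | h3
    · exact det_trans (hneg i (by omega)) (hneg j (by omega)) (hneg _ h2) (ih h3 (by omega))
        (hcons j (by omega))
    · rw [h3]
      exact hcons j (by omega)

/-- Reflection in the vertical axis. -/
noncomputable def mir : Plane ≃ₗᵢ[ℝ] Plane where
  toFun z := pt (-z 0) (z 1)
  invFun z := pt (-z 0) (z 1)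
  map_add' u w := by
    apply plane_ext
    · simp only [pt_zero, PiLp.add_apply]; ring
    · simp only [pt_one, PiLp.add_apply]
  map_smul' t u := by
    apply plane_ext
    · simp only [pt_zero, PiLp.smul_apply, RingHom.id_apply, smul_eq_mul]; ring
    · simp only [pt_one, PiLp.smul_apply, RingHom.id_apply, smul_eq_mul]
  left_inv z := by apply plane_ext <;> simp
  right_inv z := by apply plane_ext <;> simp
  norm_map' z := by
    have h : ‖pt (-z 0) (z 1)‖ ^ 2 = ‖z‖ ^ 2 := by
      rw [norm_sq_plane, norm_sq_plane]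
      simp
    exact (sq_eq_sq₀ (norm_nonneg _) (norm_nonneg _)).mp h

theorem mir_apply (z : Plane) : mir z = pt (-z 0) (z 1) := rfl

theorem mir_pt (x y : ℝ) : mir (pt x y) = pt (-x) y := rfl

theorem mir_rot (θ : ℝ) (z : Plane) : mir (rot θ z) = rot (-θ) (mir z) := by
  apply plane_ext
  · simp only [mir_apply, pt_zero, rot_zero', pt_one, Real.cos_neg, Real.sin_neg]; ring
  · simp only [mir_apply, pt_zero, rot_one', pt_one, Real.cos_neg, Real.sin_neg]; ring

/-- The mirror image of a set. -/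
def Mir (K : Set Plane) : Set Plane := mir ⁻¹' K

theorem mem_Mir {K : Set Plane} {x y : ℝ} : pt x y ∈ Mir K ↔ pt (-x) y ∈ K := Iff.rfl

theorem interior_Mir (K : Set Plane) : interior (Mir K) = mir ⁻¹' interior K :=
  (mir.toHomeomorph.preimage_interior K).symm

theorem FarK.mirror {n : ℕ} (hn : n ≠ 0) {K : Set Plane} (h : FarK n K) : FarK n (Mir K) where
  conv := h.conv.linear_preimage mir.toLinearEquiv.toLinearMap
  zero := by
    rw [interior_Mir]
    change mir 0 ∈ interior K
    rw [map_zero]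
    exact h.zero
  sym := by
    intro z hz
    change mir (rot _ z) ∈ K
    rw [mir_rot]
    have := h.sym.int hn (-1) (z := mir z) hz
    convert this using 2
    push_cast
    ring
  ball := by
    intro z hz
    rw [← mir.norm_map]
    exact h.ball _ hz
  top := by
    change mir _ ∈ K
    rw [mir_pt, neg_zero]
    exact h.top

theorem norm_le_one {x y : ℝ} (h : ‖pt x y‖ ≤ 1) : x ^ 2 + y ^ 2 ≤ 1 := by
  have := norm_sq_plane (pt x y)
  rw [pt_zero, pt_one] at this
  rw [← this]
  have := norm_nonneg (pt x y)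
  nlinarith

/-- The lowest point on the vertical axis. -/
theorem lowest {K : Set Plane} (hc : IsCompact K) (h0 : (0 : Plane) ∈ K) :
    ∃ t : ℝ, pt 0 (-t) ∈ K ∧ pt 0 (-t) ∉ interior K ∧ ∀ u, pt 0 (-u) ∈ K → u ≤ t := by
  have hcl : IsClosed {z : Plane | z 0 = 0} := isClosed_eq (by fun_prop) (by fun_prop)
  obtain ⟨z, hz, hmin⟩ := (hc.inter_right hcl).exists_isMinOn (f := fun z : Plane => z 1)
    ⟨0, h0, rfl⟩ (by fun_prop)
  have hz0 : z 0 = 0 := hz.2
  have e : pt 0 (-(-z 1)) = z := by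
    rw [neg_neg, ← hz0]
    exact pt_eta z
  refine ⟨-z 1, by rw [e]; exact hz.1, ?_, ?_⟩
  · intro h1
    obtain ⟨ε, hε, h2⟩ := exists_eps h1
    have h3 := h2 0 (-ε) (by simpa using hε.le) (by rw [abs_neg, abs_of_pos hε])
    have h4 := hmin (show pt (0 + 0) (-(-z 1) + -ε) ∈ K ∩ {z | z 0 = 0} from ⟨h3, by simp⟩)
    simp only [Set.mem_setOf_eq, pt_one, neg_neg] at h4
    linarith
  · intro u hu
    have h4 := hmin (show pt 0 (-u) ∈ K ∩ {z | z 0 = 0} from ⟨hu, by simp⟩)
    simp only [Set.mem_setOf_eq, pt_one] at h4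
    linarith

theorem Chords.mirror {K : Set Plane} {L x0 y0 xr yr xl yl : ℝ}
    (h : Chords K L x0 y0 xr yr xl yl) : Chords (Mir K) L (-x0) y0 (-xl) yl (-xr) yr := by
  refine ⟨h.L_pos, ?_, ?_, ?_, ?_, ?_, ?_, ?_, ?_, ?_⟩
  · rw [mem_Mir, neg_neg]; exact h.mem0
  · rw [mem_Mir, neg_neg]; exact h.mem0'
  · intro x y t h1 h2
    exact h.max (-x) y t h1 h2
  · rw [mem_Mir, neg_neg]; exact h.meml
  · rw [mem_Mir, neg_neg]; exact h.meml'
  · intro x y h1 h2
    have := h.left (-x) y h1 h2
    linarith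
  · rw [mem_Mir, neg_neg]; exact h.memr
  · rw [mem_Mir, neg_neg]; exact h.memr'
  · intro x y h1 h2
    have := h.right (-x) y h1 h2
    linarith

end Pool.Agent.helper79.RS
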