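import Pool.Agent.helper79.RS.Near
import Pool.Agent.helper79.RS.Far

/-!
RS-10: symmetries of order 6, 11, 13, 17, 19 and of order at least 23.
-/

open MeasureTheory
open scoped ENNReal Pointwise

namespace Pool.Agent.helper79.RS

open Pool.Agent.helper42.PD

theorem sin_lo {x a b : ℝ} (ha : 0 ≤ a) (h1 : a ≤ x) (h2 : x ≤ b) (hb : b ≤ 1) :
    a - a ^ 3 / 6 - b ^ 5 / 100 ≤ Real.sin x := by
  have hx : |x| ≤ 1 := by rw [abs_of_nonneg (by linarith)]; linarith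
  have h3 := (abs_le.mp (Real.sin_bound hx)).1
  rw [abs_of_nonneg (by linarith : 0 ≤ x)] at h3
  have h4 : x ^ 5 ≤ b ^ 5 := pow_le_pow_left₀ (by linarith) h2 5
  have h5 : a - a ^ 3 / 6 ≤ x - x ^ 3 / 6 := by
    have : 0 ≤ (x - a) * (6 - (x ^ 2 + x * a + a ^ 2)) := by
      apply mul_nonneg (by linarith)
      nlinarith
    nlinarith
  linarith

theorem sin_hi {x a b : ℝ} (ha : 0 ≤ a) (h1 : a ≤ x) (h2 : x ≤ b) (hb : b ≤ 1) :
    Real.sin x ≤ b - b ^ 3 / 6 + b ^ 5 / 100 := by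
  have hx : |x| ≤ 1 := by rw [abs_of_nonneg (by linarith)]; linarith
  have h3 := (abs_le.mp (Real.sin_bound hx)).2
  rw [abs_of_nonneg (by linarith : 0 ≤ x)] at h3
  have h4 : x ^ 5 ≤ b ^ 5 := pow_le_pow_left₀ (by linarith) h2 5
  have h5 : x - x ^ 3 / 6 ≤ b - b ^ 3 / 6 := by
    have : 0 ≤ (b - x) * (6 - (x ^ 2 + x * b + b ^ 2)) := by
      apply mul_nonneg (by linarith)
      nlinarith
    nlinarith
  linarith

theorem cos_lo {x a b : ℝ} (ha : 0 ≤ a) (h1 : a ≤ x) (h2 : x ≤ b) (hb : b ≤ 1) :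
    1 - b ^ 2 / 2 - b ^ 4 * (5 / 96) ≤ Real.cos x := by
  have hx : |x| ≤ 1 := by rw [abs_of_nonneg (by linarith)]; linarith
  have h3 := (abs_le.mp (Real.cos_bound hx)).1
  rw [abs_of_nonneg (by linarith : 0 ≤ x)] at h3
  have h4 : x ^ 4 ≤ b ^ 4 := pow_le_pow_left₀ (by linarith) h2 4
  have h5 : x ^ 2 ≤ b ^ 2 := pow_le_pow_left₀ (by linarith) h2 2
  linarith

theorem cos_hi {x a b : ℝ} (ha : 0 ≤ a) (h1 : a ≤ x) (h2 : x ≤ b) (hb : b ≤ 1) :
    Real.cos x ≤ 1 - a ^ 2 / 2 + b ^ 4 * (5 / 96) := by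
  have hx : |x| ≤ 1 := by rw [abs_of_nonneg (by linarith)]; linarith
  have h3 := (abs_le.mp (Real.cos_bound hx)).2
  rw [abs_of_nonneg (by linarith : 0 ≤ x)] at h3
  have h4 : x ^ 4 ≤ b ^ 4 := pow_le_pow_left₀ (by linarith) h2 4
  have h5 : a ^ 2 ≤ x ^ 2 := pow_le_pow_left₀ ha h1 2
  linarith

theorem sqrt3_bounds : 1.7320508 < Real.sqrt 3 ∧ Real.sqrt 3 < 1.7320509 := by
  constructor
  · rw [Real.lt_sqrt (by norm_num)]; norm_num
  · rw [Real.sqrt_lt' (by norm_num)]; norm_num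

/-- Numerical form of `ineq_near`. -/
theorem ineq_near' {k : ℕ} (hk : 3 ≤ k) {K : Set Plane} (hK : Convex ℝ K)
    (h0 : (0 : Plane) ∈ interior K) (hsym : SymK k K) (hball : ∀ z : Plane, ‖z‖ ≤ 1 → z ∈ K)
    (htop : pt 0 1 ∉ interior K) (j : ℤ) {c1 c2 s1 σ c m0 a1 a2 a3 : ℝ}
    (hj0 : 0 < 2 * Real.pi / k * j) (hj1 : 2 * Real.pi / k * j < Real.pi)
    (hC1 : c1 ≤ Real.cos (2 * Real.pi / k * j)) (hC2 : Real.cos (2 * Real.pi / k * j) ≤ c2)
    (h01 : 0 < c1) (hc2 : 2 * c2 ^ 2 ≤ 1) (hs1 : 0 ≤ s1) (hs : s1 ^ 2 ≤ 1 - c2 ^ 2) (hc : 0 < c)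
    (hσ : σ ≤ Real.sin (2 * Real.pi / k / 6)) (hσ0 : 0 ≤ σ) (hm : m0 ≤ k * σ * s1)
    (h1 : 4 * c * (1 - 2 * c1 ^ 2 + 2 * c1 ^ 3) ≤ a1) (h13 : c1 ≤ 0.66) (h23 : c2 ≤ 0.66)
    (h2 : c * (2 - 2 * c1 + 8 * c2 ^ 3 - 4 * c1 ^ 2) ≤ a2) (h3 : a3 ≤ c * (c1 - 2 * c2 ^ 3))
    (hq : ∀ t : ℝ, 0 ≤ t → 0 ≤ (3 * m0 - a1) + t * (m0 - a2) + a3 * t ^ 2) : Ineq c K := by
  set β := 2 * Real.pi / k * j with hβ
  set C := Real.cos β with hCdef
  set S := Real.sin β with hSdef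
  have hS0 : 0 < S := Real.sin_pos_of_pos_of_lt_pi hj0 hj1
  have hC0 : 0 < C := by linarith
  have hsq : S ^ 2 + C ^ 2 = 1 := Real.sin_sq_add_cos_sq _
  have hC2' : C ^ 2 ≤ c2 ^ 2 := pow_le_pow_left₀ hC0.le hC2 2
  have hsS : s1 ≤ S := by
    apply (pow_le_pow_iff_left₀ hs1 hS0.le (by norm_num : (2 : ℕ) ≠ 0)).mp
    linarith
  have hk0 : (0 : ℝ) < k := by
    have : 0 < k := by omega
    exact_mod_cast this
  have hmS : m0 ≤ k * σ * S := by
    refine le_trans hm ?_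
    exact mul_le_mul_of_nonneg_left hsS (by positivity)
  -- `1 - 2 C ^ 2 + 2 C ^ 3` is decreasing for `C ≤ 2 / 3`
  have d1 : 1 - 2 * C ^ 2 + 2 * C ^ 3 ≤ 1 - 2 * c1 ^ 2 + 2 * c1 ^ 3 := by
    have e : 0 ≤ (C - c1) * ((C + c1) - (C ^ 2 + C * c1 + c1 ^ 2)) := by
      apply mul_nonneg (by linarith)
      have i1 : C * C ≤ C * 0.66 := mul_le_mul_of_nonneg_left (by linarith) hC0.le
      have i2 : c1 * c1 ≤ c1 * 0.66 := mul_le_mul_of_nonneg_left h13 h01.le
      have i3 : C * c1 ≤ 0.66 * c1 := mul_le_mul_of_nonneg_right (by linarith) h01.le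
      nlinarith
    nlinarith
  have f1 : 4 * c * (1 - 2 * C ^ 2 + 2 * C ^ 3) ≤ a1 :=
    le_trans (mul_le_mul_of_nonneg_left d1 (by linarith)) h1
  have hC3 : C ^ 3 ≤ c2 ^ 3 := pow_le_pow_left₀ hC0.le hC2 3
  have hc12 : c1 ^ 2 ≤ C ^ 2 := pow_le_pow_left₀ h01.le hC1 2
  have f2 : c * (2 - 2 * C + 8 * C ^ 3 - 4 * C ^ 2) ≤ a2 := by
    refine le_trans (mul_le_mul_of_nonneg_left ?_ hc.le) h2
    linarith
  have f3 : a3 ≤ c * (C - 2 * C ^ 3) := by
    refine le_trans h3 (mul_le_mul_of_nonneg_left ?_ hc.le)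
    linarith
  apply ineq_near hk hK h0 hsym hball htop j (Cb := C) (Sb := S) (σ := σ) rfl rfl hC0
    (by linarith) hS0 hc.le hσ hσ0
  · have := hq 0 le_rfl
    have e : c * (2 * (2 * (C + (1 - 2 * C ^ 2)) - 2 * (C * (1 - 2 * C ^ 2)))) =
        4 * c * (1 - 2 * C ^ 2 + 2 * C ^ 3) := by ring
    rw [e]
    linarith
  · intro L hL
    have h5 := hq (L - 2) (by linarith)
    have e : c * (L * (2 * (C + (1 - 2 * C ^ 2)) - C * (1 - 2 * C ^ 2) * L)) =
        4 * c * (1 - 2 * C ^ 2 + 2 * C ^ 3) + (L - 2) * (c * (2 - 2 * C + 8 * C ^ 3 - 4 * C ^ 2))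
          - (c * (C - 2 * C ^ 3)) * (L - 2) ^ 2 := by ring
    rw [e]
    have i1 := mul_le_mul_of_nonneg_left f2 (by linarith : 0 ≤ L - 2)
    have i2 := mul_le_mul_of_nonneg_right f3 (sq_nonneg (L - 2))
    have i3 := mul_le_mul_of_nonneg_right hmS (by linarith : 0 ≤ L + 1)
    linarith

/-- Symmetry of order 11. -/
theorem ineq_eleven {K : Set Plane} (hK : Convex ℝ K)
    (h0 : (0 : Plane) ∈ interior K) (hsym : SymK 11 K) (hball : ∀ z : Plane, ‖z‖ ≤ 1 → z ∈ K)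
    (htop : pt 0 1 ∉ interior K) : Ineq 0.8927 K := by
  have p1 := Real.pi_gt_d6
  have p2 := Real.pi_lt_d6
  obtain ⟨r1, r2⟩ := sqrt3_bounds
  have e1 : 2 * Real.pi / ((11 : ℕ) : ℝ) * ((2 : ℤ) : ℝ) = Real.pi / 3 + Real.pi / 33 := by
    push_cast; ring
  have e2 : 2 * Real.pi / ((11 : ℕ) : ℝ) / 6 = Real.pi / 33 := by
    push_cast; ring
  have x1 : 0.09519975 ≤ Real.pi / 33 := by linarith
  have x2 : Real.pi / 33 ≤ 0.09519979 := by linarith
  have s1 := sin_lo (by norm_num) x1 x2 (by norm_num)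
  have s2 := sin_hi (by norm_num) x1 x2 (by norm_num)
  have c1 := cos_lo (by norm_num) x1 x2 (by norm_num)
  have c2 := cos_hi (by norm_num) x1 x2 (by norm_num)
  set sx := Real.sin (Real.pi / 33)
  set cx := Real.cos (Real.pi / 33)
  have s1' : 0.0950558 ≤ sx := le_trans (by norm_num) s1
  have s2' : sx ≤ 0.0950561 := le_trans s2 (by norm_num)
  have c1' : 0.9954642 ≤ cx := le_trans (by norm_num) c1
  have c2' : cx ≤ 0.9954728 := le_trans c2 (by norm_num)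
  have ec : Real.cos (Real.pi / 3 + Real.pi / 33) = 1 / 2 * cx - Real.sqrt 3 / 2 * sx := by
    rw [Real.cos_add, Real.cos_pi_div_three, Real.sin_pi_div_three]
  have q1 : 1.7320508 * sx ≤ Real.sqrt 3 * sx := mul_le_mul_of_nonneg_right r1.le (by linarith)
  have q2 : Real.sqrt 3 * sx ≤ 1.7320509 * sx := mul_le_mul_of_nonneg_right r2.le (by linarith)
  refine ineq_near' (by norm_num) hK h0 hsym hball htop 2 (c1 := 0.415410) (c2 := 0.415416)
    (s1 := 0.909631) (σ := 0.095055) (m0 := 0.951114) (a1 := 2.850356) (a2 := 0.939501)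
    (a3 := 0.242843) ?_ ?_ ?_ ?_ (by norm_num) (by norm_num) (by norm_num) (by norm_num)
    (by norm_num) ?_ (by norm_num) (by norm_num) (by norm_num) (by norm_num) (by norm_num)
    (by norm_num) (by norm_num) ?_
  · rw [e1]; linarith
  · rw [e1]; linarith
  · rw [e1, ec]; linarith
  · rw [e1, ec]; linarith
  · rw [e2]; linarith
  · intro t ht
    nlinarith [mul_nonneg ht (show (0 : ℝ) ≤ 0.951114 - 0.939501 by norm_num), sq_nonneg t]

/-- Symmetry of order 13. -/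
theorem ineq_thirteen {K : Set Plane} (hK : Convex ℝ K)
    (h0 : (0 : Plane) ∈ interior K) (hsym : SymK 13 K) (hball : ∀ z : Plane, ‖z‖ ≤ 1 → z ∈ K)
    (htop : pt 0 1 ∉ interior K) : Ineq 0.8927 K := by
  have p1 := Real.pi_gt_d6
  have p2 := Real.pi_lt_d6
  obtain ⟨r1, r2⟩ := sqrt3_bounds
  have e1 : 2 * Real.pi / ((13 : ℕ) : ℝ) * ((2 : ℤ) : ℝ) = Real.pi / 3 - Real.pi / 39 := by
    push_cast; ring
  have e2 : 2 * Real.pi / ((13 : ℕ) : ℝ) / 6 = Real.pi / 39 := by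
    push_cast; ring
  have x1 : 0.08055364 ≤ Real.pi / 39 := by linarith
  have x2 : Real.pi / 39 ≤ 0.08055367 := by linarith
  have s1 := sin_lo (by norm_num) x1 x2 (by norm_num)
  have s2 := sin_hi (by norm_num) x1 x2 (by norm_num)
  have c1 := cos_lo (by norm_num) x1 x2 (by norm_num)
  have c2 := cos_hi (by norm_num) x1 x2 (by norm_num)
  set sx := Real.sin (Real.pi / 39)
  set cx := Real.cos (Real.pi / 39)
  have s1' : 0.0804664 ≤ sx := le_trans (by norm_num) s1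
  have s2' : sx ≤ 0.0804666 := le_trans s2 (by norm_num)
  have c1' : 0.9967533 ≤ cx := le_trans (by norm_num) c1
  have c2' : cx ≤ 0.9967578 := le_trans c2 (by norm_num)
  have ec : Real.cos (Real.pi / 3 - Real.pi / 39) = 1 / 2 * cx + Real.sqrt 3 / 2 * sx := by
    rw [Real.cos_sub, Real.cos_pi_div_three, Real.sin_pi_div_three]
  have q1 : 1.7320508 * sx ≤ Real.sqrt 3 * sx := mul_le_mul_of_nonneg_right r1.le (by linarith)
  have q2 : Real.sqrt 3 * sx ≤ 1.7320509 * sx := mul_le_mul_of_nonneg_right r2.le (by linarith)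
  refine ineq_near' (by norm_num) hK h0 hsym hball htop 2 (c1 := 0.568062) (c2 := 0.568066)
    (s1 := 0.822983) (σ := 0.080466) (m0 := 0.860887) (a1 := 2.575376) (a2 := 0.928063)
    (a3 := 0.179819) ?_ ?_ ?_ ?_ (by norm_num) (by norm_num) (by norm_num) (by norm_num)
    (by norm_num) ?_ (by norm_num) (by norm_num) (by norm_num) (by norm_num) (by norm_num)
    (by norm_num) (by norm_num) ?_
  · rw [e1]; linarith
  · rw [e1]; linarith
  · rw [e1, ec]; linarith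
  · rw [e1, ec]; linarith
  · rw [e2]; linarith
  · intro t ht
    nlinarith [sq_nonneg (t - 0.1868)]

/-- Symmetry of order 17. -/
theorem ineq_seventeen {K : Set Plane} (hK : Convex ℝ K)
    (h0 : (0 : Plane) ∈ interior K) (hsym : SymK 17 K) (hball : ∀ z : Plane, ‖z‖ ≤ 1 → z ∈ K)
    (htop : pt 0 1 ∉ interior K) : Ineq 0.8927 K := by
  have p1 := Real.pi_gt_d6
  have p2 := Real.pi_lt_d6
  obtain ⟨r1, r2⟩ := sqrt3_bounds
  have e1 : 2 * Real.pi / ((17 : ℕ) : ℝ) * ((3 : ℤ) : ℝ) = Real.pi / 3 + Real.pi / 51 := by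
    push_cast; ring
  have e2 : 2 * Real.pi / ((17 : ℕ) : ℝ) / 6 = Real.pi / 51 := by
    push_cast; ring
  have x1 : 0.06159984 ≤ Real.pi / 51 := by linarith
  have x2 : Real.pi / 51 ≤ 0.06159987 := by linarith
  have s1 := sin_lo (by norm_num) x1 x2 (by norm_num)
  have s2 := sin_hi (by norm_num) x1 x2 (by norm_num)
  have c1 := cos_lo (by norm_num) x1 x2 (by norm_num)
  have c2 := cos_hi (by norm_num) x1 x2 (by norm_num)
  set sx := Real.sin (Real.pi / 51)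
  set cx := Real.cos (Real.pi / 51)
  have s1' : 0.0615608 ≤ sx := le_trans (by norm_num) s1
  have s2' : sx ≤ 0.0615610 := le_trans s2 (by norm_num)
  have c1' : 0.9981019 ≤ cx := le_trans (by norm_num) c1
  have c2' : cx ≤ 0.9981035 := le_trans c2 (by norm_num)
  have ec : Real.cos (Real.pi / 3 + Real.pi / 51) = 1 / 2 * cx - Real.sqrt 3 / 2 * sx := by
    rw [Real.cos_add, Real.cos_pi_div_three, Real.sin_pi_div_three]
  have q1 : 1.7320508 * sx ≤ Real.sqrt 3 * sx := mul_le_mul_of_nonneg_right r1.le (by linarith)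
  have q2 : Real.sqrt 3 * sx ≤ 1.7320509 * sx := mul_le_mul_of_nonneg_right r2.le (by linarith)
  refine ineq_near' (by norm_num) hK h0 hsym hball htop 3 (c1 := 0.445737) (c2 := 0.445739)
    (s1 := 0.895162) (σ := 0.061560) (m0 := 0.936804) (a1 := 2.784355) (a2 := 0.912596)
    (a3 := 0.239792) ?_ ?_ ?_ ?_ (by norm_num) (by norm_num) (by norm_num) (by norm_num)
    (by norm_num) ?_ (by norm_num) (by norm_num) (by norm_num) (by norm_num) (by norm_num)
    (by norm_num) (by norm_num) ?_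
  · rw [e1]; linarith
  · rw [e1]; linarith
  · rw [e1, ec]; linarith
  · rw [e1, ec]; linarith
  · rw [e2]; linarith
  · intro t ht
    nlinarith [mul_nonneg ht (show (0 : ℝ) ≤ 0.936804 - 0.912596 by norm_num), sq_nonneg t]

/-- Symmetry of order 19. -/
theorem ineq_nineteen {K : Set Plane} (hK : Convex ℝ K)
    (h0 : (0 : Plane) ∈ interior K) (hsym : SymK 19 K) (hball : ∀ z : Plane, ‖z‖ ≤ 1 → z ∈ K)
    (htop : pt 0 1 ∉ interior K) : Ineq 0.8927 K := by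
  have p1 := Real.pi_gt_d6
  have p2 := Real.pi_lt_d6
  obtain ⟨r1, r2⟩ := sqrt3_bounds
  have e1 : 2 * Real.pi / ((19 : ℕ) : ℝ) * ((3 : ℤ) : ℝ) = Real.pi / 3 - Real.pi / 57 := by
    push_cast; ring
  have e2 : 2 * Real.pi / ((19 : ℕ) : ℝ) / 6 = Real.pi / 57 := by
    push_cast; ring
  have x1 : 0.05511564 ≤ Real.pi / 57 := by linarith
  have x2 : Real.pi / 57 ≤ 0.05511567 := by linarith
  have s1 := sin_lo (by norm_num) x1 x2 (by norm_num)
  have s2 := sin_hi (by norm_num) x1 x2 (by norm_num)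
  have c1 := cos_lo (by norm_num) x1 x2 (by norm_num)
  have c2 := cos_hi (by norm_num) x1 x2 (by norm_num)
  set sx := Real.sin (Real.pi / 57)
  set cx := Real.cos (Real.pi / 57)
  have s1' : 0.0550877 ≤ sx := le_trans (by norm_num) s1
  have s2' : sx ≤ 0.0550878 := le_trans s2 (by norm_num)
  have c1' : 0.9984806 ≤ cx := le_trans (by norm_num) c1
  have c2' : cx ≤ 0.9984817 := le_trans c2 (by norm_num)
  have ec : Real.cos (Real.pi / 3 - Real.pi / 57) = 1 / 2 * cx + Real.sqrt 3 / 2 * sx := by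
    rw [Real.cos_sub, Real.cos_pi_div_three, Real.sin_pi_div_three]
  have q1 : 1.7320508 * sx ≤ Real.sqrt 3 * sx := mul_le_mul_of_nonneg_right r1.le (by linarith)
  have q2 : Real.sqrt 3 * sx ≤ 1.7320509 * sx := mul_le_mul_of_nonneg_right r2.le (by linarith)
  refine ineq_near' (by norm_num) hK h0 hsym hball htop 3 (c1 := 0.546947) (c2 := 0.546949)
    (s1 := 0.837165) (σ := 0.055087) (m0 := 0.876221) (a1 := 2.602890) (a2 := 0.909193)
    (a3 := 0.196129) ?_ ?_ ?_ ?_ (by norm_num) (by norm_num) (by norm_num) (by norm_num)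
    (by norm_num) ?_ (by norm_num) (by norm_num) (by norm_num) (by norm_num) (by norm_num)
    (by norm_num) (by norm_num) ?_
  · rw [e1]; linarith
  · rw [e1]; linarith
  · rw [e1, ec]; linarith
  · rw [e1, ec]; linarith
  · rw [e2]; linarith
  · intro t ht
    nlinarith [sq_nonneg (t - 0.0841)]

/-- In a body contained in the unit disc. -/
theorem disc_bound {K : Set Plane} (hball : ∀ z ∈ K, ‖z‖ ≤ 1) {L x0 y0 xr yr xl yl : ℝ}
    (h : Chords K L x0 y0 xr yr xl yl) : L ≤ 2 ∧ L * (xr - xl) ≤ 2 * Real.sqrt 3 := by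
  have hL0 := h.L_pos
  have a1 := norm_le_one (hball _ h.mem0)
  have a2 := norm_le_one (hball _ h.mem0')
  have a3 := norm_le_one (hball _ h.memr)
  have a4 := norm_le_one (hball _ h.memr')
  have a5 := norm_le_one (hball _ h.meml)
  have a6 := norm_le_one (hball _ h.meml')
  have hL : L ≤ 2 := by nlinarith [sq_nonneg x0, sq_nonneg (y0 + 1), sq_nonneg (y0 + L - 1)]
  have key : ∀ x y : ℝ, x ^ 2 + y ^ 2 ≤ 1 → x ^ 2 + (y + L / 2) ^ 2 ≤ 1 → L * |x| ≤ Real.sqrt 3 := by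
    intro x y h1 h2
    apply Real.le_sqrt_of_sq_le
    have h3 : x ^ 2 ≤ 1 - L ^ 2 / 16 := by nlinarith [sq_nonneg (2 * y + L / 2)]
    have h4 : (L * |x|) ^ 2 = L ^ 2 * x ^ 2 := by rw [mul_pow, sq_abs]
    rw [h4]
    have h5 : L ^ 2 * x ^ 2 ≤ L ^ 2 * (1 - L ^ 2 / 16) :=
      mul_le_mul_of_nonneg_left h3 (sq_nonneg L)
    have h6 : L ^ 2 ≤ 4 := by nlinarith
    nlinarith [mul_nonneg (sub_nonneg.mpr h6) (by nlinarith : (0 : ℝ) ≤ 12 - L ^ 2)]
  refine ⟨hL, ?_⟩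
  have k1 := key _ _ a3 a4
  have k2 := key _ _ a5 a6
  have k3 : L * xr ≤ L * |xr| := mul_le_mul_of_nonneg_left (le_abs_self _) hL0.le
  have k4 : L * (-xl) ≤ L * |xl| := mul_le_mul_of_nonneg_left (neg_le_abs _) hL0.le
  linarith

/-- Symmetry of order at least 23. -/
theorem ineq_large {n : ℕ} (hn : 23 ≤ n) {K : Set Plane} (hF : FarK n K) : Ineq 0.8927 K := by
  intro L x0 y0 xr yr xl yl h
  obtain ⟨-, hD⟩ := disc_bound hF.ball h
  have p1 := Real.pi_gt_d6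
  have p2 := Real.pi_lt_d6
  obtain ⟨r1, r2⟩ := sqrt3_bounds
  have hn' : (23 : ℝ) ≤ n := by exact_mod_cast hn
  set x : ℝ := 2 * Real.pi / n with hx
  have hxn : x * n = 2 * Real.pi := by rw [hx]; field_simp
  have hx0 : 0 < x := by positivity
  have hx1 : x ≤ 0.2732 := by
    rw [hx, div_le_iff₀ (by linarith)]
    linarith
  have hsin := sin_lo hx0.le le_rfl le_rfl (by linarith : x ≤ 1)
  have hs0 : 0 < Real.sin x := Real.sin_pos_of_pos_of_lt_pi hx0 (by linarith)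
  set P : ℕ → Plane := fun i => rot (x * i) (pt 0 1) with hP
  have hdet : ∀ i j : ℕ, det2 (P i) (P j) = Real.sin (x * j - x * i) := by
    intro i j
    simp only [hP, det2, rot_pt, pt_zero, pt_one, Real.sin_sub]
    ring
  have area := sector_area (n := n) (m := 1) (by omega) hF.conv (interior_subset hF.zero)
    hF.sym P (by
      intro i _
      exact hF.sym.nat i hF.top) (by
      intro i j hij hj
      have hi : i = 0 := by omega
      have hj1 : j = 1 := by omega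
      subst hi hj1
      rw [hdet]
      simpa using hs0) (by norm_num) (by
      simp only [hP]
      rw [Nat.cast_one, mul_one, Nat.cast_zero, mul_zero, rot_zero])
  refine le_trans (ENNReal.ofReal_le_ofReal ?_) area
  rw [Finset.sum_range_one, hdet]
  have e : x * ((0 + 1 : ℕ) : ℝ) - x * ((0 : ℕ) : ℝ) = x := by push_cast; ring
  rw [e]
  have h1 : (n : ℝ) / 2 * (x - x ^ 3 / 6 - x ^ 5 / 100) ≤ n / 2 * Real.sin x :=
    mul_le_mul_of_nonneg_left hsin (by positivity)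
  have h2 : (n : ℝ) / 2 * (x - x ^ 3 / 6 - x ^ 5 / 100) =
      Real.pi * (1 - x ^ 2 / 6 - x ^ 4 / 100) := by
    have : (n : ℝ) / 2 * (x - x ^ 3 / 6 - x ^ 5 / 100) =
      (x * n) / 2 * (1 - x ^ 2 / 6 - x ^ 4 / 100) := by ring
    rw [this, hxn]
    ring
  have h3 : x ^ 2 ≤ 0.2732 ^ 2 := pow_le_pow_left₀ hx0.le hx1 2
  have h4 : x ^ 4 ≤ 0.2732 ^ 4 := pow_le_pow_left₀ hx0.le hx1 4
  have h5 : Real.pi * 0.987 ≤ Real.pi * (1 - x ^ 2 / 6 - x ^ 4 / 100) := by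
    apply mul_le_mul_of_nonneg_left _ (by linarith)
    norm_num at h3 h4 ⊢
    linarith
  linarith

end Pool.Agent.helper79.RS
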