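import Mathlib.Tactic

/-!
RS-16: polynomial inequalities for the five-fold symmetry (certificates found by linear
programming).
-/

namespace Pool.Agent.helper79.RS.P5

theorem b0_011010 {p q s l : ℝ}
    (P0 : 0 ≤ p - 0)
    (P1 : 0 ≤ 0.0955 - p)
    (Q0 : 0 ≤ q - 0.0478)
    (Q1 : 0 ≤ 0.0955 - q)
    (S0 : 0 ≤ s - 0.0955)
    (S1 : 0 ≤ 0.1432 - s)
    (L0 : 0 ≤ l - 0.0955)
    (L1 : 0 ≤ 0.190984 - l)
    (LS : 0 ≤ l - s)
    (SQ : 0 ≤ s - q)
    (_TP : 0 ≤ 1.0000001 - 0.929 * (0.809016994 + p) - 0.37 * (0.293892626 - 0.324919696 * p + 1.051462224 * q - 0.162459848 * l))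
    (_TQ : 0 ≤ 1.0000001 - 0.9797 * (0.809016994 + q) - 0.2 * (0.181635632 - 1.051462224 * p + 0.324919696 * q + 0.425325404 * l))
    (_A : 0 ≤ 0.0000001 + ((0.587785252 + (0.293892626 - 0.324919696 * p + 1.051462224 * q - 0.162459848 * l)) * q - (0.587785252 + (0.181635632 - 1.051462224 * p + 0.324919696 * q + 0.425325404 * l)) * p))
    (B : 0 ≤ 0.0000001 + ((0.181635632 - 1.051462224 * p + 0.324919696 * q + 0.425325404 * l) * s + (0.293892626 - 0.324919696 * p + 1.051462224 * q - 0.162459848 * l) * q - (0.293892626 - 0.324919696 * p + 1.051462224 * q - 0.162459848 * l) * s - (0.181635632 - 1.051462224 * p + 0.324919696 * q + 0.425325404 * l) * p))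
    (_Cc : 0 ≤ 0.0000001 + ((0.587785252 + (0.181635632 - 1.051462224 * p + 0.324919696 * q + 0.425325404 * l)) * s - 0.587785252 * q))
    (D : 0 ≤ 0.0000001 + ((0.293892626 - 0.324919696 * p + 1.051462224 * q - 0.162459848 * l) * q + 0.587785252 * p - 0.587785252 * q - (0.181635632 - 1.051462224 * p + 0.324919696 * q + 0.425325404 * l) * p))
    (F : 0 ≤ 0.0000001 + ((q - s) ^ 2 - 2 * ((0.181635632 - 1.051462224 * p + 0.324919696 * q + 0.425325404 * l) ^ 2 * (l - s))))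
    : 0.002 ≤ 2.5 * (0.475528258 + (0.181635632 - 1.051462224 * p + 0.324919696 * q + 0.425325404 * l) * s + (0.293892626 - 0.324919696 * p + 1.051462224 * q - 0.162459848 * l) * q + (0.587785252 - (0.181635632 - 1.051462224 * p + 0.324919696 * q + 0.425325404 * l)) * p) - 0.8927 * ((1.809016994 + l) * (0.713292387 + 0.324919696 * p + 0.850650808 * q - 0.131432778 * l)) := by
  linarith only [
    F, mul_nonneg L1 L1, mul_nonneg (mul_nonneg P0 P1) P1, mul_nonneg (mul_nonneg P0 Q0) Q1,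
    mul_nonneg (mul_nonneg P0 Q1) LS, mul_nonneg (mul_nonneg P0 L1) L1,
    mul_nonneg (mul_nonneg P1 P1) Q0, mul_nonneg (mul_nonneg P1 P1) S1,
    mul_nonneg (mul_nonneg P1 P1) LS, mul_nonneg (mul_nonneg P1 Q1) L1,
    mul_nonneg (mul_nonneg P1 S0) S1, mul_nonneg (mul_nonneg P1 LS) LS,
    mul_nonneg (mul_nonneg Q0 Q1) Q1, mul_nonneg (mul_nonneg Q0 Q1) L1,
    mul_nonneg (mul_nonneg Q0 Q1) SQ, mul_nonneg (mul_nonneg Q0 S0) LS,
    mul_nonneg (mul_nonneg Q0 L1) L1, mul_nonneg (mul_nonneg Q1 Q1) S1,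
    mul_nonneg (mul_nonneg Q1 S1) LS, mul_nonneg (mul_nonneg Q1 S1) SQ,
    mul_nonneg (mul_nonneg S0 S1) L0, mul_nonneg (mul_nonneg S0 LS) LS,
    mul_nonneg (mul_nonneg S1 L1) L1, mul_nonneg (mul_nonneg S1 SQ) SQ,
    mul_nonneg (mul_nonneg L0 LS) LS, mul_nonneg (mul_nonneg L1 L1) L1, mul_nonneg B S0,
    mul_nonneg B L0, mul_nonneg B SQ, mul_nonneg D P0, mul_nonneg D P1, mul_nonneg D S0,
    mul_nonneg D L1, mul_nonneg D SQ]

theorem b0_1110010 {p q s l : ℝ}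
    (P0 : 0 ≤ p - 0)
    (P1 : 0 ≤ 0.0955 - p)
    (Q0 : 0 ≤ q - 0.0955)
    (Q1 : 0 ≤ 0.1432 - q)
    (S0 : 0 ≤ s - 0.1432)
    (_S1 : 0 ≤ 0.190984 - s)
    (L0 : 0 ≤ l - 0.0955)
    (L1 : 0 ≤ 0.1432 - l)
    (LS : 0 ≤ l - s)
    (SQ : 0 ≤ s - q)
    (_TP : 0 ≤ 1.0000001 - 0.929 * (0.809016994 + p) - 0.37 * (0.293892626 - 0.324919696 * p + 1.051462224 * q - 0.162459848 * l))
    (TQ : 0 ≤ 1.0000001 - 0.9797 * (0.809016994 + q) - 0.2 * (0.181635632 - 1.051462224 * p + 0.324919696 * q + 0.425325404 * l))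
    (A : 0 ≤ 0.0000001 + ((0.587785252 + (0.293892626 - 0.324919696 * p + 1.051462224 * q - 0.162459848 * l)) * q - (0.587785252 + (0.181635632 - 1.051462224 * p + 0.324919696 * q + 0.425325404 * l)) * p))
    (_B : 0 ≤ 0.0000001 + ((0.181635632 - 1.051462224 * p + 0.324919696 * q + 0.425325404 * l) * s + (0.293892626 - 0.324919696 * p + 1.051462224 * q - 0.162459848 * l) * q - (0.293892626 - 0.324919696 * p + 1.051462224 * q - 0.162459848 * l) * s - (0.181635632 - 1.051462224 * p + 0.324919696 * q + 0.425325404 * l) * p))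
    (Cc : 0 ≤ 0.0000001 + ((0.587785252 + (0.181635632 - 1.051462224 * p + 0.324919696 * q + 0.425325404 * l)) * s - 0.587785252 * q))
    (D : 0 ≤ 0.0000001 + ((0.293892626 - 0.324919696 * p + 1.051462224 * q - 0.162459848 * l) * q + 0.587785252 * p - 0.587785252 * q - (0.181635632 - 1.051462224 * p + 0.324919696 * q + 0.425325404 * l) * p))
    (_F : 0 ≤ 0.0000001 + ((q - s) ^ 2 - 2 * ((0.181635632 - 1.051462224 * p + 0.324919696 * q + 0.425325404 * l) ^ 2 * (l - s))))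
    : 0.002 ≤ 2.5 * (0.475528258 + (0.181635632 - 1.051462224 * p + 0.324919696 * q + 0.425325404 * l) * s + (0.293892626 - 0.324919696 * p + 1.051462224 * q - 0.162459848 * l) * q + (0.587785252 - (0.181635632 - 1.051462224 * p + 0.324919696 * q + 0.425325404 * l)) * p) - 0.8927 * ((1.809016994 + l) * (0.713292387 + 0.324919696 * p + 0.850650808 * q - 0.131432778 * l)) := by
  linarith only [
    L1, mul_nonneg P0 S0, mul_nonneg P0 L1, mul_nonneg P0 SQ, mul_nonneg P1 P1, mul_nonneg Q0 LS,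
    mul_nonneg L1 LS, mul_nonneg (mul_nonneg P0 P1) L1, mul_nonneg (mul_nonneg P0 P1) LS,
    mul_nonneg (mul_nonneg P0 P1) SQ, mul_nonneg (mul_nonneg P0 Q0) LS,
    mul_nonneg (mul_nonneg P0 LS) SQ, mul_nonneg (mul_nonneg P0 SQ) SQ,
    mul_nonneg (mul_nonneg P1 P1) P1, mul_nonneg (mul_nonneg P1 S0) L0,
    mul_nonneg (mul_nonneg P1 L0) LS, mul_nonneg (mul_nonneg P1 L0) SQ,
    mul_nonneg (mul_nonneg P1 SQ) TQ, mul_nonneg (mul_nonneg Q0 S0) L0,
    mul_nonneg (mul_nonneg Q0 S0) LS, mul_nonneg (mul_nonneg Q0 L1) LS,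
    mul_nonneg (mul_nonneg Q0 LS) SQ, mul_nonneg (mul_nonneg Q0 SQ) SQ,
    mul_nonneg (mul_nonneg Q1 L0) SQ, mul_nonneg (mul_nonneg S0 L0) SQ,
    mul_nonneg (mul_nonneg L0 LS) SQ, mul_nonneg A S0, mul_nonneg A L1, mul_nonneg Cc L1,
    mul_nonneg D P0, mul_nonneg D Q1]

theorem b1_10 {p q s l : ℝ}
    (P0 : 0 ≤ p - 0)
    (P1 : 0 ≤ 0.190984 - p)
    (Q0 : 0 ≤ q - 0.0955)
    (_Q1 : 0 ≤ 0.190984 - q)
    (S0 : 0 ≤ s - 0)
    (S1 : 0 ≤ 0.0955 - s)
    (L1 : 0 ≤ 0.190984 - l)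
    (LS : 0 ≤ l - s)
    (SQ : 0 ≤ q - s)
    (TP : 0 ≤ 1.0000001 - 0.929 * (0.809016994 + p) - 0.37 * (0.293892626 - 0.324919696 * p + 1.051462224 * q - 0.162459848 * l))
    (TQ : 0 ≤ 1.0000001 - 0.9797 * (0.809016994 + q) - 0.2 * (0.181635632 - 1.051462224 * p + 0.324919696 * q + 0.425325404 * l))
    (_A : 0 ≤ 0.0000001 + ((0.587785252 + (0.293892626 - 0.324919696 * p + 1.051462224 * q - 0.162459848 * l)) * q - (0.587785252 + (0.181635632 - 1.051462224 * p + 0.324919696 * q + 0.425325404 * l)) * p))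
    (_B : 0 ≤ 0.0000001 + ((0.181635632 - 1.051462224 * p + 0.324919696 * q + 0.425325404 * l) * s + (0.293892626 - 0.324919696 * p + 1.051462224 * q - 0.162459848 * l) * q - (0.293892626 - 0.324919696 * p + 1.051462224 * q - 0.162459848 * l) * s - (0.181635632 - 1.051462224 * p + 0.324919696 * q + 0.425325404 * l) * p))
    (Cc : 0 ≤ 0.0000001 + ((0.587785252 + (0.181635632 - 1.051462224 * p + 0.324919696 * q + 0.425325404 * l)) * s - 0.587785252 * q))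
    (D : 0 ≤ 0.0000001 + ((0.293892626 - 0.324919696 * p + 1.051462224 * q - 0.162459848 * l) * q + 0.587785252 * p - 0.587785252 * q - (0.181635632 - 1.051462224 * p + 0.324919696 * q + 0.425325404 * l) * p))
    (F : 0 ≤ 0.0000001 + ((q - s) ^ 2 - 2 * ((0.181635632 - 1.051462224 * p + 0.324919696 * q + 0.425325404 * l) ^ 2 * (l - s))))
    : -0.002 ≤ 2.5 * (0.475528258 + (0.181635632 - 1.051462224 * p + 0.324919696 * q + 0.425325404 * l) * s + (0.293892626 - 0.324919696 * p + 1.051462224 * q - 0.162459848 * l) * q + (0.587785252 - (0.181635632 - 1.051462224 * p + 0.324919696 * q + 0.425325404 * l)) * p) - 0.8927 * ((1.809016994 + l) * (0.713292387 + 0.324919696 * p + 0.850650808 * q - 0.131432778 * l)) := by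
  linarith only [
    Cc, F, mul_nonneg (mul_nonneg P0 P0) S1, mul_nonneg (mul_nonneg P0 Q0) S1,
    mul_nonneg (mul_nonneg P0 S1) LS, mul_nonneg (mul_nonneg P0 S1) TP,
    mul_nonneg (mul_nonneg P1 LS) LS, mul_nonneg (mul_nonneg Q0 Q0) LS,
    mul_nonneg (mul_nonneg Q0 Q0) SQ, mul_nonneg (mul_nonneg Q0 S0) S1,
    mul_nonneg (mul_nonneg Q0 S1) SQ, mul_nonneg (mul_nonneg Q0 LS) LS,
    mul_nonneg (mul_nonneg Q0 LS) SQ, mul_nonneg (mul_nonneg Q0 LS) TP,
    mul_nonneg (mul_nonneg Q0 SQ) TP, mul_nonneg (mul_nonneg S0 S1) L1,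
    mul_nonneg (mul_nonneg S0 S1) SQ, mul_nonneg (mul_nonneg S0 LS) LS,
    mul_nonneg (mul_nonneg S1 L1) LS, mul_nonneg (mul_nonneg S1 L1) SQ,
    mul_nonneg (mul_nonneg S1 L1) TP, mul_nonneg (mul_nonneg S1 SQ) TP,
    mul_nonneg (mul_nonneg S1 TP) TQ, mul_nonneg (mul_nonneg LS LS) LS,
    mul_nonneg (mul_nonneg LS TP) TP, mul_nonneg (mul_nonneg SQ TP) TP,
    mul_nonneg (mul_nonneg TP TP) TP, mul_nonneg Cc Q0, mul_nonneg Cc S1, mul_nonneg Cc LS,
    mul_nonneg Cc TP, mul_nonneg D P0, mul_nonneg D L1, mul_nonneg D SQ]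

theorem b1_1111 {p q s l : ℝ}
    (P0 : 0 ≤ p - 0.0955)
    (_P1 : 0 ≤ 0.190984 - p)
    (Q0 : 0 ≤ q - 0.0955)
    (_Q1 : 0 ≤ 0.190984 - q)
    (S0 : 0 ≤ s - 0.0955)
    (_S1 : 0 ≤ 0.190984 - s)
    (L0 : 0 ≤ l - 0.0955)
    (L1 : 0 ≤ 0.190984 - l)
    (LS : 0 ≤ l - s)
    (SQ : 0 ≤ q - s)
    (TP : 0 ≤ 1.0000001 - 0.929 * (0.809016994 + p) - 0.37 * (0.293892626 - 0.324919696 * p + 1.051462224 * q - 0.162459848 * l))
    (TQ : 0 ≤ 1.0000001 - 0.9797 * (0.809016994 + q) - 0.2 * (0.181635632 - 1.051462224 * p + 0.324919696 * q + 0.425325404 * l))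
    (_A : 0 ≤ 0.0000001 + ((0.587785252 + (0.293892626 - 0.324919696 * p + 1.051462224 * q - 0.162459848 * l)) * q - (0.587785252 + (0.181635632 - 1.051462224 * p + 0.324919696 * q + 0.425325404 * l)) * p))
    (_B : 0 ≤ 0.0000001 + ((0.181635632 - 1.051462224 * p + 0.324919696 * q + 0.425325404 * l) * s + (0.293892626 - 0.324919696 * p + 1.051462224 * q - 0.162459848 * l) * q - (0.293892626 - 0.324919696 * p + 1.051462224 * q - 0.162459848 * l) * s - (0.181635632 - 1.051462224 * p + 0.324919696 * q + 0.425325404 * l) * p))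
    (Cc : 0 ≤ 0.0000001 + ((0.587785252 + (0.181635632 - 1.051462224 * p + 0.324919696 * q + 0.425325404 * l)) * s - 0.587785252 * q))
    (_D : 0 ≤ 0.0000001 + ((0.293892626 - 0.324919696 * p + 1.051462224 * q - 0.162459848 * l) * q + 0.587785252 * p - 0.587785252 * q - (0.181635632 - 1.051462224 * p + 0.324919696 * q + 0.425325404 * l) * p))
    (F : 0 ≤ 0.0000001 + ((q - s) ^ 2 - 2 * ((0.181635632 - 1.051462224 * p + 0.324919696 * q + 0.425325404 * l) ^ 2 * (l - s))))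
    : -0.002 ≤ 2.5 * (0.475528258 + (0.181635632 - 1.051462224 * p + 0.324919696 * q + 0.425325404 * l) * s + (0.293892626 - 0.324919696 * p + 1.051462224 * q - 0.162459848 * l) * q + (0.587785252 - (0.181635632 - 1.051462224 * p + 0.324919696 * q + 0.425325404 * l)) * p) - 0.8927 * ((1.809016994 + l) * (0.713292387 + 0.324919696 * p + 0.850650808 * q - 0.131432778 * l)) := by
  linarith only [
    Cc, F, mul_nonneg P0 P0, mul_nonneg P0 TQ, mul_nonneg S0 TQ, mul_nonneg L1 TQ,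
    mul_nonneg (mul_nonneg P0 P0) S0, mul_nonneg (mul_nonneg P0 P0) L1,
    mul_nonneg (mul_nonneg P0 P0) SQ, mul_nonneg (mul_nonneg P0 P0) TP,
    mul_nonneg (mul_nonneg P0 S0) S0, mul_nonneg (mul_nonneg P0 S0) L1,
    mul_nonneg (mul_nonneg P0 L1) L1, mul_nonneg (mul_nonneg P0 LS) TQ,
    mul_nonneg (mul_nonneg P0 SQ) TQ, mul_nonneg (mul_nonneg P0 TQ) TQ,
    mul_nonneg (mul_nonneg Q0 S0) TQ, mul_nonneg (mul_nonneg Q0 LS) LS,
    mul_nonneg (mul_nonneg S0 L0) TQ, mul_nonneg (mul_nonneg S0 L1) L1,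
    mul_nonneg (mul_nonneg S0 LS) TQ, mul_nonneg (mul_nonneg L0 LS) LS,
    mul_nonneg (mul_nonneg L0 LS) TP, mul_nonneg (mul_nonneg L1 L1) L1,
    mul_nonneg (mul_nonneg L1 LS) TQ, mul_nonneg (mul_nonneg L1 TQ) TQ,
    mul_nonneg (mul_nonneg LS LS) TP, mul_nonneg (mul_nonneg LS TP) TP, mul_nonneg Cc L0,
    mul_nonneg Cc LS, mul_nonneg Cc SQ, mul_nonneg Cc TP]

theorem b4_100 {p q s l : ℝ}
    (P0 : 0 ≤ p - 0)
    (P1 : 0 ≤ 0.190984 - p)
    (Q0 : 0 ≤ q - 0.0955)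
    (_Q1 : 0 ≤ 0.190984 - q)
    (S0 : 0 ≤ s - 0)
    (S1 : 0 ≤ 0.0955 - s)
    (L1 : 0 ≤ 0.0955 - l)
    (LS : 0 ≤ l - s)
    (SQ : 0 ≤ q - s)
    (TP : 0 ≤ 1.0000001 - 0.929 * (0.809016994 + p) - 0.37 * (0.293892626 - 0.324919696 * p + 1.051462224 * q - 0.162459848 * l))
    (TQ : 0 ≤ 1.0000001 - 0.9797 * (0.809016994 + q) - 0.2 * (0.181635632 - 1.051462224 * p + 0.324919696 * q + 0.425325404 * l))
    (A : 0 ≤ 0.0000001 + ((0.587785252 + (0.293892626 - 0.324919696 * p + 1.051462224 * q - 0.162459848 * l)) * q - (0.587785252 + (0.181635632 - 1.051462224 * p + 0.324919696 * q + 0.425325404 * l)) * p))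
    (_B : 0 ≤ 0.0000001 + ((0.181635632 - 1.051462224 * p + 0.324919696 * q + 0.425325404 * l) * s + (0.293892626 - 0.324919696 * p + 1.051462224 * q - 0.162459848 * l) * q - (0.293892626 - 0.324919696 * p + 1.051462224 * q - 0.162459848 * l) * s - (0.181635632 - 1.051462224 * p + 0.324919696 * q + 0.425325404 * l) * p))
    (Cc : 0 ≤ 0.0000001 + ((0.587785252 + (0.181635632 - 1.051462224 * p + 0.324919696 * q + 0.425325404 * l)) * s - 0.587785252 * q))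
    (D : 0 ≤ 0.0000001 + ((0.293892626 - 0.324919696 * p + 1.051462224 * q - 0.162459848 * l) * q + 0.587785252 * p - 0.587785252 * q - (0.181635632 - 1.051462224 * p + 0.324919696 * q + 0.425325404 * l) * p))
    (F : 0 ≤ 0.0000001 - ((q - s) ^ 2 - 2 * ((0.181635632 - 1.051462224 * p + 0.324919696 * q + 0.425325404 * l) ^ 2 * (l - s))))
    : 0 ≤ (0.181635632 - 1.051462224 * p + 0.324919696 * q + 0.425325404 * l) * (2.5 * (0.475528258 + (0.181635632 - 1.051462224 * p + 0.324919696 * q + 0.425325404 * l) * s + (0.293892626 - 0.324919696 * p + 1.051462224 * q - 0.162459848 * l) * q + (0.587785252 - (0.181635632 - 1.051462224 * p + 0.324919696 * q + 0.425325404 * l)) * p) - 0.8927 * ((1.809016994 + l) * (0.713292387 + 0.324919696 * p + 0.850650808 * q - 0.131432778 * l)) + 0.002) - 1.25 * ((q - s) ^ 2 - 2 * ((0.181635632 - 1.051462224 * p + 0.324919696 * q + 0.425325404 * l) ^ 2 * (l - s))) := by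
  linarith only [
    Cc, F, mul_nonneg L1 LS, mul_nonneg L1 TP, mul_nonneg (mul_nonneg P0 Q0) L1,
    mul_nonneg (mul_nonneg P0 S0) L1, mul_nonneg (mul_nonneg P0 S1) LS,
    mul_nonneg (mul_nonneg P0 L1) LS, mul_nonneg (mul_nonneg P0 L1) TP,
    mul_nonneg (mul_nonneg P1 L1) SQ, mul_nonneg (mul_nonneg Q0 Q0) Q0,
    mul_nonneg (mul_nonneg Q0 Q0) TP, mul_nonneg (mul_nonneg Q0 S1) LS,
    mul_nonneg (mul_nonneg Q0 L1) LS, mul_nonneg (mul_nonneg Q0 SQ) TP,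
    mul_nonneg (mul_nonneg Q0 TP) TP, mul_nonneg (mul_nonneg S0 L1) L1,
    mul_nonneg (mul_nonneg S0 L1) SQ, mul_nonneg (mul_nonneg S1 LS) TP,
    mul_nonneg (mul_nonneg S1 TQ) TQ, mul_nonneg (mul_nonneg L1 L1) LS,
    mul_nonneg (mul_nonneg L1 L1) SQ, mul_nonneg (mul_nonneg L1 SQ) TQ,
    mul_nonneg (mul_nonneg TP TP) TP, mul_nonneg A L1, mul_nonneg Cc Q0, mul_nonneg Cc S1,
    mul_nonneg Cc TP, mul_nonneg D P1, mul_nonneg D S0, mul_nonneg D LS, mul_nonneg D TP,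
    mul_nonneg D TQ]

end Pool.Agent.helper79.RS.P5
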