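import Pool.Agent.helper79.RS.P5_0
import Pool.Agent.helper79.RS.P5_1
import Pool.Agent.helper79.RS.P5_2
import Pool.Agent.helper79.RS.P5_3
import Pool.Agent.helper79.RS.P5_4
import Pool.Agent.helper79.RS.P5_5

/-!
RS-16: polynomial inequalities for the five-fold symmetry (certificates found by linear
programming).
-/

namespace Pool.Agent.helper79.RS.P5

theorem branch0 {p q s l : ℝ}
    (P0 : 0 ≤ p - 0)
    (P1 : 0 ≤ 0.190984 - p)
    (Q0 : 0 ≤ q - 0)
    (Q1 : 0 ≤ 0.190984 - q)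
    (S0 : 0 ≤ s - 0)
    (S1 : 0 ≤ 0.190984 - s)
    (L1 : 0 ≤ 0.190984 - l)
    (LS : 0 ≤ l - s)
    (SQ : 0 ≤ s - q)
    (TP : 0 ≤ 1.0000001 - 0.929 * (0.809016994 + p) - 0.37 * (0.293892626 - 0.324919696 * p + 1.051462224 * q - 0.162459848 * l))
    (TQ : 0 ≤ 1.0000001 - 0.9797 * (0.809016994 + q) - 0.2 * (0.181635632 - 1.051462224 * p + 0.324919696 * q + 0.425325404 * l))
    (A : 0 ≤ 0.0000001 + ((0.587785252 + (0.293892626 - 0.324919696 * p + 1.051462224 * q - 0.162459848 * l)) * q - (0.587785252 + (0.181635632 - 1.051462224 * p + 0.324919696 * q + 0.425325404 * l)) * p))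
    (B : 0 ≤ 0.0000001 + ((0.181635632 - 1.051462224 * p + 0.324919696 * q + 0.425325404 * l) * s + (0.293892626 - 0.324919696 * p + 1.051462224 * q - 0.162459848 * l) * q - (0.293892626 - 0.324919696 * p + 1.051462224 * q - 0.162459848 * l) * s - (0.181635632 - 1.051462224 * p + 0.324919696 * q + 0.425325404 * l) * p))
    (Cc : 0 ≤ 0.0000001 + ((0.587785252 + (0.181635632 - 1.051462224 * p + 0.324919696 * q + 0.425325404 * l)) * s - 0.587785252 * q))
    (D : 0 ≤ 0.0000001 + ((0.293892626 - 0.324919696 * p + 1.051462224 * q - 0.162459848 * l) * q + 0.587785252 * p - 0.587785252 * q - (0.181635632 - 1.051462224 * p + 0.324919696 * q + 0.425325404 * l) * p))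
    (F : 0 ≤ 0.0000001 + ((q - s) ^ 2 - 2 * ((0.181635632 - 1.051462224 * p + 0.324919696 * q + 0.425325404 * l) ^ 2 * (l - s))))
    : 0.002 ≤ 2.5 * (0.475528258 + (0.181635632 - 1.051462224 * p + 0.324919696 * q + 0.425325404 * l) * s + (0.293892626 - 0.324919696 * p + 1.051462224 * q - 0.162459848 * l) * q + (0.587785252 - (0.181635632 - 1.051462224 * p + 0.324919696 * q + 0.425325404 * l)) * p) - 0.8927 * ((1.809016994 + l) * (0.713292387 + 0.324919696 * p + 0.850650808 * q - 0.131432778 * l)) := by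
  rcases le_total q 0.0955 with h2q | h2q
  · rcases le_total s 0.0955 with h4s | h4s
    · exact b0_00 (by linarith only [P0, P1, Q0, Q1, S0, S1, L1, LS, h2q, h4s]) (by linarith only [P0, P1, Q0, Q1, S0, S1, L1, LS, h2q, h4s]) (by linarith only [P0, P1, Q0, Q1, S0, S1, L1, LS, h2q, h4s]) (by linarith only [P0, P1, Q0, Q1, S0, S1, L1, LS, h2q, h4s]) (by linarith only [P0, P1, Q0, Q1, S0, S1, L1, LS, h2q, h4s]) (by linarith only [P0, P1, Q0, Q1, S0, S1, L1, LS, h2q, h4s]) (by linarith only [P0, P1, Q0, Q1, S0, S1, L1, LS, h2q, h4s]) LS SQ TP TQ A B Cc D F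
    · rcases le_total l 0.0955 with h6l | h6l
      · exact b0_010 (by linarith only [P0, P1, Q0, Q1, S0, S1, L1, LS, h2q, h4s, h6l]) (by linarith only [P0, P1, Q0, Q1, S0, S1, L1, LS, h2q, h4s, h6l]) (by linarith only [P0, P1, Q0, Q1, S0, S1, L1, LS, h2q, h4s, h6l]) (by linarith only [P0, P1, Q0, Q1, S0, S1, L1, LS, h2q, h4s, h6l]) (by linarith only [P0, P1, Q0, Q1, S0, S1, L1, LS, h2q, h4s, h6l]) (by linarith only [P0, P1, Q0, Q1, S0, S1, L1, LS, h2q, h4s, h6l]) (by linarith only [P0, P1, Q0, Q1, S0, S1, L1, LS, h2q, h4s, h6l]) LS SQ TP TQ A B Cc D F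
      · rcases le_total p 0.0955 with h8p | h8p
        · rcases le_total q 0.0478 with h10q | h10q
          · exact b0_01100 (by linarith only [P0, P1, Q0, Q1, S0, S1, L1, LS, h2q, h4s, h6l, h8p, h10q]) (by linarith only [P0, P1, Q0, Q1, S0, S1, L1, LS, h2q, h4s, h6l, h8p, h10q]) (by linarith only [P0, P1, Q0, Q1, S0, S1, L1, LS, h2q, h4s, h6l, h8p, h10q]) (by linarith only [P0, P1, Q0, Q1, S0, S1, L1, LS, h2q, h4s, h6l, h8p, h10q]) (by linarith only [P0, P1, Q0, Q1, S0, S1, L1, LS, h2q, h4s, h6l, h8p, h10q]) (by linarith only [P0, P1, Q0, Q1, S0, S1, L1, LS, h2q, h4s, h6l, h8p, h10q]) (by linarith only [P0, P1, Q0, Q1, S0, S1, L1, LS, h2q, h4s, h6l, h8p, h10q]) (by linarith only [P0, P1, Q0, Q1, S0, S1, L1, LS, h2q, h4s, h6l, h8p, h10q]) LS SQ TP TQ A B Cc D F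
          · rcases le_total s 0.1432 with h12s | h12s
            · exact b0_011010 (by linarith only [P0, P1, Q0, Q1, S0, S1, L1, LS, h2q, h4s, h6l, h8p, h10q, h12s]) (by linarith only [P0, P1, Q0, Q1, S0, S1, L1, LS, h2q, h4s, h6l, h8p, h10q, h12s]) (by linarith only [P0, P1, Q0, Q1, S0, S1, L1, LS, h2q, h4s, h6l, h8p, h10q, h12s]) (by linarith only [P0, P1, Q0, Q1, S0, S1, L1, LS, h2q, h4s, h6l, h8p, h10q, h12s]) (by linarith only [P0, P1, Q0, Q1, S0, S1, L1, LS, h2q, h4s, h6l, h8p, h10q, h12s]) (by linarith only [P0, P1, Q0, Q1, S0, S1, L1, LS, h2q, h4s, h6l, h8p, h10q, h12s]) (by linarith only [P0, P1, Q0, Q1, S0, S1, L1, LS, h2q, h4s, h6l, h8p, h10q, h12s]) (by linarith only [P0, P1, Q0, Q1, S0, S1, L1, LS, h2q, h4s, h6l, h8p, h10q, h12s]) LS SQ TP TQ A B Cc D F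
            · exact b0_011011 (by linarith only [P0, P1, Q0, Q1, S0, S1, L1, LS, h2q, h4s, h6l, h8p, h10q, h12s]) (by linarith only [P0, P1, Q0, Q1, S0, S1, L1, LS, h2q, h4s, h6l, h8p, h10q, h12s]) (by linarith only [P0, P1, Q0, Q1, S0, S1, L1, LS, h2q, h4s, h6l, h8p, h10q, h12s]) (by linarith only [P0, P1, Q0, Q1, S0, S1, L1, LS, h2q, h4s, h6l, h8p, h10q, h12s]) (by linarith only [P0, P1, Q0, Q1, S0, S1, L1, LS, h2q, h4s, h6l, h8p, h10q, h12s]) (by linarith only [P0, P1, Q0, Q1, S0, S1, L1, LS, h2q, h4s, h6l, h8p, h10q, h12s]) (by linarith only [P0, P1, Q0, Q1, S0, S1, L1, LS, h2q, h4s, h6l, h8p, h10q, h12s]) (by linarith only [P0, P1, Q0, Q1, S0, S1, L1, LS, h2q, h4s, h6l, h8p, h10q, h12s]) LS SQ TP TQ A B Cc D F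
        · exact b0_0111 (by linarith only [P0, P1, Q0, Q1, S0, S1, L1, LS, h2q, h4s, h6l, h8p]) (by linarith only [P0, P1, Q0, Q1, S0, S1, L1, LS, h2q, h4s, h6l, h8p]) (by linarith only [P0, P1, Q0, Q1, S0, S1, L1, LS, h2q, h4s, h6l, h8p]) (by linarith only [P0, P1, Q0, Q1, S0, S1, L1, LS, h2q, h4s, h6l, h8p]) (by linarith only [P0, P1, Q0, Q1, S0, S1, L1, LS, h2q, h4s, h6l, h8p]) (by linarith only [P0, P1, Q0, Q1, S0, S1, L1, LS, h2q, h4s, h6l, h8p]) (by linarith only [P0, P1, Q0, Q1, S0, S1, L1, LS, h2q, h4s, h6l, h8p]) (by linarith only [P0, P1, Q0, Q1, S0, S1, L1, LS, h2q, h4s, h6l, h8p]) LS SQ TP TQ A B Cc D F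
  · rcases le_total s 0.0955 with h4s | h4s
    · exact b0_10 (by linarith only [P0, P1, Q0, Q1, S0, S1, L1, LS, h2q, h4s]) (by linarith only [P0, P1, Q0, Q1, S0, S1, L1, LS, h2q, h4s]) (by linarith only [P0, P1, Q0, Q1, S0, S1, L1, LS, h2q, h4s]) (by linarith only [P0, P1, Q0, Q1, S0, S1, L1, LS, h2q, h4s]) (by linarith only [P0, P1, Q0, Q1, S0, S1, L1, LS, h2q, h4s]) (by linarith only [P0, P1, Q0, Q1, S0, S1, L1, LS, h2q, h4s]) (by linarith only [P0, P1, Q0, Q1, S0, S1, L1, LS, h2q, h4s]) LS SQ TP TQ A B Cc D F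
    · rcases le_total l 0.0955 with h6l | h6l
      · exact b0_110 (by linarith only [P0, P1, Q0, Q1, S0, S1, L1, LS, h2q, h4s, h6l]) (by linarith only [P0, P1, Q0, Q1, S0, S1, L1, LS, h2q, h4s, h6l]) (by linarith only [P0, P1, Q0, Q1, S0, S1, L1, LS, h2q, h4s, h6l]) (by linarith only [P0, P1, Q0, Q1, S0, S1, L1, LS, h2q, h4s, h6l]) (by linarith only [P0, P1, Q0, Q1, S0, S1, L1, LS, h2q, h4s, h6l]) (by linarith only [P0, P1, Q0, Q1, S0, S1, L1, LS, h2q, h4s, h6l]) (by linarith only [P0, P1, Q0, Q1, S0, S1, L1, LS, h2q, h4s, h6l]) LS SQ TP TQ A B Cc D F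
      · rcases le_total p 0.0955 with h8p | h8p
        · rcases le_total q 0.1432 with h10q | h10q
          · rcases le_total s 0.1432 with h12s | h12s
            · exact b0_111000 (by linarith only [P0, P1, Q0, Q1, S0, S1, L1, LS, h2q, h4s, h6l, h8p, h10q, h12s]) (by linarith only [P0, P1, Q0, Q1, S0, S1, L1, LS, h2q, h4s, h6l, h8p, h10q, h12s]) (by linarith only [P0, P1, Q0, Q1, S0, S1, L1, LS, h2q, h4s, h6l, h8p, h10q, h12s]) (by linarith only [P0, P1, Q0, Q1, S0, S1, L1, LS, h2q, h4s, h6l, h8p, h10q, h12s]) (by linarith only [P0, P1, Q0, Q1, S0, S1, L1, LS, h2q, h4s, h6l, h8p, h10q, h12s]) (by linarith only [P0, P1, Q0, Q1, S0, S1, L1, LS, h2q, h4s, h6l, h8p, h10q, h12s]) (by linarith only [P0, P1, Q0, Q1, S0, S1, L1, LS, h2q, h4s, h6l, h8p, h10q, h12s]) (by linarith only [P0, P1, Q0, Q1, S0, S1, L1, LS, h2q, h4s, h6l, h8p, h10q, h12s]) LS SQ TP TQ A B Cc D F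
            · rcases le_total l 0.1432 with h14l | h14l
              · exact b0_1110010 (by linarith only [P0, P1, Q0, Q1, S0, S1, L1, LS, h2q, h4s, h6l, h8p, h10q, h12s, h14l]) (by linarith only [P0, P1, Q0, Q1, S0, S1, L1, LS, h2q, h4s, h6l, h8p, h10q, h12s, h14l]) (by linarith only [P0, P1, Q0, Q1, S0, S1, L1, LS, h2q, h4s, h6l, h8p, h10q, h12s, h14l]) (by linarith only [P0, P1, Q0, Q1, S0, S1, L1, LS, h2q, h4s, h6l, h8p, h10q, h12s, h14l]) (by linarith only [P0, P1, Q0, Q1, S0, S1, L1, LS, h2q, h4s, h6l, h8p, h10q, h12s, h14l]) (by linarith only [P0, P1, Q0, Q1, S0, S1, L1, LS, h2q, h4s, h6l, h8p, h10q, h12s, h14l]) (by linarith only [P0, P1, Q0, Q1, S0, S1, L1, LS, h2q, h4s, h6l, h8p, h10q, h12s, h14l]) (by linarith only [P0, P1, Q0, Q1, S0, S1, L1, LS, h2q, h4s, h6l, h8p, h10q, h12s, h14l]) LS SQ TP TQ A B Cc D F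
              · rcases le_total p 0.0478 with h16p | h16p
                · exact b0_11100110 (by linarith only [P0, P1, Q0, Q1, S0, S1, L1, LS, h2q, h4s, h6l, h8p, h10q, h12s, h14l, h16p]) (by linarith only [P0, P1, Q0, Q1, S0, S1, L1, LS, h2q, h4s, h6l, h8p, h10q, h12s, h14l, h16p]) (by linarith only [P0, P1, Q0, Q1, S0, S1, L1, LS, h2q, h4s, h6l, h8p, h10q, h12s, h14l, h16p]) (by linarith only [P0, P1, Q0, Q1, S0, S1, L1, LS, h2q, h4s, h6l, h8p, h10q, h12s, h14l, h16p]) (by linarith only [P0, P1, Q0, Q1, S0, S1, L1, LS, h2q, h4s, h6l, h8p, h10q, h12s, h14l, h16p]) (by linarith only [P0, P1, Q0, Q1, S0, S1, L1, LS, h2q, h4s, h6l, h8p, h10q, h12s, h14l, h16p]) (by linarith only [P0, P1, Q0, Q1, S0, S1, L1, LS, h2q, h4s, h6l, h8p, h10q, h12s, h14l, h16p]) (by linarith only [P0, P1, Q0, Q1, S0, S1, L1, LS, h2q, h4s, h6l, h8p, h10q, h12s, h14l, h16p]) LS SQ TP TQ A B Cc D F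
                · exact b0_11100111 (by linarith only [P0, P1, Q0, Q1, S0, S1, L1, LS, h2q, h4s, h6l, h8p, h10q, h12s, h14l, h16p]) (by linarith only [P0, P1, Q0, Q1, S0, S1, L1, LS, h2q, h4s, h6l, h8p, h10q, h12s, h14l, h16p]) (by linarith only [P0, P1, Q0, Q1, S0, S1, L1, LS, h2q, h4s, h6l, h8p, h10q, h12s, h14l, h16p]) (by linarith only [P0, P1, Q0, Q1, S0, S1, L1, LS, h2q, h4s, h6l, h8p, h10q, h12s, h14l, h16p]) (by linarith only [P0, P1, Q0, Q1, S0, S1, L1, LS, h2q, h4s, h6l, h8p, h10q, h12s, h14l, h16p]) (by linarith only [P0, P1, Q0, Q1, S0, S1, L1, LS, h2q, h4s, h6l, h8p, h10q, h12s, h14l, h16p]) (by linarith only [P0, P1, Q0, Q1, S0, S1, L1, LS, h2q, h4s, h6l, h8p, h10q, h12s, h14l, h16p]) (by linarith only [P0, P1, Q0, Q1, S0, S1, L1, LS, h2q, h4s, h6l, h8p, h10q, h12s, h14l, h16p]) LS SQ TP TQ A B Cc D F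
          · exact b0_11101 (by linarith only [P0, P1, Q0, Q1, S0, S1, L1, LS, h2q, h4s, h6l, h8p, h10q]) (by linarith only [P0, P1, Q0, Q1, S0, S1, L1, LS, h2q, h4s, h6l, h8p, h10q]) (by linarith only [P0, P1, Q0, Q1, S0, S1, L1, LS, h2q, h4s, h6l, h8p, h10q]) (by linarith only [P0, P1, Q0, Q1, S0, S1, L1, LS, h2q, h4s, h6l, h8p, h10q]) (by linarith only [P0, P1, Q0, Q1, S0, S1, L1, LS, h2q, h4s, h6l, h8p, h10q]) (by linarith only [P0, P1, Q0, Q1, S0, S1, L1, LS, h2q, h4s, h6l, h8p, h10q]) (by linarith only [P0, P1, Q0, Q1, S0, S1, L1, LS, h2q, h4s, h6l, h8p, h10q]) (by linarith only [P0, P1, Q0, Q1, S0, S1, L1, LS, h2q, h4s, h6l, h8p, h10q]) LS SQ TP TQ A B Cc D F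
        · exact b0_1111 (by linarith only [P0, P1, Q0, Q1, S0, S1, L1, LS, h2q, h4s, h6l, h8p]) (by linarith only [P0, P1, Q0, Q1, S0, S1, L1, LS, h2q, h4s, h6l, h8p]) (by linarith only [P0, P1, Q0, Q1, S0, S1, L1, LS, h2q, h4s, h6l, h8p]) (by linarith only [P0, P1, Q0, Q1, S0, S1, L1, LS, h2q, h4s, h6l, h8p]) (by linarith only [P0, P1, Q0, Q1, S0, S1, L1, LS, h2q, h4s, h6l, h8p]) (by linarith only [P0, P1, Q0, Q1, S0, S1, L1, LS, h2q, h4s, h6l, h8p]) (by linarith only [P0, P1, Q0, Q1, S0, S1, L1, LS, h2q, h4s, h6l, h8p]) (by linarith only [P0, P1, Q0, Q1, S0, S1, L1, LS, h2q, h4s, h6l, h8p]) LS SQ TP TQ A B Cc D F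

theorem branch1 {p q s l : ℝ}
    (P0 : 0 ≤ p - 0)
    (P1 : 0 ≤ 0.190984 - p)
    (Q0 : 0 ≤ q - 0)
    (Q1 : 0 ≤ 0.190984 - q)
    (S0 : 0 ≤ s - 0)
    (S1 : 0 ≤ 0.190984 - s)
    (L1 : 0 ≤ 0.190984 - l)
    (LS : 0 ≤ l - s)
    (SQ : 0 ≤ q - s)
    (TP : 0 ≤ 1.0000001 - 0.929 * (0.809016994 + p) - 0.37 * (0.293892626 - 0.324919696 * p + 1.051462224 * q - 0.162459848 * l))
    (TQ : 0 ≤ 1.0000001 - 0.9797 * (0.809016994 + q) - 0.2 * (0.181635632 - 1.051462224 * p + 0.324919696 * q + 0.425325404 * l))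
    (A : 0 ≤ 0.0000001 + ((0.587785252 + (0.293892626 - 0.324919696 * p + 1.051462224 * q - 0.162459848 * l)) * q - (0.587785252 + (0.181635632 - 1.051462224 * p + 0.324919696 * q + 0.425325404 * l)) * p))
    (B : 0 ≤ 0.0000001 + ((0.181635632 - 1.051462224 * p + 0.324919696 * q + 0.425325404 * l) * s + (0.293892626 - 0.324919696 * p + 1.051462224 * q - 0.162459848 * l) * q - (0.293892626 - 0.324919696 * p + 1.051462224 * q - 0.162459848 * l) * s - (0.181635632 - 1.051462224 * p + 0.324919696 * q + 0.425325404 * l) * p))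
    (Cc : 0 ≤ 0.0000001 + ((0.587785252 + (0.181635632 - 1.051462224 * p + 0.324919696 * q + 0.425325404 * l)) * s - 0.587785252 * q))
    (D : 0 ≤ 0.0000001 + ((0.293892626 - 0.324919696 * p + 1.051462224 * q - 0.162459848 * l) * q + 0.587785252 * p - 0.587785252 * q - (0.181635632 - 1.051462224 * p + 0.324919696 * q + 0.425325404 * l) * p))
    (F : 0 ≤ 0.0000001 + ((q - s) ^ 2 - 2 * ((0.181635632 - 1.051462224 * p + 0.324919696 * q + 0.425325404 * l) ^ 2 * (l - s))))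
    : -0.002 ≤ 2.5 * (0.475528258 + (0.181635632 - 1.051462224 * p + 0.324919696 * q + 0.425325404 * l) * s + (0.293892626 - 0.324919696 * p + 1.051462224 * q - 0.162459848 * l) * q + (0.587785252 - (0.181635632 - 1.051462224 * p + 0.324919696 * q + 0.425325404 * l)) * p) - 0.8927 * ((1.809016994 + l) * (0.713292387 + 0.324919696 * p + 0.850650808 * q - 0.131432778 * l)) := by
  rcases le_total q 0.0955 with h2q | h2q
  · exact b1_0 (by linarith only [P0, P1, Q0, Q1, S0, S1, L1, LS, h2q]) (by linarith only [P0, P1, Q0, Q1, S0, S1, L1, LS, h2q]) (by linarith only [P0, P1, Q0, Q1, S0, S1, L1, LS, h2q]) (by linarith only [P0, P1, Q0, Q1, S0, S1, L1, LS, h2q]) (by linarith only [P0, P1, Q0, Q1, S0, S1, L1, LS, h2q]) (by linarith only [P0, P1, Q0, Q1, S0, S1, L1, LS, h2q]) (by linarith only [P0, P1, Q0, Q1, S0, S1, L1, LS, h2q]) LS SQ TP TQ A B Cc D F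
  · rcases le_total s 0.0955 with h4s | h4s
    · exact b1_10 (by linarith only [P0, P1, Q0, Q1, S0, S1, L1, LS, h2q, h4s]) (by linarith only [P0, P1, Q0, Q1, S0, S1, L1, LS, h2q, h4s]) (by linarith only [P0, P1, Q0, Q1, S0, S1, L1, LS, h2q, h4s]) (by linarith only [P0, P1, Q0, Q1, S0, S1, L1, LS, h2q, h4s]) (by linarith only [P0, P1, Q0, Q1, S0, S1, L1, LS, h2q, h4s]) (by linarith only [P0, P1, Q0, Q1, S0, S1, L1, LS, h2q, h4s]) (by linarith only [P0, P1, Q0, Q1, S0, S1, L1, LS, h2q, h4s]) LS SQ TP TQ A B Cc D F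
    · rcases le_total l 0.0955 with h6l | h6l
      · exact b1_110 (by linarith only [P0, P1, Q0, Q1, S0, S1, L1, LS, h2q, h4s, h6l]) (by linarith only [P0, P1, Q0, Q1, S0, S1, L1, LS, h2q, h4s, h6l]) (by linarith only [P0, P1, Q0, Q1, S0, S1, L1, LS, h2q, h4s, h6l]) (by linarith only [P0, P1, Q0, Q1, S0, S1, L1, LS, h2q, h4s, h6l]) (by linarith only [P0, P1, Q0, Q1, S0, S1, L1, LS, h2q, h4s, h6l]) (by linarith only [P0, P1, Q0, Q1, S0, S1, L1, LS, h2q, h4s, h6l]) (by linarith only [P0, P1, Q0, Q1, S0, S1, L1, LS, h2q, h4s, h6l]) LS SQ TP TQ A B Cc D F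
      · rcases le_total p 0.0955 with h8p | h8p
        · rcases le_total q 0.1432 with h10q | h10q
          · exact b1_11100 (by linarith only [P0, P1, Q0, Q1, S0, S1, L1, LS, h2q, h4s, h6l, h8p, h10q]) (by linarith only [P0, P1, Q0, Q1, S0, S1, L1, LS, h2q, h4s, h6l, h8p, h10q]) (by linarith only [P0, P1, Q0, Q1, S0, S1, L1, LS, h2q, h4s, h6l, h8p, h10q]) (by linarith only [P0, P1, Q0, Q1, S0, S1, L1, LS, h2q, h4s, h6l, h8p, h10q]) (by linarith only [P0, P1, Q0, Q1, S0, S1, L1, LS, h2q, h4s, h6l, h8p, h10q]) (by linarith only [P0, P1, Q0, Q1, S0, S1, L1, LS, h2q, h4s, h6l, h8p, h10q]) (by linarith only [P0, P1, Q0, Q1, S0, S1, L1, LS, h2q, h4s, h6l, h8p, h10q]) (by linarith only [P0, P1, Q0, Q1, S0, S1, L1, LS, h2q, h4s, h6l, h8p, h10q]) LS SQ TP TQ A B Cc D F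
          · rcases le_total s 0.1432 with h12s | h12s
            · rcases le_total l 0.1432 with h14l | h14l
              · exact b1_1110100 (by linarith only [P0, P1, Q0, Q1, S0, S1, L1, LS, h2q, h4s, h6l, h8p, h10q, h12s, h14l]) (by linarith only [P0, P1, Q0, Q1, S0, S1, L1, LS, h2q, h4s, h6l, h8p, h10q, h12s, h14l]) (by linarith only [P0, P1, Q0, Q1, S0, S1, L1, LS, h2q, h4s, h6l, h8p, h10q, h12s, h14l]) (by linarith only [P0, P1, Q0, Q1, S0, S1, L1, LS, h2q, h4s, h6l, h8p, h10q, h12s, h14l]) (by linarith only [P0, P1, Q0, Q1, S0, S1, L1, LS, h2q, h4s, h6l, h8p, h10q, h12s, h14l]) (by linarith only [P0, P1, Q0, Q1, S0, S1, L1, LS, h2q, h4s, h6l, h8p, h10q, h12s, h14l]) (by linarith only [P0, P1, Q0, Q1, S0, S1, L1, LS, h2q, h4s, h6l, h8p, h10q, h12s, h14l]) (by linarith only [P0, P1, Q0, Q1, S0, S1, L1, LS, h2q, h4s, h6l, h8p, h10q, h12s, h14l]) LS SQ TP TQ A B Cc D F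
              · exact b1_1110101 (by linarith only [P0, P1, Q0, Q1, S0, S1, L1, LS, h2q, h4s, h6l, h8p, h10q, h12s, h14l]) (by linarith only [P0, P1, Q0, Q1, S0, S1, L1, LS, h2q, h4s, h6l, h8p, h10q, h12s, h14l]) (by linarith only [P0, P1, Q0, Q1, S0, S1, L1, LS, h2q, h4s, h6l, h8p, h10q, h12s, h14l]) (by linarith only [P0, P1, Q0, Q1, S0, S1, L1, LS, h2q, h4s, h6l, h8p, h10q, h12s, h14l]) (by linarith only [P0, P1, Q0, Q1, S0, S1, L1, LS, h2q, h4s, h6l, h8p, h10q, h12s, h14l]) (by linarith only [P0, P1, Q0, Q1, S0, S1, L1, LS, h2q, h4s, h6l, h8p, h10q, h12s, h14l]) (by linarith only [P0, P1, Q0, Q1, S0, S1, L1, LS, h2q, h4s, h6l, h8p, h10q, h12s, h14l]) (by linarith only [P0, P1, Q0, Q1, S0, S1, L1, LS, h2q, h4s, h6l, h8p, h10q, h12s, h14l]) LS SQ TP TQ A B Cc D F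
            · exact b1_111011 (by linarith only [P0, P1, Q0, Q1, S0, S1, L1, LS, h2q, h4s, h6l, h8p, h10q, h12s]) (by linarith only [P0, P1, Q0, Q1, S0, S1, L1, LS, h2q, h4s, h6l, h8p, h10q, h12s]) (by linarith only [P0, P1, Q0, Q1, S0, S1, L1, LS, h2q, h4s, h6l, h8p, h10q, h12s]) (by linarith only [P0, P1, Q0, Q1, S0, S1, L1, LS, h2q, h4s, h6l, h8p, h10q, h12s]) (by linarith only [P0, P1, Q0, Q1, S0, S1, L1, LS, h2q, h4s, h6l, h8p, h10q, h12s]) (by linarith only [P0, P1, Q0, Q1, S0, S1, L1, LS, h2q, h4s, h6l, h8p, h10q, h12s]) (by linarith only [P0, P1, Q0, Q1, S0, S1, L1, LS, h2q, h4s, h6l, h8p, h10q, h12s]) (by linarith only [P0, P1, Q0, Q1, S0, S1, L1, LS, h2q, h4s, h6l, h8p, h10q, h12s]) LS SQ TP TQ A B Cc D F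
        · exact b1_1111 (by linarith only [P0, P1, Q0, Q1, S0, S1, L1, LS, h2q, h4s, h6l, h8p]) (by linarith only [P0, P1, Q0, Q1, S0, S1, L1, LS, h2q, h4s, h6l, h8p]) (by linarith only [P0, P1, Q0, Q1, S0, S1, L1, LS, h2q, h4s, h6l, h8p]) (by linarith only [P0, P1, Q0, Q1, S0, S1, L1, LS, h2q, h4s, h6l, h8p]) (by linarith only [P0, P1, Q0, Q1, S0, S1, L1, LS, h2q, h4s, h6l, h8p]) (by linarith only [P0, P1, Q0, Q1, S0, S1, L1, LS, h2q, h4s, h6l, h8p]) (by linarith only [P0, P1, Q0, Q1, S0, S1, L1, LS, h2q, h4s, h6l, h8p]) (by linarith only [P0, P1, Q0, Q1, S0, S1, L1, LS, h2q, h4s, h6l, h8p]) LS SQ TP TQ A B Cc D F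

theorem branch2 {p q s l : ℝ}
    (P0 : 0 ≤ p - 0)
    (P1 : 0 ≤ 0.190984 - p)
    (Q0 : 0 ≤ q - 0)
    (Q1 : 0 ≤ 0.190984 - q)
    (S0 : 0 ≤ s - 0)
    (S1 : 0 ≤ 0.190984 - s)
    (L1 : 0 ≤ 0.190984 - l)
    (LS : 0 ≤ l - s)
    (SQ : 0 ≤ q - s)
    (SL : 0 ≤ s - l)
    (TP : 0 ≤ 1.0000001 - 0.929 * (0.809016994 + p) - 0.37 * (0.293892626 - 0.324919696 * p + 1.051462224 * q - 0.162459848 * l))
    (TQ : 0 ≤ 1.0000001 - 0.9797 * (0.809016994 + q) - 0.2 * (0.181635632 - 1.051462224 * p + 0.324919696 * q + 0.425325404 * l))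
    (A : 0 ≤ 0.0000001 + ((0.587785252 + (0.293892626 - 0.324919696 * p + 1.051462224 * q - 0.162459848 * l)) * q - (0.587785252 + (0.181635632 - 1.051462224 * p + 0.324919696 * q + 0.425325404 * l)) * p))
    (B : 0 ≤ 0.0000001 + ((0.181635632 - 1.051462224 * p + 0.324919696 * q + 0.425325404 * l) * s + (0.293892626 - 0.324919696 * p + 1.051462224 * q - 0.162459848 * l) * q - (0.293892626 - 0.324919696 * p + 1.051462224 * q - 0.162459848 * l) * s - (0.181635632 - 1.051462224 * p + 0.324919696 * q + 0.425325404 * l) * p))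
    (Cc : 0 ≤ 0.0000001 + ((0.587785252 + (0.181635632 - 1.051462224 * p + 0.324919696 * q + 0.425325404 * l)) * s - 0.587785252 * q))
    (D : 0 ≤ 0.0000001 + ((0.293892626 - 0.324919696 * p + 1.051462224 * q - 0.162459848 * l) * q + 0.587785252 * p - 0.587785252 * q - (0.181635632 - 1.051462224 * p + 0.324919696 * q + 0.425325404 * l) * p))
    : 0.002 ≤ 2.5 * (0.475528258 + (0.181635632 - 1.051462224 * p + 0.324919696 * q + 0.425325404 * l) * s + (0.293892626 - 0.324919696 * p + 1.051462224 * q - 0.162459848 * l) * q + (0.587785252 - (0.181635632 - 1.051462224 * p + 0.324919696 * q + 0.425325404 * l)) * p) - 0.8927 * ((1.809016994 + l) * (0.713292387 + 0.324919696 * p + 0.850650808 * q - 0.131432778 * l)) := by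
  exact b2_x (by linarith only [P0, P1, Q0, Q1, S0, S1, L1, LS]) (by linarith only [P0, P1, Q0, Q1, S0, S1, L1, LS]) (by linarith only [P0, P1, Q0, Q1, S0, S1, L1, LS]) (by linarith only [P0, P1, Q0, Q1, S0, S1, L1, LS]) (by linarith only [P0, P1, Q0, Q1, S0, S1, L1, LS]) (by linarith only [P0, P1, Q0, Q1, S0, S1, L1, LS]) (by linarith only [P0, P1, Q0, Q1, S0, S1, L1, LS]) LS SQ SL TP TQ A B Cc D

theorem branch3 {p q s l : ℝ}
    (P0 : 0 ≤ p - 0)
    (P1 : 0 ≤ 0.190984 - p)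
    (Q0 : 0 ≤ q - 0)
    (Q1 : 0 ≤ 0.190984 - q)
    (S0 : 0 ≤ s - 0)
    (S1 : 0 ≤ 0.190984 - s)
    (L1 : 0 ≤ 0.190984 - l)
    (LS : 0 ≤ l - s)
    (SQ : 0 ≤ s - q)
    (TP : 0 ≤ 1.0000001 - 0.929 * (0.809016994 + p) - 0.37 * (0.293892626 - 0.324919696 * p + 1.051462224 * q - 0.162459848 * l))
    (TQ : 0 ≤ 1.0000001 - 0.9797 * (0.809016994 + q) - 0.2 * (0.181635632 - 1.051462224 * p + 0.324919696 * q + 0.425325404 * l))
    (A : 0 ≤ 0.0000001 + ((0.587785252 + (0.293892626 - 0.324919696 * p + 1.051462224 * q - 0.162459848 * l)) * q - (0.587785252 + (0.181635632 - 1.051462224 * p + 0.324919696 * q + 0.425325404 * l)) * p))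
    (B : 0 ≤ 0.0000001 + ((0.181635632 - 1.051462224 * p + 0.324919696 * q + 0.425325404 * l) * s + (0.293892626 - 0.324919696 * p + 1.051462224 * q - 0.162459848 * l) * q - (0.293892626 - 0.324919696 * p + 1.051462224 * q - 0.162459848 * l) * s - (0.181635632 - 1.051462224 * p + 0.324919696 * q + 0.425325404 * l) * p))
    (Cc : 0 ≤ 0.0000001 + ((0.587785252 + (0.181635632 - 1.051462224 * p + 0.324919696 * q + 0.425325404 * l)) * s - 0.587785252 * q))
    (D : 0 ≤ 0.0000001 + ((0.293892626 - 0.324919696 * p + 1.051462224 * q - 0.162459848 * l) * q + 0.587785252 * p - 0.587785252 * q - (0.181635632 - 1.051462224 * p + 0.324919696 * q + 0.425325404 * l) * p))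
    : -0.002 ≤ 2.5 * (0.475528258 + (0.181635632 - 1.051462224 * p + 0.324919696 * q + 0.425325404 * l) * s + (0.293892626 - 0.324919696 * p + 1.051462224 * q - 0.162459848 * l) * q + (0.587785252 - (0.181635632 - 1.051462224 * p + 0.324919696 * q + 0.425325404 * l)) * p) - 0.8927 * ((1.809016994 + l) * (0.713292387 + 0.324919696 * p + 0.850650808 * q - 0.131432778 * l)) + 2.5 * ((0.181635632 - 1.051462224 * p + 0.324919696 * q + 0.425325404 * l) * (l - s)) := by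
  exact b3_x (by linarith only [P0, P1, Q0, Q1, S0, S1, L1, LS]) (by linarith only [P0, P1, Q0, Q1, S0, S1, L1, LS]) (by linarith only [P0, P1, Q0, Q1, S0, S1, L1, LS]) (by linarith only [P0, P1, Q0, Q1, S0, S1, L1, LS]) (by linarith only [P0, P1, Q0, Q1, S0, S1, L1, LS]) (by linarith only [P0, P1, Q0, Q1, S0, S1, L1, LS]) (by linarith only [P0, P1, Q0, Q1, S0, S1, L1, LS]) LS SQ TP TQ A B Cc D

theorem branch4 {p q s l : ℝ}
    (P0 : 0 ≤ p - 0)
    (P1 : 0 ≤ 0.190984 - p)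
    (Q0 : 0 ≤ q - 0)
    (Q1 : 0 ≤ 0.190984 - q)
    (S0 : 0 ≤ s - 0)
    (S1 : 0 ≤ 0.190984 - s)
    (L1 : 0 ≤ 0.190984 - l)
    (LS : 0 ≤ l - s)
    (SQ : 0 ≤ q - s)
    (TP : 0 ≤ 1.0000001 - 0.929 * (0.809016994 + p) - 0.37 * (0.293892626 - 0.324919696 * p + 1.051462224 * q - 0.162459848 * l))
    (TQ : 0 ≤ 1.0000001 - 0.9797 * (0.809016994 + q) - 0.2 * (0.181635632 - 1.051462224 * p + 0.324919696 * q + 0.425325404 * l))
    (A : 0 ≤ 0.0000001 + ((0.587785252 + (0.293892626 - 0.324919696 * p + 1.051462224 * q - 0.162459848 * l)) * q - (0.587785252 + (0.181635632 - 1.051462224 * p + 0.324919696 * q + 0.425325404 * l)) * p))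
    (B : 0 ≤ 0.0000001 + ((0.181635632 - 1.051462224 * p + 0.324919696 * q + 0.425325404 * l) * s + (0.293892626 - 0.324919696 * p + 1.051462224 * q - 0.162459848 * l) * q - (0.293892626 - 0.324919696 * p + 1.051462224 * q - 0.162459848 * l) * s - (0.181635632 - 1.051462224 * p + 0.324919696 * q + 0.425325404 * l) * p))
    (Cc : 0 ≤ 0.0000001 + ((0.587785252 + (0.181635632 - 1.051462224 * p + 0.324919696 * q + 0.425325404 * l)) * s - 0.587785252 * q))
    (D : 0 ≤ 0.0000001 + ((0.293892626 - 0.324919696 * p + 1.051462224 * q - 0.162459848 * l) * q + 0.587785252 * p - 0.587785252 * q - (0.181635632 - 1.051462224 * p + 0.324919696 * q + 0.425325404 * l) * p))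
    (F : 0 ≤ 0.0000001 - ((q - s) ^ 2 - 2 * ((0.181635632 - 1.051462224 * p + 0.324919696 * q + 0.425325404 * l) ^ 2 * (l - s))))
    : 0 ≤ (0.181635632 - 1.051462224 * p + 0.324919696 * q + 0.425325404 * l) * (2.5 * (0.475528258 + (0.181635632 - 1.051462224 * p + 0.324919696 * q + 0.425325404 * l) * s + (0.293892626 - 0.324919696 * p + 1.051462224 * q - 0.162459848 * l) * q + (0.587785252 - (0.181635632 - 1.051462224 * p + 0.324919696 * q + 0.425325404 * l)) * p) - 0.8927 * ((1.809016994 + l) * (0.713292387 + 0.324919696 * p + 0.850650808 * q - 0.131432778 * l)) + 0.002) - 1.25 * ((q - s) ^ 2 - 2 * ((0.181635632 - 1.051462224 * p + 0.324919696 * q + 0.425325404 * l) ^ 2 * (l - s))) := by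
  rcases le_total q 0.0955 with h2q | h2q
  · rcases le_total s 0.0955 with h4s | h4s
    · rcases le_total l 0.0955 with h6l | h6l
      · exact b4_000 (by linarith only [P0, P1, Q0, Q1, S0, S1, L1, LS, h2q, h4s, h6l]) (by linarith only [P0, P1, Q0, Q1, S0, S1, L1, LS, h2q, h4s, h6l]) (by linarith only [P0, P1, Q0, Q1, S0, S1, L1, LS, h2q, h4s, h6l]) (by linarith only [P0, P1, Q0, Q1, S0, S1, L1, LS, h2q, h4s, h6l]) (by linarith only [P0, P1, Q0, Q1, S0, S1, L1, LS, h2q, h4s, h6l]) (by linarith only [P0, P1, Q0, Q1, S0, S1, L1, LS, h2q, h4s, h6l]) (by linarith only [P0, P1, Q0, Q1, S0, S1, L1, LS, h2q, h4s, h6l]) LS SQ TP TQ A B Cc D F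
      · exact b4_001 (by linarith only [P0, P1, Q0, Q1, S0, S1, L1, LS, h2q, h4s, h6l]) (by linarith only [P0, P1, Q0, Q1, S0, S1, L1, LS, h2q, h4s, h6l]) (by linarith only [P0, P1, Q0, Q1, S0, S1, L1, LS, h2q, h4s, h6l]) (by linarith only [P0, P1, Q0, Q1, S0, S1, L1, LS, h2q, h4s, h6l]) (by linarith only [P0, P1, Q0, Q1, S0, S1, L1, LS, h2q, h4s, h6l]) (by linarith only [P0, P1, Q0, Q1, S0, S1, L1, LS, h2q, h4s, h6l]) (by linarith only [P0, P1, Q0, Q1, S0, S1, L1, LS, h2q, h4s, h6l]) (by linarith only [P0, P1, Q0, Q1, S0, S1, L1, LS, h2q, h4s, h6l]) LS SQ TP TQ A B Cc D F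
    · exact b4_01 (by linarith only [P0, P1, Q0, Q1, S0, S1, L1, LS, h2q, h4s]) (by linarith only [P0, P1, Q0, Q1, S0, S1, L1, LS, h2q, h4s]) (by linarith only [P0, P1, Q0, Q1, S0, S1, L1, LS, h2q, h4s]) (by linarith only [P0, P1, Q0, Q1, S0, S1, L1, LS, h2q, h4s]) (by linarith only [P0, P1, Q0, Q1, S0, S1, L1, LS, h2q, h4s]) (by linarith only [P0, P1, Q0, Q1, S0, S1, L1, LS, h2q, h4s]) (by linarith only [P0, P1, Q0, Q1, S0, S1, L1, LS, h2q, h4s]) LS SQ TP TQ A B Cc D F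
  · rcases le_total s 0.0955 with h4s | h4s
    · rcases le_total l 0.0955 with h6l | h6l
      · exact b4_100 (by linarith only [P0, P1, Q0, Q1, S0, S1, L1, LS, h2q, h4s, h6l]) (by linarith only [P0, P1, Q0, Q1, S0, S1, L1, LS, h2q, h4s, h6l]) (by linarith only [P0, P1, Q0, Q1, S0, S1, L1, LS, h2q, h4s, h6l]) (by linarith only [P0, P1, Q0, Q1, S0, S1, L1, LS, h2q, h4s, h6l]) (by linarith only [P0, P1, Q0, Q1, S0, S1, L1, LS, h2q, h4s, h6l]) (by linarith only [P0, P1, Q0, Q1, S0, S1, L1, LS, h2q, h4s, h6l]) (by linarith only [P0, P1, Q0, Q1, S0, S1, L1, LS, h2q, h4s, h6l]) LS SQ TP TQ A B Cc D F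
      · rcases le_total p 0.0955 with h8p | h8p
        · exact b4_1010 (by linarith only [P0, P1, Q0, Q1, S0, S1, L1, LS, h2q, h4s, h6l, h8p]) (by linarith only [P0, P1, Q0, Q1, S0, S1, L1, LS, h2q, h4s, h6l, h8p]) (by linarith only [P0, P1, Q0, Q1, S0, S1, L1, LS, h2q, h4s, h6l, h8p]) (by linarith only [P0, P1, Q0, Q1, S0, S1, L1, LS, h2q, h4s, h6l, h8p]) (by linarith only [P0, P1, Q0, Q1, S0, S1, L1, LS, h2q, h4s, h6l, h8p]) (by linarith only [P0, P1, Q0, Q1, S0, S1, L1, LS, h2q, h4s, h6l, h8p]) (by linarith only [P0, P1, Q0, Q1, S0, S1, L1, LS, h2q, h4s, h6l, h8p]) (by linarith only [P0, P1, Q0, Q1, S0, S1, L1, LS, h2q, h4s, h6l, h8p]) LS SQ TP TQ A B Cc D F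
        · exact b4_1011 (by linarith only [P0, P1, Q0, Q1, S0, S1, L1, LS, h2q, h4s, h6l, h8p]) (by linarith only [P0, P1, Q0, Q1, S0, S1, L1, LS, h2q, h4s, h6l, h8p]) (by linarith only [P0, P1, Q0, Q1, S0, S1, L1, LS, h2q, h4s, h6l, h8p]) (by linarith only [P0, P1, Q0, Q1, S0, S1, L1, LS, h2q, h4s, h6l, h8p]) (by linarith only [P0, P1, Q0, Q1, S0, S1, L1, LS, h2q, h4s, h6l, h8p]) (by linarith only [P0, P1, Q0, Q1, S0, S1, L1, LS, h2q, h4s, h6l, h8p]) (by linarith only [P0, P1, Q0, Q1, S0, S1, L1, LS, h2q, h4s, h6l, h8p]) (by linarith only [P0, P1, Q0, Q1, S0, S1, L1, LS, h2q, h4s, h6l, h8p]) LS SQ TP TQ A B Cc D F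
    · rcases le_total l 0.0955 with h6l | h6l
      · exact b4_110 (by linarith only [P0, P1, Q0, Q1, S0, S1, L1, LS, h2q, h4s, h6l]) (by linarith only [P0, P1, Q0, Q1, S0, S1, L1, LS, h2q, h4s, h6l]) (by linarith only [P0, P1, Q0, Q1, S0, S1, L1, LS, h2q, h4s, h6l]) (by linarith only [P0, P1, Q0, Q1, S0, S1, L1, LS, h2q, h4s, h6l]) (by linarith only [P0, P1, Q0, Q1, S0, S1, L1, LS, h2q, h4s, h6l]) (by linarith only [P0, P1, Q0, Q1, S0, S1, L1, LS, h2q, h4s, h6l]) (by linarith only [P0, P1, Q0, Q1, S0, S1, L1, LS, h2q, h4s, h6l]) LS SQ TP TQ A B Cc D F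
      · rcases le_total p 0.0955 with h8p | h8p
        · exact b4_1110 (by linarith only [P0, P1, Q0, Q1, S0, S1, L1, LS, h2q, h4s, h6l, h8p]) (by linarith only [P0, P1, Q0, Q1, S0, S1, L1, LS, h2q, h4s, h6l, h8p]) (by linarith only [P0, P1, Q0, Q1, S0, S1, L1, LS, h2q, h4s, h6l, h8p]) (by linarith only [P0, P1, Q0, Q1, S0, S1, L1, LS, h2q, h4s, h6l, h8p]) (by linarith only [P0, P1, Q0, Q1, S0, S1, L1, LS, h2q, h4s, h6l, h8p]) (by linarith only [P0, P1, Q0, Q1, S0, S1, L1, LS, h2q, h4s, h6l, h8p]) (by linarith only [P0, P1, Q0, Q1, S0, S1, L1, LS, h2q, h4s, h6l, h8p]) (by linarith only [P0, P1, Q0, Q1, S0, S1, L1, LS, h2q, h4s, h6l, h8p]) LS SQ TP TQ A B Cc D F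
        · exact b4_1111 (by linarith only [P0, P1, Q0, Q1, S0, S1, L1, LS, h2q, h4s, h6l, h8p]) (by linarith only [P0, P1, Q0, Q1, S0, S1, L1, LS, h2q, h4s, h6l, h8p]) (by linarith only [P0, P1, Q0, Q1, S0, S1, L1, LS, h2q, h4s, h6l, h8p]) (by linarith only [P0, P1, Q0, Q1, S0, S1, L1, LS, h2q, h4s, h6l, h8p]) (by linarith only [P0, P1, Q0, Q1, S0, S1, L1, LS, h2q, h4s, h6l, h8p]) (by linarith only [P0, P1, Q0, Q1, S0, S1, L1, LS, h2q, h4s, h6l, h8p]) (by linarith only [P0, P1, Q0, Q1, S0, S1, L1, LS, h2q, h4s, h6l, h8p]) (by linarith only [P0, P1, Q0, Q1, S0, S1, L1, LS, h2q, h4s, h6l, h8p]) LS SQ TP TQ A B Cc D F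

end Pool.Agent.helper79.RS.P5
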