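import Pool.Agent.helper79.RS.Side5
import Pool.Agent.helper79.RS.P5

/-!
RS-19: the inequalities of one side for the five-fold symmetry.
-/

namespace Pool.Agent.helper79.RS

/-- The convexity constraints. -/
structure Con5 (S s p q Ta Tb : ℝ) : Prop where
  A : (S + Ta) * p ≤ (S + Tb) * q
  B : Tb * s + Ta * p ≤ Ta * s + Tb * q
  Cc : S * q ≤ (S + Ta) * s
  D : S * q + Ta * p ≤ Tb * q + S * p

theorem sq_close {a b : ℝ} (h1 : a ≤ b + 1e-8) (h2 : b - 1e-8 ≤ a) (ha : 0 < a) (ha' : a ≤ 0.5) :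
    a ^ 2 ≤ b ^ 2 + 2e-8 ∧ b ^ 2 - 2e-8 ≤ a ^ 2 := by
  constructor
  · nlinarith only [mul_nonneg (sub_nonneg.mpr h1) ha.le, mul_nonneg (sub_nonneg.mpr h2) ha.le,
      h1, h2, ha, ha', mul_nonneg (sub_nonneg.mpr h1) (sub_nonneg.mpr h2)]
  · nlinarith only [mul_nonneg (sub_nonneg.mpr h1) ha.le, mul_nonneg (sub_nonneg.mpr h2) ha.le,
      h1, h2, ha, ha', mul_nonneg (sub_nonneg.mpr h1) (sub_nonneg.mpr h2)]

namespace Dat

variable {C S c2 s2 x y L s p q Ta Tb l : ℝ} (h : Dat C S c2 s2 x y L s p q Ta Tb l)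

include h

theorem ratTP : 0 ≤ 1.0000001 - 0.929 * (0.809016994 + p) - 0.37 * (0.293892626 - 0.324919696 * p + 1.051462224 * q - 0.162459848 * l) := by
  have := h.tP
  obtain ⟨-, ⟨b1, b2⟩, -⟩ := h.approx
  have a1 := h.pen.Clo
  have a2 := h.pen.Chi
  linarith only [this, b1, b2, a1, a2]

theorem ratTQ : 0 ≤ 1.0000001 - 0.9797 * (0.809016994 + q) - 0.2 * (0.181635632 - 1.051462224 * p + 0.324919696 * q + 0.425325404 * l) := by
  have := h.tQ
  obtain ⟨⟨b1, b2⟩, -, -⟩ := h.approx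
  have a1 := h.pen.Clo
  have a2 := h.pen.Chi
  linarith only [this, b1, b2, a1, a2]

theorem hs1 : s ≤ 0.190984 := le_trans h.hls h.hl1

theorem ratA (hc : Con5 S s p q Ta Tb) : 0 ≤ 0.0000001 + ((0.587785252 + (0.293892626 - 0.324919696 * p + 1.051462224 * q - 0.162459848 * l)) * q - (0.587785252 + (0.181635632 - 1.051462224 * p + 0.324919696 * q + 0.425325404 * l)) * p) := by
  have h1 := hc.A
  obtain ⟨⟨b1, b2⟩, ⟨b3, b4⟩, -⟩ := h.approx
  have a1 := h.pen.Slo
  have a2 := h.pen.Shi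
  have m1 := mul_le_mul_of_nonneg_right b2 h.hp
  have m2 := mul_le_mul_of_nonneg_right b3 h.hq
  have m3 := mul_le_mul_of_nonneg_right a1.le h.hp
  have m4 := mul_le_mul_of_nonneg_right a2.le h.hq
  have hp1 := h.hp1
  have hq1 := h.hq1
  linarith only [h1, m1, m2, m3, m4, hp1, hq1]

theorem ratB (hc : Con5 S s p q Ta Tb) : 0 ≤ 0.0000001 + ((0.181635632 - 1.051462224 * p + 0.324919696 * q + 0.425325404 * l) * s + (0.293892626 - 0.324919696 * p + 1.051462224 * q - 0.162459848 * l) * q - (0.293892626 - 0.324919696 * p + 1.051462224 * q - 0.162459848 * l) * s - (0.181635632 - 1.051462224 * p + 0.324919696 * q + 0.425325404 * l) * p) := by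
  have h1 := hc.B
  obtain ⟨⟨b1, b2⟩, ⟨b3, b4⟩, -⟩ := h.approx
  have m1 := mul_le_mul_of_nonneg_right b2 h.hp
  have m2 := mul_le_mul_of_nonneg_right b3 h.hq
  have m3 := mul_le_mul_of_nonneg_right b1 h.hs
  have m4 := mul_le_mul_of_nonneg_right b4 h.hs
  have hp1 := h.hp1
  have hq1 := h.hq1
  have hs1 := h.hs1
  linarith only [h1, m1, m2, m3, m4, hp1, hq1, hs1]

theorem ratC (hc : Con5 S s p q Ta Tb) : 0 ≤ 0.0000001 + ((0.587785252 + (0.181635632 - 1.051462224 * p + 0.324919696 * q + 0.425325404 * l)) * s - 0.587785252 * q) := by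
  have h1 := hc.Cc
  obtain ⟨⟨b1, b2⟩, -, -⟩ := h.approx
  have a1 := h.pen.Slo
  have a2 := h.pen.Shi
  have m1 := mul_le_mul_of_nonneg_right b1 h.hs
  have m2 := mul_le_mul_of_nonneg_right a2.le h.hs
  have m3 := mul_le_mul_of_nonneg_right a1.le h.hq
  have hq1 := h.hq1
  have hs1 := h.hs1
  have hq := h.hq
  linarith only [h1, m1, m2, m3, hq1, hs1, hq]

theorem ratD (hc : Con5 S s p q Ta Tb) : 0 ≤ 0.0000001 + ((0.293892626 - 0.324919696 * p + 1.051462224 * q - 0.162459848 * l) * q + 0.587785252 * p - 0.587785252 * q - (0.181635632 - 1.051462224 * p + 0.324919696 * q + 0.425325404 * l) * p) := by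
  have h1 := hc.D
  obtain ⟨⟨b1, b2⟩, ⟨b3, b4⟩, -⟩ := h.approx
  have a1 := h.pen.Slo
  have a2 := h.pen.Shi
  have m1 := mul_le_mul_of_nonneg_right b2 h.hp
  have m2 := mul_le_mul_of_nonneg_right b3 h.hq
  have m3 := mul_le_mul_of_nonneg_right a2.le h.hp
  have m4 := mul_le_mul_of_nonneg_right a1.le h.hq
  have hp1 := h.hp1
  have hq1 := h.hq1
  linarith only [h1, m1, m2, m3, m4, hp1, hq1]

theorem hTa1 : Ta ≤ 0.5 := by
  obtain ⟨⟨b1, b2⟩, -, -⟩ := h.approx
  linarith only [b1, h.hp, h.hq1, h.hl1]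

theorem ratF (hTa : 0 < Ta) (hF : 2 * (Ta ^ 2 * (l - s)) ≤ (q - s) ^ 2) :
    0 ≤ 0.0000001 + ((q - s) ^ 2 - 2 * ((0.181635632 - 1.051462224 * p + 0.324919696 * q + 0.425325404 * l) ^ 2 * (l - s))) := by
  obtain ⟨⟨b1, b2⟩, -, -⟩ := h.approx
  obtain ⟨c1, c2⟩ := sq_close b1 b2 hTa h.hTa1
  have hls := sub_nonneg.mpr h.hls
  have m1 := mul_le_mul_of_nonneg_right c1 hls
  have m2 := mul_le_mul_of_nonneg_right c2 hls
  have hl1 := h.hl1
  have hs := h.hs
  linarith only [hF, m1, m2, hl1, hs]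

theorem ratF' (hTa : 0 < Ta) (hF : (q - s) ^ 2 ≤ 2 * (Ta ^ 2 * (l - s))) :
    0 ≤ 0.0000001 - ((q - s) ^ 2 - 2 * ((0.181635632 - 1.051462224 * p + 0.324919696 * q + 0.425325404 * l) ^ 2 * (l - s))) := by
  obtain ⟨⟨b1, b2⟩, -, -⟩ := h.approx
  obtain ⟨c1, c2⟩ := sq_close b1 b2 hTa h.hTa1
  have hls := sub_nonneg.mpr h.hls
  have m1 := mul_le_mul_of_nonneg_right c1 hls
  have m2 := mul_le_mul_of_nonneg_right c2 hls
  have hl1 := h.hl1
  have hs := h.hs
  linarith only [hF, m1, m2, hl1, hs]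

theorem CS_close : 0.475528257 ≤ C * S ∧ C * S ≤ 0.475528259 := by
  have a1 := h.pen.Clo
  have a2 := h.pen.Chi
  have a3 := h.pen.Slo
  have a4 := h.pen.Shi
  constructor
  · nlinarith only [a1, a2, a3, a4, mul_pos (sub_pos.mpr a1) (sub_pos.mpr a3)]
  · nlinarith only [a1, a2, a3, a4, mul_pos (sub_pos.mpr a2) (sub_pos.mpr a3)]

theorem ratG : (2.5 * (0.475528258 + (0.181635632 - 1.051462224 * p + 0.324919696 * q + 0.425325404 * l) * s + (0.293892626 - 0.324919696 * p + 1.051462224 * q - 0.162459848 * l) * q + (0.587785252 - (0.181635632 - 1.051462224 * p + 0.324919696 * q + 0.425325404 * l)) * p) - 0.8927 * ((1.809016994 + l) * (0.713292387 + 0.324919696 * p + 0.850650808 * q - 0.131432778 * l))) - 1e-7 ≤ gg C S x L s p q Ta Tb := by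
  unfold gg
  rw [h.le]
  obtain ⟨⟨b1, b2⟩, ⟨b3, b4⟩, b5, b6⟩ := h.approx
  have a1 := h.pen.Clo
  have a2 := h.pen.Chi
  have a3 := h.pen.Slo
  have a4 := h.pen.Shi
  obtain ⟨k1, k2⟩ := h.CS_close
  have hl0 := h.hl0
  have hx0 : 0 ≤ x := by linarith only [b6, h.hl1, h.hp, h.hq]
  have hx1 : x ≤ 1 := by
    have := h.hna
    nlinarith only [this, sq_nonneg y, hx0]
  have m1 := mul_le_mul_of_nonneg_right b1 h.hp
  have m2 := mul_le_mul_of_nonneg_right b2 h.hs
  have m3 := mul_le_mul_of_nonneg_right b4 h.hq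
  have m4 := mul_le_mul_of_nonneg_right a3.le h.hp
  have m5 := mul_le_mul_of_nonneg_right a2.le hx0
  have m6 := mul_le_mul_of_nonneg_right b5 hl0
  have hp1 := h.hp1
  have hq1 := h.hq1
  have hs1 := h.hs1
  have hl1 := h.hl1
  linarith only [m1, m2, m3, m4, m5, m6, k1, hp1, hq1, hs1, hl1, b5, hx1]

theorem ratG' : gg C S x L s p q Ta Tb ≤ 1 := by
  unfold gg
  rw [h.le]
  obtain ⟨⟨b1, b2⟩, ⟨b3, b4⟩, b5, b6⟩ := h.approx
  have a1 := h.pen.Clo
  have a3 := h.pen.Slo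
  have a4 := h.pen.Shi
  obtain ⟨k1, k2⟩ := h.CS_close
  have hl0 := h.hl0
  have hp1 := h.hp1
  have hq1 := h.hq1
  have hs1 := h.hs1
  have hl1 := h.hl1
  have hp := h.hp
  have hq := h.hq
  have hs := h.hs
  have hx0 : 0.68 ≤ x := by linarith only [b6, hl1, hp, hq]
  have hTa := h.hTa1
  have hTb : Tb ≤ 0.5 := by linarith only [b3, hp, hq1, hl0]
  have hTa0 : -0.1 ≤ Ta := by linarith only [b2, hp1, hq, hl0]
  have m1 : Ta * s ≤ 0.5 * 0.190984 := by
    have := mul_le_mul_of_nonneg_right hTa hs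
    linarith only [this, hs1]
  have m2 : Tb * q ≤ 0.5 * 0.190984 := by
    have := mul_le_mul_of_nonneg_right hTb hq
    linarith only [this, hq1]
  have m3 : (S - Ta) * p ≤ 0.69 * 0.190984 := by
    have := mul_le_mul_of_nonneg_right (show S - Ta ≤ 0.69 by linarith only [a4, hTa0]) hp
    linarith only [this, hp1]
  have m4 : 1.8 * 0.68 ≤ (1 + C + l) * x :=
    mul_le_mul (by linarith only [a1, hl0]) hx0 (by norm_num) (by linarith only [a1, hl0])
  linarith only [m1, m2, m3, m4, k2]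

/-- Lower bound for `Ta`. -/
theorem Ta_ge (hc : Con5 S s p q Ta Tb) : 0.05 ≤ Ta := by
  by_contra hcon
  push Not at hcon
  obtain ⟨⟨b1, b2⟩, ⟨b3, b4⟩, -⟩ := h.approx
  have t1 := h.ratTP
  have hA := hc.A
  have a3 := h.pen.Slo
  have a4 := h.pen.Shi
  have hl0 := h.hl0
  have hp := h.hp
  have hq := h.hq
  have hl1 := h.hl1
  have p1 : 0.125 ≤ p := by linarith only [b2, hcon, hq, hl0]
  have q1 : q ≤ 0.079 := by linarith only [b2, hcon, t1, hl0, hl1, hq]
  have Tb1 : Tb ≤ 0.337 := by linarith only [b3, q1, p1, hl0]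
  have Ta1 : 0 ≤ Ta + 0.03 := by linarith only [b2, h.hp1, hq, hl0]
  have m1 : (S + Tb) * q ≤ 0.925 * q := mul_le_mul_of_nonneg_right (by linarith only [a4, Tb1]) hq
  have m2 : 0.557 * p ≤ (S + Ta) * p :=
    mul_le_mul_of_nonneg_right (by linarith only [a3, Ta1]) hp
  have p2 : 0.125 + 0.309 * q ≤ p := by linarith only [b2, hcon, hq, hl0]
  have q2 : 0.08 ≤ q := by linarith only [m1, m2, hA, p2, hq]
  linarith only [q1, q2]

end Dat

namespace Dat

variable {C S c2 s2 x y L s p q Ta Tb l : ℝ}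

theorem c_i (h : Dat C S c2 s2 x y L s p q Ta Tb l) (hc : Con5 S s p q Ta Tb) (hqs : q ≤ s)
    (hF : 2 * (Ta ^ 2 * (l - s)) ≤ (q - s) ^ 2) : 0.002 - 2e-6 ≤ gg C S x L s p q Ta Tb := by
  have hTa : 0 < Ta := by linarith only [h.Ta_ge hc]
  have h1 := P5.branch0 (p := p) (q := q) (s := s) (l := l) (by linarith only [h.hp])
    (by linarith only [h.hp1]) (by linarith only [h.hq]) (by linarith only [h.hq1])
    (by linarith only [h.hs]) (by linarith only [h.hs1]) (by linarith only [h.hl1])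
    (sub_nonneg.mpr h.hls) (sub_nonneg.mpr hqs) h.ratTP h.ratTQ (h.ratA hc) (h.ratB hc)
    (h.ratC hc) (h.ratD hc) (h.ratF hTa hF)
  have h2 := h.ratG
  linarith only [h1, h2]

theorem c_ii (h : Dat C S c2 s2 x y L s p q Ta Tb l) (hc : Con5 S s p q Ta Tb) (hqs : s ≤ q)
    (hF : 2 * (Ta ^ 2 * (l - s)) ≤ (q - s) ^ 2) : -0.002 - 2e-6 ≤ gg C S x L s p q Ta Tb := by
  have hTa : 0 < Ta := by linarith only [h.Ta_ge hc]
  have h1 := P5.branch1 (p := p) (q := q) (s := s) (l := l) (by linarith only [h.hp])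
    (by linarith only [h.hp1]) (by linarith only [h.hq]) (by linarith only [h.hq1])
    (by linarith only [h.hs]) (by linarith only [h.hs1]) (by linarith only [h.hl1])
    (sub_nonneg.mpr h.hls) (sub_nonneg.mpr hqs) h.ratTP h.ratTQ (h.ratA hc) (h.ratB hc)
    (h.ratC hc) (h.ratD hc) (h.ratF hTa hF)
  have h2 := h.ratG
  linarith only [h1, h2]

theorem c_iii (h : Dat C S c2 s2 x y L s p q Ta Tb l) (hc : Con5 S s p q Ta Tb) (hqs : s ≤ q)
    (hsl : l ≤ s) : 0.002 - 2e-6 ≤ gg C S x L s p q Ta Tb := by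
  have h1 := P5.branch2 (p := p) (q := q) (s := s) (l := l) (by linarith only [h.hp])
    (by linarith only [h.hp1]) (by linarith only [h.hq]) (by linarith only [h.hq1])
    (by linarith only [h.hs]) (by linarith only [h.hs1]) (by linarith only [h.hl1])
    (sub_nonneg.mpr h.hls) (sub_nonneg.mpr hqs) (sub_nonneg.mpr hsl) h.ratTP h.ratTQ
    (h.ratA hc) (h.ratB hc) (h.ratC hc) (h.ratD hc)
  have h2 := h.ratG
  linarith only [h1, h2]

theorem c_iv (h : Dat C S c2 s2 x y L s p q Ta Tb l) (hc : Con5 S s p q Ta Tb) (hqs : q ≤ s) :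
    -0.002 - 2e-6 ≤ gg C S x L s p q Ta Tb + 2.5 * (Ta * (l - s)) := by
  have h1 := P5.branch3 (p := p) (q := q) (s := s) (l := l) (by linarith only [h.hp])
    (by linarith only [h.hp1]) (by linarith only [h.hq]) (by linarith only [h.hq1])
    (by linarith only [h.hs]) (by linarith only [h.hs1]) (by linarith only [h.hl1])
    (sub_nonneg.mpr h.hls) (sub_nonneg.mpr hqs) h.ratTP h.ratTQ
    (h.ratA hc) (h.ratB hc) (h.ratC hc) (h.ratD hc)
  have h2 := h.ratG
  obtain ⟨⟨b1, b2⟩, -, -⟩ := h.approx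
  have m1 := mul_le_mul_of_nonneg_right b2 (sub_nonneg.mpr h.hls)
  have hl1 := h.hl1
  have hs := h.hs
  linarith only [h1, h2, m1, hl1, hs]

theorem c_v (h : Dat C S c2 s2 x y L s p q Ta Tb l) (hc : Con5 S s p q Ta Tb) (hqs : s ≤ q)
    (hF : (q - s) ^ 2 ≤ 2 * (Ta ^ 2 * (l - s))) :
    0 ≤ Ta * (gg C S x L s p q Ta Tb + 0.002 + 2e-6) - 1.25 * ((q - s) ^ 2 - 2 * (Ta ^ 2 * (l - s))) := by
  have hTa5 := h.Ta_ge hc
  have hTa : 0 < Ta := by linarith only [hTa5]
  have h1 := P5.branch4 (p := p) (q := q) (s := s) (l := l) (by linarith only [h.hp])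
    (by linarith only [h.hp1]) (by linarith only [h.hq]) (by linarith only [h.hq1])
    (by linarith only [h.hs]) (by linarith only [h.hs1]) (by linarith only [h.hl1])
    (sub_nonneg.mpr h.hls) (sub_nonneg.mpr hqs) h.ratTP h.ratTQ
    (h.ratA hc) (h.ratB hc) (h.ratC hc) (h.ratD hc) (h.ratF' hTa hF)
  have h2 := h.ratG
  have h3 := h.ratG'
  obtain ⟨⟨b1, b2⟩, -, -⟩ := h.approx
  obtain ⟨c1, c2⟩ := sq_close b1 b2 hTa h.hTa1
  have m1 := mul_le_mul_of_nonneg_right c2 (sub_nonneg.mpr h.hls)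
  have hl1 := h.hl1
  have hs := h.hs
  have hTa1 := h.hTa1
  have hls := sub_nonneg.mpr h.hls
  generalize hG : 2.5 * (0.475528258 + (0.181635632 - 1.051462224 * p + 0.324919696 * q + 0.425325404 * l) * s + (0.293892626 - 0.324919696 * p + 1.051462224 * q - 0.162459848 * l) * q + (0.587785252 - (0.181635632 - 1.051462224 * p + 0.324919696 * q + 0.425325404 * l)) * p) - 0.8927 * ((1.809016994 + l) * (0.713292387 + 0.324919696 * p + 0.850650808 * q - 0.131432778 * l)) = G at h1 h2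
  generalize hg : gg C S x L s p q Ta Tb = g at h2 h3 ⊢
  generalize hta : (0.181635632 - 1.051462224 * p + 0.324919696 * q + 0.425325404 * l) = ta at h1 b1 b2 c1 c2 m1
  -- `ta (G + 0.002) ≤ Ta (g + 0.002 + 2e-6) - error`
  have m2 := mul_le_mul_of_nonneg_left h2 hTa.le
  have hG1 : G + 0.002 ≤ 1.1 := by linarith only [h2, h3]
  have key : ta * (G + 0.002) ≤ Ta * (G + 0.002) + 1.1e-8 := by
    rcases le_total 0 (G + 0.002) with h0 | h0
    · nlinarith only [b2, hG1, h0, mul_nonneg (sub_nonneg.mpr b2) h0]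
    · have ta0 : 0 < ta := by linarith only [b1, hTa5]
      have ta1 : ta ≤ 0.51 := by linarith only [b2, hTa1]
      have k0 : ta * (l - s) ≤ 0.51 * 0.190984 :=
        mul_le_mul ta1 (by linarith only [hl1, hs]) hls (by norm_num)
      have k1 := mul_le_mul_of_nonneg_left k0 ta0.le
      have k2 : -1 ≤ G + 0.002 := by
        by_contra hcon
        push Not at hcon
        have k3 := mul_le_mul_of_nonneg_left hcon.le ta0.le
        nlinarith only [k1, k3, h1, sq_nonneg (q - s), ta0]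
      nlinarith only [k2, h0, mul_nonneg (sub_nonneg.mpr b1) (neg_nonneg.mpr h0)]
  linarith only [h1, m1, m2, key, hTa5, hl1, hs]

end Dat

end Pool.Agent.helper79.RS
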