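import Pool.Agent.helper79.RS.FarA

/-!
RS-12: bodies with an eight-fold symmetry.
-/

open MeasureTheory
open scoped ENNReal Pointwise

namespace Pool.Agent.helper79.RS

open Pool.Agent.helper42.PD

theorem det2_pt' (a b c d : ℝ) : det2 (pt a b) (pt c d) = a * d - b * c := rfl

/-- The numbers of the regular octagon. -/
structure Oct (C S r : ℝ) : Prop where
  sq : S ^ 2 + C ^ 2 = 1
  r2 : r ^ 2 = 1 / 2
  e1 : r * (C - S) = S
  e2 : r * (C + S) = C
  rlo : 0.70710678 < r
  rhi : r < 0.70710679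
  Clo : 0.92387953 < C
  Chi : C < 0.92387954
  Slo : 0.38268343 < S
  Shi : S < 0.38268344

theorem oct : Oct (Real.cos (Real.pi / 8)) (Real.sin (Real.pi / 8)) (Real.sqrt 2 / 2) := by
  have hpi := Real.pi_pos
  set C := Real.cos (Real.pi / 8) with hC
  set S := Real.sin (Real.pi / 8) with hS
  have hsq : S ^ 2 + C ^ 2 = 1 := Real.sin_sq_add_cos_sq _
  have h2 : Real.sqrt 2 ^ 2 = 2 := Real.sq_sqrt (by norm_num)
  have r2 : (Real.sqrt 2 / 2) ^ 2 = 1 / 2 := by
    rw [div_pow, h2]; norm_num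
  have hrlo : 0.70710678 < Real.sqrt 2 / 2 := by
    have : (1.41421356 : ℝ) < Real.sqrt 2 := by
      rw [Real.lt_sqrt (by norm_num)]; norm_num
    linarith
  have hrhi : Real.sqrt 2 / 2 < 0.70710679 := by
    have : Real.sqrt 2 < 1.41421357 := by
      rw [Real.sqrt_lt' (by norm_num)]; norm_num
    linarith
  have e1 : Real.sqrt 2 / 2 * (C - S) = S := by
    have h3 : Real.sin (Real.pi / 8) = Real.sin (Real.pi / 4 - Real.pi / 8) := by
      congr 1; ring
    rw [Real.sin_sub, Real.sin_pi_div_four, Real.cos_pi_div_four] at h3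
    rw [← hC, ← hS] at h3
    linarith
  have e2 : Real.sqrt 2 / 2 * (C + S) = C := by
    have h3 : Real.cos (Real.pi / 8) = Real.cos (Real.pi / 4 - Real.pi / 8) := by
      congr 1; ring
    rw [Real.cos_sub, Real.sin_pi_div_four, Real.cos_pi_div_four] at h3
    rw [← hC, ← hS] at h3
    linarith
  set r := Real.sqrt 2 / 2 with hr
  have hCpos : 0 < C := Real.cos_pos_of_mem_Ioo ⟨by linarith, by linarith⟩
  have hSpos : 0 < S := Real.sin_pos_of_pos_of_lt_pi (by positivity) (by linarith)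
  have hC2 : 2 * C ^ 2 = 1 + r := by
    have h3 := Real.cos_two_mul (Real.pi / 8)
    have h4 : 2 * (Real.pi / 8) = Real.pi / 4 := by ring
    rw [h4, Real.cos_pi_div_four, ← hC] at h3
    linarith
  have hS2 : 2 * S ^ 2 = 1 - r := by linarith
  refine ⟨hsq, r2, e1, e2, hrlo, hrhi, ?_, ?_, ?_, ?_⟩
  · nlinarith
  · nlinarith
  · nlinarith
  · nlinarith

/-- The inequality for one side. -/
theorem poly8 {C S r : ℝ} (h : Oct C S r) {x u : ℝ} (hu1 : C ≤ u) (hu2 : u ≤ 1)
    (hx1 : x ≤ (2 * r - 1 / 2) * u) (hx2 : x ^ 2 + u ^ 2 / 4 ≤ 1) :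
    0.8927 * (u * x) ≤ x * (2 * r * u - 2 * S) + C * u - r * u ^ 2 := by
  have r1 := h.rlo
  have r2 := h.rhi
  have b1 := h.Clo
  have b2 := h.Chi
  have b3 := h.Slo
  have b4 := h.Shi
  have hu0 : 0 < u := by linarith
  -- the coefficient of `x`
  have k1 : (2 * r - 0.8927) * u - 2 * S ≤ -0.243 := by
    have : (2 * r - 0.8927) * u ≤ (2 * r - 0.8927) * 1 :=
      mul_le_mul_of_nonneg_left hu2 (by linarith)
    linarith
  have k2 : 0.5215135 * u - 0.76536688 ≤ (2 * r - 0.8927) * u - 2 * S := by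
    have : 0.5215135 * u ≤ (2 * r - 0.8927) * u :=
      mul_le_mul_of_nonneg_right (by linarith) hu0.le
    linarith
  have k3 : 0.92387953 * u ≤ C * u := mul_le_mul_of_nonneg_right b1.le hu0.le
  have k4 : r * u ^ 2 ≤ 0.70710679 * u ^ 2 :=
    mul_le_mul_of_nonneg_right r2.le (sq_nonneg u)
  suffices H : 0 ≤ x * ((2 * r - 0.8927) * u - 2 * S) + C * u - r * u ^ 2 by linarith
  rcases le_total u 0.962 with hu | hu
  · have hx : x ≤ 0.91421358 * u := by
      refine le_trans hx1 ?_
      exact mul_le_mul_of_nonneg_right (by linarith) hu0.le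
    have i1 : 0.91421358 * u * ((2 * r - 0.8927) * u - 2 * S) ≤
        x * ((2 * r - 0.8927) * u - 2 * S) := by
      apply mul_le_mul_of_nonpos_right hx
      linarith
    have i2 : 0.91421358 * u * (0.5215135 * u - 0.76536688) ≤
        0.91421358 * u * ((2 * r - 0.8927) * u - 2 * S) :=
      mul_le_mul_of_nonneg_left k2 (by linarith)
    nlinarith
  · have hx : x ≤ 1.14716 - 0.28105 * u := by
      nlinarith [sq_nonneg (x - 0.8717), sq_nonneg (u / 2 - 0.49)]
    have i1 : (1.14716 - 0.28105 * u) * ((2 * r - 0.8927) * u - 2 * S) ≤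
        x * ((2 * r - 0.8927) * u - 2 * S) := by
      apply mul_le_mul_of_nonpos_right hx
      linarith
    have i2 : (1.14716 - 0.28105 * u) * (0.5215135 * u - 0.76536688) ≤
        (1.14716 - 0.28105 * u) * ((2 * r - 0.8927) * u - 2 * S) :=
      mul_le_mul_of_nonneg_left k2 (by linarith)
    nlinarith

/-- A body with an eight-fold symmetry in the frame of an edge of the octagon. -/
structure Eig (C S r : ℝ) (K : Set Plane) : Prop where
  oct : Oct C S r
  far : FarA 8 (Real.pi / 8) K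
  r1 : ∀ x y, pt x y ∈ K → pt (r * x + r * y) (-r * x + r * y) ∈ K
  r3 : ∀ x y, pt x y ∈ K → pt (-r * x + r * y) (-r * x - r * y) ∈ K
  r4 : ∀ x y, pt x y ∈ K → pt (-x) (-y) ∈ K
  vlt : pt (-S) C ∈ K

theorem FarA.eig {K : Set Plane} (h : FarA 8 (Real.pi / 8) K) :
    Eig (Real.cos (Real.pi / 8)) (Real.sin (Real.pi / 8)) (Real.sqrt 2 / 2) K := by
  have e1 : 2 * Real.pi / ((8 : ℕ) : ℝ) * ((-1 : ℤ) : ℝ) = -(Real.pi / 4) := by
    push_cast; ring
  have e3 : 2 * Real.pi / ((8 : ℕ) : ℝ) * ((-3 : ℤ) : ℝ) = -(Real.pi - Real.pi / 4) := by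
    push_cast; ring
  have e4 : 2 * Real.pi / ((8 : ℕ) : ℝ) * ((4 : ℤ) : ℝ) = Real.pi := by
    push_cast; ring
  refine ⟨RS.oct, h, ?_, ?_, ?_, ?_⟩
  · intro x y hz
    have := h.sym.int (by norm_num) (-1) hz
    rw [e1, rot_pt, Real.cos_neg, Real.sin_neg, Real.cos_pi_div_four, Real.sin_pi_div_four] at this
    convert this using 2 <;> ring
  · intro x y hz
    have := h.sym.int (by norm_num) (-3) hz
    rw [e3, rot_pt, Real.cos_neg, Real.sin_neg, Real.cos_pi_sub, Real.sin_pi_sub,
      Real.cos_pi_div_four, Real.sin_pi_div_four] at this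
    convert this using 2 <;> ring
  · intro x y hz
    have := h.sym.int (by norm_num) 4 hz
    rw [e4, rot_pt, Real.cos_pi, Real.sin_pi] at this
    convert this using 2 <;> ring
  · have := h.top
    rwa [rot_top] at this

namespace Eig

variable {C S r : ℝ} {K : Set Plane} (h : Eig C S r K)

include h

theorem sum_eq : C + S = 2 * r * C := by
  have h1 := h.oct.e2
  have h2 := h.oct.r2
  linear_combination (2 * r) * h1 - 2 * (C + S) * h2

theorem diff_eq : C - S = 2 * r * S := by
  have h1 := h.oct.e1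
  have h2 := h.oct.r2
  linear_combination (2 * r) * h1 - 2 * (C - S) * h2

theorem v1 : pt S C ∈ K := by
  have := h.r1 _ _ h.vlt
  have h1 := h.oct.e1
  have h2 := h.oct.e2
  convert this using 2 <;> linarith

theorem v3 : pt C (-S) ∈ K := by
  have := h.r3 _ _ h.vlt
  have h1 := h.oct.e1
  have h2 := h.oct.e2
  convert this using 2 <;> linarith

theorem v2 : pt C S ∈ K := by
  have := h.r1 _ _ h.v1
  have h1 := h.oct.e1
  have h2 := h.oct.e2
  convert this using 2 <;> linarith

theorem v4 : pt S (-C) ∈ K := by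
  have := h.r4 _ _ h.vlt
  convert this using 2
  ring

theorem v5 : pt (-S) (-C) ∈ K := h.r4 _ _ h.v1

theorem L_eq {L x0 y0 xr yr xl yl t : ℝ} (hch : Chords K L x0 y0 xr yr xl yl)
    (ht : pt 0 (-t) ∈ K) (tmax : ∀ u, pt 0 (-u) ∈ K → u ≤ t) : L = 2 * t := by
  apply le_antisymm
  · have h1 := h.r4 _ _ hch.mem0'
    have h2 := convex_combo h.far.conv hch.mem0 h1 (t := 1 / 2) (by norm_num) (by norm_num)
    have h3 := tmax (L / 2) (by convert h2 using 2 <;> ring)
    linarith
  · have h1 := h.r4 _ _ ht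
    have h2 := hch.max 0 (-t) (2 * t) ht (by convert h1 using 2 <;> ring)
    exact h2

theorem xr_ge {L x0 y0 xr yr xl yl : ℝ} (hch : Chords K L x0 y0 xr yr xl yl)
    (hL1 : 2 * C ≤ L) (hL2 : L ≤ 2) : 2 * r * C - L / 4 ≤ xr := by
  have b1 := h.oct.Clo
  have b2 := h.oct.Chi
  have b3 := h.oct.Slo
  have b4 := h.oct.Shi
  have hse := h.sum_eq
  have hd : 0 < C - S := by linarith
  have hX1 : S ≤ 2 * r * C - L / 4 := by rw [← hse]; linarith
  have hX2 : 2 * r * C - L / 4 ≤ C := by rw [← hse]; linarith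
  set X := 2 * r * C - L / 4 with hX
  obtain ⟨t, ht⟩ : ∃ t, t * (C - S) = X - S := ⟨(X - S) / (C - S), by field_simp⟩
  have t1 : 0 ≤ t := by
    apply le_of_mul_le_mul_right _ hd
    rw [ht]
    linarith
  have t2 : t ≤ 1 := by
    apply le_of_mul_le_mul_right _ hd
    rw [ht]
    linarith
  have m1 := convex_combo h.far.conv h.v4 h.v3 t1 t2
  have m2 := convex_combo h.far.conv h.v1 h.v2 t1 t2
  apply hch.right X (-(L / 4))
  · convert m1 using 2
    · linarith
    · linarith
  · convert m2 using 2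
    · linarith
    · linarith

/-- The geometry of one side. -/
theorem side {L x0 y0 xr yr xl yl : ℝ} (hch : Chords K L x0 y0 xr yr xl yl) :
    ∃ A, ENNReal.ofReal (2 * A) ≤ volume K ∧ 0.8927 * (L * xr) ≤ A := by
  have b1 := h.oct.Clo
  have b2 := h.oct.Chi
  have b3 := h.oct.Slo
  have b4 := h.oct.Shi
  have b5 := h.oct.rlo
  have b6 := h.oct.rhi
  have r2 := h.oct.r2
  have o1 := h.oct.e1
  have o2 := h.oct.e2
  obtain ⟨u, ht, nt, tmax⟩ := lowest h.far.cpt (interior_subset h.far.zero)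
  have hL := h.L_eq hch ht tmax
  have hu1 : C ≤ u := by
    apply tmax
    have := convex_combo h.far.conv h.v5 h.v4 (t := 1 / 2) (by norm_num) (by norm_num)
    convert this using 2 <;> ring
  have hu2 : u ≤ 1 := by
    have := norm_le_one (h.far.ball _ ht)
    nlinarith only [this]
  subst hL
  have hxr := h.xr_ge hch (by linarith) (by linarith)
  have hna := norm_le_one (h.far.ball _ hch.memr)
  have hnb := norm_le_one (h.far.ball _ hch.memr')
  have ez : 2 * u / 2 = u := by ring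
  rw [ez] at hnb
  have hz := hch.memr
  have hz' := hch.memr'
  rw [ez] at hz'
  obtain ⟨x, hx⟩ : ∃ x, x = xr := ⟨_, rfl⟩
  obtain ⟨y, hy⟩ : ∃ y, y = yr := ⟨_, rfl⟩
  rw [← hx] at hxr hna hnb hz hz' ⊢
  rw [← hy] at hna hnb hz hz'
  have hx2 : x ^ 2 + u ^ 2 / 4 ≤ 1 := by nlinarith only [hna, hnb, sq_nonneg (2 * y + u)]
  obtain ⟨w, hw⟩ : ∃ w, w = y + u := ⟨_, rfl⟩
  rw [← hw] at hnb hz'
  have hCS := h.sum_eq
  have hxlo : C + S - u / 2 ≤ x := by rw [hCS]; linarith only [hxr]
  have hx0 : 0.8 ≤ x := by linarith only [hxlo, b1, b3, hu2]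
  have hu2' : 0.8535 ≤ u ^ 2 := by nlinarith only [hu1, b1]
  have hx1 : x ≤ 0.888 := by nlinarith only [hx2, hu2', hx0]
  obtain ⟨p, hp⟩ : ∃ p, p = r * (x + w) - C := ⟨_, rfl⟩
  obtain ⟨q, hq⟩ : ∃ q, q = r * (x - y) - C := ⟨_, rfl⟩
  obtain ⟨Ta, hTa⟩ : ∃ Ta, Ta = r * (x + y) := ⟨_, rfl⟩
  obtain ⟨Tb, hTb⟩ : ∃ Tb, Tb = r * (x - w) := ⟨_, rfl⟩
  have ma : pt Ta (-(C + q)) ∈ K := by
    have := h.r1 _ _ hz
    convert this using 2
    · rw [hTa]; ring
    · rw [hq]; ring
  have mb : pt (-Tb) (-(C + p)) ∈ K := by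
    have := h.r3 _ _ hz'
    convert this using 2
    · rw [hTb]; ring
    · rw [hp]; ring
  -- `w` and `-y` are large
  have key : ∀ v : ℝ, x ^ 2 + (u - v) ^ 2 ≤ 1 → 0 < C * v - S * x := by
    intro v hv
    by_contra hcon
    push Not at hcon
    have h1 : v ≤ 0.4142136 * x := by
      have : C * v ≤ C * (0.4142136 * x) := by
        have h2 : S * x ≤ C * 0.4142136 * x :=
          mul_le_mul_of_nonneg_right (by linarith only [b1, b4]) (by linarith only [hx0])
        linarith only [h2, hcon]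
      exact le_of_mul_le_mul_left this (by linarith only [b1])
    rcases le_total x 0.8446 with hx3 | hx3
    · have h2 : 2.61312 - 2.4142136 * x ≤ u - v := by linarith only [h1, hxlo, b1, b3]
      have h3 : 0 ≤ 2.61312 - 2.4142136 * x := by linarith only [hx3]
      have h4 : (2.61312 - 2.4142136 * x) ^ 2 ≤ (u - v) ^ 2 := pow_le_pow_left₀ h3 h2 2
      nlinarith only [h4, hv, hx3, sq_nonneg (x - 0.8446)]
    · have h2 : 0.92387953 - 0.4142136 * x ≤ u - v := by linarith only [h1, hu1, b1]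
      have h3 : 0 ≤ 0.92387953 - 0.4142136 * x := by linarith only [hx1]
      have h4 : (0.92387953 - 0.4142136 * x) ^ 2 ≤ (u - v) ^ 2 := pow_le_pow_left₀ h3 h2 2
      nlinarith only [h4, hv, hx3, sq_nonneg (x - 0.8446)]
  have kw : 0 < C * w - S * x := key w (by
    have : (u - w) ^ 2 = y ^ 2 := by rw [hw]; ring
    rw [this]; exact hna)
  have ky : 0 < C * (-y) - S * x := key (-y) (by
    have : (u - -y) ^ 2 = w ^ 2 := by rw [hw]; ring
    rw [this]; exact hnb)
  have g1 : S * (C + p) - C * Tb = C * w - S * x := by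
    rw [hp, hTb]
    linear_combination (-x) * o1 + w * o2
  have g2 : S * (C + q) - C * Ta = C * (-y) - S * x := by
    rw [hq, hTa]
    linear_combination (-x) * o1 - y * o2
  have hwx : w ≤ 0.61 := by nlinarith only [hnb, hx0]
  have hwx' : -0.61 ≤ w := by nlinarith only [hnb, hx0]
  have hyx : y ≤ 0.61 := by nlinarith only [hna, hx0]
  have hyx' : -0.61 ≤ y := by nlinarith only [hna, hx0]
  have hr0 : 0 < r := by linarith only [b5]
  have hTa0 : 0 < Ta := by rw [hTa]; exact mul_pos hr0 (by linarith only [hx0, hyx'])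
  have hTb0 : 0 < Tb := by rw [hTb]; exact mul_pos hr0 (by linarith only [hx0, hwx])
  have hCp : 0 < C + p := by
    have : C + p = r * (x + w) := by rw [hp]; ring
    rw [this]
    exact mul_pos hr0 (by linarith only [hx0, hwx'])
  have hCq : 0 < C + q := by
    have : C + q = r * (x - y) := by rw [hq]; ring
    rw [this]
    exact mul_pos hr0 (by linarith only [hx0, hyx])
  have hu0 : 0 < u := by linarith only [hu1, b1]
  -- the point in the middle is high
  have hs : x ≤ (2 * r - 1 / 2) * u := by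
    have h1 : 0 < Tb * (C + q) + Ta * (C + p) := by
      have i1 := mul_pos hTb0 hCq
      have i2 := mul_pos hTa0 hCp
      linarith only [i1, i2]
    have i3 := mul_pos hTb0 hu0
    have i4 := mul_pos hTa0 hu0
    have h2 := below h.far.conv h.far.zero mb ma nt
      (by rw [det2_pt']; linarith only [h1]) (by rw [det2_pt']; linarith only [i3])
      (by rw [det2_pt']; linarith only [i4])
    rw [det2_pt', det2_pt', det2_pt'] at h2
    have h3 : Tb * (C + q) + Ta * (C + p) ≤ (Ta + Tb) * u := by linarith only [h2]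
    -- `Tb - Ta = q - p`
    have h4 : Tb - Ta = q - p := by rw [hTa, hTb, hp, hq]; ring
    have h5 : (Ta + Tb) * ((C + p) + (C + q)) ≤ (Ta + Tb) * (2 * u) := by
      have : 0 ≤ (Tb - Ta) * (q - p) := by rw [h4]; exact mul_self_nonneg _
      linarith only [this, h3]
    have h6 := le_of_mul_le_mul_left h5 (by linarith only [hTa0, hTb0])
    have h7 : (C + p) + (C + q) = r * (2 * x + u) := by rw [hp, hq, hw]; ring
    rw [h7] at h6
    have h8 : r * (r * (2 * x + u)) ≤ r * (2 * u) := mul_le_mul_of_nonneg_left h6 hr0.le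
    have h9 : r * (r * (2 * x + u)) = 1 / 2 * (2 * x + u) := by
      rw [← mul_assoc, ← sq, r2]
    rw [h9] at h8
    linarith only [h8]
  have fin := poly8 h.oct hu1 hu2 hs hx2
  -- the area
  have hrot : pt S (-C) = rot (2 * Real.pi / ((8 : ℕ) : ℝ)) (pt (-S) (-C)) := by
    have e1 : 2 * Real.pi / ((8 : ℕ) : ℝ) = Real.pi / 4 := by push_cast; ring
    have hr : r = Real.sqrt 2 / 2 := by
      have h2 : Real.sqrt 2 ^ 2 = 2 := Real.sq_sqrt (by norm_num)
      have h3 : (Real.sqrt 2 / 2) ^ 2 = 1 / 2 := by rw [div_pow, h2]; norm_num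
      have h4 : 0 ≤ Real.sqrt 2 := Real.sqrt_nonneg _
      have h5 : r ^ 2 = (Real.sqrt 2 / 2) ^ 2 := by rw [r2, h3]
      exact (sq_eq_sq₀ hr0.le (by positivity)).mp h5
    rw [e1, rot_pt, Real.cos_pi_div_four, Real.sin_pi_div_four, ← hr]
    congr 1
    · linarith only [o1]
    · linarith only [o2]
  set P : ℕ → Plane := fun i => match i with
    | 0 => pt (-S) (-C)
    | 1 => pt (-Tb) (-(C + p))
    | 2 => pt 0 (-u)
    | 3 => pt Ta (-(C + q))
    | _ => pt S (-C) with hP
  have hPK : ∀ i ≤ 4, P i ∈ K := by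
    intro i hi
    interval_cases i
    · exact h.v5
    · exact mb
    · exact ht
    · exact ma
    · exact h.v4
  have hneg : ∀ i ≤ 4, P i 1 < 0 := by
    intro i hi
    interval_cases i <;> simp only [hP, pt_one] <;> linarith only [hCp, hCq, hu0, b1]
  have e0 : det2 (P 0) (P 1) = S * (C + p) - C * Tb := by
    simp only [hP, det2_pt']; ring
  have e1 : det2 (P 1) (P 2) = Tb * u := by
    simp only [hP, det2_pt']; ring
  have e2 : det2 (P 2) (P 3) = Ta * u := by
    simp only [hP, det2_pt']; ring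
  have e3 : det2 (P 3) (P 4) = S * (C + q) - C * Ta := by
    simp only [hP, det2_pt']; ring
  have hcons : ∀ i < 4, 0 < det2 (P i) (P (i + 1)) := by
    intro i hi
    interval_cases i
    · rw [e0, g1]; exact kw
    · rw [e1]; exact mul_pos hTb0 hu0
    · rw [e2]; exact mul_pos hTa0 hu0
    · rw [e3, g2]; exact ky
  have area := sector_area (n := 8) (m := 4) (by norm_num) h.far.conv (interior_subset h.far.zero)
    h.far.sym P hPK (det_chain hneg hcons) (by norm_num) hrot
  simp only [Finset.sum_range_succ, Finset.sum_range_zero, zero_add] at area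
  rw [e0, show P (1 + 1) = P 2 from rfl, show P (2 + 1) = P 3 from rfl,
    show P (3 + 1) = P 4 from rfl, e1, e2, e3, g1, g2] at area
  refine ⟨2 * (C * w - S * x + Tb * u + Ta * u + (C * (-y) - S * x)), ?_, ?_⟩
  · refine le_trans (ENNReal.ofReal_le_ofReal ?_) area
    push_cast
    linarith
  · rw [hTa, hTb, hw]
    linarith only [fin]

end Eig

/-- Eight-fold symmetry. -/
theorem ineq_eight {K : Set Plane} (hF : FarA 8 (Real.pi / 8) K) : Ineq 0.8927 K := by
  intro L x0 y0 xr yr xl yl hch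
  have h := hF.eig
  have hM : FarA 8 (Real.pi / 8) (Mir K) := by
    have h1 := hF.mirror (by norm_num)
    refine ⟨h1.conv, h1.cpt, h1.zero, h1.sym, h1.ball, ?_⟩
    have h2 := h1.sym.int (by norm_num) 1 h1.top
    rw [rot_rot] at h2
    convert h2 using 2
    push_cast
    ring
  obtain ⟨A, hA1, hA2⟩ := h.side hch
  obtain ⟨B, hB1, hB2⟩ := hM.eig.side hch.mirror
  rw [volume_Mir hF.cpt] at hB1
  exact two_sides hA1 hB1 hA2 hB2

end Pool.Agent.helper79.RS
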