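import Pool.Agent.helper79.RS.Far

/-!
RS-11: the farthest point frame, rotated.
-/

open MeasureTheory
open scoped ENNReal Pointwise

namespace Pool.Agent.helper79.RS

open Pool.Agent.helper42.PD

/-- A convex set with a symmetry of order `n` in the farthest point frame, rotated by `φ`. -/
structure FarA (n : ℕ) (φ : ℝ) (K : Set Plane) : Prop where
  conv : Convex ℝ K
  cpt : IsCompact K
  zero : (0 : Plane) ∈ interior K
  sym : SymK n K
  ball : ∀ z ∈ K, ‖z‖ ≤ 1
  top : rot φ (pt 0 1) ∈ K

/-- Normalisation by a farthest point. -/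
theorem farA {n : ℕ} {φ c : ℝ} (H : ∀ K : Set Plane, FarA n φ K → Ineq c K)
    {K : Set Plane} (hK : Convex ℝ K) (hc : IsCompact K) (h0 : (0 : Plane) ∈ interior K)
    (hsym : SymK n K) : ENNReal.ofReal c ≤ packingDensity K := by
  obtain ⟨v, hv, hmax⟩ := hc.exists_isMaxOn (f := fun z => ‖z‖) ⟨0, interior_subset h0⟩
    continuous_norm.continuousOn
  have hv0 : v ≠ 0 := by
    rintro rfl
    have h1 : K ⊆ {0} := by
      intro z hz
      have h2 := hmax hz
      simp only [Set.mem_setOf_eq, norm_zero] at h2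
      exact norm_le_zero_iff.mp h2
    have h3 : (0 : Plane) ∈ interior ({0} : Set Plane) := interior_mono h1 h0
    rw [interior_singleton] at h3
    exact h3
  have hR : 0 < ‖v‖ := norm_pos_iff.mpr hv0
  obtain ⟨θ, hθ⟩ := exists_rot hv0
  set K2 : Set Plane := rot (φ + θ) '' K with hK2
  have hconv : Convex ℝ K2 := hK.linear_image (rotIso (φ + θ)).toLinearEquiv.toLinearMap
  have hcomp : IsCompact K2 := hc.image (rotIso (φ + θ)).continuous
  have h02 : (0 : Plane) ∈ interior K2 := by
    rw [hK2, interior_rot]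
    refine ⟨0, h0, ?_⟩
    rw [← rotIso_apply, map_zero]
  have hr : 0 < ‖v‖⁻¹ := inv_pos.mpr hR
  have hineq : Ineq c (‖v‖⁻¹ • K2) := by
    apply H
    refine ⟨hconv.smul _, hcomp.smul _, ?_, (hsym.image_rot (φ + θ)).smul _, ?_, ?_⟩
    · rw [interior_smul₀ hr.ne']
      exact ⟨0, h02, smul_zero _⟩
    · rintro _ ⟨_, ⟨z, hz, rfl⟩, rfl⟩
      have h1 : ‖z‖ ≤ ‖v‖ := hmax hz
      change ‖‖v‖⁻¹ • rot (φ + θ) z‖ ≤ 1
      rw [norm_smul, norm_rot, Real.norm_of_nonneg hr.le, inv_mul_le_iff₀ hR, mul_one]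
      exact h1
    · refine ⟨rot (φ + θ) v, ⟨v, hv, rfl⟩, ?_⟩
      change ‖v‖⁻¹ • rot (φ + θ) v = rot φ (pt 0 1)
      rw [← rot_rot, hθ, ← rot_smul, pt_smul, mul_zero, inv_mul_cancel₀ hR.ne']
  have h1 := (Ineq.of_smul hr hineq).density hconv hcomp ⟨0, h02⟩
  have h2 : packingDensity K2 = packingDensity K :=
    packingDensity_image (rotIso (φ + θ)).toIsometryEquiv
  rwa [h2] at h1

theorem rot_top (φ : ℝ) : rot φ (pt 0 1) = pt (-Real.sin φ) (Real.cos φ) := by
  rw [rot_pt]
  congr 1 <;> ring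

theorem FarA.mirror {n : ℕ} (hn : n ≠ 0) {φ : ℝ} {K : Set Plane} (h : FarA n φ K) :
    FarA n (-φ) (Mir K) where
  conv := h.conv.linear_preimage mir.toLinearEquiv.toLinearMap
  cpt := mir.toHomeomorph.isCompact_preimage.mpr h.cpt
  zero := by
    rw [interior_Mir]
    change mir 0 ∈ interior K
    rw [map_zero]
    exact h.zero
  sym := by
    intro z hz
    change mir (rot _ z) ∈ K
    rw [mir_rot]
    have := h.sym.int hn (-1) (z := mir z) hz
    convert this using 2
    push_cast
    ring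
  ball := by
    intro z hz
    rw [← mir.norm_map]
    exact h.ball _ hz
  top := by
    have := h.top
    rw [rot_top] at this
    rw [rot_top, mem_Mir, Real.cos_neg, Real.sin_neg, neg_neg]
    exact this

theorem volume_Mir {K : Set Plane} (hc : IsCompact K) : volume (Mir K) = volume K :=
  mir.measurePreserving.measure_preimage hc.measurableSet.nullMeasurableSet

/-- Both sides together. -/
theorem two_sides {K : Set Plane} {c A B L xr xl : ℝ} (hA : ENNReal.ofReal (2 * A) ≤ volume K)
    (hB : ENNReal.ofReal (2 * B) ≤ volume K) (h1 : c * (L * xr) ≤ A) (h2 : c * (L * -xl) ≤ B) :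
    ENNReal.ofReal (c * (L * (xr - xl))) ≤ volume K := by
  rcases le_total A B with h | h
  · exact le_trans (ENNReal.ofReal_le_ofReal (by linarith)) hB
  · exact le_trans (ENNReal.ofReal_le_ofReal (by linarith)) hA

end Pool.Agent.helper79.RS
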