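import Pool.Agent.helper79.RS.Side7
import Pool.Agent.helper79.RS.Far

/-!
RS-9: bodies with a seven-fold symmetry.
-/

open MeasureTheory
open scoped ENNReal Pointwise

namespace Pool.Agent.helper79.RS

open Pool.Agent.helper42.PD

theorem det2_pt (a b c d : ℝ) : det2 (pt a b) (pt c d) = a * d - b * c := rfl

namespace Hept

variable {C S c2 s2 c3 s3 : ℝ}

theorem id1 (h : Hept C S c2 s2 c3 s3) : S * s3 + C * c3 = c2 := by
  rw [h.s3e, h.c3e, h.c2e]
  linear_combination (4 * C ^ 2 - 1) * h.sq - (C / 2) * h.min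

theorem id2 (h : Hept C S c2 s2 c3 s3) : C * s3 - S * c3 = s2 := by
  rw [h.s3e, h.c3e, h.s2e]
  linear_combination (S / 2) * h.min

theorem id3 (h : Hept C S c2 s2 c3 s3) : C * c2 - S * s2 = c3 := by
  rw [h.s2e, h.c2e, h.c3e]
  linear_combination (-2 * C) * h.sq + (1 / 2) * h.min

theorem id4 (h : Hept C S c2 s2 c3 s3) : S * c2 + C * s2 = s3 := by
  rw [h.s2e, h.c2e, h.s3e]
  ring

end Hept

/-- A body with a seven-fold symmetry in the farthest point frame. -/
structure Sev (C S c2 s2 c3 s3 : ℝ) (K : Set Plane) : Prop where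
  hept : Hept C S c2 s2 c3 s3
  far : FarK 7 K
  r1 : ∀ x y, pt x y ∈ K → pt (c2 * x + s2 * y) (-s2 * x + c2 * y) ∈ K
  r2 : ∀ x y, pt x y ∈ K → pt (-c3 * x + s3 * y) (-s3 * x - c3 * y) ∈ K
  n1 : ∀ x y, pt x y ∉ interior K → pt (c2 * x + s2 * y) (-s2 * x + c2 * y) ∉ interior K
  n2 : ∀ x y, pt x y ∉ interior K → pt (-c3 * x + s3 * y) (-s3 * x - c3 * y) ∉ interior K
  vr : pt S (-C) ∈ K
  vl : pt (-S) (-C) ∈ K

theorem FarK.sev {K : Set Plane} (h : FarK 7 K) : Sev (Real.cos (Real.pi / 7))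
    (Real.sin (Real.pi / 7)) (Real.cos (2 * (Real.pi / 7))) (Real.sin (2 * (Real.pi / 7)))
    (Real.cos (3 * (Real.pi / 7))) (Real.sin (3 * (Real.pi / 7))) K := by
  have e1 : 2 * Real.pi / ((7 : ℕ) : ℝ) * ((-1 : ℤ) : ℝ) = -(2 * (Real.pi / 7)) := by
    push_cast; ring
  have e2 : 2 * Real.pi / ((7 : ℕ) : ℝ) * ((-2 : ℤ) : ℝ) = -(Real.pi - 3 * (Real.pi / 7)) := by
    push_cast; ring
  have e3 : 2 * Real.pi / ((7 : ℕ) : ℝ) * ((-3 : ℤ) : ℝ) = -(Real.pi - Real.pi / 7) := by
    push_cast; ring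
  have e4 : 2 * Real.pi / ((7 : ℕ) : ℝ) * ((3 : ℤ) : ℝ) = Real.pi - Real.pi / 7 := by
    push_cast; ring
  refine ⟨hept, h, ?_, ?_, ?_, ?_, ?_, ?_⟩
  · intro x y hz
    have := h.sym.int (by norm_num) (-1) hz
    rw [e1, rot_pt, Real.cos_neg, Real.sin_neg] at this
    convert this using 2
    ring
  · intro x y hz
    have := h.sym.int (by norm_num) (-2) hz
    rw [e2, rot_pt, Real.cos_neg, Real.sin_neg, Real.cos_pi_sub, Real.sin_pi_sub] at this
    convert this using 2 <;> ring
  · intro x y hz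
    have := h.sym.not_interior (by norm_num) (-1) hz
    rw [e1, rot_pt, Real.cos_neg, Real.sin_neg] at this
    convert this using 3
    ring
  · intro x y hz
    have := h.sym.not_interior (by norm_num) (-2) hz
    rw [e2, rot_pt, Real.cos_neg, Real.sin_neg, Real.cos_pi_sub, Real.sin_pi_sub] at this
    convert this using 3 <;> ring
  · have := h.sym.int (by norm_num) (-3) h.top
    rw [e3, rot_pt, Real.cos_neg, Real.sin_neg, Real.cos_pi_sub, Real.sin_pi_sub] at this
    convert this using 2 <;> ring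
  · have := h.sym.int (by norm_num) 3 h.top
    rw [e4, rot_pt, Real.cos_pi_sub, Real.sin_pi_sub] at this
    convert this using 2 <;> ring

namespace Sev

variable {C S c2 s2 c3 s3 : ℝ} {K : Set Plane} (h : Sev C S c2 s2 c3 s3 K)

include h

theorem v1 : pt s2 c2 ∈ K := by
  have := h.r1 _ _ h.far.top
  convert this using 2 <;> ring

theorem v2 : pt s3 (-c3) ∈ K := by
  have := h.r2 _ _ h.far.top
  convert this using 2 <;> ring

/-- Bounds for the position of a chord of half length. -/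
theorem crude {L x y : ℝ} (hL : 1 + C ≤ L) (hx : 0.79 ≤ x) (hna : x ^ 2 + y ^ 2 ≤ 1)
    (hnb : x ^ 2 + (y + L / 2) ^ 2 ≤ 1) :
    x ≤ 0.88 ∧ y + L / 2 ≤ 0.6132 ∧ -0.6132 ≤ y ∧ y ≤ -0.3372 ∧ 0.3372 ≤ y + L / 2 := by
  have b1 := h.hept.Clo
  have hL' : 1.90096886 ≤ L := by linarith
  have i1 : y + L / 2 ≤ 0.6132 := by nlinarith
  have i2 : -0.6132 ≤ y := by nlinarith
  refine ⟨?_, i1, i2, by linarith, by linarith⟩
  nlinarith [sq_nonneg (y + (y + L / 2))]

/-- The geometry of one side. -/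
theorem side {L x y s : ℝ} (hz : pt x y ∈ K) (hz' : pt x (y + L / 2) ∈ K)
    (nz : pt x y ∉ interior K) (nz' : pt x (y + L / 2) ∉ interior K) (hx : 0.79 ≤ x)
    (hs : 0 ≤ s) (hL1 : 1 + C + s ≤ L) (hL2 : L ≤ 1 + C + s + s ^ 2 / (2 * S ^ 2)) (hL3 : L ≤ 2)
    (q0 : pt 0 (-(C + s)) ∈ K) (nq0 : pt 0 (-(C + s)) ∉ interior K) :
    ∃ p q Ta Tb, pt Ta (-(C + q)) ∈ K ∧ pt Tb (-(C + p)) ∈ K ∧ 0 < Ta ∧ 0 ≤ p ∧ 0 ≤ q ∧
      0 < Tb * (C + q) - Ta * (C + p) ∧ 0 < S * (C + p) - C * Tb ∧
      dens C * (L * x) + 0.001 * s ≤ 7 / 2 * (C * S + Ta * s + Tb * q + (S - Ta) * p) := by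
  have hept := h.hept
  have b1 := hept.Clo
  have b2 := hept.Chi
  have b3 := hept.Slo
  have b4 := hept.Shi
  have b5 := hept.c2lo
  have b6 := hept.c2hi
  have b7 := hept.c3lo
  have b8 := hept.c3hi
  have b9 := hept.s2lo
  have b10 := hept.s2hi
  have b11 := hept.s3lo
  have b12 := hept.s3hi
  have hC := hept.C_pos
  have hS := hept.S_pos
  have hna := norm_le_one (h.far.ball _ hz)
  have hnb := norm_le_one (h.far.ball _ hz')
  obtain ⟨x1, y1, y2, y3, y4⟩ := h.crude (by linarith) hx hna hnb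
  have hL' : 1.90096886 ≤ L := by linarith
  set w := y + L / 2 with hw
  obtain ⟨p, hp⟩ : ∃ p, p = s3 * x + c3 * w - C := ⟨_, rfl⟩
  obtain ⟨q, hq⟩ : ∃ q, q = s2 * x - c2 * y - C := ⟨_, rfl⟩
  obtain ⟨Ta, hTa⟩ : ∃ Ta, Ta = c2 * x + s2 * y := ⟨_, rfl⟩
  obtain ⟨Tb, hTb⟩ : ∃ Tb, Tb = s3 * w - c3 * x := ⟨_, rfl⟩
  have ma : pt Ta (-(C + q)) ∈ K := by
    have := h.r1 _ _ hz
    convert this using 2
    rw [hq]; ring
  have na : pt Ta (-(C + q)) ∉ interior K := by
    have := h.n1 _ _ nz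
    convert this using 3
    rw [hq]; ring
  have mb : pt Tb (-(C + p)) ∈ K := by
    have := h.r2 _ _ hz'
    convert this using 2
    · rw [hTb]; ring
    · rw [hp]; ring
  have nb : pt Tb (-(C + p)) ∉ interior K := by
    have := h.n2 _ _ nz'
    convert this using 3
    · rw [hTb]; ring
    · rw [hp]; ring
  -- crude bounds for products
  have j1 : 0.62348977 * 0.79 ≤ c2 * x := mul_le_mul b5.le hx (by norm_num) (by linarith)
  have j2 : c2 * x ≤ 0.62348981 * 0.88 := mul_le_mul b6.le x1 (by linarith) (by norm_num)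
  have j3 : s2 * (-y) ≤ 0.78183152 * 0.6132 :=
    mul_le_mul b10.le (by linarith) (by linarith) (by norm_num)
  have j4 : 0.78183145 * 0.3372 ≤ s2 * (-y) :=
    mul_le_mul b9.le (by linarith) (by norm_num) (by linarith)
  have j5 : s2 * w ≤ 0.78183152 * 0.6132 :=
    mul_le_mul b10.le (by linarith) (by linarith) (by norm_num)
  have j6 : 0.97492786 * 0.3372 ≤ s3 * w :=
    mul_le_mul b11.le (by linarith) (by norm_num) (by linarith)
  have j7 : 0.97492786 * 0.3372 ≤ s3 * (-y) :=
    mul_le_mul b11.le (by linarith) (by norm_num) (by linarith)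
  have j8 : c3 * x ≤ 0.22252096 * 0.88 := mul_le_mul b8.le x1 (by linarith) (by norm_num)
  have j9 : (s3 - s2) * (-y) ≤ (0.97492796 - 0.78183145) * 0.6132 :=
    mul_le_mul (by linarith) (by linarith) (by linarith) (by norm_num)
  have j10 : 0.97492786 * (1.90096886 / 2) ≤ s3 * (L / 2) :=
    mul_le_mul b11.le (by linarith) (by norm_num) (by linarith)
  have j11 : 0 ≤ s3 * x := mul_nonneg (by linarith) (by linarith)
  have j12 : 0 ≤ c3 * w := mul_nonneg (by linarith) (by linarith)
  -- signs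
  have g1 : 0.013 ≤ Ta := by rw [hTa]; linarith only [j1, j3]
  have g2 : Ta ≤ 0.29 := by rw [hTa]; linarith only [j2, j4]
  have g3 : 0.13 ≤ Tb := by rw [hTb]; linarith only [j6, j8]
  have g4 : 0.063 ≤ Tb - Ta := by
    rw [hTb, hTa, hw]
    linarith only [j9, j10, j2, j8]
  have g5 : S * (C + p) - C * Tb = c2 * x - s2 * w := by
    rw [hp, hTb]
    linear_combination x * hept.id1 - w * hept.id2
  have g6 : 0.013 ≤ S * (C + p) - C * Tb := by rw [g5]; linarith only [j1, j5]
  have g7 : S * (C + q) - C * Ta = s3 * (-y) - c3 * x := by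
    rw [hq, hTa]
    linear_combination (-x) * hept.id3 - y * hept.id4
  have g8 : 0.13 ≤ S * (C + q) - C * Ta := by rw [g7]; linarith only [j7, j8]
  have dV : det2 (pt (-S) (-C)) (pt S (-C)) = 2 * (S * C) := by rw [det2_pt]; ring
  have hSC : 0 < S * C := mul_pos hS hC
  have hCTa : 0 ≤ C * Ta := mul_nonneg hC.le (by linarith)
  have hCTb : 0 ≤ C * Tb := mul_nonneg hC.le (by linarith)
  -- heights
  have hp0 : 0 ≤ p := by
    have := below h.far.conv h.far.zero h.vl h.vr nb (by rw [dV]; linarith)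
      (by rw [det2_pt]; linarith only [g6, hCTb]) (by rw [det2_pt]; linarith only [g6, hCTb])
    rw [dV, det2_pt, det2_pt] at this
    have h2 : 0 ≤ S * p := by linarith only [this]
    exact nonneg_of_mul_nonneg_right h2 hS
  have hq0 : 0 ≤ q := by
    have := below h.far.conv h.far.zero h.vl h.vr na (by rw [dV]; linarith)
      (by rw [det2_pt]; linarith only [g8, hCTa]) (by rw [det2_pt]; linarith only [g8, hCTa])
    rw [dV, det2_pt, det2_pt] at this
    have h2 : 0 ≤ S * q := by linarith only [this]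
    exact nonneg_of_mul_nonneg_right h2 hS
  have hp1 : C + p ≤ 1 := by
    have := norm_le_one (h.far.ball _ mb)
    nlinarith only [this, sq_nonneg Tb]
  have g9 : 0.02 ≤ Tb * (C + q) - Ta * (C + p) := by
    have k1 : Ta * (C + p) ≤ Ta * 1 := mul_le_mul_of_nonneg_left hp1 (by linarith)
    have k2 : Tb * C ≤ Tb * (C + q) := mul_le_mul_of_nonneg_left (by linarith) (by linarith)
    have k3 : (Ta + 0.063) * C ≤ Tb * C := mul_le_mul_of_nonneg_right (by linarith) hC.le
    have k4 : Ta * 0.90096886 ≤ Ta * C := mul_le_mul_of_nonneg_left b1.le (by linarith)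
    linarith only [k1, k2, k3, k4, g2, b1]
  have hCs : 0 < C + s := by linarith
  have hCsTa : 0 < (C + s) * Ta := mul_pos hCs (by linarith)
  have hCsTb : 0 < (C + s) * Tb := mul_pos hCs (by linarith)
  have hA : (S + Ta) * p ≤ (S + Tb) * q := by
    have := below h.far.conv h.far.zero h.vl mb na
      (by rw [det2_pt]; linarith only [g6, hCTb])
      (by rw [det2_pt]; linarith only [g8, hCTa]) (by rw [det2_pt]; linarith only [g9])
    rw [det2_pt, det2_pt, det2_pt] at this
    linarith only [this]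
  have hB : Tb * s + Ta * p ≤ Ta * s + Tb * q := by
    have := below h.far.conv h.far.zero q0 mb na
      (by rw [det2_pt]; linarith only [hCsTb])
      (by rw [det2_pt]; linarith only [hCsTa]) (by rw [det2_pt]; linarith only [g9])
    rw [det2_pt, det2_pt, det2_pt] at this
    linarith only [this]
  have hCc : S * q ≤ (S + Ta) * s := by
    have hSs : 0 ≤ S * (C + s) := mul_nonneg hS.le hCs.le
    have := below h.far.conv h.far.zero h.vl ma nq0
      (by rw [det2_pt]; linarith only [g8, hCTa])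
      (by rw [det2_pt]; linarith only [hSs]) (by rw [det2_pt]; linarith only [hCsTa])
    rw [det2_pt, det2_pt, det2_pt] at this
    linarith only [this]
  have hD : S * q + Ta * p ≤ Tb * q + S * p := by
    have := below h.far.conv h.far.zero ma h.vr nb
      (by rw [det2_pt]; linarith only [g8])
      (by rw [det2_pt]; linarith only [g9]) (by rw [det2_pt]; linarith only [g6])
    rw [det2_pt, det2_pt, det2_pt] at this
    linarith only [this]
  refine ⟨p, q, Ta, Tb, ma, mb, by linarith, hp0, hq0, by linarith, by linarith, ?_⟩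
  exact side7 hept hp hq hTa hTb hp0 hq0 hs hL1 hL2 hL3 hna hnb hA hB hCc hD

/-- Bounds for the longest vertical chord. -/
theorem long {L x0 y0 xr yr xl yl s : ℝ} (hch : Chords K L x0 y0 xr yr xl yl)
    (hs : 0 ≤ s) (q0 : pt 0 (-(C + s)) ∈ K) (nq0 : pt 0 (-(C + s)) ∉ interior K) :
    1 + C + s ≤ L ∧ L ≤ 1 + C + s + s ^ 2 / (2 * S ^ 2) ∧ L ≤ 2 := by
  have b1 := h.hept.Clo
  have hC := h.hept.C_pos
  have hS := h.hept.S_pos
  have hL1 : 1 + C + s ≤ L := by
    apply hch.max 0 (-(C + s)) _ q0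
    convert h.far.top using 2
    ring
  have hna := norm_le_one (h.far.ball _ hch.mem0)
  have hnb := norm_le_one (h.far.ball _ hch.mem0')
  have hy1 : -1 ≤ y0 := by nlinarith [sq_nonneg x0]
  have hy2 : y0 + L ≤ 1 := by nlinarith [sq_nonneg x0]
  have hy3 : y0 < 0 := by linarith
  have top : y0 + L ≤ 1 - x0 ^ 2 / 2 := by
    have hx : x0 ^ 2 ≤ 1 := by nlinarith [sq_nonneg y0]
    have h1 : (y0 + L) ^ 2 ≤ (1 - x0 ^ 2 / 2) ^ 2 := by nlinarith [sq_nonneg (x0 ^ 2)]
    nlinarith
  have key : S * (-y0) ≤ S * (C + s) + s * |x0| := by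
    have hSy : S * y0 < 0 := mul_neg_of_pos_of_neg hS hy3
    have hCs : 0 < C + s := by linarith
    have hSCs : 0 < S * (C + s) := mul_pos hS hCs
    rcases le_total 0 x0 with hx | hx
    · have i1 : 0 ≤ C * x0 := mul_nonneg hC.le hx
      have i2 : 0 ≤ (C + s) * x0 := mul_nonneg hCs.le hx
      have := below h.far.conv h.far.zero h.vl hch.mem0 nq0
        (by rw [det2_pt]; linarith only [i1, hSy]) (by rw [det2_pt]; linarith only [hSCs])
        (by rw [det2_pt]; linarith only [i2])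
      rw [det2_pt, det2_pt, det2_pt] at this
      rw [abs_of_nonneg hx]
      linarith only [this]
    · have i1 : 0 ≤ C * (-x0) := mul_nonneg hC.le (by linarith)
      have i2 : 0 ≤ (C + s) * (-x0) := mul_nonneg hCs.le (by linarith)
      have := below h.far.conv h.far.zero hch.mem0 h.vr nq0
        (by rw [det2_pt]; linarith only [i1, hSy])
        (by rw [det2_pt]; linarith only [i2]) (by rw [det2_pt]; linarith only [hSCs])
      rw [det2_pt, det2_pt, det2_pt] at this
      rw [abs_of_nonpos hx]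
      linarith only [this]
  refine ⟨hL1, ?_, by linarith⟩
  have hS2 : 0 < 2 * S ^ 2 := by positivity
  have h5 : (L - (1 + C + s)) * (2 * S ^ 2) ≤ s ^ 2 := by
    have i1 : L ≤ 1 - x0 ^ 2 / 2 - y0 := by linarith
    have i2 : S * L ≤ S * (1 - x0 ^ 2 / 2) + (S * (C + s) + s * |x0|) := by
      have := mul_le_mul_of_nonneg_left i1 hS.le
      linarith
    have i3 : 2 * S * (S * L) ≤ 2 * S * (S * (1 - x0 ^ 2 / 2) + (S * (C + s) + s * |x0|)) :=
      mul_le_mul_of_nonneg_left i2 (by linarith)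
    have i4 := sq_nonneg (S * |x0| - s)
    have i5 : |x0| ^ 2 = x0 ^ 2 := sq_abs x0
    have i6 : (S * |x0| - s) ^ 2 = S ^ 2 * x0 ^ 2 - 2 * S * s * |x0| + s ^ 2 := by
      rw [← i5]; ring
    rw [i6] at i4
    linarith only [i3, i4]
  have := (le_div_iff₀ hS2).mpr h5
  linarith

/-- Lower bound for the abscissa of the right chord of half length. -/
theorem xr_ge {L x0 y0 xr yr xl yl : ℝ} (hch : Chords K L x0 y0 xr yr xl yl) (hL : L ≤ 2) :
    0.79 ≤ xr := by
  have hept := h.hept
  have b1 := hept.Clo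
  have b2 := hept.Chi
  have b3 := hept.Slo
  have b4 := hept.Shi
  have b5 := hept.c2lo
  have b6 := hept.c2hi
  have b7 := hept.c3lo
  have b8 := hept.c3hi
  have b9 := hept.s2lo
  have b10 := hept.s2hi
  have b11 := hept.s3lo
  have b12 := hept.s3hi
  have d1 : 0 < s3 - S := by linarith
  have d2 : 0 < s3 - s2 := by linarith
  obtain ⟨t, ht⟩ : ∃ t, t * (s3 - S) = s3 - 0.79 := ⟨(s3 - 0.79) / (s3 - S), by field_simp⟩
  obtain ⟨u, hu⟩ : ∃ u, u * (s3 - s2) = 0.79 - s2 := ⟨(0.79 - s2) / (s3 - s2), by field_simp⟩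
  have t1 : 0.34 ≤ t := by
    apply le_of_mul_le_mul_right _ d1
    rw [ht]
    linarith
  have t2 : t ≤ 1 := by
    apply le_of_mul_le_mul_right _ d1
    rw [ht]
    linarith
  have u1 : 0 ≤ u := by
    apply le_of_mul_le_mul_right _ d2
    rw [hu]
    linarith
  have u2 : u ≤ 0.043 := by
    apply le_of_mul_le_mul_right _ d2
    rw [hu]
    linarith
  have m1 := convex_combo h.far.conv h.v2 h.vr (by linarith : (0 : ℝ) ≤ t) t2
  have m2 := convex_combo h.far.conv h.v1 h.v2 u1 (by linarith : u ≤ 1)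
  have e1 : (1 - t) * s3 + t * S = 0.79 := by linarith
  have e2 : (1 - u) * s2 + u * s3 = 0.79 := by linarith
  rw [e1] at m1
  rw [e2] at m2
  set ya := (1 - t) * -c3 + t * -C with hya
  set yb := (1 - u) * c2 + u * -c3 with hyb
  have f1 : ya ≤ -0.44 := by
    have i1 : 0.34 * (C - c3) ≤ t * (C - c3) := mul_le_mul_of_nonneg_right t1 (by linarith)
    rw [hya]
    linarith
  have f2 : 0.58 ≤ yb := by
    have i1 : u * (c2 + c3) ≤ 0.043 * (c2 + c3) := mul_le_mul_of_nonneg_right u2 (by linarith)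
    rw [hyb]
    linarith
  have hd : 0 < yb - ya := by linarith
  have hLp := hch.L_pos
  have m3 := convex_combo h.far.conv m1 m2 (t := L / 2 / (yb - ya)) (by positivity)
    (by rw [div_le_one hd]; linarith)
  apply hch.right 0.79 ya m1
  convert m3 using 2
  · ring
  · field_simp
    ring

end Sev

/-- Seven-fold symmetry, with the height of the middle of the bottom side. -/
theorem seven_aux {K : Set Plane} (hc : IsCompact K) (hF : FarK 7 K) :
    ∃ s : ℝ, 0 ≤ s ∧ pt 0 (-(Real.cos (Real.pi / 7) + s)) ∉ interior K ∧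
      ∀ L x0 y0 xr yr xl yl, Chords K L x0 y0 xr yr xl yl →
        ENNReal.ofReal (dens (Real.cos (Real.pi / 7)) * (L * (xr - xl)) + 0.002 * s)
          ≤ volume K := by
  have h := hF.sev
  have h' := (hF.mirror (by norm_num)).sev
  set C := Real.cos (Real.pi / 7) with hCdef
  set S := Real.sin (Real.pi / 7) with hSdef
  set c2 := Real.cos (2 * (Real.pi / 7))
  set s2 := Real.sin (2 * (Real.pi / 7))
  set c3 := Real.cos (3 * (Real.pi / 7))
  set s3 := Real.sin (3 * (Real.pi / 7))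
  have hC := h.hept.C_pos
  have hS := h.hept.S_pos
  have hd0 : 0 < dens C := by linarith [h.hept.dlo]
  obtain ⟨t, ht, nt, tmax⟩ := lowest hc (interior_subset hF.zero)
  obtain ⟨s, rfl⟩ : ∃ s, t = C + s := ⟨t - C, by ring⟩
  have hs : 0 ≤ s := by
    have h1 := convex_combo hF.conv h.vl h.vr (t := 1 / 2) (by norm_num) (by norm_num)
    have h2 := tmax C (by convert h1 using 2 <;> ring)
    linarith
  refine ⟨s, hs, nt, ?_⟩
  intro L x0 y0 xr yr xl yl hch
  obtain ⟨hL1, hL2, hL3⟩ := h.long hch hs ht nt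
  have hxr := h.xr_ge hch hL3
  have hxl := h'.xr_ge hch.mirror hL3
  obtain ⟨nr, nr'⟩ := hch.not_interior_right hF.conv
  obtain ⟨nl, nl'⟩ := hch.mirror.not_interior_right (hF.mirror (by norm_num)).conv
  obtain ⟨p, q, Ta, Tb, m1, m2, g1, g2, g3, g4, g5, g6⟩ :=
    h.side hch.memr hch.memr' nr nr' hxr hs hL1 hL2 hL3 ht nt
  have nt' : pt 0 (-(C + s)) ∉ interior (Mir K) := by
    rw [interior_Mir]
    intro h1
    apply nt
    have h2 : mir (pt 0 (-(C + s))) ∈ interior K := h1
    rwa [mir_pt, neg_zero] at h2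
  obtain ⟨p', q', Ta', Tb', m1', m2', g1', g2', g3', g4', g5', g6'⟩ :=
    h'.side hch.mirror.memr hch.mirror.memr' nl nl' hxl hs hL1 hL2 hL3
      (by rw [mem_Mir, neg_zero]; exact ht) nt'
  rw [mem_Mir] at m1' m2'
  have hCs : 0 < C + s := by linarith
  have hrot : pt S (-C) = rot (2 * Real.pi / ((7 : ℕ) : ℝ)) (pt (-S) (-C)) := by
    have e1 : 2 * Real.pi / ((7 : ℕ) : ℝ) = 2 * (Real.pi / 7) := by push_cast; ring
    rw [e1, rot_pt]
    have i1 := h.hept.id3
    have i2 := h.hept.id4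
    have i3 : Real.cos (2 * (Real.pi / 7)) * C + Real.sin (2 * (Real.pi / 7)) * S = C := by
      rw [hCdef, hSdef, ← Real.cos_sub]
      congr 1
      ring
    have i4 : Real.sin (2 * (Real.pi / 7)) * C - Real.cos (2 * (Real.pi / 7)) * S = S := by
      rw [hCdef, hSdef, ← Real.sin_sub]
      congr 1
      ring
    congr 1
    · linarith
    · linarith
  set P : ℕ → Plane := fun i => match i with
    | 0 => pt (-S) (-C)
    | 1 => pt (-Tb') (-(C + p'))
    | 2 => pt (-Ta') (-(C + q'))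
    | 3 => pt 0 (-(C + s))
    | 4 => pt Ta (-(C + q))
    | 5 => pt Tb (-(C + p))
    | _ => pt S (-C) with hP
  have hPK : ∀ i ≤ 6, P i ∈ K := by
    intro i hi
    interval_cases i
    · exact h.vl
    · exact m2'
    · exact m1'
    · exact ht
    · exact m1
    · exact m2
    · exact h.vr
  have hneg : ∀ i ≤ 6, P i 1 < 0 := by
    intro i hi
    interval_cases i <;> simp only [hP, pt_one] <;> linarith
  have e0 : det2 (P 0) (P 1) = S * (C + p') - C * Tb' := by
    simp only [hP, det2_pt]; ring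
  have e1 : det2 (P 1) (P 2) = Tb' * (C + q') - Ta' * (C + p') := by
    simp only [hP, det2_pt]; ring
  have e2 : det2 (P 2) (P 3) = Ta' * (C + s) := by
    simp only [hP, det2_pt]; ring
  have e3 : det2 (P 3) (P 4) = Ta * (C + s) := by
    simp only [hP, det2_pt]; ring
  have e4 : det2 (P 4) (P 5) = Tb * (C + q) - Ta * (C + p) := by
    simp only [hP, det2_pt]; ring
  have e5 : det2 (P 5) (P 6) = S * (C + p) - C * Tb := by
    simp only [hP, det2_pt]; ring
  have hcons : ∀ i < 6, 0 < det2 (P i) (P (i + 1)) := by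
    intro i hi
    interval_cases i
    · rw [e0]; exact g5'
    · rw [e1]; exact g4'
    · rw [e2]; exact mul_pos g1' hCs
    · rw [e3]; exact mul_pos g1 hCs
    · rw [e4]; exact g4
    · rw [e5]; exact g5
  have area := sector_area (n := 7) (m := 6) (by norm_num) hF.conv (interior_subset hF.zero)
    hF.sym P hPK (det_chain hneg hcons) (by norm_num) hrot
  refine le_trans (ENNReal.ofReal_le_ofReal ?_) area
  simp only [Finset.sum_range_succ, Finset.sum_range_zero, zero_add]
  rw [e0, show P (1 + 1) = P 2 from rfl, show P (2 + 1) = P 3 from rfl,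
    show P (3 + 1) = P 4 from rfl, show P (4 + 1) = P 5 from rfl, show P (5 + 1) = P 6 from rfl,
    e1, e2, e3, e4, e5]
  push_cast
  linarith

/-- Seven-fold symmetry. -/
theorem ineq_seven {K : Set Plane} (hc : IsCompact K) (hF : FarK 7 K) :
    Ineq (dens (Real.cos (Real.pi / 7))) K := by
  obtain ⟨s, hs, -, h⟩ := seven_aux hc hF
  intro L x0 y0 xr yr xl yl hch
  refine le_trans (ENNReal.ofReal_le_ofReal ?_) (h L x0 y0 xr yr xl yl hch)
  linarith

/-- The packing density of a convex body with a seven-fold symmetry. -/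
theorem density_seven {K : Set Plane} (hK : Convex ℝ K) (hc : IsCompact K)
    (hi : (interior K).Nonempty) (hrot : HasRot 7 K) :
    ENNReal.ofReal (dens (Real.cos (Real.pi / 7))) ≤ packingDensity K := by
  apply reduce (by norm_num) _ hK hc hi hrot
  intro K hK hc h0 hsym
  apply far (n := 7) _ hK hc h0 hsym
  intro K hK hc h0 hsym hball htop
  exact ineq_seven hc ⟨hK, h0, hsym, hball, htop⟩

end Pool.Agent.helper79.RS
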