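import Pool.Agent.helper79.RS.Concl5
import Pool.Agent.helper79.RS.Seven

/-!
RS-20: bodies with a five-fold symmetry.
-/

open MeasureTheory
open scoped ENNReal Pointwise

namespace Pool.Agent.helper79.RS

open Pool.Agent.helper42.PD

/-- A body with a five-fold symmetry in the farthest point frame. -/
structure Quin (C S c2 s2 : ℝ) (K : Set Plane) : Prop where
  pen : Pen C S c2 s2
  far : FarK 5 K
  r1 : ∀ x y, pt x y ∈ K → pt (c2 * x + s2 * y) (-s2 * x + c2 * y) ∈ K
  r2 : ∀ x y, pt x y ∈ K → pt (-C * x + S * y) (-S * x - C * y) ∈ K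
  n1 : ∀ x y, pt x y ∉ interior K → pt (c2 * x + s2 * y) (-s2 * x + c2 * y) ∉ interior K
  n2 : ∀ x y, pt x y ∉ interior K → pt (-C * x + S * y) (-S * x - C * y) ∉ interior K
  vr : pt S (-C) ∈ K
  vl : pt (-S) (-C) ∈ K

theorem FarK.quin {K : Set Plane} (h : FarK 5 K) : Quin (Real.cos (Real.pi / 5))
    (Real.sin (Real.pi / 5)) (Real.cos (2 * (Real.pi / 5))) (Real.sin (2 * (Real.pi / 5))) K := by
  have e1 : 2 * Real.pi / ((5 : ℕ) : ℝ) * ((-1 : ℤ) : ℝ) = -(2 * (Real.pi / 5)) := by
    push_cast; ring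
  have e2 : 2 * Real.pi / ((5 : ℕ) : ℝ) * ((-2 : ℤ) : ℝ) = -(Real.pi - Real.pi / 5) := by
    push_cast; ring
  have e3 : 2 * Real.pi / ((5 : ℕ) : ℝ) * ((2 : ℤ) : ℝ) = Real.pi - Real.pi / 5 := by
    push_cast; ring
  refine ⟨pen, h, ?_, ?_, ?_, ?_, ?_, ?_⟩
  · intro x y hz
    have := h.sym.int (by norm_num) (-1) hz
    rw [e1, rot_pt, Real.cos_neg, Real.sin_neg] at this
    convert this using 2
    ring
  · intro x y hz
    have := h.sym.int (by norm_num) (-2) hz
    rw [e2, rot_pt, Real.cos_neg, Real.sin_neg, Real.cos_pi_sub, Real.sin_pi_sub] at this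
    convert this using 2 <;> ring
  · intro x y hz
    have := h.sym.not_interior (by norm_num) (-1) hz
    rw [e1, rot_pt, Real.cos_neg, Real.sin_neg] at this
    convert this using 3
    ring
  · intro x y hz
    have := h.sym.not_interior (by norm_num) (-2) hz
    rw [e2, rot_pt, Real.cos_neg, Real.sin_neg, Real.cos_pi_sub, Real.sin_pi_sub] at this
    convert this using 3 <;> ring
  · have := h.sym.int (by norm_num) (-2) h.top
    rw [e2, rot_pt, Real.cos_neg, Real.sin_neg, Real.cos_pi_sub, Real.sin_pi_sub] at this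
    convert this using 2 <;> ring
  · have := h.sym.int (by norm_num) 2 h.top
    rw [e3, rot_pt, Real.cos_pi_sub, Real.sin_pi_sub] at this
    convert this using 2 <;> ring

theorem not_interior_Mir {K : Set Plane} {x y : ℝ} :
    pt x y ∉ interior (Mir K) ↔ pt (-x) y ∉ interior K := by
  rw [interior_Mir]
  rfl

namespace Quin

variable {C S c2 s2 : ℝ} {K : Set Plane} (h : Quin C S c2 s2 K)

include h

theorem v1 : pt s2 c2 ∈ K := by
  have := h.r1 _ _ h.far.top
  convert this using 2 <;> ring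

/-- The geometry of one side. -/
theorem side {L x y s : ℝ} (hz : pt x y ∈ K) (hz' : pt x (y + L / 2) ∈ K)
    (nz : pt x y ∉ interior K) (nz' : pt x (y + L / 2) ∉ interior K) (hx : 0.68 ≤ x)
    (hs : 0 ≤ s) (hL1 : 1 + C + s ≤ L) (hL2 : (L - (1 + C + s)) * (2 * S ^ 2) ≤ s ^ 2)
    (hL3 : L ≤ 2) (q0 : pt 0 (-(C + s)) ∈ K) (nq0 : pt 0 (-(C + s)) ∉ interior K) :
    ∃ p q Ta Tb, pt (-Ta) (-(C + q)) ∈ K ∧ pt (-Tb) (-(C + p)) ∈ K ∧
      pt (-Ta) (-(C + q)) ∉ interior K ∧ 0 < Ta ∧ 0 ≤ p ∧ 0 ≤ q ∧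
      0 < Tb * (C + q) - Ta * (C + p) ∧ 0 < S * (C + p) - C * Tb ∧
      Con5 S s p q Ta Tb ∧ Dat C S c2 s2 x y L s p q Ta Tb (L - 1 - C) := by
  have pen := h.pen
  have b1 := pen.Clo
  have b2 := pen.Chi
  have b3 := pen.Slo
  have b4 := pen.Shi
  have b5 := pen.c2lo
  have b6 := pen.c2hi
  have b9 := pen.s2lo
  have b10 := pen.s2hi
  have hC := pen.C_pos
  have hS := pen.S_pos
  have hs2 : 0 < s2 := by linarith only [b9]
  have hna := norm_le_one (h.far.ball _ hz)
  have hnb := norm_le_one (h.far.ball _ hz')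
  have hL' : 1.80901699 ≤ L := by linarith only [hL1, b1, hs]
  set w := y + L / 2 with hw
  have x1 : x ≤ 1 := by nlinarith only [hna, hx, sq_nonneg y]
  have y1 : -0.7333 ≤ y := by nlinarith only [hna, hx]
  have w1 : w ≤ 0.7333 := by nlinarith only [hnb, hx]
  have w2 : 0.1712 ≤ w := by linarith only [hw, y1, hL']
  have y2 : y ≤ -0.1712 := by linarith only [hw, w1, hL']
  have d21 : det2 (pt S (-C)) (pt s2 c2) = s2 := by
    rw [det2_pt]
    linear_combination pen.sum3
  have d10 : det2 (pt s2 c2) (pt 0 1) = s2 := by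
    rw [det2_pt]; ring
  -- position of `b`
  have g6 : 0 < s2 * w - c2 * x := by
    by_contra hcon
    push Not at hcon
    have i0 : 0 ≤ S * w := mul_nonneg hS.le (by linarith only [w2])
    have i1 : 0 ≤ C * x := mul_nonneg hC.le (by linarith only [hx])
    have h1 := below h.far.conv h.far.zero h.vr h.v1 nz' (by rw [d21]; exact hs2)
      (by rw [det2_pt]; linarith only [i0, i1]) (by rw [det2_pt]; linarith only [hcon])
    rw [d21, det2_pt, det2_pt] at h1
    have i2 : (C + c2) * x ≤ 1.1180341 * x :=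
      mul_le_mul_of_nonneg_right (by linarith only [b2, b6]) (by linarith only [hx])
    have i3 : 0.363271 * w ≤ (s2 - S) * w :=
      mul_le_mul_of_nonneg_right (by linarith only [b9, b4]) (by linarith only [w2])
    have i4 : 0.951056 + 0.363271 * w ≤ 1.1180341 * x := by linarith only [h1, i2, i3, b9]
    have i5 : 0.906 ≤ x := by linarith only [i4, w2]
    have i6 : -0.4233 ≤ y := by nlinarith only [hna, i5]
    have i7 : 0.4811 ≤ w := by linarith only [hw, i6, hL']
    linarith only [i4, i7, x1]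
  have hp0 : 0 ≤ S * x + C * w - C := by
    have h1 := below h.far.conv h.far.zero h.v1 h.far.top nz' (by rw [d10]; exact hs2)
      (by rw [det2_pt]; linarith only [g6]) (by rw [det2_pt]; linarith only [hx])
    rw [d10, det2_pt, det2_pt] at h1
    have h2 : 0 ≤ (2 * S) * (S * x + C * w - C) := by
      have e1 := pen.s2e
      have e2 := pen.c2e
      have e3 := pen.sq
      have e4 := pen.min
      have e5 : (2 * S) * (S * x + C * w - C) = s2 * w - c2 * x + x - s2 := by
        rw [e1, e2]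
        linear_combination (2 * x) * e3 - (x / 2) * e4
      rw [e5]
      linarith only [h1]
    exact nonneg_of_mul_nonneg_right h2 (by linarith only [hS])
  have hq0 : 0 ≤ s2 * x - c2 * y - C := by
    have i0 : 0.809 * 0.68 ≤ C * x := mul_le_mul (by linarith only [b1]) hx (by norm_num) hC.le
    have i1 : S * (-y) ≤ 0.5878 * 0.7333 :=
      mul_le_mul (by linarith only [b4]) (by linarith only [y1]) (by linarith only [y2])
        (by norm_num)
    have i2 : 0 ≤ c2 * x := mul_nonneg (by linarith only [b5]) (by linarith only [hx])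
    have i3 : 0 ≤ s2 * (-y) := mul_nonneg hs2.le (by linarith only [y2])
    have h1 := below h.far.conv h.far.zero h.vr h.v1 nz (by rw [d21]; exact hs2)
      (by rw [det2_pt]; linarith only [i0, i1]) (by rw [det2_pt]; linarith only [i2, i3])
    rw [d21, det2_pt, det2_pt] at h1
    have h2 : 0 ≤ s2 * (s2 * x - c2 * y - C) := by
      have h3 := mul_le_mul_of_nonneg_left h1 hC.le
      have e1 := pen.s2e
      have e2 := pen.c2e
      have e3 := pen.sq
      have e4 := pen.min
      have e6 : C * (C + c2) = s2 ^ 2 := by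
        linear_combination pen.Cc2 - pen.sq2 + (c2 + C - 1 / 2) * e2 + (1 / 2) * e4
      have e7 : C * (s2 - S) = c2 * s2 := by
        linear_combination (C - c2) * e1 - 2 * S * C * e2
      have e5 : s2 * (s2 * x - c2 * y - C) = C * (S * y - -C * x + (x * c2 - y * s2)) - C * s2 := by
        linear_combination (-x) * e6 + y * e7
      rw [e5]
      linarith only [h3]
    exact nonneg_of_mul_nonneg_right h2 hs2
  obtain ⟨p, hp⟩ : ∃ p, p = S * x + C * w - C := ⟨_, rfl⟩
  obtain ⟨q, hq⟩ : ∃ q, q = s2 * x - c2 * y - C := ⟨_, rfl⟩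
  obtain ⟨Ta, hTa⟩ : ∃ Ta, Ta = -(c2 * x) - s2 * y := ⟨_, rfl⟩
  obtain ⟨Tb, hTb⟩ : ∃ Tb, Tb = C * x - S * w := ⟨_, rfl⟩
  rw [← hp] at hp0
  rw [← hq] at hq0
  have dat : Dat C S c2 s2 x y L s p q Ta Tb (L - 1 - C) :=
    ⟨pen, hp, hq, hTa, hTb, by ring, hp0, hq0, hs, by linarith only [hL1], hL3, hna, hnb⟩
  have ma : pt (-Ta) (-(C + q)) ∈ K := by
    have := h.r1 _ _ hz
    convert this using 2
    · rw [hTa]; ring
    · rw [hq]; ring
  have na : pt (-Ta) (-(C + q)) ∉ interior K := by
    have := h.n1 _ _ nz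
    convert this using 3
    · rw [hTa]; ring
    · rw [hq]; ring
  have mb : pt (-Tb) (-(C + p)) ∈ K := by
    have := h.r2 _ _ hz'
    convert this using 2
    · rw [hTb]; ring
    · rw [hp]; ring
  have nb : pt (-Tb) (-(C + p)) ∉ interior K := by
    have := h.n2 _ _ nz'
    convert this using 3
    · rw [hTb]; ring
    · rw [hp]; ring
  obtain ⟨-, ⟨t1, t2⟩, t3, t4⟩ := dat.approx
  -- signs
  have gTa : 0 < Ta := by
    by_contra hcon
    push Not at hcon
    rw [hTa] at hcon
    have i1 : 0.951056 * (-y) ≤ s2 * (-y) :=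
      mul_le_mul_of_nonneg_right (by linarith only [b9]) (by linarith only [y2])
    have i2 : c2 * x ≤ 0.309017 * x :=
      mul_le_mul_of_nonneg_right (by linarith only [b6]) (by linarith only [hx])
    have i3 : -y ≤ 0.32492 * x + 0.00001 := by linarith only [i1, i2, hcon, x1, hx]
    have i4 : c2 * (-y) ≤ 0.309017 * (-y) :=
      mul_le_mul_of_nonneg_right (by linarith only [b6]) (by linarith only [y2])
    have i5 : s2 * x ≤ 0.951057 * x :=
      mul_le_mul_of_nonneg_right (by linarith only [b10]) (by linarith only [hx])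
    have i6 : 0.7693 ≤ x := by linarith only [hq, hq0, i4, i5, b1, i3]
    have i7 : 0.9045 - 0.32492 * x - 0.00001 ≤ w := by linarith only [hw, i3, hL']
    have i8 : (0.9045 - 0.32492 * x - 0.00001) ^ 2 ≤ w ^ 2 :=
      pow_le_pow_left₀ (by linarith only [x1]) i7 2
    nlinarith only [hnb, i8, i6]
  have gTb : 0.1 ≤ Tb := by
    have i0 : 0.809 * 0.68 ≤ C * x := mul_le_mul (by linarith only [b1]) hx (by norm_num) hC.le
    have i1 : S * w ≤ 0.5878 * 0.7333 :=
      mul_le_mul (by linarith only [b4]) w1 (by linarith only [w2]) (by norm_num)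
    linarith only [hTb, i0, i1]
  have g5 : S * (C + p) - C * Tb = s2 * w - c2 * x := by
    rw [hp, hTb]
    linear_combination (-x) * pen.CS' - w * pen.s2e
  have g6' : 0 < S * (C + p) - C * Tb := by rw [g5]; exact g6
  have hCTa : 0 ≤ C * Ta := mul_nonneg hC.le gTa.le
  have hCTb : 0 ≤ C * Tb := mul_nonneg hC.le (by linarith only [gTb])
  have hCs : 0 < C + s := by linarith only [hC, hs]
  have hCsTa : 0 < (C + s) * Ta := mul_pos hCs gTa
  have hCsTb : 0 < (C + s) * Tb := mul_pos hCs (by linarith only [gTb])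
  have hSCs : 0 < S * (C + s) := mul_pos hS hCs
  -- the chord is far to the right
  have hpS : S * s ≤ S * p + Tb * s := by
    have h1 := below h.far.conv h.far.zero h.vl q0 nb
      (by rw [det2_pt]; linarith only [hSCs]) (by rw [det2_pt]; linarith only [g6'])
      (by rw [det2_pt]; linarith only [hCsTb])
    rw [det2_pt, det2_pt, det2_pt] at h1
    linarith only [h1]
  have hxL : 0.3441 * L < x := by
    by_contra hcon
    push Not at hcon
    have l1 := dat.hl1
    have i1 : 0.19 ≤ L - 1 - C := by linarith only [hcon, t4, hp0, hq0, b1, b2]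
    have i2 : p ≤ 0.0001 := by linarith only [hcon, t4, hp0, hq0, b1, b2, l1]
    have i3 : q ≤ 0.0001 := by linarith only [hcon, t4, hp0, hq0, b1, b2, l1]
    have i4 : Tb ≤ 0.2646 := by linarith only [t1, i1, hp0, i3]
    have i5 : 0.3 * s ≤ (S - Tb) * s := mul_le_mul_of_nonneg_right (by linarith only [i4, b3]) hs
    have i6 : S * p ≤ 0.6 * p := mul_le_mul_of_nonneg_right (by linarith only [b4]) hp0
    have i7 : s ≤ 0.0002 := by linarith only [hpS, i5, i6, i2]
    have i8 : s ^ 2 ≤ 0.0002 := by nlinarith only [i7, hs]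
    have i9 : 0.18 * 0.69 ≤ (L - (1 + C + s)) * (2 * S ^ 2) :=
      mul_le_mul (by linarith only [i1, i7]) (by nlinarith only [b3]) (by norm_num)
        (by linarith only [i1, i7])
    linarith only [hL2, i8, i9]
  have g9 : 0 < Tb * (C + q) - Ta * (C + p) := by
    have e1 : Tb * (C + q) - Ta * (C + p) = s2 * (x ^ 2 + w * y) - c2 * (x * (w - y)) := by
      rw [hTb, hTa, hp, hq]
      have e2 := pen.s2e
      have e3 := pen.CS'
      have e4 := pen.sum3
      have e5 := pen.Ss2
      have e6 := pen.Cc2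
      linear_combination (x ^ 2 + w * y) * e4 + (x * (w - y)) * (e6 - e5)
    have e2 : w - y = L / 2 := by rw [hw]; ring
    rw [e1, e2]
    have i1 : -(L ^ 2 / 16) ≤ w * y := by
      have e3 : L = 2 * (w - y) := by rw [e2]; ring
      rw [e3]
      nlinarith only [sq_nonneg (w + y)]
    have i2 : 0 ≤ x ^ 2 - L ^ 2 / 16 := by nlinarith only [hxL, hL']
    have i3 : 0.951056 * (x ^ 2 - L ^ 2 / 16) ≤ s2 * (x ^ 2 - L ^ 2 / 16) :=
      mul_le_mul_of_nonneg_right (by linarith only [b9]) i2
    have i4 : s2 * (x ^ 2 - L ^ 2 / 16) ≤ s2 * (x ^ 2 + w * y) :=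
      mul_le_mul_of_nonneg_left (by linarith only [i1]) hs2.le
    have i5 : c2 * (x * (L / 2)) ≤ 0.3090171 * (x * (L / 2)) :=
      mul_le_mul_of_nonneg_right (by linarith only [b6])
        (mul_nonneg (by linarith only [hx]) (by linarith only [hL']))
    have i6 : 0 < 0.951056 * (x ^ 2 - L ^ 2 / 16) - 0.3090171 * (x * (L / 2)) := by
      nlinarith only [mul_pos (sub_pos.mpr hxL) (show 0 < x + 0.18164 * L by linarith only [hx, hL']),
        hxL, hL', hx, mul_pos (show 0 < x by linarith only [hx]) (show 0 < L by linarith only [hL'])]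
    linarith only [i3, i4, i5, i6]
  -- convexity constraints, in the mirror image
  have hfar' := h.far.mirror (by norm_num)
  have vr' : pt S (-C) ∈ Mir K := by rw [mem_Mir]; exact h.vl
  have vl' : pt (-S) (-C) ∈ Mir K := by rw [mem_Mir, neg_neg]; exact h.vr
  have q0' : pt 0 (-(C + s)) ∈ Mir K := by rw [mem_Mir, neg_zero]; exact q0
  have nq0' : pt 0 (-(C + s)) ∉ interior (Mir K) := by rw [not_interior_Mir, neg_zero]; exact nq0
  have ma' : pt Ta (-(C + q)) ∈ Mir K := by rw [mem_Mir]; exact ma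
  have mb' : pt Tb (-(C + p)) ∈ Mir K := by rw [mem_Mir]; exact mb
  have na' : pt Ta (-(C + q)) ∉ interior (Mir K) := by rw [not_interior_Mir]; exact na
  have nb' : pt Tb (-(C + p)) ∉ interior (Mir K) := by rw [not_interior_Mir]; exact nb
  have g8 : 0 < S * (C + q) - C * Ta := by
    have e1 : S * (C + q) - C * Ta = C * x + S * y := by
      rw [hq, hTa]
      linear_combination x * pen.Ss2 + x * pen.Cc2 + x * pen.c2e
        + y * (pen.sum3 + pen.s2e - 2 * S * pen.c2e)
    have i0 : 0.809 * 0.68 ≤ C * x := mul_le_mul (by linarith only [b1]) hx (by norm_num) hC.le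
    have i1 : S * (-y) ≤ 0.5878 * 0.7333 :=
      mul_le_mul (by linarith only [b4]) (by linarith only [y1]) (by linarith only [y2])
        (by norm_num)
    rw [e1]
    linarith only [i0, i1]
  have hA : (S + Ta) * p ≤ (S + Tb) * q := by
    have := below hfar'.conv hfar'.zero vl' mb' na'
      (by rw [det2_pt]; linarith only [g6', hCTb])
      (by rw [det2_pt]; linarith only [g8, hCTa]) (by rw [det2_pt]; linarith only [g9])
    rw [det2_pt, det2_pt, det2_pt] at this
    linarith only [this]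
  have hB : Tb * s + Ta * p ≤ Ta * s + Tb * q := by
    have := below hfar'.conv hfar'.zero q0' mb' na'
      (by rw [det2_pt]; linarith only [hCsTb])
      (by rw [det2_pt]; linarith only [hCsTa]) (by rw [det2_pt]; linarith only [g9])
    rw [det2_pt, det2_pt, det2_pt] at this
    linarith only [this]
  have hCc : S * q ≤ (S + Ta) * s := by
    have := below hfar'.conv hfar'.zero vl' ma' nq0'
      (by rw [det2_pt]; linarith only [g8, hCTa])
      (by rw [det2_pt]; linarith only [hSCs]) (by rw [det2_pt]; linarith only [hCsTa])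
    rw [det2_pt, det2_pt, det2_pt] at this
    linarith only [this]
  have hD : S * q + Ta * p ≤ Tb * q + S * p := by
    have := below hfar'.conv hfar'.zero ma' vr' nb'
      (by rw [det2_pt]; linarith only [g8])
      (by rw [det2_pt]; linarith only [g9]) (by rw [det2_pt]; linarith only [g6'])
    rw [det2_pt, det2_pt, det2_pt] at this
    linarith only [this]
  exact ⟨p, q, Ta, Tb, ma, mb, na, gTa, hp0, hq0, g9, g6', ⟨hA, hB, hCc, hD⟩, dat⟩

/-- Bounds for the longest vertical chord, which is on the right. -/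
theorem long {L x0 y0 xr yr xl yl s : ℝ} (hch : Chords K L x0 y0 xr yr xl yl) (hx0 : 0 ≤ x0)
    (hs : 0 ≤ s) (q0 : pt 0 (-(C + s)) ∈ K) (nq0 : pt 0 (-(C + s)) ∉ interior K) :
    1 + C + s ≤ L ∧ (L - (1 + C + s)) * (2 * S ^ 2) ≤ s ^ 2 ∧ L ≤ 2 ∧
      L - 1 - C ≤ (-y0 - C) - x0 ^ 2 / 2 ∧ y0 < 0 := by
  have b1 := h.pen.Clo
  have hC := h.pen.C_pos
  have hS := h.pen.S_pos
  have hL1 : 1 + C + s ≤ L := by
    apply hch.max 0 (-(C + s)) _ q0
    convert h.far.top using 2
    ring
  have hna := norm_le_one (h.far.ball _ hch.mem0)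
  have hnb := norm_le_one (h.far.ball _ hch.mem0')
  have hy1 : -1 ≤ y0 := by nlinarith [sq_nonneg x0]
  have hy2 : y0 + L ≤ 1 := by nlinarith [sq_nonneg x0]
  have hy3 : y0 < 0 := by linarith
  have top : y0 + L ≤ 1 - x0 ^ 2 / 2 := by
    have hx : x0 ^ 2 ≤ 1 := by nlinarith [sq_nonneg y0]
    have h1 : (y0 + L) ^ 2 ≤ (1 - x0 ^ 2 / 2) ^ 2 := by nlinarith [sq_nonneg (x0 ^ 2)]
    nlinarith
  have key : S * (-y0) ≤ S * (C + s) + s * x0 := by
    have hSy : S * y0 < 0 := mul_neg_of_pos_of_neg hS hy3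
    have hCs : 0 < C + s := by linarith
    have hSCs : 0 < S * (C + s) := mul_pos hS hCs
    have i1 : 0 ≤ C * x0 := mul_nonneg hC.le hx0
    have i2 : 0 ≤ (C + s) * x0 := mul_nonneg hCs.le hx0
    have := below h.far.conv h.far.zero h.vl hch.mem0 nq0
      (by rw [det2_pt]; linarith only [i1, hSy]) (by rw [det2_pt]; linarith only [hSCs])
      (by rw [det2_pt]; linarith only [i2])
    rw [det2_pt, det2_pt, det2_pt] at this
    linarith only [this]
  refine ⟨hL1, ?_, by linarith, by linarith, hy3⟩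
  have i1 : L ≤ 1 - x0 ^ 2 / 2 - y0 := by linarith
  have i2 : S * L ≤ S * (1 - x0 ^ 2 / 2) + (S * (C + s) + s * x0) := by
    have := mul_le_mul_of_nonneg_left i1 hS.le
    linarith
  have i3 : 2 * S * (S * L) ≤ 2 * S * (S * (1 - x0 ^ 2 / 2) + (S * (C + s) + s * x0)) :=
    mul_le_mul_of_nonneg_left i2 (by linarith)
  have i4 := sq_nonneg (S * x0 - s)
  have i6 : (S * x0 - s) ^ 2 = S ^ 2 * x0 ^ 2 - 2 * S * s * x0 + s ^ 2 := by ring
  rw [i6] at i4
  linarith only [i3, i4]

/-- Lower bound for the abscissa of the right chord of half length. -/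
theorem xr_ge {L x0 y0 xr yr xl yl : ℝ} (hch : Chords K L x0 y0 xr yr xl yl) (hL : L ≤ 2) :
    0.68 ≤ xr := by
  have pen := h.pen
  have b1 := pen.Clo
  have b2 := pen.Chi
  have b3 := pen.Slo
  have b4 := pen.Shi
  have b5 := pen.c2lo
  have b6 := pen.c2hi
  have b9 := pen.s2lo
  have b10 := pen.s2hi
  have d1 : 0 < s2 - S := by linarith
  have d2 : 0 < s2 := by linarith
  obtain ⟨t, ht⟩ : ∃ t, t * (s2 - S) = 0.68 - S := ⟨(0.68 - S) / (s2 - S), by field_simp⟩
  obtain ⟨u, hu⟩ : ∃ u, u * s2 = 0.68 := ⟨0.68 / s2, by field_simp⟩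
  have t1 : 0 ≤ t := by
    apply le_of_mul_le_mul_right _ d1
    rw [ht]
    linarith
  have t2 : t ≤ 0.254 := by
    apply le_of_mul_le_mul_right _ d1
    rw [ht]
    linarith
  have u1 : 0 ≤ u := by
    apply le_of_mul_le_mul_right _ d2
    rw [hu]
    linarith
  have u2 : u ≤ 0.716 := by
    apply le_of_mul_le_mul_right _ d2
    rw [hu]
    linarith
  have m1 := convex_combo h.far.conv h.vr h.v1 t1 (by linarith : t ≤ 1)
  have m2 := convex_combo h.far.conv h.far.top h.v1 u1 (by linarith : u ≤ 1)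
  have e1 : (1 - t) * S + t * s2 = 0.68 := by linarith
  have e2 : (1 - u) * 0 + u * s2 = 0.68 := by linarith
  rw [e1] at m1
  rw [e2] at m2
  set ya := (1 - t) * -C + t * c2 with hya
  set yb := (1 - u) * 1 + u * c2 with hyb
  have f1 : ya ≤ -0.52 := by
    have i1 : t * (C + c2) ≤ 0.254 * (C + c2) := mul_le_mul_of_nonneg_right t2 (by linarith)
    rw [hya]
    linarith
  have f2 : 0.5 ≤ yb := by
    have i1 : u * (1 - c2) ≤ 0.716 * (1 - c2) := mul_le_mul_of_nonneg_right u2 (by linarith)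
    rw [hyb]
    linarith
  have hd : 0 < yb - ya := by linarith
  have hLp := hch.L_pos
  have m3 := convex_combo h.far.conv m1 m2 (t := L / 2 / (yb - ya)) (by positivity)
    (by rw [div_le_one hd]; linarith)
  apply hch.right 0.68 ya m1
  convert m3 using 2
  · ring
  · field_simp
    ring

end Quin

end Pool.Agent.helper79.RS
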