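import Pool.Agent.helper79.RS.Five

/-!
RS-21: the density bound for bodies with a five-fold symmetry.
-/

open MeasureTheory
open scoped ENNReal Pointwise

namespace Pool.Agent.helper79.RS

open Pool.Agent.helper42.PD

theorem Pen.rotV {C S c2 s2 : ℝ} (h : Pen C S c2 s2) : C * s2 - S * c2 = S ∧ S * s2 + C * c2 = C := by
  constructor
  · linear_combination h.sum3 + h.s2e - 2 * S * h.c2e
  · linear_combination h.Ss2 + h.Cc2 + h.c2e

theorem hrot5 : pt (Real.sin (Real.pi / 5)) (-Real.cos (Real.pi / 5)) =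
    rot (2 * Real.pi / ((5 : ℕ) : ℝ)) (pt (-Real.sin (Real.pi / 5)) (-Real.cos (Real.pi / 5))) := by
  have e1 : 2 * Real.pi / ((5 : ℕ) : ℝ) = 2 * (Real.pi / 5) := by push_cast; ring
  rw [e1, rot_pt]
  obtain ⟨i1, i2⟩ := pen.rotV
  congr 1
  · linarith only [i1]
  · linarith only [i2]

theorem F_of {Ta l s z r d : ℝ} (hTa : 0 < Ta) (hl : l ≤ r - z ^ 2 / 2)
    (h1 : Ta * (r - s) ≤ z * d) : 2 * (Ta ^ 2 * (l - s)) ≤ d ^ 2 := by
  have a0 := mul_le_mul_of_nonneg_left hl hTa.le
  have a1 : Ta * (l - s) ≤ z * d - Ta * (z ^ 2 / 2) := by linarith only [a0, h1]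
  have a2 := mul_le_mul_of_nonneg_left a1 hTa.le
  nlinarith only [a2, sq_nonneg (Ta * z - d)]

/-- The area of the polygon without the end of the longest chord. -/
theorem area5 {K : Set Plane} (hF : FarK 5 K) {C S s p q Ta Tb p' q' Ta' Tb' : ℝ}
    (hCd : C = Real.cos (Real.pi / 5)) (hSd : S = Real.sin (Real.pi / 5))
    (vl : pt (-S) (-C) ∈ K) (vr : pt S (-C) ∈ K) (hC : 0 < C) (hs : 0 ≤ s)
    (ht : pt 0 (-(C + s)) ∈ K) (m1 : pt (-Ta) (-(C + q)) ∈ K) (m2 : pt (-Tb) (-(C + p)) ∈ K)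
    (m1' : pt Ta' (-(C + q')) ∈ K) (m2' : pt Tb' (-(C + p')) ∈ K)
    (g1 : 0 < Ta) (g2 : 0 ≤ p) (g3 : 0 ≤ q) (g4 : 0 < Tb * (C + q) - Ta * (C + p))
    (g5 : 0 < S * (C + p) - C * Tb) (g1' : 0 < Ta') (g2' : 0 ≤ p') (g3' : 0 ≤ q')
    (g4' : 0 < Tb' * (C + q') - Ta' * (C + p')) (g5' : 0 < S * (C + p') - C * Tb') :
    ENNReal.ofReal (5 / 2 * ((C * S + Ta * s + Tb * q + (S - Ta) * p) +
      (C * S + Ta' * s + Tb' * q' + (S - Ta') * p'))) ≤ volume K := by
  have hCs : 0 < C + s := by linarith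
  set P : ℕ → Plane := fun i => match i with
    | 0 => pt (-S) (-C)
    | 1 => pt (-Tb) (-(C + p))
    | 2 => pt (-Ta) (-(C + q))
    | 3 => pt 0 (-(C + s))
    | 4 => pt Ta' (-(C + q'))
    | 5 => pt Tb' (-(C + p'))
    | _ => pt S (-C) with hP
  have hPK : ∀ i ≤ 6, P i ∈ K := by
    intro i hi
    interval_cases i
    · exact vl
    · exact m2
    · exact m1
    · exact ht
    · exact m1'
    · exact m2'
    · exact vr
  have hneg : ∀ i ≤ 6, P i 1 < 0 := by
    intro i hi
    interval_cases i <;> simp only [hP, pt_one] <;> linarith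
  have e0 : det2 (P 0) (P 1) = S * (C + p) - C * Tb := by
    simp only [hP, det2_pt]; ring
  have e1 : det2 (P 1) (P 2) = Tb * (C + q) - Ta * (C + p) := by
    simp only [hP, det2_pt]; ring
  have e2 : det2 (P 2) (P 3) = Ta * (C + s) := by
    simp only [hP, det2_pt]; ring
  have e3 : det2 (P 3) (P 4) = Ta' * (C + s) := by
    simp only [hP, det2_pt]; ring
  have e4 : det2 (P 4) (P 5) = Tb' * (C + q') - Ta' * (C + p') := by
    simp only [hP, det2_pt]; ring
  have e5 : det2 (P 5) (P 6) = S * (C + p') - C * Tb' := by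
    simp only [hP, det2_pt]; ring
  have hcons : ∀ i < 6, 0 < det2 (P i) (P (i + 1)) := by
    intro i hi
    interval_cases i
    · rw [e0]; exact g5
    · rw [e1]; exact g4
    · rw [e2]; exact mul_pos g1 hCs
    · rw [e3]; exact mul_pos g1' hCs
    · rw [e4]; exact g4'
    · rw [e5]; exact g5'
  have area := sector_area (n := 5) (m := 6) (by norm_num) hF.conv (interior_subset hF.zero)
    hF.sym P hPK (det_chain hneg hcons) (by norm_num)
    (by simp only [hP]; rw [hCd, hSd]; exact hrot5)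
  refine le_trans (ENNReal.ofReal_le_ofReal ?_) area
  simp only [Finset.sum_range_succ, Finset.sum_range_zero, zero_add]
  rw [e0, show P (1 + 1) = P 2 from rfl, show P (2 + 1) = P 3 from rfl,
    show P (3 + 1) = P 4 from rfl, show P (4 + 1) = P 5 from rfl, show P (5 + 1) = P 6 from rfl,
    e1, e2, e3, e4, e5]
  push_cast
  linarith

/-- The area of the polygon with the end of the longest chord. -/
theorem area5' {K : Set Plane} (hF : FarK 5 K) {C S s p q Ta Tb p' q' Ta' Tb' z r : ℝ}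
    (hCd : C = Real.cos (Real.pi / 5)) (hSd : S = Real.sin (Real.pi / 5))
    (vl : pt (-S) (-C) ∈ K) (vr : pt S (-C) ∈ K) (hC : 0 < C) (hs : 0 ≤ s)
    (ht : pt 0 (-(C + s)) ∈ K) (m1 : pt (-Ta) (-(C + q)) ∈ K) (m2 : pt (-Tb) (-(C + p)) ∈ K)
    (m1' : pt Ta' (-(C + q')) ∈ K) (m2' : pt Tb' (-(C + p')) ∈ K)
    (g1 : 0 < Ta) (g2 : 0 ≤ p) (g3 : 0 ≤ q) (g4 : 0 < Tb * (C + q) - Ta * (C + p))
    (g5 : 0 < S * (C + p) - C * Tb) (g2' : 0 ≤ p') (g3' : 0 ≤ q')
    (g4' : 0 < Tb' * (C + q') - Ta' * (C + p')) (g5' : 0 < S * (C + p') - C * Tb')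
    (m0 : pt z (-(C + r)) ∈ K) (hr : 0 < C + r) (hz : 0 < z)
    (g6' : 0 < Ta' * (C + r) - z * (C + q')) :
    ENNReal.ofReal (5 / 2 * ((C * S + Ta * s + Tb * q + (S - Ta) * p) +
      (C * S + Ta' * s + Tb' * q' + (S - Ta') * p') + (z * (s - q') + Ta' * (r - s))))
      ≤ volume K := by
  have hCs : 0 < C + s := by linarith
  set P : ℕ → Plane := fun i => match i with
    | 0 => pt (-S) (-C)
    | 1 => pt (-Tb) (-(C + p))
    | 2 => pt (-Ta) (-(C + q))
    | 3 => pt 0 (-(C + s))
    | 4 => pt z (-(C + r))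
    | 5 => pt Ta' (-(C + q'))
    | 6 => pt Tb' (-(C + p'))
    | _ => pt S (-C) with hP
  have hPK : ∀ i ≤ 7, P i ∈ K := by
    intro i hi
    interval_cases i
    · exact vl
    · exact m2
    · exact m1
    · exact ht
    · exact m0
    · exact m1'
    · exact m2'
    · exact vr
  have hneg : ∀ i ≤ 7, P i 1 < 0 := by
    intro i hi
    interval_cases i <;> simp only [hP, pt_one] <;> linarith
  have e0 : det2 (P 0) (P 1) = S * (C + p) - C * Tb := by
    simp only [hP, det2_pt]; ring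
  have e1 : det2 (P 1) (P 2) = Tb * (C + q) - Ta * (C + p) := by
    simp only [hP, det2_pt]; ring
  have e2 : det2 (P 2) (P 3) = Ta * (C + s) := by
    simp only [hP, det2_pt]; ring
  have e3 : det2 (P 3) (P 4) = z * (C + s) := by
    simp only [hP, det2_pt]; ring
  have e4 : det2 (P 4) (P 5) = Ta' * (C + r) - z * (C + q') := by
    simp only [hP, det2_pt]; ring
  have e5 : det2 (P 5) (P 6) = Tb' * (C + q') - Ta' * (C + p') := by
    simp only [hP, det2_pt]; ring
  have e6 : det2 (P 6) (P 7) = S * (C + p') - C * Tb' := by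
    simp only [hP, det2_pt]; ring
  have hcons : ∀ i < 7, 0 < det2 (P i) (P (i + 1)) := by
    intro i hi
    interval_cases i
    · rw [e0]; exact g5
    · rw [e1]; exact g4
    · rw [e2]; exact mul_pos g1 hCs
    · rw [e3]; exact mul_pos hz hCs
    · rw [e4]; exact g6'
    · rw [e5]; exact g4'
    · rw [e6]; exact g5'
  have area := sector_area (n := 5) (m := 7) (by norm_num) hF.conv (interior_subset hF.zero)
    hF.sym P hPK (det_chain hneg hcons) (by norm_num)
    (by simp only [hP]; rw [hCd, hSd]; exact hrot5)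
  refine le_trans (ENNReal.ofReal_le_ofReal ?_) area
  simp only [Finset.sum_range_succ, Finset.sum_range_zero, zero_add]
  rw [e0, show P (1 + 1) = P 2 from rfl, show P (2 + 1) = P 3 from rfl,
    show P (3 + 1) = P 4 from rfl, show P (4 + 1) = P 5 from rfl, show P (5 + 1) = P 6 from rfl,
    show P (6 + 1) = P 7 from rfl, e1, e2, e3, e4, e5, e6]
  push_cast
  linarith

theorem ineq_five_aux {K : Set Plane} (hc : IsCompact K) (hF : FarK 5 K)
    {L x0 y0 xr yr xl yl : ℝ} (hch : Chords K L x0 y0 xr yr xl yl) (hx0 : 0 ≤ x0) :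
    ENNReal.ofReal (0.892698 * (L * (xr - xl))) ≤ volume K := by
  have h := hF.quin
  have h' := (hF.mirror (by norm_num)).quin
  obtain ⟨C, hCd⟩ : ∃ C, C = Real.cos (Real.pi / 5) := ⟨_, rfl⟩
  obtain ⟨S, hSd⟩ : ∃ S, S = Real.sin (Real.pi / 5) := ⟨_, rfl⟩
  obtain ⟨c2, hc2d⟩ : ∃ c2, c2 = Real.cos (2 * (Real.pi / 5)) := ⟨_, rfl⟩
  obtain ⟨s2, hs2d⟩ : ∃ s2, s2 = Real.sin (2 * (Real.pi / 5)) := ⟨_, rfl⟩
  rw [← hCd, ← hSd, ← hc2d, ← hs2d] at h h'
  have hC := h.pen.C_pos
  have hClo := h.pen.Clo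
  have hS := h.pen.S_pos
  obtain ⟨t, ht, nt, tmax⟩ := lowest hc (interior_subset hF.zero)
  obtain ⟨s, rfl⟩ : ∃ s, t = C + s := ⟨t - C, by ring⟩
  have hs : 0 ≤ s := by
    have h1 := convex_combo hF.conv h.vl h.vr (t := 1 / 2) (by norm_num) (by norm_num)
    have h2 := tmax C (by convert h1 using 2 <;> ring)
    linarith only [h2]
  obtain ⟨hL1, hL2, hL3, hl, hy0⟩ := h.long hch hx0 hs ht nt
  have hxr := h.xr_ge hch hL3
  have hxl := h'.xr_ge hch.mirror hL3
  obtain ⟨nr, nr'⟩ := hch.not_interior_right hF.conv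
  obtain ⟨nl, nl'⟩ := hch.mirror.not_interior_right (hF.mirror (by norm_num)).conv
  obtain ⟨p, q, Ta, Tb, m1, m2, na, g1, g2, g3, g4, g5, con, dat⟩ :=
    h.side hch.memr hch.memr' nr nr' hxr hs hL1 hL2 hL3 ht nt
  obtain ⟨p', q', Ta', Tb', m1', m2', na', g1', g2', g3', g4', g5', con', dat'⟩ :=
    h'.side hch.mirror.memr hch.mirror.memr' nl nl' hxl hs hL1 hL2 hL3
      (by rw [mem_Mir, neg_zero]; exact ht) (by rw [not_interior_Mir, neg_zero]; exact nt)
  rw [mem_Mir, neg_neg] at m1' m2'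
  rw [not_interior_Mir, neg_neg] at na'
  have hCs : 0 < C + s := by linarith only [hC, hs]
  obtain ⟨r, hr⟩ : ∃ r, r = -y0 - C := ⟨_, rfl⟩
  rw [← hr] at hl
  obtain ⟨l, hld⟩ : ∃ l, l = L - 1 - C := ⟨_, rfl⟩
  rw [← hld] at hl dat dat'
  have m0 : pt x0 (-(C + r)) ∈ K := by
    have := hch.mem0
    convert this using 2
    rw [hr]; ring
  have hCr : 0 < C + r := by rw [hr]; linarith only [hy0]
  have hCq : 0 < C + q := by linarith only [hC, g3]
  have hCq' : 0 < C + q' := by linarith only [hC, g3']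
  -- the right side
  have hR : Ta * (r - s) ≤ x0 * (s - q) := by
    have i1 : 0 < Ta * (C + r) := mul_pos g1 hCr
    have i2 : 0 ≤ (C + q) * x0 := mul_nonneg hCq.le hx0
    have i3 : 0 < Ta * (C + s) := mul_pos g1 hCs
    have i4 : 0 ≤ (C + s) * x0 := mul_nonneg hCs.le hx0
    have := below hF.conv hF.zero m1 m0 nt (by rw [det2_pt]; linarith only [i1, i2])
      (by rw [det2_pt]; linarith only [i3]) (by rw [det2_pt]; linarith only [i4])
    rw [det2_pt, det2_pt, det2_pt] at this
    linarith only [this]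
  have ggR : 0.002 - 2e-6 ≤ gg C S xr L s p q Ta Tb := by
    rcases le_total q s with hqs | hqs
    · apply dat.c_i con hqs
      have := F_of g1 hl hR
      linarith only [this]
    · apply dat.c_iii con hqs
      have i0 := mul_le_mul_of_nonneg_left hl g1.le
      have i1 : 0 ≤ Ta * (x0 ^ 2 / 2) := mul_nonneg g1.le (by positivity)
      have i2 : 0 ≤ x0 * (q - s) := mul_nonneg hx0 (sub_nonneg.mpr hqs)
      have i3 : Ta * l ≤ Ta * s := by linarith only [i0, i1, i2, hR]
      exact le_of_mul_le_mul_left i3 g1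
  -- the left side
  have hL : -0.002 - 2e-6 ≤ gg C S (-xl) L s p' q' Ta' Tb' ∨
      (0 < x0 ∧ 0 < Ta' * (C + r) - x0 * (C + q') ∧
        -0.002 - 2e-6 ≤ gg C S (-xl) L s p' q' Ta' Tb' +
          2.5 * (x0 * (s - q') + Ta' * (r - s))) := by
    have hFF : 2 * (Ta' ^ 2 * (l - s)) ≤ (q' - s) ^ 2 →
        -0.002 - 2e-6 ≤ gg C S (-xl) L s p' q' Ta' Tb' := by
      intro hF1
      rcases le_total q' s with hqs | hqs
      · have := dat'.c_i con' hqs hF1
        linarith only [this]
      · exact dat'.c_ii con' hqs hF1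
    rcases le_or_gt 0 (x0 * (C + q') - Ta' * (C + r)) with hcase | hcase
    · left
      apply hFF
      have i1 : 0 < Ta' * (C + r) := mul_pos g1' hCr
      have hx0' : 0 < x0 := by
        rcases eq_or_lt_of_le hx0 with h0 | h0
        · rw [← h0] at hcase
          linarith only [hcase, i1]
        · exact h0
      have i2 : 0 < x0 * (C + s) := mul_pos hx0' hCs
      have i3 : 0 < Ta' * (C + s) := mul_pos g1' hCs
      have := below hF.conv hF.zero ht m0 na' (by rw [det2_pt]; linarith only [i2])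
        (by rw [det2_pt]; linarith only [i3]) (by rw [det2_pt]; linarith only [hcase])
      rw [det2_pt, det2_pt, det2_pt] at this
      have h2 : Ta' * (r - s) ≤ x0 * (q' - s) := by linarith only [this]
      exact F_of g1' hl h2
    · rcases eq_or_lt_of_le hx0 with h0 | h0
      · left
        apply hFF
        rw [← h0] at m0 hl
        have h1 := tmax _ m0
        have h2 : l - s ≤ 0 := by linarith only [h1, hl]
        have h3 : Ta' ^ 2 * (l - s) ≤ 0 := mul_nonpos_of_nonneg_of_nonpos (sq_nonneg _) h2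
        nlinarith only [h3, sq_nonneg (q' - s)]
      · have i0 := mul_le_mul_of_nonneg_left hl g1'.le
        have hζ : Ta' * (l - s) ≤ (x0 * (s - q') + Ta' * (r - s)) + x0 * (q' - s)
            - Ta' * (x0 ^ 2 / 2) := by linarith only [i0]
        have i1 : 0 ≤ Ta' * (x0 ^ 2 / 2) := mul_nonneg g1'.le (by positivity)
        rcases le_total q' s with hqs | hqs
        · right
          refine ⟨h0, by linarith only [hcase], ?_⟩
          have h1 := dat'.c_iv con' hqs
          have i2 : 0 ≤ x0 * (s - q') := mul_nonneg hx0 (sub_nonneg.mpr hqs)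
          linarith only [h1, hζ, i1, i2]
        · rcases le_total ((q' - s) ^ 2) (2 * (Ta' ^ 2 * (l - s))) with hF1 | hF1
          · right
            refine ⟨h0, by linarith only [hcase], ?_⟩
            have h1 := dat'.c_v con' hqs hF1
            set ζ := x0 * (s - q') + Ta' * (r - s) with hζd
            have h2 := mul_le_mul_of_nonneg_left hζ g1'.le
            have h3 : 2 * (Ta' ^ 2 * (l - s)) ≤ 2 * (Ta' * ζ) + (q' - s) ^ 2 := by
              nlinarith only [h2, sq_nonneg (Ta' * x0 - (q' - s))]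
            have h4 : 0 ≤ Ta' * (gg C S (-xl) L s p' q' Ta' Tb' + 0.002 + 2e-6 + 2.5 * ζ) := by
              linarith only [h1, h3]
            have h5 := nonneg_of_mul_nonneg_right h4 g1'
            linarith only [h5]
          · left
            exact hFF hF1
  have hLpos : 1.8 ≤ L := by linarith only [hL1, hClo, hs]
  have hwidth : 1.8 * 1.36 ≤ L * (xr - xl) :=
    mul_le_mul hLpos (by linarith only [hxr, hxl]) (by norm_num) (by linarith only [hLpos])
  rcases hL with hL | ⟨hz, hd, hL⟩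
  · have area := area5 hF hCd hSd h.vl h.vr hC hs ht m1 m2 m1' m2' g1 g2 g3 g4 g5 g1' g2' g3'
      g4' g5'
    refine le_trans (ENNReal.ofReal_le_ofReal ?_) area
    unfold gg at ggR hL
    linarith only [ggR, hL, hwidth]
  · have area := area5' hF hCd hSd h.vl h.vr hC hs ht m1 m2 m1' m2' g1 g2 g3 g4 g5 g2' g3'
      g4' g5' m0 hCr hz hd
    refine le_trans (ENNReal.ofReal_le_ofReal ?_) area
    unfold gg at ggR hL
    linarith only [ggR, hL, hwidth]

/-- Five-fold symmetry. -/
theorem ineq_five {K : Set Plane} (hc : IsCompact K) (hF : FarK 5 K) : Ineq 0.892698 K := by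
  intro L x0 y0 xr yr xl yl hch
  rcases le_total 0 x0 with h | h
  · exact ineq_five_aux hc hF hch h
  · have hcm : IsCompact (Mir K) := mir.toHomeomorph.isClosedEmbedding.isCompact_preimage hc
    have h1 := ineq_five_aux hcm (hF.mirror (by norm_num)) hch.mirror (by linarith)
    rw [volume_Mir hc] at h1
    convert h1 using 3
    ring

end Pool.Agent.helper79.RS
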