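import Pool.Agent.helper42.PD.Density

/-!
RS-1: the double lattice packing of a convex body in the vertical direction.

For a compact convex set `K` with nonempty interior let `L` be the length of a longest vertical
chord, and let `xl < xr` be the extreme abscissae of vertical chords of length `L / 2`.  Then `K`
has packing density at least `area K / (L (xr - xl))` (Kuperberg and Kuperberg).
-/

open MeasureTheory
open scoped ENNReal

namespace Pool.Agent.helper79.RS

open Pool.Agent.helper42.PD

/-- The point with coordinates `x, y`. -/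
noncomputable def pt (x y : ℝ) : Plane := !₂[x, y]

@[simp] theorem pt_zero (x y : ℝ) : pt x y 0 = x := rfl
@[simp] theorem pt_one (x y : ℝ) : pt x y 1 = y := rfl

theorem pt_eta (z : Plane) : pt (z 0) (z 1) = z := by
  ext i
  fin_cases i <;> rfl

theorem pt_add (a b c d : ℝ) : pt a b + pt c d = pt (a + c) (b + d) := by
  ext i
  fin_cases i <;> simp [pt]

theorem pt_smul (t a b : ℝ) : t • pt a b = pt (t * a) (t * b) := by
  ext i
  fin_cases i <;> simp [pt]

theorem continuous_pt : Continuous fun p : ℝ × ℝ => pt p.1 p.2 := by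
  unfold pt
  fun_prop

/-- The chord data of the vertical direction. -/
structure Chords (K : Set Plane) (L x0 y0 xr yr xl yl : ℝ) : Prop where
  L_pos : 0 < L
  mem0 : pt x0 y0 ∈ K
  mem0' : pt x0 (y0 + L) ∈ K
  max : ∀ x y t, pt x y ∈ K → pt x (y + t) ∈ K → t ≤ L
  memr : pt xr yr ∈ K
  memr' : pt xr (yr + L / 2) ∈ K
  right : ∀ x y, pt x y ∈ K → pt x (y + L / 2) ∈ K → x ≤ xr
  meml : pt xl yl ∈ K
  meml' : pt xl (yl + L / 2) ∈ K
  left : ∀ x y, pt x y ∈ K → pt x (y + L / 2) ∈ K → xl ≤ x

theorem convex_combo {K : Set Plane} (hK : Convex ℝ K) {x y x' y' : ℝ} (h : pt x y ∈ K)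
    (h' : pt x' y' ∈ K) {t : ℝ} (ht0 : 0 ≤ t) (ht1 : t ≤ 1) :
    pt ((1 - t) * x + t * x') ((1 - t) * y + t * y') ∈ K := by
  have := hK h h' (sub_nonneg.mpr ht1) ht0 (by ring)
  rwa [pt_smul, pt_smul, pt_add] at this

theorem exists_chords {K : Set Plane} (hK : Convex ℝ K) (hc : IsCompact K)
    (hi : (interior K).Nonempty) : ∃ L x0 y0 xr yr xl yl, Chords K L x0 y0 xr yr xl yl := by
  -- longest chord
  obtain ⟨z, hz⟩ := hi
  have hzK : z ∈ K := interior_subset hz
  have hc2 : IsCompact (K ×ˢ K) := hc.prod hc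
  set C0 : Set (Plane × Plane) := (K ×ˢ K) ∩ {p | p.1 0 = p.2 0} with hC0
  have hcl : IsClosed {p : Plane × Plane | p.1 0 = p.2 0} := by
    apply isClosed_eq <;> fun_prop
  have hC0c : IsCompact C0 := hc2.inter_right hcl
  obtain ⟨p0, hp0, hmax⟩ := hC0c.exists_isMaxOn (f := fun p => p.2 1 - p.1 1)
    ⟨(z, z), ⟨hzK, hzK⟩, rfl⟩ (by fun_prop)
  set L : ℝ := p0.2 1 - p0.1 1 with hL
  have hmaxL : ∀ x y t, pt x y ∈ K → pt x (y + t) ∈ K → t ≤ L := by
    intro x y t h1 h2
    have := hmax (show (pt x y, pt x (y + t)) ∈ C0 from ⟨⟨h1, h2⟩, rfl⟩)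
    simp only [Set.mem_setOf_eq, pt_one] at this
    linarith
  have hLpos : 0 < L := by
    rw [mem_interior_iff_mem_nhds, Metric.mem_nhds_iff] at hz
    obtain ⟨ε, hε, hball⟩ := hz
    have h1 : pt (z 0) (z 1 + ε / 2) ∈ K := by
      apply hball
      rw [Metric.mem_ball, EuclideanSpace.dist_eq, Fin.sum_univ_two]
      simp only [pt_zero, pt_one, dist_self]
      rw [Real.dist_eq]
      have : z 1 + ε / 2 - z 1 = ε / 2 := by ring
      rw [this, abs_of_pos (by linarith)]
      rw [Real.sqrt_lt' hε]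
      nlinarith
    have h2 := hmaxL (z 0) (z 1) (ε / 2) (by rwa [pt_eta]) h1
    linarith
  have hm0 : pt (p0.1 0) (p0.1 1) ∈ K := by rw [pt_eta]; exact hp0.1.1
  have hm0' : pt (p0.1 0) (p0.1 1 + L) ∈ K := by
    have h3 : p0.1 0 = p0.2 0 := hp0.2
    rw [hL, h3]
    have : p0.1 1 + (p0.2 1 - p0.1 1) = p0.2 1 := by ring
    rw [this, pt_eta]
    exact hp0.1.2
  -- half chords
  set C1 : Set (Plane × Plane) := (K ×ˢ K) ∩ {p | p.1 0 = p.2 0 ∧ p.2 1 - p.1 1 = L / 2} with hC1
  have hcl1 : IsClosed {p : Plane × Plane | p.1 0 = p.2 0 ∧ p.2 1 - p.1 1 = L / 2} := by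
    apply IsClosed.inter
    · exact isClosed_eq (by fun_prop) (by fun_prop)
    · exact isClosed_eq (by fun_prop) (by fun_prop)
  have hC1c : IsCompact C1 := hc2.inter_right hcl1
  have hhalf : pt (p0.1 0) (p0.1 1 + L / 2) ∈ K := by
    have := convex_combo hK hm0 hm0' (t := 1 / 2) (by norm_num) (by norm_num)
    convert this using 2 <;> ring
  have hC1n : C1.Nonempty := by
    refine ⟨(pt (p0.1 0) (p0.1 1), pt (p0.1 0) (p0.1 1 + L / 2)), ⟨hm0, hhalf⟩, rfl, ?_⟩
    simp only [pt_one]
    ring
  obtain ⟨pr, hpr, hprmax⟩ := hC1c.exists_isMaxOn (f := fun p => p.1 0) hC1n (by fun_prop)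
  obtain ⟨pl, hpl, hplmin⟩ := hC1c.exists_isMinOn (f := fun p => p.1 0) hC1n (by fun_prop)
  have key : ∀ p ∈ C1, pt (p.1 0) (p.1 1) ∈ K ∧ pt (p.1 0) (p.1 1 + L / 2) ∈ K := by
    intro p hp
    refine ⟨by rw [pt_eta]; exact hp.1.1, ?_⟩
    have h3 : p.1 0 = p.2 0 := hp.2.1
    have h4 : p.1 1 + L / 2 = p.2 1 := by rw [← hp.2.2]; ring
    rw [h4, h3, pt_eta]
    exact hp.1.2
  have mem1 : ∀ x y, pt x y ∈ K → pt x (y + L / 2) ∈ K → (pt x y, pt x (y + L / 2)) ∈ C1 := by
    intro x y h1 h2
    refine ⟨⟨h1, h2⟩, rfl, ?_⟩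
    simp only [pt_one]
    ring
  refine ⟨L, p0.1 0, p0.1 1, pr.1 0, pr.1 1, pl.1 0, pl.1 1, hLpos, hm0, hm0', hmaxL,
    (key pr hpr).1, (key pr hpr).2, ?_, (key pl hpl).1, (key pl hpl).2, ?_⟩
  · intro x y h1 h2
    have := hprmax (mem1 x y h1 h2)
    simpa using this
  · intro x y h1 h2
    have := hplmin (mem1 x y h1 h2)
    simpa using this

/-- An interior point can be moved a little in all directions. -/
theorem exists_eps {K : Set Plane} {x y : ℝ} (h : pt x y ∈ interior K) :
    ∃ ε > 0, ∀ s t : ℝ, |s| ≤ ε → |t| ≤ ε → pt (x + s) (y + t) ∈ K := by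
  rw [mem_interior_iff_mem_nhds] at h
  have h2 : Filter.Tendsto (fun p : ℝ × ℝ => pt (x + p.1) (y + p.2)) (nhds (0, 0))
      (nhds (pt x y)) := by
    have : Continuous fun p : ℝ × ℝ => pt (x + p.1) (y + p.2) :=
      continuous_pt.comp (f := fun p : ℝ × ℝ => (x + p.1, y + p.2)) (by fun_prop)
    have h3 := this.tendsto (0, 0)
    simpa using h3
  have h4 := h2 h
  rw [Filter.mem_map, Metric.mem_nhds_iff] at h4
  obtain ⟨ε, hε, hb⟩ := h4
  refine ⟨ε / 2, by linarith, ?_⟩
  intro s t hs ht
  have h5 : ((s, t) : ℝ × ℝ) ∈ Metric.ball ((0, 0) : ℝ × ℝ) ε := by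
    rw [Metric.mem_ball, Prod.dist_eq]
    simp only [Real.dist_eq, sub_zero]
    exact max_lt (by linarith) (by linarith)
  exact hb h5

namespace Chords

variable {K : Set Plane} {L x0 y0 xr yr xl yl : ℝ}

theorem bound_right (hK : Convex ℝ K) (h : Chords K L x0 y0 xr yr xl yl) {x y : ℝ}
    (hz : pt x y ∈ K) : x ≤ 2 * xr - x0 := by
  have h1 := convex_combo hK h.mem0 hz (t := 1 / 2) (by norm_num) (by norm_num)
  have h2 := convex_combo hK h.mem0' hz (t := 1 / 2) (by norm_num) (by norm_num)
  have h3 := h.right _ _ h1 (by convert h2 using 2; ring)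
  linarith

theorem bound_left (hK : Convex ℝ K) (h : Chords K L x0 y0 xr yr xl yl) {x y : ℝ}
    (hz : pt x y ∈ K) : 2 * xl - x0 ≤ x := by
  have h1 := convex_combo hK h.mem0 hz (t := 1 / 2) (by norm_num) (by norm_num)
  have h2 := convex_combo hK h.mem0' hz (t := 1 / 2) (by norm_num) (by norm_num)
  have h3 := h.left _ _ h1 (by convert h2 using 2; ring)
  linarith

theorem x0_mem (hK : Convex ℝ K) (h : Chords K L x0 y0 xr yr xl yl) : xl ≤ x0 ∧ x0 ≤ xr := by
  have hhalf : pt x0 (y0 + L / 2) ∈ K := by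
    have := convex_combo hK h.mem0 h.mem0' (t := 1 / 2) (by norm_num) (by norm_num)
    convert this using 2 <;> ring
  exact ⟨h.left _ _ h.mem0 hhalf, h.right _ _ h.mem0 hhalf⟩

theorem lt (hK : Convex ℝ K) (hi : (interior K).Nonempty)
    (h : Chords K L x0 y0 xr yr xl yl) : xl < xr := by
  obtain ⟨z, hz⟩ := hi
  rw [← pt_eta z] at hz
  obtain ⟨ε, hε, hb⟩ := exists_eps hz
  have h1 := h.bound_right hK (hb ε 0 (by rw [abs_of_pos hε]) (by simpa using hε.le))
  have h2 := h.bound_left hK (hb (-ε) 0 (by rw [abs_neg, abs_of_pos hε]) (by simpa using hε.le))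
  linarith

end Chords

/-- If no two interior points of the convex set `K` on the line with abscissa `x` are at distance
`ℓ`, then the interior points on this line lie strictly between the end points of a chord of
length `ℓ`. -/
theorem interior_chord {K : Set Plane} (hK : Convex ℝ K) {x y1 ℓ : ℝ} (hℓ : 0 < ℓ)
    (hm : pt x y1 ∈ K) (hm' : pt x (y1 + ℓ) ∈ K)
    (hno : ∀ y, pt x y ∈ interior K → pt x (y + ℓ) ∉ interior K) {y : ℝ}
    (hy : pt x y ∈ interior K) : y1 < y ∧ y < y1 + ℓ := by
  -- open segments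
  have hseg : ∀ a b s : ℝ, pt x a ∈ K → pt x b ∈ interior K → 0 < s → s ≤ 1 →
      pt x ((1 - s) * a + s * b) ∈ interior K := by
    intro a b s h1 h2 hs0 hs1
    have h3 := hK.combo_self_interior_mem_interior h1 h2 (sub_nonneg.mpr hs1) hs0 (by ring)
    rw [pt_smul, pt_smul, pt_add] at h3
    convert h3 using 2
    ring
  constructor
  · by_contra hcon
    push Not at hcon
    have hopen : ∃ δ > 0, pt x (y - δ) ∈ interior K := by
      have hcont : Continuous fun δ : ℝ => pt x (y - δ) :=
        continuous_pt.comp (f := fun δ : ℝ => (x, y - δ)) (by fun_prop)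
      have hopen2 : IsOpen ((fun δ : ℝ => pt x (y - δ)) ⁻¹' interior K) :=
        isOpen_interior.preimage hcont
      have hmem : (0 : ℝ) ∈ (fun δ : ℝ => pt x (y - δ)) ⁻¹' interior K := by simpa using hy
      obtain ⟨δ, hδ, hball⟩ := Metric.isOpen_iff.mp hopen2 0 hmem
      refine ⟨δ / 2, by linarith, hball ?_⟩
      rw [Metric.mem_ball, Real.dist_eq, sub_zero, abs_of_pos (by linarith)]
      linarith
    obtain ⟨δ, hδ, h1⟩ := hopen
    set b := y - δ with hbdef
    have hb1 : b < y1 := by linarith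
    have h2 := hseg (y1 + ℓ) b ((y1 - b) / (y1 + ℓ - b)) hm' h1
      (by apply div_pos <;> linarith) (by rw [div_le_one (by linarith)]; linarith)
    have h3 : (1 - (y1 - b) / (y1 + ℓ - b)) * (y1 + ℓ) + (y1 - b) / (y1 + ℓ - b) * b =
        b + ℓ := by
      have h4 : y1 + ℓ - b ≠ 0 := by
        have : 0 < y1 + ℓ - b := by linarith
        exact this.ne'
      have h5 := div_mul_cancel₀ (y1 - b) h4
      linear_combination -h5
    rw [h3] at h2
    exact hno b h1 h2
  · by_contra hcon
    push Not at hcon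
    have hopen : ∃ δ > 0, pt x (y + δ) ∈ interior K := by
      have hcont : Continuous fun δ : ℝ => pt x (y + δ) :=
        continuous_pt.comp (f := fun δ : ℝ => (x, y + δ)) (by fun_prop)
      have hopen2 : IsOpen ((fun δ : ℝ => pt x (y + δ)) ⁻¹' interior K) :=
        isOpen_interior.preimage hcont
      have hmem : (0 : ℝ) ∈ (fun δ : ℝ => pt x (y + δ)) ⁻¹' interior K := by simpa using hy
      obtain ⟨δ, hδ, hball⟩ := Metric.isOpen_iff.mp hopen2 0 hmem
      refine ⟨δ / 2, by linarith, hball ?_⟩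
      rw [Metric.mem_ball, Real.dist_eq, sub_zero, abs_of_pos (by linarith)]
      linarith
    obtain ⟨δ, hδ, h1⟩ := hopen
    set b := y + δ with hbdef
    have hb1 : y1 + ℓ < b := by linarith
    have h2 := hseg y1 b ((b - ℓ - y1) / (b - y1)) hm h1
      (by apply div_pos <;> linarith) (by rw [div_le_one (by linarith)]; linarith)
    have h3 : (1 - (b - ℓ - y1) / (b - y1)) * y1 + (b - ℓ - y1) / (b - y1) * b =
        b - ℓ := by
      have h4 : b - y1 ≠ 0 := by
        have : 0 < b - y1 := by linarith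
        exact this.ne'
      have h5 := div_mul_cancel₀ (b - ℓ - y1) h4
      linear_combination h5
    rw [h3] at h2
    exact hno _ h2 (by simpa using h1)

namespace Chords

variable {K : Set Plane} {L x0 y0 xr yr xl yl : ℝ}

/-- On the line `x = xr` the interior points lie strictly between the two end points. -/
theorem interior_right (hK : Convex ℝ K) (h : Chords K L x0 y0 xr yr xl yl) {y : ℝ}
    (hy : pt xr y ∈ interior K) : yr < y ∧ y < yr + L / 2 := by
  have hL := h.L_pos
  refine interior_chord hK (half_pos hL) h.memr h.memr' ?_ hy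
  intro y h1 h2
  obtain ⟨ε, hε, hb⟩ := exists_eps h1
  obtain ⟨ε', hε', hb'⟩ := exists_eps h2
  have hm : 0 < min ε ε' := lt_min hε hε'
  have h3 := hb (min ε ε') 0 (by rw [abs_of_pos hm]; exact min_le_left _ _)
    (by simpa using hε.le)
  have h4 := hb' (min ε ε') 0 (by rw [abs_of_pos hm]; exact min_le_right _ _)
    (by simpa using hε'.le)
  simp only [add_zero] at h3 h4
  have := h.right _ _ h3 h4
  linarith

/-- On the line `x = xl` the interior points lie strictly between the two end points. -/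
theorem interior_left (hK : Convex ℝ K) (h : Chords K L x0 y0 xr yr xl yl) {y : ℝ}
    (hy : pt xl y ∈ interior K) : yl < y ∧ y < yl + L / 2 := by
  have hL := h.L_pos
  refine interior_chord hK (half_pos hL) h.meml h.meml' ?_ hy
  intro y h1 h2
  obtain ⟨ε, hε, hb⟩ := exists_eps h1
  obtain ⟨ε', hε', hb'⟩ := exists_eps h2
  have hm : 0 < min ε ε' := lt_min hε hε'
  have h3 := hb (-min ε ε') 0 (by rw [abs_neg, abs_of_pos hm]; exact min_le_left _ _)
    (by simpa using hε.le)
  have h4 := hb' (-min ε ε') 0 (by rw [abs_neg, abs_of_pos hm]; exact min_le_right _ _)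
    (by simpa using hε'.le)
  simp only [add_zero] at h3 h4
  have := h.left _ _ h3 h4
  linarith

theorem not_interior_right (hK : Convex ℝ K) (h : Chords K L x0 y0 xr yr xl yl) :
    pt xr yr ∉ interior K ∧ pt xr (yr + L / 2) ∉ interior K :=
  ⟨fun h1 => lt_irrefl _ (h.interior_right hK h1).1,
    fun h1 => lt_irrefl _ (h.interior_right hK h1).2⟩

theorem not_interior_left (hK : Convex ℝ K) (h : Chords K L x0 y0 xr yr xl yl) :
    pt xl yl ∉ interior K ∧ pt xl (yl + L / 2) ∉ interior K :=
  ⟨fun h1 => lt_irrefl _ (h.interior_left hK h1).1,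
    fun h1 => lt_irrefl _ (h.interior_left hK h1).2⟩

/-- Interior points satisfy the bounds strictly. -/
theorem interior_bounds (hK : Convex ℝ K) (h : Chords K L x0 y0 xr yr xl yl) {x y : ℝ}
    (hz : pt x y ∈ interior K) : 2 * xl - x0 < x ∧ x < 2 * xr - x0 := by
  obtain ⟨ε, hε, hb⟩ := exists_eps hz
  have h1 := h.bound_right hK (hb ε 0 (by rw [abs_of_pos hε]) (by simpa using hε.le))
  have h2 := h.bound_left hK (hb (-ε) 0 (by rw [abs_neg, abs_of_pos hε]) (by simpa using hε.le))
  constructor <;> linarith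

/-- The double lattice packing. -/
theorem doubleLattice (hK : Convex ℝ K) (hi : (interior K).Nonempty)
    (h : Chords K L x0 y0 xr yr xl yl) :
    DoubleLattice K (pt 0 L) (pt (2 * (xr - xl)) (2 * (yr - yl))) (pt (2 * xr) (2 * yr + L)) := by
  have hL := h.L_pos
  have hlt := h.lt hK hi
  obtain ⟨hx1, hx2⟩ := h.x0_mem hK
  -- integer multiples of `L / 2`
  have hint : ∀ i : ℤ, ∀ y1 y : ℝ, y = y1 + L / 2 * (1 + i) → ¬ (y1 < y ∧ y < y1 + L / 2) := by
    rintro i y1 y rfl ⟨h1, h2⟩
    have h3 : (0 : ℝ) < 1 + i := by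
      by_contra hcon
      push Not at hcon
      nlinarith
    have h4 : (1 : ℝ) + i < 1 := by
      by_contra hcon
      push Not at hcon
      nlinarith
    have h5 : (-1 : ℤ) < i := by
      have : (-1 : ℝ) < i := by linarith
      exact_mod_cast this
    have h6 : i < 0 := by
      have : (i : ℝ) < 0 := by linarith
      exact_mod_cast this
    omega
  refine ⟨?_, ?_, ?_⟩
  · simp only [det2, pt_zero, pt_one]
    have : 0 < L * (2 * (xr - xl)) := by
      apply mul_pos hL
      linarith
    intro h0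
    nlinarith
  · intro i j hij z hz hz2
    rw [pt_smul, pt_smul, pt_add, ← pt_eta z, pt_add] at hz2
    rw [← pt_eta z] at hz
    obtain ⟨b1, b2⟩ := h.interior_bounds hK hz
    obtain ⟨b3, b4⟩ := h.interior_bounds hK hz2
    by_cases hj : j = 0
    · subst hj
      have hi0 : i ≠ 0 := by
        rcases hij with h1 | h1
        · exact h1
        · exact absurd rfl h1
      simp only [Int.cast_zero, zero_mul, add_zero, mul_zero] at hz2
      have hz3 : pt (z 0) (z 1 + i * L) ∈ interior K := by simpa using hz2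
      obtain ⟨ε, hε, hb⟩ := exists_eps hz
      obtain ⟨ε', hε', hb'⟩ := exists_eps hz3
      rcases lt_or_gt_of_ne hi0 with hneg | hpos
      · have h3 := hb 0 ε (by simpa using hε.le) (by rw [abs_of_pos hε])
        have h4 := hb' 0 0 (by simpa using hε'.le) (by simpa using hε'.le)
        simp only [add_zero] at h3 h4
        have h5 := h.max _ _ (-(i * L) + ε) h4 (by convert h3 using 2; ring)
        have h6 : (i : ℝ) ≤ -1 := by
          have : i ≤ -1 := by omega
          exact_mod_cast this
        nlinarith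
      · have h3 := hb 0 0 (by simpa using hε.le) (by simpa using hε.le)
        have h4 := hb' 0 ε' (by simpa using hε'.le) (by rw [abs_of_pos hε'])
        simp only [add_zero] at h3 h4
        have h5 := h.max _ _ (i * L + ε') h3 (by convert h4 using 2; ring)
        have h6 : (1 : ℝ) ≤ i := by
          have : 1 ≤ i := by omega
          exact_mod_cast this
        nlinarith
    · rcases lt_or_gt_of_ne hj with hneg | hpos
      · have h6 : (j : ℝ) ≤ -1 := by
          have : j ≤ -1 := by omega
          exact_mod_cast this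
        nlinarith
      · have h6 : (1 : ℝ) ≤ j := by
          have : 1 ≤ j := by omega
          exact_mod_cast this
        nlinarith
  · intro i j hz
    rw [pt_smul, pt_smul, pt_add, pt_add, pt_smul] at hz
    obtain ⟨b1, b2⟩ := h.interior_bounds hK hz
    rcases lt_trichotomy j 0 with hneg | rfl | hpos
    · rcases lt_or_eq_of_le (show j ≤ -1 by omega) with hj | rfl
      · have h6 : (j : ℝ) ≤ -2 := by
          have : j ≤ -2 := by omega
          exact_mod_cast this
        nlinarith
      · have h7 : pt xl (yl + L / 2 * (1 + i)) ∈ interior K := by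
          convert hz using 2
          · push_cast; ring
          · push_cast; ring
        exact hint i yl _ rfl (h.interior_left hK h7)
    · have h7 : pt xr (yr + L / 2 * (1 + i)) ∈ interior K := by
        convert hz using 2
        · push_cast; ring
        · push_cast; ring
      exact hint i yr _ rfl (h.interior_right hK h7)
    · have h6 : (1 : ℝ) ≤ j := by
        have : 1 ≤ j := by omega
        exact_mod_cast this
      nlinarith

/-- The packing density is at least `area K / (L (xr - xl))`. -/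
theorem packingDensity_ge (hK : Convex ℝ K) (hc : IsCompact K) (hi : (interior K).Nonempty)
    (h : Chords K L x0 y0 xr yr xl yl) {B c : ℝ} (hB : c * (L * (xr - xl)) ≤ B)
    (hvol : ENNReal.ofReal B ≤ volume K) : ENNReal.ofReal c ≤ packingDensity K := by
  have hL := h.L_pos
  have hlt := h.lt hK hi
  have hpos : 0 < L * (xr - xl) := mul_pos hL (by linarith)
  have hgood : Good K (2 * (L * (xr - xl))) := by
    refine ⟨_, _, _, h.doubleLattice hK hi, ?_⟩
    simp only [det2, pt_zero, pt_one]
    rw [abs_le]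
    constructor <;> nlinarith
  have h1 := hgood.packingDensity_ge hK hc hi (by linarith) hvol
  refine le_trans (ENNReal.ofReal_le_ofReal ?_) h1
  rw [le_div_iff₀ (by linarith)]
  linarith

end Chords

end Pool.Agent.helper79.RS
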