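import Pool.Agent.helper79.RS.Norm

/-!
RS-5: tools for the farthest point frame and the numbers of the regular heptagon.
-/

open MeasureTheory
open scoped ENNReal Pointwise

namespace Pool.Agent.helper79.RS

open Pool.Agent.helper42.PD

/-- A point outside the interior of `K`, in the sector of `p, q ∈ K`, is not below the line `p q`. -/
theorem below {K : Set Plane} (hK : Convex ℝ K) (h0 : (0 : Plane) ∈ interior K) {p q z : Plane}
    (hp : p ∈ K) (hq : q ∈ K) (hz : z ∉ interior K) (hpq : 0 < det2 p q) (h1 : 0 ≤ det2 p z)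
    (h2 : 0 ≤ det2 z q) : det2 p q ≤ det2 p z + det2 z q := by
  by_contra hcon
  push Not at hcon
  apply hz
  set D := det2 p q with hD
  set a := det2 z q / D with ha
  set b := det2 p z / D with hb
  have ha0 : 0 ≤ a := div_nonneg h2 hpq.le
  have hb0 : 0 ≤ b := div_nonneg h1 hpq.le
  have hab : a + b < 1 := by
    rw [ha, hb, ← add_div, div_lt_one hpq]
    linarith
  have hzab : z = a • p + b • q := by
    apply plane_ext
    · simp only [PiLp.add_apply, PiLp.smul_apply, smul_eq_mul]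
      rw [ha, hb]
      field_simp
      simp only [hD, det2]
      ring
    · simp only [PiLp.add_apply, PiLp.smul_apply, smul_eq_mul]
      rw [ha, hb]
      field_simp
      simp only [hD, det2]
      ring
  rcases eq_or_lt_of_le (add_nonneg ha0 hb0) with h3 | h3
  · have ha1 : a = 0 := by linarith
    have hb1 : b = 0 := by linarith
    rw [hzab, ha1, hb1]
    simpa using h0
  · have hw : (a / (a + b)) • p + (b / (a + b)) • q ∈ K :=
      hK hp hq (by positivity) (by positivity) (by field_simp)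
    have h4 := hK.combo_interior_self_mem_interior h0 hw (a := 1 - (a + b)) (b := a + b)
      (by linarith) h3.le (by ring)
    convert h4 using 1
    rw [hzab, smul_zero, zero_add, smul_add, smul_smul, smul_smul]
    have e1 : (a + b) * (a / (a + b)) = a := by field_simp
    have e2 : (a + b) * (b / (a + b)) = b := by field_simp
    rw [e1, e2]

/-- The numbers of the regular heptagon. -/
structure Hept (C S c2 s2 c3 s3 : ℝ) : Prop where
  min : 8 * C ^ 3 - 4 * C ^ 2 - 4 * C + 1 = 0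
  c2e : c2 = 2 * C ^ 2 - 1
  c3e : c3 = 2 * C ^ 2 - C - 1 / 2
  s2e : s2 = 2 * S * C
  s3e : s3 = S * (4 * C ^ 2 - 1)
  sq : S ^ 2 = 1 - C ^ 2
  Clo : 0.90096886 < C
  Chi : C < 0.90096887
  Slo : 0.43388373 < S
  Shi : S < 0.43388375

theorem hept : Hept (Real.cos (Real.pi / 7)) (Real.sin (Real.pi / 7))
    (Real.cos (2 * (Real.pi / 7))) (Real.sin (2 * (Real.pi / 7)))
    (Real.cos (3 * (Real.pi / 7))) (Real.sin (3 * (Real.pi / 7))) := by
  have hpi := Real.pi_pos
  set θ := Real.pi / 7 with hθ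
  set C := Real.cos θ with hC
  set S := Real.sin θ with hS
  have hsq : S ^ 2 = 1 - C ^ 2 := by
    have := Real.sin_sq_add_cos_sq θ
    linarith
  have hC1 : Real.sqrt 3 / 2 < C := by
    rw [hC, ← Real.cos_pi_div_six]
    apply Real.cos_lt_cos_of_nonneg_of_le_pi <;> linarith
  have h3 : (1.7 : ℝ) < Real.sqrt 3 := by
    rw [Real.lt_sqrt (by norm_num)]
    norm_num
  have hC085 : 0.85 < C := by linarith
  have hCle : C ≤ 1 := Real.cos_le_one _
  have hS0 : 0 < S := Real.sin_pos_of_pos_of_lt_pi (by positivity) (by rw [hθ]; linarith)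
  have hc3 : Real.cos (3 * θ) = 4 * C ^ 3 - 3 * C := by rw [Real.cos_three_mul]
  have hs3 : Real.sin (3 * θ) = 3 * S - 4 * S ^ 3 := by rw [Real.sin_three_mul]
  have hc4 : Real.cos (3 * θ) = -Real.cos (4 * θ) := by
    rw [← Real.cos_pi_sub]
    congr 1
    rw [hθ]; ring
  have hc4' : Real.cos (4 * θ) = 8 * C ^ 4 - 8 * C ^ 2 + 1 := by
    have : 4 * θ = 2 * (2 * θ) := by ring
    rw [this, Real.cos_two_mul, Real.cos_two_mul]
    ring
  have hmin0 : (C + 1) * (8 * C ^ 3 - 4 * C ^ 2 - 4 * C + 1) = 0 := by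
    have : 4 * C ^ 3 - 3 * C = -(8 * C ^ 4 - 8 * C ^ 2 + 1) := by rw [← hc3, hc4, hc4']
    linear_combination this
  have hmin : 8 * C ^ 3 - 4 * C ^ 2 - 4 * C + 1 = 0 := by
    rcases mul_eq_zero.mp hmin0 with h | h
    · linarith
    · exact h
  have hClo : 0.90096886 < C := by
    by_contra h
    push Not at h
    nlinarith [mul_nonneg (sub_nonneg.mpr h) (sub_nonneg.mpr hC085.le),
      mul_nonneg (mul_nonneg (sub_nonneg.mpr h) (sub_nonneg.mpr hC085.le))
        (sub_nonneg.mpr hC085.le)]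
  have hChi : C < 0.90096887 := by
    by_contra h
    push Not at h
    nlinarith [mul_nonneg (sub_nonneg.mpr h) (sub_nonneg.mpr hC085.le),
      mul_nonneg (mul_nonneg (sub_nonneg.mpr h) (sub_nonneg.mpr hC085.le))
        (sub_nonneg.mpr hC085.le)]
  refine ⟨hmin, Real.cos_two_mul θ, ?_, ?_, ?_, hsq, hClo, hChi, ?_, ?_⟩
  · rw [hc3]
    linear_combination (1 / 2) * hmin
  · rw [Real.sin_two_mul]
  · rw [hs3]
    linear_combination (-4 * S) * hsq
  · nlinarith
  · nlinarith

namespace Hept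

variable {C S c2 s2 c3 s3 : ℝ} (h : Hept C S c2 s2 c3 s3)

include h

theorem C2lo : 0.811744886 < C ^ 2 := by nlinarith [h.Clo]
theorem C2hi : C ^ 2 < 0.811744905 := by nlinarith [h.Clo, h.Chi]
theorem c2lo : 0.62348977 < c2 := by rw [h.c2e]; linarith [h.C2lo]
theorem c2hi : c2 < 0.62348981 := by rw [h.c2e]; linarith [h.C2hi]
theorem c3lo : 0.2225209 < c3 := by rw [h.c3e]; linarith [h.C2lo, h.Chi]
theorem c3hi : c3 < 0.22252096 := by rw [h.c3e]; linarith [h.C2hi, h.Clo]
theorem s2lo : 0.78183145 < s2 := by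
  rw [h.s2e]; nlinarith [mul_pos (sub_pos.mpr h.Slo) (sub_pos.mpr h.Clo), h.Slo, h.Clo]
theorem s2hi : s2 < 0.78183152 := by
  rw [h.s2e]; nlinarith [mul_pos (sub_pos.mpr h.Shi) (sub_pos.mpr h.Clo), h.Shi, h.Chi, h.Slo]
theorem s3lo : 0.97492786 < s3 := by
  rw [h.s3e]; nlinarith [mul_pos (sub_pos.mpr h.Slo) (sub_pos.mpr h.C2lo), h.Slo, h.C2lo]
theorem s3hi : s3 < 0.97492796 := by
  rw [h.s3e]; nlinarith [mul_pos (sub_pos.mpr h.Shi) (sub_pos.mpr h.C2lo), h.Shi, h.C2hi, h.Slo]
theorem S_pos : 0 < S := by linarith [h.Slo]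
theorem C_pos : 0 < C := by linarith [h.Clo]

end Hept

end Pool.Agent.helper79.RS
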