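import Pool.Agent.helper79.RS.Nine

/-!
RS-15: bodies with a nine-fold symmetry, geometry.
-/

open MeasureTheory
open scoped ENNReal Pointwise

namespace Pool.Agent.helper79.RS

open Pool.Agent.helper42.PD

namespace Non

variable {s k C S c4 s4 : ℝ} (h : Non s k C S c4 s4)

include h

theorem a1 : S * k - C * s = s := by
  rw [h.Se, h.Ce]
  linear_combination (2 * s) * h.sq
theorem a2 : S * s + C * k = k := by
  rw [h.Se, h.Ce]
  ring
theorem a3 : S * c4 - C * s4 = -S := by
  rw [h.c4e, h.s4e]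
  ring
theorem a4 : S * s4 + C * c4 = C := by
  rw [h.c4e, h.s4e]
  linear_combination (2 * C) * h.CS
theorem c4e' : c4 = C ^ 2 - S ^ 2 := by
  rw [h.c4e]
  linear_combination h.CS
theorem Ck : 2 * k ^ 2 - 1 = C := by
  rw [h.Ce]
  linear_combination 2 * h.sq

end Non

/-- The angles. -/
theorem ang : Real.pi / 2 = 9 * (Real.pi / 18) := by ring

theorem FarA.ends {K : Set Plane} (h : FarA 9 0 K) :
    pt (Real.sin (2 * (Real.pi / 18))) (-Real.cos (2 * (Real.pi / 18))) ∈ K ∧
      pt (-Real.sin (2 * (Real.pi / 18))) (-Real.cos (2 * (Real.pi / 18))) ∈ K := by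
  have e1 : 2 * Real.pi / ((9 : ℕ) : ℝ) * ((-4 : ℤ) : ℝ) + 0 = -(Real.pi - 2 * (Real.pi / 18)) := by
    push_cast; ring
  have e2 : 2 * Real.pi / ((9 : ℕ) : ℝ) * ((4 : ℤ) : ℝ) + 0 = Real.pi - 2 * (Real.pi / 18) := by
    push_cast; ring
  constructor
  · have h1 := h.sym.int (by norm_num) (-4) h.top
    rw [rot_rot, e1, rot_top, Real.sin_neg, Real.cos_neg, Real.sin_pi_sub, Real.cos_pi_sub,
      neg_neg] at h1
    exact h1
  · have h1 := h.sym.int (by norm_num) 4 h.top
    rw [rot_rot, e2, rot_top, Real.sin_pi_sub, Real.cos_pi_sub] at h1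
    exact h1

theorem ends_rot {n : ℕ} {a : ℝ} (ha : Real.pi - a + 2 * Real.pi / n = Real.pi + a) :
    pt (Real.sin a) (-Real.cos a) =
      rot (2 * Real.pi / n) (pt (-Real.sin a) (-Real.cos a)) := by
  have e : 2 * Real.pi / n = 2 * a := by linarith
  have h := Real.sin_sq_add_cos_sq a
  rw [e, rot_pt, Real.cos_two_mul, Real.sin_two_mul]
  congr 1
  · linear_combination (-2 * Real.sin a * 0) * h
  · linear_combination (2 * Real.cos a) * h

/-- Left side. -/
theorem nine_left {K : Set Plane} (hF : FarA 9 (Real.pi / 18) K) {L x0 y0 xr yr xl yl : ℝ}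
    (hch : Chords K L x0 y0 xr yr xl yl) :
    ∃ A, ENNReal.ofReal (2 * A) ≤ volume K ∧ 0.8927 * (L * xr) + 0.0015 ≤ A := by
  have hn := non
  have hB := hF.bot
  obtain ⟨vr, vl⟩ := hB.ends
  have hrot := ends_rot (n := 9) (a := 2 * (Real.pi / 18)) (by push_cast; ring)
  have t1 : ∀ j : ℤ, pt (Real.sin ((4 * j - 1) * (Real.pi / 18)))
      (Real.cos ((4 * j - 1) * (Real.pi / 18))) ∈ K := by
    intro j
    have h1 := hF.sym.int (by norm_num) (-j) hF.top
    rw [rot_rot, rot_top] at h1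
    have e : 2 * Real.pi / ((9 : ℕ) : ℝ) * ((-j : ℤ) : ℝ) + Real.pi / 18 =
        -((4 * j - 1) * (Real.pi / 18)) := by push_cast; ring
    rw [e, Real.sin_neg, Real.cos_neg, neg_neg] at h1
    exact h1
  have w1 := t1 0
  have w2 := t1 (-4)
  have w3 := t1 1
  have w4 := t1 2
  have w5 := t1 3
  have w6 := t1 4
  have f1 : ((4 * ((0 : ℤ) : ℝ) - 1) * (Real.pi / 18)) = -(Real.pi / 18) := by push_cast; ring
  have f2 : ((4 * ((-4 : ℤ) : ℝ) - 1) * (Real.pi / 18)) = -(Real.pi - Real.pi / 18) := by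
    push_cast; ring
  have f3 : ((4 * ((1 : ℤ) : ℝ) - 1) * (Real.pi / 18)) = Real.pi / 6 := by push_cast; ring
  have f4 : ((4 * ((2 : ℤ) : ℝ) - 1) * (Real.pi / 18)) = Real.pi / 2 - 2 * (Real.pi / 18) := by
    push_cast; ring
  have f5 : ((4 * ((3 : ℤ) : ℝ) - 1) * (Real.pi / 18)) = 2 * (Real.pi / 18) + Real.pi / 2 := by
    push_cast; ring
  have f6 : ((4 * ((4 : ℤ) : ℝ) - 1) * (Real.pi / 18)) = Real.pi - Real.pi / 6 := by
    push_cast; ring
  rw [f1, Real.sin_neg, Real.cos_neg] at w1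
  rw [f2, Real.sin_neg, Real.cos_neg, Real.sin_pi_sub, Real.cos_pi_sub] at w2
  rw [f3, Real.sin_pi_div_six, Real.cos_pi_div_six] at w3
  rw [f4, Real.sin_pi_div_two_sub, Real.cos_pi_div_two_sub] at w4
  rw [f5, Real.sin_add_pi_div_two, Real.cos_add_pi_div_two] at w5
  rw [f6, Real.sin_pi_sub, Real.cos_pi_sub, Real.sin_pi_div_six, Real.cos_pi_div_six] at w6
  have g1 : -(Real.pi / 18) + 2 * Real.pi / ((9 : ℕ) : ℝ) * ((-3 : ℤ) : ℝ) =
      -(4 * (Real.pi / 18) + Real.pi / 2) := by push_cast; ring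
  have g2 : -(Real.pi / 18) + 2 * Real.pi / ((9 : ℕ) : ℝ) * ((-1 : ℤ) : ℝ) =
      -(Real.pi / 2 - 4 * (Real.pi / 18)) := by push_cast; ring
  have mb := hF.bot_mem (by norm_num) (-3) hch.memr'
  have ma := hF.bot_mem (by norm_num) (-1) hch.memr
  rw [g1, rot_pt, Real.sin_neg, Real.cos_neg, Real.sin_add_pi_div_two,
    Real.cos_add_pi_div_two] at mb
  rw [g2, rot_pt, Real.sin_neg, Real.cos_neg, Real.sin_pi_div_two_sub,
    Real.cos_pi_div_two_sub] at ma
  set s := Real.sin (Real.pi / 18)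
  set k := Real.cos (Real.pi / 18)
  set C := Real.cos (2 * (Real.pi / 18))
  set S := Real.sin (2 * (Real.pi / 18))
  set c4 := Real.cos (4 * (Real.pi / 18))
  set s4 := Real.sin (4 * (Real.pi / 18))
  have b1 := hn.Clo
  have b2 := hn.Chi
  have b3 := hn.Slo
  have b4 := hn.Shi
  have b5 := hn.klo
  have b6 := hn.khi
  have b7 := hn.s4lo
  have b8 := hn.s4hi
  have b9 := hn.c4lo
  have b10 := hn.c4hi
  have hvol : volume (rot (-(Real.pi / 18)) '' K) = volume K := volume_rot _ _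
  have hL1 : 2 * k ≤ L := by
    apply hch.max (-s) (-k) (2 * k) w2
    convert w1 using 2
    ring
  have hna := norm_le_one (hF.ball _ hch.memr)
  have hnb := norm_le_one (hF.ball _ hch.memr')
  have hn0 := norm_le_one (hF.ball _ hch.mem0)
  have hn1 := norm_le_one (hF.ball _ hch.mem0')
  have hL2 : L ≤ 2 := by
    nlinarith only [hn0, hn1, sq_nonneg x0, sq_nonneg (y0 + 1), sq_nonneg (y0 + L - 1)]
  -- lower bound for `xr`
  have h3a : (1.732 : ℝ) < Real.sqrt 3 := by rw [Real.lt_sqrt (by norm_num)]; norm_num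
  set R := Real.sqrt 3 / 2 with hR
  have hlin : c4 / 2 + s4 * R = C := by
    have e : C = Real.sin (Real.pi / 6 + 4 * (Real.pi / 18)) := by
      have : Real.pi / 6 + 4 * (Real.pi / 18) = Real.pi / 2 - 2 * (Real.pi / 18) := by ring
      rw [this, Real.sin_pi_div_two_sub]
    rw [e, Real.sin_add, Real.sin_pi_div_six, Real.cos_pi_div_six]
    ring
  have hdR : 0 < R - S := by rw [hR]; linarith only [h3a, b4]
  obtain ⟨t, ht⟩ : ∃ t, t * (R - S) = L / 4 - S := ⟨(L / 4 - S) / (R - S), by field_simp⟩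
  have tt1 : 0 ≤ t := by
    apply le_of_mul_le_mul_right _ hdR
    rw [ht]
    linarith only [hL1, b5, b4]
  have tt2 : t ≤ 1 := by
    apply le_of_mul_le_mul_right _ hdR
    rw [ht, hR]
    linarith only [hL2, h3a]
  have m1 := convex_combo hF.conv w5 w6 tt1 tt2
  have m2 := convex_combo hF.conv w4 w3 tt1 tt2
  have hX := hch.right ((1 - t) * C + t * (1 / 2)) (-(L / 4))
    (by convert m1 using 2; linarith only [ht]) (by convert m2 using 2; linarith only [ht])
  have hg : 0 ≤ 2 * c4 * xr + s4 * (L / 2) - 2 * C := by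
    have i1 : 2 * c4 * ((1 - t) * C + t * (1 / 2)) ≤ 2 * c4 * xr :=
      mul_le_mul_of_nonneg_left hX (by linarith only [b9])
    have i2 : 2 * c4 * ((1 - t) * C + t * (1 / 2)) + s4 * (L / 2) - 2 * C = 0 := by
      have i3 := hn.a4
      linear_combination (2 * (1 - t)) * i3 + (2 * t) * hlin - (2 * s4) * ht
    linarith only [i1, i2]
  obtain ⟨x, hx⟩ : ∃ x, x = xr := ⟨_, rfl⟩
  obtain ⟨y, hy⟩ : ∃ y, y = yr := ⟨_, rfl⟩
  obtain ⟨w, hw⟩ : ∃ w, w = yr + L / 2 := ⟨_, rfl⟩
  rw [← hx] at hg hna hnb ma mb ⊢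
  rw [← hy] at hna ma
  rw [← hw] at hnb mb
  have hwy : w = y + L / 2 := by rw [hw, hy]
  have hx0 : 0.807 ≤ x := by
    have i1 : 2 * c4 * x ≤ 2 * 0.766045 * x ∨ x < 0 := by
      rcases le_or_gt 0 x with hx' | hx'
      · left
        exact mul_le_mul_of_nonneg_right (by linarith only [b10]) hx'
      · right
        exact hx'
    have i2 : s4 * (L / 2) ≤ 0.642788 * 1 :=
      mul_le_mul b8.le (by linarith only [hL2]) (by linarith only [hL1, b5]) (by norm_num)
    rcases i1 with i1 | i1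
    · linarith only [i1, i2, hg, b1]
    · exfalso
      have : 2 * c4 * x < 0 := mul_neg_of_pos_of_neg (by linarith only [b9]) i1
      linarith only [this, i2, hg, b1]
  have hx2 : x ^ 2 + L ^ 2 / 16 ≤ 1 := by
    rw [hwy] at hnb
    nlinarith only [hna, hnb, sq_nonneg (2 * y + L / 2)]
  have hx1 : x ≤ 0.8706 := by nlinarith only [hx2, hL1, b5, hx0]
  have hw1 : w ≤ 0.591 := by nlinarith only [hnb, hx0]
  have hy1 : -0.591 ≤ y := by nlinarith only [hna, hx0]
  have hw0 : 0.393 ≤ w := by linarith only [hwy, hy1, hL1, b5]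
  have hy0 : y ≤ -0.393 := by linarith only [hwy, hw1, hL1, b5]
  obtain ⟨P', hP'⟩ : ∃ P', P' = c4 * x + s4 * w := ⟨_, rfl⟩
  obtain ⟨Q, hQ⟩ : ∃ Q, Q = c4 * x - s4 * y := ⟨_, rfl⟩
  obtain ⟨Ta, hTa⟩ : ∃ Ta, Ta = s4 * x + c4 * y := ⟨_, rfl⟩
  obtain ⟨Tb, hTb⟩ : ∃ Tb, Tb = s4 * x - c4 * w := ⟨_, rfl⟩
  have mb' : pt (-Tb) (-P') ∈ rot (-(Real.pi / 18)) '' K := by
    convert mb using 2
    · rw [hTb]; ring
    · rw [hP']; ring
  have ma' : pt Ta (-Q) ∈ rot (-(Real.pi / 18)) '' K := by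
    convert ma using 2
    · rw [hTa]; ring
    · rw [hQ]; ring
  have j1 : 0.6427874 * 0.807 ≤ s4 * x := mul_le_mul b7.le hx0 (by norm_num) (by linarith only [b7])
  have j2 : c4 * w ≤ 0.766045 * 0.591 :=
    mul_le_mul b10.le hw1 (by linarith only [hw0]) (by norm_num)
  have j3 : c4 * (-y) ≤ 0.766045 * 0.591 :=
    mul_le_mul b10.le (by linarith only [hy1]) (by linarith only [hy0]) (by norm_num)
  have j4 : 0 < c4 * x := mul_pos (by linarith only [b9]) (by linarith only [hx0])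
  have j5 : 0 < s4 * w := mul_pos (by linarith only [b7]) (by linarith only [hw0])
  have j6 : 0 < s4 * (-y) := mul_pos (by linarith only [b7]) (by linarith only [hy0])
  have j7 : 0.9396926 * 0.393 ≤ C * w := mul_le_mul b1.le hw0 (by norm_num) (by linarith only [b1])
  have j8 : 0.9396926 * 0.393 ≤ C * (-y) :=
    mul_le_mul b1.le (by linarith only [hy0]) (by norm_num) (by linarith only [b1])
  have j9 : S * x ≤ 0.3420202 * 0.8706 :=
    mul_le_mul b4.le hx1 (by linarith only [hx0]) (by norm_num)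
  have hTa0 : 0 < Ta := by rw [hTa]; linarith only [j1, j3]
  have hTb0 : 0 < Tb := by rw [hTb]; linarith only [j1, j2]
  have hP0 : 0 < P' := by rw [hP']; linarith only [j4, j5]
  have hQ0 : 0 < Q := by rw [hQ]; linarith only [j4, j6]
  have d1 : S * P' - C * Tb = C * w - S * x := by
    rw [hP', hTb]
    linear_combination x * hn.a3 + w * hn.a4
  have d2 : S * Q - C * Ta = C * (-y) - S * x := by
    rw [hQ, hTa]
    linear_combination x * hn.a3 - y * hn.a4
  have d1' : 0 < S * P' - C * Tb := by rw [d1]; linarith only [j7, j9]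
  have d2' : 0 < S * Q - C * Ta := by rw [d2]; linarith only [j8, j9]
  have d3' : 0 < Tb * Q + Ta * P' := by
    have := mul_pos hTb0 hQ0
    have := mul_pos hTa0 hP0
    linarith only [this, ‹0 < Tb * Q›]
  set P : ℕ → Plane := fun i => match i with
    | 0 => pt (-S) (-C)
    | 1 => pt (-Tb) (-P')
    | 2 => pt Ta (-Q)
    | _ => pt S (-C) with hP
  have hPK : ∀ i ≤ 3, P i ∈ rot (-(Real.pi / 18)) '' K := by
    intro i hi
    interval_cases i
    · exact vl
    · exact mb'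
    · exact ma'
    · exact vr
  have hneg : ∀ i ≤ 3, P i 1 < 0 := by
    intro i hi
    interval_cases i <;> simp only [hP, pt_one] <;> linarith only [hP0, hQ0, b1]
  have e0 : det2 (P 0) (P 1) = S * P' - C * Tb := by
    simp only [hP, det2_pt9]; ring
  have e1 : det2 (P 1) (P 2) = Tb * Q + Ta * P' := by
    simp only [hP, det2_pt9]; ring
  have e2 : det2 (P 2) (P 3) = S * Q - C * Ta := by
    simp only [hP, det2_pt9]; ring
  have hcons : ∀ i < 3, 0 < det2 (P i) (P (i + 1)) := by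
    intro i hi
    interval_cases i
    · rw [e0]; exact d1'
    · rw [e1]; exact d3'
    · rw [e2]; exact d2'
  have area := sector_area (n := 9) (m := 3) (by norm_num) hB.conv (interior_subset hB.zero)
    hB.sym P hPK (det_chain hneg hcons) (by norm_num) hrot
  simp only [Finset.sum_range_succ, Finset.sum_range_zero, zero_add] at area
  rw [e0, show P (1 + 1) = P 2 from rfl, show P (2 + 1) = P 3 from rfl, e1, e2, hvol] at area
  refine ⟨9 / 4 * (S * P' - C * Tb + (Tb * Q + Ta * P') + (S * Q - C * Ta)), ?_, ?_⟩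
  · refine le_trans (ENNReal.ofReal_le_ofReal ?_) area
    push_cast
    linarith only
  · have fin := side9L hn hL1 hL2 hg (by linarith only [hx1])
    have key : S * P' - C * Tb + (Tb * Q + Ta * P') + (S * Q - C * Ta) =
        2 * S * C + (S + (2 * s4 * x - c4 * (L / 2)) / 2) * (2 * c4 * x + s4 * (L / 2) - 2 * C)
          + 1 / 2 * (c4 * s4) * (w + y) ^ 2 := by
      rw [hP', hQ, hTa, hTb, hwy]
      ring
    rw [key]
    have i1 : 0 ≤ 1 / 2 * (c4 * s4) * (w + y) ^ 2 := by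
      apply mul_nonneg _ (sq_nonneg _)
      have := mul_pos (show 0 < c4 by linarith only [b9]) (show 0 < s4 by linarith only [b7])
      linarith only [this]
    linarith only [fin, i1]

/-- The bump formed by the longest chord. -/
theorem long9 {s k C S c4 s4 : ℝ} (h : Non s k C S c4 s4) {z e : ℝ} (he : 0 ≤ e)
    (hz : z ^ 2 + (k + e / 2) ^ 2 ≤ 1) :
    4 * S * k * e ≤ (S + (2 * k * z + s * (2 * k + e)) / 2) *
      (k * (2 * k + e) - 2 * s * z - 2 * C) ∧ z ≤ s ∧ -s ≤ z := by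
  have hs0 : 0 < s := by linarith [h.slo]
  have hk0 : 0 < k := by linarith [h.klo]
  have hsq := h.sq
  have hke : 0 ≤ k * e := mul_nonneg hk0.le he
  have hz2 : z ^ 2 ≤ s ^ 2 - k * e := by nlinarith only [hz, hsq, sq_nonneg e]
  have hz3 : z ^ 2 ≤ s ^ 2 := by linarith only [hz2, hke]
  obtain ⟨hz4, hz5⟩ := abs_le_of_sq_le_sq' hz3 hs0.le
  refine ⟨?_, hz5, hz4⟩
  obtain ⟨d, hd⟩ : ∃ d, d = s - z := ⟨_, rfl⟩
  have hd0 : 0 ≤ d := by linarith only [hd, hz5]
  have hd2 : d ≤ 2 * s := by linarith only [hd, hz4]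
  have hX : 0 ≤ d * (2 * s - d) - k * e := by
    have : d * (2 * s - d) = s ^ 2 - z ^ 2 := by rw [hd]; ring
    rw [this]
    linarith only [hz2]
  have eF : k * (2 * k + e) - 2 * s * z - 2 * C = k * e + 2 * s * d := by
    rw [h.Ce, hd]
    linear_combination 2 * hsq
  have eG : S + (2 * k * z + s * (2 * k + e)) / 2 = k * (4 * s - d) + s * e / 2 := by
    rw [h.Se, hd]
    ring
  rw [eF, eG, h.Se]
  have hsd : 0 ≤ 2 * s * d - k * e := by nlinarith only [hX, sq_nonneg d]
  have i1 : 0 ≤ s * e / 2 * (k * e + 2 * s * d) := by positivity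
  have i2 : 0 ≤ k * (2 * (2 * s * (d * (2 * s - d) - k * e)) + d * (2 * s * d - k * e)) := by
    apply mul_nonneg hk0.le
    have := mul_nonneg hs0.le hX
    have := mul_nonneg hd0 hsd
    linarith
  linarith only [i1, i2]

/-- Right side. -/
theorem nine_right {K : Set Plane} (hF : FarA 9 (-(Real.pi / 18)) K) {L x0 y0 xr yr xl yl : ℝ}
    (hch : Chords K L x0 y0 xr yr xl yl) :
    ∃ A, ENNReal.ofReal (2 * A) ≤ volume K ∧ 0.8927 * (L * xr) ≤ A + 0.0015 := by
  have hn := non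
  have hB := hF.bot
  obtain ⟨vr, vl⟩ := hB.ends
  have hrot := ends_rot (n := 9) (a := 2 * (Real.pi / 18)) (by push_cast; ring)
  have t1 : ∀ j : ℤ, pt (Real.sin ((4 * j + 1) * (Real.pi / 18)))
      (Real.cos ((4 * j + 1) * (Real.pi / 18))) ∈ K := by
    intro j
    have h1 := hF.sym.int (by norm_num) (-j) hF.top
    rw [rot_rot, rot_top] at h1
    have e : 2 * Real.pi / ((9 : ℕ) : ℝ) * ((-j : ℤ) : ℝ) + -(Real.pi / 18) =
        -((4 * j + 1) * (Real.pi / 18)) := by push_cast; ring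
    rw [e, Real.sin_neg, Real.cos_neg, neg_neg] at h1
    exact h1
  have w1 := t1 0
  have w2 := t1 4
  have w3 := t1 1
  have w4 := t1 2
  have w5 := t1 3
  have f1 : ((4 * ((0 : ℤ) : ℝ) + 1) * (Real.pi / 18)) = Real.pi / 18 := by push_cast; ring
  have f2 : ((4 * ((4 : ℤ) : ℝ) + 1) * (Real.pi / 18)) = Real.pi - Real.pi / 18 := by
    push_cast; ring
  have f3 : ((4 * ((1 : ℤ) : ℝ) + 1) * (Real.pi / 18)) = Real.pi / 2 - 4 * (Real.pi / 18) := by
    push_cast; ring
  have f4 : ((4 * ((2 : ℤ) : ℝ) + 1) * (Real.pi / 18)) = Real.pi / 2 := by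
    push_cast; ring
  have f5 : ((4 * ((3 : ℤ) : ℝ) + 1) * (Real.pi / 18)) = 4 * (Real.pi / 18) + Real.pi / 2 := by
    push_cast; ring
  rw [f1] at w1
  rw [f2, Real.sin_pi_sub, Real.cos_pi_sub] at w2
  rw [f3, Real.sin_pi_div_two_sub, Real.cos_pi_div_two_sub] at w3
  rw [f4, Real.sin_pi_div_two, Real.cos_pi_div_two] at w4
  rw [f5, Real.sin_add_pi_div_two, Real.cos_add_pi_div_two] at w5
  have g1 : -(-(Real.pi / 18)) + 2 * Real.pi / ((9 : ℕ) : ℝ) * ((-3 : ℤ) : ℝ) =
      -(2 * (Real.pi / 18) + Real.pi / 2) := by push_cast; ring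
  have g2 : -(-(Real.pi / 18)) + 2 * Real.pi / ((9 : ℕ) : ℝ) * ((-2 : ℤ) : ℝ) =
      -(Real.pi / 2 - 2 * (Real.pi / 18)) := by push_cast; ring
  have g3 : -(-(Real.pi / 18)) + 2 * Real.pi / ((9 : ℕ) : ℝ) * ((0 : ℤ) : ℝ) =
      Real.pi / 18 := by push_cast; ring
  have g4 : -(-(Real.pi / 18)) + 2 * Real.pi / ((9 : ℕ) : ℝ) * ((4 : ℤ) : ℝ) =
      Real.pi - Real.pi / 18 := by push_cast; ring
  obtain ⟨nr, nr'⟩ := hch.not_interior_right hF.conv
  have mb := hF.bot_mem (by norm_num) (-3) hch.memr'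
  have ma := hF.bot_mem (by norm_num) (-2) hch.memr
  have nb := hF.bot_not (by norm_num) (-3) nr'
  have na := hF.bot_not (by norm_num) (-2) nr
  have mu := hF.bot_mem (by norm_num) 0 hch.mem0
  have mt := hF.bot_mem (by norm_num) 4 hch.mem0'
  rw [g1, rot_pt, Real.sin_neg, Real.cos_neg, Real.sin_add_pi_div_two,
    Real.cos_add_pi_div_two] at mb nb
  rw [g2, rot_pt, Real.sin_neg, Real.cos_neg, Real.sin_pi_div_two_sub,
    Real.cos_pi_div_two_sub] at ma na
  rw [g3, rot_pt] at mu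
  rw [g4, rot_pt, Real.sin_pi_sub, Real.cos_pi_sub] at mt
  have hvol : volume (rot (-(-(Real.pi / 18))) '' K) = volume K := volume_rot _ _
  set B : Set Plane := rot (-(-(Real.pi / 18))) '' K with hBdef
  set s := Real.sin (Real.pi / 18)
  set k := Real.cos (Real.pi / 18)
  set C := Real.cos (2 * (Real.pi / 18))
  set S := Real.sin (2 * (Real.pi / 18))
  set c4 := Real.cos (4 * (Real.pi / 18))
  set s4 := Real.sin (4 * (Real.pi / 18))
  have b0 := hn.slo
  have b0' := hn.shi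
  have b1 := hn.Clo
  have b2 := hn.Chi
  have b3 := hn.Slo
  have b4 := hn.Shi
  have b5 := hn.klo
  have b6 := hn.khi
  have b7 := hn.s4lo
  have b8 := hn.s4hi
  have b9 := hn.c4lo
  have b10 := hn.c4hi
  have hL1 : 2 * k ≤ L := by
    apply hch.max s (-k) (2 * k) w2
    convert w1 using 2
    ring
  have hna := norm_le_one (hF.ball _ hch.memr)
  have hnb := norm_le_one (hF.ball _ hch.memr')
  have hn0 := norm_le_one (hF.ball _ hch.mem0)
  have hn1 := norm_le_one (hF.ball _ hch.mem0')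
  have hL2 : L ≤ 2 := by
    nlinarith only [hn0, hn1, sq_nonneg x0, sq_nonneg (y0 + 1), sq_nonneg (y0 + L - 1)]
  -- lower bound for `xr`
  have hs40 : 0 < s4 := by linarith only [b7]
  obtain ⟨t, ht⟩ : ∃ t, t * s4 = s4 - L / 4 := ⟨(s4 - L / 4) / s4, by field_simp⟩
  have tt1 : 0 ≤ t := by
    apply le_of_mul_le_mul_right _ hs40
    rw [ht]
    linarith only [hL2, b7]
  have tt2 : t ≤ 1 := by
    apply le_of_mul_le_mul_right _ hs40
    rw [ht]
    linarith only [hL1, b5]
  have m1 := convex_combo hF.conv w5 w4 tt1 tt2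
  have m2 := convex_combo hF.conv w3 w4 tt1 tt2
  have hX := hch.right ((1 - t) * c4 + t * 1) (-(L / 4))
    (by convert m1 using 2; linarith only [ht]) (by convert m2 using 2; linarith only [ht])
  have hg : 0 ≤ 2 * C * xr + S * (L / 2) - 2 * C := by
    have i1 : 2 * C * ((1 - t) * c4 + t * 1) ≤ 2 * C * xr :=
      mul_le_mul_of_nonneg_left hX (by linarith only [b1])
    have i2 : 2 * C * ((1 - t) * c4 + t * 1) + S * (L / 2) - 2 * C = 0 := by
      have i3 := hn.a4
      linear_combination (2 * (1 - t)) * i3 + (2 * S) * ht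
    linarith only [i1, i2]
  obtain ⟨x, hx⟩ : ∃ x, x = xr := ⟨_, rfl⟩
  obtain ⟨y, hy⟩ : ∃ y, y = yr := ⟨_, rfl⟩
  obtain ⟨w, hw⟩ : ∃ w, w = yr + L / 2 := ⟨_, rfl⟩
  rw [← hx] at hg hna hnb ma mb na nb ⊢
  rw [← hy] at hna ma na
  rw [← hw] at hnb mb nb
  have hwy : w = y + L / 2 := by rw [hw, hy]
  have hx0 : 0.8179 ≤ x := by
    have i2 : S * (L / 2) ≤ 0.3420202 * 1 :=
      mul_le_mul b4.le (by linarith only [hL2]) (by linarith only [hL1, b5]) (by norm_num)
    by_contra hcon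
    push Not at hcon
    have : 2 * C * x < 2 * C * 0.8179 := mul_lt_mul_of_pos_left hcon (by linarith only [b1])
    linarith only [this, i2, hg, b1]
  have hx2 : x ^ 2 + L ^ 2 / 16 ≤ 1 := by
    rw [hwy] at hnb
    nlinarith only [hna, hnb, sq_nonneg (2 * y + L / 2)]
  have hx1 : x ≤ 0.8706 := by nlinarith only [hx2, hL1, b5, hx0]
  have hw1 : w ≤ 0.5755 := by nlinarith only [hnb, hx0]
  have hy1 : -0.5755 ≤ y := by nlinarith only [hna, hx0]
  have hw0 : 0.409 ≤ w := by linarith only [hwy, hy1, hL1, b5]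
  have hy0 : y ≤ -0.409 := by linarith only [hwy, hw1, hL1, b5]
  obtain ⟨P', hP'⟩ : ∃ P', P' = C * x + S * w := ⟨_, rfl⟩
  obtain ⟨Q, hQ⟩ : ∃ Q, Q = C * x - S * y := ⟨_, rfl⟩
  obtain ⟨Ta, hTa⟩ : ∃ Ta, Ta = -(S * x) - C * y := ⟨_, rfl⟩
  obtain ⟨Tb, hTb⟩ : ∃ Tb, Tb = C * w - S * x := ⟨_, rfl⟩
  have eqb : pt (-S * x - -C * w) (-C * x + -S * w) = pt Tb (-P') := by
    rw [hTb, hP']
    congr 1 <;> ring
  have eqa : pt (S * x - -C * y) (-C * x + S * y) = pt (-Ta) (-Q) := by
    rw [hTa, hQ]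
    congr 1 <;> ring
  rw [eqb] at mb nb
  rw [eqa] at ma na
  have j1 : 0.6427874 * 0.8179 ≤ s4 * x :=
    mul_le_mul b7.le hx0 (by norm_num) (by linarith only [b7])
  have j2 : c4 * w ≤ 0.766045 * 0.5755 :=
    mul_le_mul b10.le hw1 (by linarith only [hw0]) (by norm_num)
  have j3 : c4 * (-y) ≤ 0.766045 * 0.5755 :=
    mul_le_mul b10.le (by linarith only [hy1]) (by linarith only [hy0]) (by norm_num)
  have j4 : 0 < C * x := mul_pos (by linarith only [b1]) (by linarith only [hx0])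
  have j5 : 0 < S * w := mul_pos (by linarith only [b3]) (by linarith only [hw0])
  have j6 : 0 < S * (-y) := mul_pos (by linarith only [b3]) (by linarith only [hy0])
  have j7 : 0.9396926 * 0.409 ≤ C * w := mul_le_mul b1.le hw0 (by norm_num) (by linarith only [b1])
  have j8 : 0.9396926 * 0.409 ≤ C * (-y) :=
    mul_le_mul b1.le (by linarith only [hy0]) (by norm_num) (by linarith only [b1])
  have j9 : S * x ≤ 0.3420202 * 0.8706 :=
    mul_le_mul b4.le hx1 (by linarith only [hx0]) (by norm_num)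
  have hTa0 : 0 < Ta := by rw [hTa]; linarith only [j8, j9]
  have hTb0 : 0 < Tb := by rw [hTb]; linarith only [j7, j9]
  have hP0 : 0 < P' := by rw [hP']; linarith only [j4, j5]
  have hQ0 : 0 < Q := by rw [hQ]; linarith only [j4, j6]
  have hS0 : 0 < S := by linarith only [b3]
  have hC0 : 0 < C := by linarith only [b1]
  have hs0 : 0 < s := by linarith only [b0]
  have hk0 : 0 < k := by linarith only [b5]
  have d1 : S * Q - C * Ta = s4 * x + c4 * y := by
    rw [hQ, hTa, hn.s4e, hn.c4e']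
    ring
  have d2 : S * P' - C * Tb = s4 * x - c4 * w := by
    rw [hP', hTb, hn.s4e, hn.c4e']
    ring
  have d1' : 0 < S * Q - C * Ta := by rw [d1]; linarith only [j1, j3]
  have d2' : 0 < S * P' - C * Tb := by rw [d2]; linarith only [j1, j2]
  have d3' : 0 < Ta * P' + Tb * Q := by
    have i1 := mul_pos hTb0 hQ0
    have i2 := mul_pos hTa0 hP0
    linarith only [i1, i2]
  have hCTa := mul_pos hC0 hTa0
  have hCTb := mul_pos hC0 hTb0
  have dV : det2 (pt (-S) (-C)) (pt S (-C)) = 2 * (S * C) := by rw [det2_pt9]; ring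
  have hSC : 0 < S * C := mul_pos hS0 hC0
  have hPC : C ≤ P' := by
    have := below hB.conv hB.zero vl vr nb (by rw [dV]; linarith only [hSC])
      (by rw [det2_pt9]; linarith only [d2', hCTb]) (by rw [det2_pt9]; linarith only [d2'])
    rw [dV, det2_pt9, det2_pt9] at this
    have h2 : S * C ≤ S * P' := by linarith only [this]
    exact le_of_mul_le_mul_left h2 hS0
  have hQC : C ≤ Q := by
    have := below hB.conv hB.zero vl vr na (by rw [dV]; linarith only [hSC])
      (by rw [det2_pt9]; linarith only [d1']) (by rw [det2_pt9]; linarith only [d1', hCTa])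
    rw [dV, det2_pt9, det2_pt9] at this
    have h2 : S * C ≤ S * Q := by linarith only [this]
    exact le_of_mul_le_mul_left h2 hS0
  -- the asymmetry
  obtain ⟨m, hm⟩ : ∃ m, m = |w + y| / 2 := ⟨_, rfl⟩
  have hm0 : 0 ≤ m := by rw [hm]; positivity
  have hm2 : m ^ 2 = (w + y) ^ 2 / 4 := by rw [hm, div_pow, sq_abs]; norm_num
  have hm1 : 2 * S * m ≤ 2 * C * x + S * (L / 2) - 2 * C := by
    have e1 : 2 * C * x + S * (L / 2) - 2 * C = (P' - C) + (Q - C) := by
      rw [hP', hQ, hwy]; ring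
    rw [e1, hm]
    rcases le_total 0 (w + y) with h1 | h1
    · rw [abs_of_nonneg h1]
      have : S * (w + y) = P' - Q := by rw [hP', hQ]; ring
      linarith only [this, hPC, hQC]
    · rw [abs_of_nonpos h1]
      have : S * (w + y) = P' - Q := by rw [hP', hQ]; ring
      linarith only [this, hPC, hQC]
  have hd : x ^ 2 + (m + L / 4) ^ 2 ≤ 1 := by
    rw [hm]
    rcases le_total 0 (w + y) with h1 | h1
    · rw [abs_of_nonneg h1]
      have : (w + y) / 2 + L / 4 = w := by rw [hwy]; ring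
      rw [this]
      exact hnb
    · rw [abs_of_nonpos h1]
      have : -(w + y) / 2 + L / 4 = -y := by rw [hwy]; ring
      rw [this, neg_sq]
      exact hna
  have fin := side9R hn hL1 hL2 hg hm0 hm1 hd
  -- first polygon
  set P : ℕ → Plane := fun i => match i with
    | 0 => pt (-S) (-C)
    | 1 => pt (-Ta) (-Q)
    | 2 => pt Tb (-P')
    | _ => pt S (-C) with hP
  have hPK : ∀ i ≤ 3, P i ∈ B := by
    intro i hi
    interval_cases i
    · exact vl
    · exact ma
    · exact mb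
    · exact vr
  have hneg : ∀ i ≤ 3, P i 1 < 0 := by
    intro i hi
    interval_cases i <;> simp only [hP, pt_one] <;> linarith only [hP0, hQ0, b1]
  have e0 : det2 (P 0) (P 1) = S * Q - C * Ta := by
    simp only [hP, det2_pt9]; ring
  have e1 : det2 (P 1) (P 2) = Ta * P' + Tb * Q := by
    simp only [hP, det2_pt9]; ring
  have e2 : det2 (P 2) (P 3) = S * P' - C * Tb := by
    simp only [hP, det2_pt9]; ring
  have hcons : ∀ i < 3, 0 < det2 (P i) (P (i + 1)) := by
    intro i hi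
    interval_cases i
    · rw [e0]; exact d1'
    · rw [e1]; exact d3'
    · rw [e2]; exact d2'
  have area1 := sector_area (n := 9) (m := 3) (by norm_num) hB.conv (interior_subset hB.zero)
    hB.sym P hPK (det_chain hneg hcons) (by norm_num) hrot
  simp only [Finset.sum_range_succ, Finset.sum_range_zero, zero_add] at area1
  rw [e0, show P (1 + 1) = P 2 from rfl, show P (2 + 1) = P 3 from rfl, e1, e2, hvol] at area1
  obtain ⟨X, hXd⟩ : ∃ X, X = (S + (C * (L / 2) - 2 * S * x) / 2) *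
    (2 * C * x + S * (L / 2) - 2 * C) - s4 * m ^ 2 := ⟨_, rfl⟩
  have key1 : S * Q - C * Ta + (Ta * P' + Tb * Q) + (S * P' - C * Tb) = 2 * S * C + X := by
    rw [hXd, hm2, hn.s4e, hP', hQ, hTa, hTb, hwy]
    ring
  rw [key1] at area1
  have hX0 : 0 ≤ X := by
    have e3 : X = S * (P' - C) + S * (Q - C) + Ta * (P' - C) + Tb * (Q - C) := by
      linarith only [key1]
    have i1 := mul_nonneg hS0.le (sub_nonneg.mpr hPC)
    have i2 := mul_nonneg hS0.le (sub_nonneg.mpr hQC)
    have i3 := mul_nonneg hTa0.le (sub_nonneg.mpr hPC)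
    have i4 := mul_nonneg hTb0.le (sub_nonneg.mpr hQC)
    linarith only [e3, i1, i2, i3, i4]
  rw [← hXd] at fin
  refine ⟨9 / 4 * (2 * S * C + 0.18 * (4 * S * k * (L - 2 * k) - S * (2 - L) ^ 2 / 4)
      + 0.82 * X), ?_, fin⟩
  rcases eq_or_lt_of_le hL1 with hL | hL
  · refine le_trans (ENNReal.ofReal_le_ofReal ?_) area1
    have i1 : 0 ≤ S * (2 - L) ^ 2 := mul_nonneg hS0.le (sq_nonneg _)
    have i2 : 4 * S * k * (L - 2 * k) = 0 := by rw [← hL]; ring
    rw [i2]
    push_cast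
    linarith only [i1, hX0]
  -- second polygon
  obtain ⟨e, he⟩ : ∃ e, e = L - 2 * k := ⟨_, rfl⟩
  have he0 : 0 < e := by linarith only [he, hL]
  have hLe : L = 2 * k + e := by linarith only [he]
  obtain ⟨z, hz⟩ : ∃ z, z = x0 := ⟨_, rfl⟩
  obtain ⟨u, hu⟩ : ∃ u, u = -y0 := ⟨_, rfl⟩
  obtain ⟨v, hv⟩ : ∃ v, v = y0 + L := ⟨_, rfl⟩
  rw [← hz] at hn0 hn1 mu mt
  rw [← hv] at hn1 mt
  have hy0' : y0 = -u := by linarith only [hu]
  rw [hy0'] at hn0 mu
  have huv : u + v = 2 * k + e := by linarith only [hu, hv, hLe]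
  have hzL : z ^ 2 + (k + e / 2) ^ 2 ≤ 1 := by
    have : k + e / 2 = (u + v) / 2 := by linarith only [huv]
    rw [this]
    nlinarith only [hn0, hn1, sq_nonneg (u - v)]
  obtain ⟨lg, hz1, hz2⟩ := long9 hn he0.le hzL
  obtain ⟨F1, hF1⟩ : ∃ F1, F1 = k * u - s * z := ⟨_, rfl⟩
  obtain ⟨G1, hG1⟩ : ∃ G1, G1 = k * v - s * z := ⟨_, rfl⟩
  obtain ⟨T1, hT1⟩ : ∃ T1, T1 = k * z + s * u := ⟨_, rfl⟩
  obtain ⟨T2, hT2⟩ : ∃ T2, T2 = k * z + s * v := ⟨_, rfl⟩
  have equ : pt (k * z - s * -u) (s * z + k * -u) = pt T1 (-F1) := by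
    rw [hT1, hF1]
    congr 1 <;> ring
  have eqt : pt (-k * z - s * v) (s * z + -k * v) = pt (-T2) (-G1) := by
    rw [hT2, hG1]
    congr 1 <;> ring
  rw [equ] at mu
  rw [eqt] at mt
  have hu1 : s * z + k * u ≤ 1 := by
    nlinarith only [hn0, hn.sq, sq_nonneg (s - z), sq_nonneg (k - u)]
  have hu2 : -(s * z) + k * u ≤ 1 := by
    nlinarith only [hn0, hn.sq, sq_nonneg (s + z), sq_nonneg (k - u)]
  have hv1 : s * z + k * v ≤ 1 := by
    nlinarith only [hn1, hn.sq, sq_nonneg (s - z), sq_nonneg (k - v)]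
  have hv2 : -(s * z) + k * v ≤ 1 := by
    nlinarith only [hn1, hn.sq, sq_nonneg (s + z), sq_nonneg (k - v)]
  have hke : 0 < k * e := mul_pos hk0 he0
  have hCk := hn.Ck
  have hkuv : k * u + k * v = C + 1 + k * e := by
    have : k * u + k * v = k * (u + v) := by ring
    rw [this, huv, ← hCk]
    ring
  -- lower bounds for `k u`, `k v`
  have ku1 : C + k * e + s * z ≤ k * u := by linarith only [hkuv, hv1]
  have ku2 : C + k * e - s * z ≤ k * u := by linarith only [hkuv, hv2]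
  have kv1 : C + k * e + s * z ≤ k * v := by linarith only [hkuv, hu1]
  have kv2 : C + k * e - s * z ≤ k * v := by linarith only [hkuv, hu2]
  have hsz : s * z ≤ s * s := mul_le_mul_of_nonneg_left hz1 hs0.le
  have hsz' : -(s * s) ≤ s * z := by
    have := mul_le_mul_of_nonneg_left hz2 hs0.le
    linarith only [this]
  have hss : s * s ≤ 0.04 := by nlinarith only [b0, b0']
  have hF0 : 0 < F1 := by rw [hF1]; linarith only [ku1, hke, b1]
  have hG0 : 0 < G1 := by rw [hG1]; linarith only [kv1, hke, b1]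
  have hkC : k ^ 2 - s ^ 2 = C := by linarith only [hCk, hn.sq]
  have pos1 : ∀ r : ℝ, C + k * e + s * z ≤ k * r → 0 < s * r - k * z := by
    intro r hr
    have i1 : s * (C + k * e + s * z) ≤ s * (k * r) := mul_le_mul_of_nonneg_left hr hs0.le
    have i2 : 0 ≤ C * (s - z) := mul_nonneg hC0.le (sub_nonneg.mpr hz1)
    have i3 : 0 < s * (k * e) := mul_pos hs0 hke
    have i4 : 0 < k * (s * r - k * z) := by
      have : k ^ 2 * z = (C + s ^ 2) * z := by rw [← hkC]; ring
      nlinarith only [i1, i2, i3, this]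
    exact (mul_pos_iff_of_pos_left hk0).mp i4
  have pos2 : ∀ r : ℝ, C + k * e - s * z ≤ k * r → 0 < s * r + k * z := by
    intro r hr
    have i1 : s * (C + k * e - s * z) ≤ s * (k * r) := mul_le_mul_of_nonneg_left hr hs0.le
    have i2 : 0 ≤ C * (s + z) := mul_nonneg hC0.le (by linarith only [hz2])
    have i3 : 0 < s * (k * e) := mul_pos hs0 hke
    have i4 : 0 < k * (s * r + k * z) := by
      have : k ^ 2 * z = (C + s ^ 2) * z := by rw [← hkC]; ring
      nlinarith only [i1, i2, i3, this]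
    exact (mul_pos_iff_of_pos_left hk0).mp i4
  have hT10 : 0 < T1 := by
    have := pos2 u ku2
    rw [hT1]
    linarith only [this]
  have hT20 : 0 < T2 := by
    have := pos2 v kv2
    rw [hT2]
    linarith only [this]
  have d4 : S * G1 - C * T2 = s * v - k * z := by
    rw [hG1, hT2]
    linear_combination v * hn.a1 - z * hn.a2
  have d5 : S * F1 - C * T1 = s * u - k * z := by
    rw [hF1, hT1]
    linear_combination u * hn.a1 - z * hn.a2
  have d4' : 0 < S * G1 - C * T2 := by rw [d4]; exact pos1 v kv1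
  have d5' : 0 < S * F1 - C * T1 := by rw [d5]; exact pos1 u ku1
  have d6' : 0 < T2 * F1 + T1 * G1 := by
    have i1 := mul_pos hT20 hF0
    have i2 := mul_pos hT10 hG0
    linarith only [i1, i2]
  set P2 : ℕ → Plane := fun i => match i with
    | 0 => pt (-S) (-C)
    | 1 => pt (-T2) (-G1)
    | 2 => pt T1 (-F1)
    | _ => pt S (-C) with hP2
  have hPK2 : ∀ i ≤ 3, P2 i ∈ B := by
    intro i hi
    interval_cases i
    · exact vl
    · exact mt
    · exact mu
    · exact vr
  have hneg2 : ∀ i ≤ 3, P2 i 1 < 0 := by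
    intro i hi
    interval_cases i <;> simp only [hP2, pt_one] <;> linarith only [hF0, hG0, b1]
  have e0' : det2 (P2 0) (P2 1) = S * G1 - C * T2 := by
    simp only [hP2, det2_pt9]; ring
  have e1' : det2 (P2 1) (P2 2) = T2 * F1 + T1 * G1 := by
    simp only [hP2, det2_pt9]; ring
  have e2' : det2 (P2 2) (P2 3) = S * F1 - C * T1 := by
    simp only [hP2, det2_pt9]; ring
  have hcons2 : ∀ i < 3, 0 < det2 (P2 i) (P2 (i + 1)) := by
    intro i hi
    interval_cases i
    · rw [e0']; exact d4'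
    · rw [e1']; exact d6'
    · rw [e2']; exact d5'
  have area2 := sector_area (n := 9) (m := 3) (by norm_num) hB.conv (interior_subset hB.zero)
    hB.sym P2 hPK2 (det_chain hneg2 hcons2) (by norm_num) hrot
  simp only [Finset.sum_range_succ, Finset.sum_range_zero, zero_add] at area2
  rw [e0', show P2 (1 + 1) = P2 2 from rfl, show P2 (2 + 1) = P2 3 from rfl, e1', e2',
    hvol] at area2
  have key2 : S * G1 - C * T2 + (T2 * F1 + T1 * G1) + (S * F1 - C * T1) =
      2 * S * C + (S + (2 * k * z + s * (2 * k + e)) / 2) *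
      (k * (2 * k + e) - 2 * s * z - 2 * C) - S * (v - u) ^ 2 / 4 := by
    rw [hF1, hG1, hT1, hT2, hn.Se, ← huv]
    ring
  have hvu : (v - u) ^ 2 ≤ (2 - L) ^ 2 := by
    have i1 : u ≤ 1 := by nlinarith only [hn0, sq_nonneg z]
    have i2 : v ≤ 1 := by nlinarith only [hn1, sq_nonneg z]
    have i3 : L = u + v := by linarith only [huv, hLe]
    rw [i3]
    nlinarith only [mul_nonneg (sub_nonneg.mpr i1) (sub_nonneg.mpr i2)]
  have key3 : 2 * S * C + 4 * S * k * (L - 2 * k) - S * (2 - L) ^ 2 / 4 ≤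
      S * G1 - C * T2 + (T2 * F1 + T1 * G1) + (S * F1 - C * T1) := by
    rw [key2, ← he]
    have i1 : S * (v - u) ^ 2 ≤ S * (2 - L) ^ 2 := mul_le_mul_of_nonneg_left hvu hS0.le
    linarith only [lg, i1]
  rcases le_total (2 * S * C + X)
    (S * G1 - C * T2 + (T2 * F1 + T1 * G1) + (S * F1 - C * T1)) with hc | hc
  · refine le_trans (ENNReal.ofReal_le_ofReal ?_) area2
    push_cast
    linarith only [hc, key3]
  · refine le_trans (ENNReal.ofReal_le_ofReal ?_) area1
    push_cast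
    linarith only [hc, key3]

/-- Nine-fold symmetry. -/
theorem ineq_nine {K : Set Plane} (hF : FarA 9 (-(Real.pi / 18)) K) : Ineq 0.8927 K := by
  intro L x0 y0 xr yr xl yl hch
  have hM : FarA 9 (Real.pi / 18) (Mir K) := by
    have h1 := hF.mirror (by norm_num)
    rwa [neg_neg] at h1
  obtain ⟨A, hA1, hA2⟩ := nine_right hF hch
  obtain ⟨B, hB1, hB2⟩ := nine_left hM hch.mirror
  rw [volume_Mir hF.cpt] at hB1
  rcases le_total A B with h | h
  · exact le_trans (ENNReal.ofReal_le_ofReal (by linarith)) hB1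
  · exact le_trans (ENNReal.ofReal_le_ofReal (by linarith)) hA1

end Pool.Agent.helper79.RS
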