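import Pool.Agent.helper79.RS.FiveMain
import Pool.Agent.helper79.RS.Eight
import Pool.Agent.helper79.RS.NineGeo
import Pool.Agent.helper79.RS.Big

/-!
RS-22: all orders of symmetry from five on.
-/

open MeasureTheory
open scoped ENNReal Pointwise

namespace Pool.Agent.helper79.RS

open Pool.Agent.helper42.PD

/-- Divisors of a number which is at least five. -/
theorem exists_order {n : ℕ} (hn : 5 ≤ n) :
    6 ∣ n ∨ 8 ∣ n ∨ 9 ∣ n ∨ ∃ p, p.Prime ∧ 5 ≤ p ∧ p ∣ n := by
  obtain ⟨a, m, hm, rfl⟩ := Nat.exists_eq_pow_mul_and_not_dvd (by omega : n ≠ 0) 2 (by norm_num)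
  have hm0 : m ≠ 0 := by
    rintro rfl
    simp at hm
  obtain ⟨b, k, hk, rfl⟩ := Nat.exists_eq_pow_mul_and_not_dvd hm0 3 (by norm_num)
  by_cases hk1 : k = 1
  · subst hk1
    rcases Nat.eq_zero_or_pos a with ha | ha
    · subst ha
      right; right; left
      rcases Nat.lt_or_ge b 2 with hb | hb
      · interval_cases b <;> norm_num at hn
      · have : 3 ^ 2 ∣ 3 ^ b := pow_dvd_pow 3 hb
        simpa using this
    · rcases Nat.eq_zero_or_pos b with hb | hb
      · subst hb
        right; left
        rcases Nat.lt_or_ge a 3 with ha3 | ha3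
        · interval_cases a <;> norm_num at hn
        · have : 2 ^ 3 ∣ 2 ^ a := pow_dvd_pow 2 ha3
          simpa using this
      · left
        have h1 : 2 ∣ 2 ^ a := dvd_pow_self 2 (by omega)
        have h2 : 3 ∣ 3 ^ b * 1 := Dvd.dvd.mul_right (dvd_pow_self 3 (by omega)) 1
        exact mul_dvd_mul h1 h2
  · right; right; right
    refine ⟨k.minFac, Nat.minFac_prime hk1, ?_, ?_⟩
    · have hp := Nat.minFac_prime hk1
      have h2 : k.minFac ≠ 2 := by
        intro h
        apply hm
        rw [← h]
        exact Dvd.dvd.mul_left (Nat.minFac_dvd k) _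
      have h3 : k.minFac ≠ 3 := by
        intro h
        apply hk
        rw [← h]
        exact Nat.minFac_dvd k
      have h4 : k.minFac ≠ 4 := by
        intro h
        rw [h] at hp
        exact absurd hp (by norm_num)
      have := hp.two_le
      omega
    · exact Dvd.dvd.mul_left (Dvd.dvd.mul_left (Nat.minFac_dvd k) _) _

/-- The density for a centred body. -/
theorem centred {n : ℕ} (hn : 5 ≤ n) {K : Set Plane} (hK : Convex ℝ K) (hc : IsCompact K)
    (h0 : (0 : Plane) ∈ interior K) (hsym : SymK n K) :
    ENNReal.ofReal (dens (Real.cos (Real.pi / 7))) ≤ packingDensity K := by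
  have hd1 := hept.dhi
  have mono : ∀ {c : ℝ}, 0.892698 ≤ c → ENNReal.ofReal c ≤ packingDensity K →
      ENNReal.ofReal (dens (Real.cos (Real.pi / 7))) ≤ packingDensity K := by
    intro c hc1 h
    exact le_trans (ENNReal.ofReal_le_ofReal (by linarith)) h
  have hn0 : n ≠ 0 := by omega
  rcases exists_order hn with hd | hd | hd | ⟨p, hp, hp5, hd⟩
  · apply mono (c := 0.8927) (by norm_num)
    refine near (n := 6) ?_ hK hc h0 (hsym.dvd hn0 hd)
    intro K hK _ h0 hsym hball htop
    refine ineq_six (by norm_num) ?_ hK h0 hsym hball htop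
    have p1 := Real.pi_gt_d6
    have := sqrt3_bounds.2
    linarith
  · apply mono (c := 0.8927) (by norm_num)
    exact farA (n := 8) (φ := Real.pi / 8) (fun K h => ineq_eight h) hK hc h0 (hsym.dvd hn0 hd)
  · apply mono (c := 0.8927) (by norm_num)
    exact farA (n := 9) (φ := -(Real.pi / 18)) (fun K h => ineq_nine h) hK hc h0
      (hsym.dvd hn0 hd)
  · have hsymp := hsym.dvd hn0 hd
    rcases Nat.lt_or_ge p 23 with hlt | hge
    · interval_cases p
      · apply mono (c := 0.892698) (by norm_num)
        exact far (n := 5) (fun K hK hc h0 hsym hball htop =>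
          ineq_five hc ⟨hK, h0, hsym, hball, htop⟩) hK hc h0 hsymp
      · exact absurd hp (by norm_num)
      · exact far (n := 7) (fun K hK hc h0 hsym hball htop =>
          ineq_seven hc ⟨hK, h0, hsym, hball, htop⟩) hK hc h0 hsymp
      · exact absurd hp (by norm_num)
      · exact absurd hp (by norm_num)
      · exact absurd hp (by norm_num)
      · apply mono (c := 0.8927) (by norm_num)
        exact near (n := 11) (fun K hK _ h0 hsym hball htop =>
          ineq_eleven hK h0 hsym hball htop) hK hc h0 hsymp
      · exact absurd hp (by norm_num)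
      · apply mono (c := 0.8927) (by norm_num)
        exact near (n := 13) (fun K hK _ h0 hsym hball htop =>
          ineq_thirteen hK h0 hsym hball htop) hK hc h0 hsymp
      · exact absurd hp (by norm_num)
      · exact absurd hp (by norm_num)
      · exact absurd hp (by norm_num)
      · apply mono (c := 0.8927) (by norm_num)
        exact near (n := 17) (fun K hK _ h0 hsym hball htop =>
          ineq_seventeen hK h0 hsym hball htop) hK hc h0 hsymp
      · exact absurd hp (by norm_num)
      · apply mono (c := 0.8927) (by norm_num)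
        exact near (n := 19) (fun K hK _ h0 hsym hball htop =>
          ineq_nineteen hK h0 hsym hball htop) hK hc h0 hsymp
      · exact absurd hp (by norm_num)
      · exact absurd hp (by norm_num)
      · exact absurd hp (by norm_num)
    · apply mono (c := 0.8927) (by norm_num)
      exact far (n := p) (fun K hK hc h0 hsym hball htop =>
        ineq_large hge ⟨hK, h0, hsym, hball, htop⟩) hK hc h0 hsymp

/-- A convex body with a rotational symmetry of order at least five. -/
theorem main {n : ℕ} (hn : 5 ≤ n) {K : Set Plane} (hK : Convex ℝ K) (hc : IsCompact K)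
    (hi : (interior K).Nonempty) (hrot : HasRot n K) :
    ENNReal.ofReal (dens (Real.cos (Real.pi / 7))) ≤ packingDensity K :=
  reduce (by omega) (fun K hK hc h0 hsym => centred hn hK hc h0 hsym) hK hc hi hrot

end Pool.Agent.helper79.RS
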