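import Pool.Agent.helper79.RS.Affine

/-!
RS-24: normalisation for general properties.
-/

open MeasureTheory
open scoped ENNReal Pointwise

namespace Pool.Agent.helper79.RS

open Pool.Agent.helper42.PD

/-- Reduction to bodies with centre of symmetry the origin. -/
theorem reduceQ {Q : Set Plane → Prop} (hQ : Inv Q) {n : ℕ} (hn : 3 ≤ n)
    (H : ∀ K : Set Plane, Convex ℝ K → IsCompact K → (0 : Plane) ∈ interior K → SymK n K → Q K)
    {K : Set Plane} (hK : Convex ℝ K) (hc : IsCompact K) (hi : (interior K).Nonempty)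
    (hrot : HasRot n K) : Q K := by
  obtain ⟨o, ho⟩ := hrot
  set g : Plane ≃ᵢ Plane := IsometryEquiv.addLeft (-o) with hg
  have hgapp : ∀ z, g z = -o + z := fun z => rfl
  have h1 : Convex ℝ (g '' K) := hK.translate (-o)
  have h2 : IsCompact (g '' K) := hc.image g.continuous
  have h3 : (interior (g '' K)).Nonempty := by
    have : interior (g '' K) = g '' interior K := (g.toHomeomorph.image_interior K).symm
    rw [this]
    exact hi.image _
  have h4 : SymK n (g '' K) := by
    rintro _ ⟨z, hz, rfl⟩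
    refine ⟨o + rot (2 * Real.pi / n) (z - o), ho z hz, ?_⟩
    rw [hgapp, hgapp]
    have e : -o + z = z - o := by abel
    rw [e]
    abel
  exact hQ.tr K o (H _ h1 h2 (zero_mem_interior hn h1 h3 h4) h4)

/-- Normalisation by a farthest point. -/
theorem farAQ {Q : Set Plane → Prop} (hQ : Inv Q) {n : ℕ} {φ : ℝ}
    (H : ∀ K : Set Plane, FarA n φ K → Q K)
    {K : Set Plane} (hK : Convex ℝ K) (hc : IsCompact K) (h0 : (0 : Plane) ∈ interior K)
    (hsym : SymK n K) : Q K := by
  obtain ⟨v, hv, hmax⟩ := hc.exists_isMaxOn (f := fun z => ‖z‖) ⟨0, interior_subset h0⟩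
    continuous_norm.continuousOn
  have hv0 : v ≠ 0 := by
    rintro rfl
    have h1 : K ⊆ {0} := by
      intro z hz
      have h2 := hmax hz
      simp only [Set.mem_setOf_eq, norm_zero] at h2
      exact norm_le_zero_iff.mp h2
    have h3 : (0 : Plane) ∈ interior ({0} : Set Plane) := interior_mono h1 h0
    rw [interior_singleton] at h3
    exact h3
  have hR : 0 < ‖v‖ := norm_pos_iff.mpr hv0
  obtain ⟨θ, hθ⟩ := exists_rot hv0
  set K2 : Set Plane := rot (φ + θ) '' K with hK2
  have hconv : Convex ℝ K2 := hK.linear_image (rotIso (φ + θ)).toLinearEquiv.toLinearMap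
  have hcomp : IsCompact K2 := hc.image (rotIso (φ + θ)).continuous
  have h02 : (0 : Plane) ∈ interior K2 := by
    rw [hK2, interior_rot]
    refine ⟨0, h0, ?_⟩
    rw [← rotIso_apply, map_zero]
  have hr : 0 < ‖v‖⁻¹ := inv_pos.mpr hR
  have hineq : Q (‖v‖⁻¹ • K2) := by
    apply H
    refine ⟨hconv.smul _, hcomp.smul _, ?_, (hsym.image_rot (φ + θ)).smul _, ?_, ?_⟩
    · rw [interior_smul₀ hr.ne']
      exact ⟨0, h02, smul_zero _⟩
    · rintro _ ⟨_, ⟨z, hz, rfl⟩, rfl⟩
      have h1 : ‖z‖ ≤ ‖v‖ := hmax hz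
      change ‖‖v‖⁻¹ • rot (φ + θ) z‖ ≤ 1
      rw [norm_smul, norm_rot, Real.norm_of_nonneg hr.le, inv_mul_le_iff₀ hR, mul_one]
      exact h1
    · refine ⟨rot (φ + θ) v, ⟨v, hv, rfl⟩, ?_⟩
      change ‖v‖⁻¹ • rot (φ + θ) v = rot φ (pt 0 1)
      rw [← rot_rot, hθ, ← rot_smul, pt_smul, mul_zero, inv_mul_cancel₀ hR.ne']
  exact hQ.rt K (φ + θ) (hQ.sm K2 _ hr hineq)

/-- Normalisation by a farthest point, unrotated. -/
theorem farQ {Q : Set Plane → Prop} (hQ : Inv Q) {n : ℕ}
    (H : ∀ K : Set Plane, IsCompact K → FarK n K → Q K)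
    {K : Set Plane} (hK : Convex ℝ K) (hc : IsCompact K) (h0 : (0 : Plane) ∈ interior K)
    (hsym : SymK n K) : Q K := by
  apply farAQ hQ (n := n) (φ := 0) _ hK hc h0 hsym
  intro K hF
  apply H K hF.cpt
  refine ⟨hF.conv, hF.zero, hF.sym, hF.ball, ?_⟩
  have := hF.top
  rwa [rot_zero] at this

/-- Normalisation by a nearest boundary point. -/
theorem nearQ {Q : Set Plane → Prop} (hQ : Inv Q) {n : ℕ}
    (H : ∀ K : Set Plane, Convex ℝ K → IsCompact K → (0 : Plane) ∈ interior K → SymK n K →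
      (∀ z : Plane, ‖z‖ ≤ 1 → z ∈ K) → pt 0 1 ∉ interior K → Q K)
    {K : Set Plane} (hK : Convex ℝ K) (hc : IsCompact K) (h0 : (0 : Plane) ∈ interior K)
    (hsym : SymK n K) : Q K := by
  have hKcl : IsClosed K := hc.isClosed
  have hfc : IsCompact (frontier K) := hc.of_isClosed_subset isClosed_frontier
    (by rw [hKcl.frontier_eq]; exact Set.diff_subset)
  have hne : K ≠ Set.univ := by
    intro h1
    have h2 : IsCompact (Set.univ : Set Plane) := h1 ▸ hc
    exact noncompact_univ Plane h2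
  have hfn : (frontier K).Nonempty := by
    rw [nonempty_frontier_iff]
    exact ⟨⟨0, interior_subset h0⟩, hne⟩
  obtain ⟨v, hv, hmin⟩ := hfc.exists_isMinOn (f := fun z => ‖z‖) hfn continuous_norm.continuousOn
  have hvK : v ∈ K := by
    rw [hKcl.frontier_eq] at hv
    exact hv.1
  have hvi : v ∉ interior K := by
    rw [hKcl.frontier_eq] at hv
    exact hv.2
  have hv0 : v ≠ 0 := by
    rintro rfl
    exact hvi h0
  have hR : 0 < ‖v‖ := norm_pos_iff.mpr hv0
  -- the ball is in `K`
  have hball : ∀ z : Plane, ‖z‖ < ‖v‖ → z ∈ K := by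
    intro z hz
    by_contra hzK
    -- the segment from 0 to z meets the frontier
    have hseg : ∃ w ∈ segment ℝ (0 : Plane) z, w ∈ frontier K := by
      by_contra hcon
      push Not at hcon
      have hpre : IsPreconnected (segment ℝ (0 : Plane) z) := (convex_segment 0 z).isPreconnected
      have hsub : segment ℝ (0 : Plane) z ⊆ interior K ∪ Kᶜ := by
        intro w hw
        by_cases hwK : w ∈ K
        · left
          by_contra hwi
          exact hcon w hw (by rw [hKcl.frontier_eq]; exact ⟨hwK, hwi⟩)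
        · exact Or.inr hwK
      obtain ⟨w, _, hw1, hw2⟩ := hpre (interior K) Kᶜ isOpen_interior hKcl.isOpen_compl hsub
        ⟨0, left_mem_segment ℝ 0 z, h0⟩ ⟨z, right_mem_segment ℝ 0 z, hzK⟩
      exact hw2 (interior_subset hw1)
    obtain ⟨w, hw, hwf⟩ := hseg
    have h1 : ‖v‖ ≤ ‖w‖ := hmin hwf
    rw [segment_eq_image] at hw
    obtain ⟨t, ⟨ht0, ht1⟩, rfl⟩ := hw
    simp only [smul_zero, zero_add, norm_smul, Real.norm_of_nonneg ht0] at h1
    have h2 : t * ‖z‖ ≤ ‖z‖ := mul_le_of_le_one_left (norm_nonneg _) ht1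
    linarith
  have hball' : ∀ z : Plane, ‖z‖ ≤ ‖v‖ → z ∈ K := by
    intro z hz
    have h1 : Metric.closedBall (0 : Plane) ‖v‖ ⊆ K := by
      rw [← closure_ball (0 : Plane) hR.ne']
      apply closure_minimal _ hKcl
      intro w hw
      exact hball w (by simpa using hw)
    exact h1 (by simpa using hz)
  obtain ⟨θ, hθ⟩ := exists_rot hv0
  set K2 : Set Plane := rot θ '' K with hK2
  have hconv : Convex ℝ K2 := hK.linear_image (rotIso θ).toLinearEquiv.toLinearMap
  have hcomp : IsCompact K2 := hc.image (rotIso θ).continuous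
  have h02 : (0 : Plane) ∈ interior K2 := by
    rw [hK2, interior_rot]
    refine ⟨0, h0, ?_⟩
    rw [← rotIso_apply, map_zero]
  have hr : 0 < ‖v‖⁻¹ := inv_pos.mpr hR
  have hineq : Q (‖v‖⁻¹ • K2) := by
    apply H
    · exact hconv.smul _
    · exact hcomp.smul _
    · rw [interior_smul₀ hr.ne']
      exact ⟨0, h02, smul_zero _⟩
    · exact (hsym.image_rot θ).smul _
    · intro z hz
      refine ⟨‖v‖ • z, ⟨rot (-θ) (‖v‖ • z), hball' _ ?_, ?_⟩, ?_⟩
      · rw [norm_rot, norm_smul, norm_norm]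
        exact mul_le_of_le_one_right hR.le hz
      · rw [rot_rot, add_neg_cancel, rot_zero]
      · change ‖v‖⁻¹ • ‖v‖ • z = z
        rw [smul_smul, inv_mul_cancel₀ hR.ne', one_smul]
    · rw [interior_smul₀ hr.ne', hK2, interior_rot]
      rintro ⟨_, ⟨z, hz, rfl⟩, h1⟩
      have h2 : rot θ z = rot θ v := by
        rw [hθ]
        have h3 : ‖v‖ • (‖v‖⁻¹ • rot θ z) = ‖v‖ • pt 0 1 := by
          rw [← h1]
        rw [smul_smul, mul_inv_cancel₀ hR.ne', one_smul, pt_smul, mul_zero, mul_one] at h3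
        exact h3
      have h3 : z = v := (rotIso θ).injective h2
      exact hvi (h3 ▸ hz)
  exact hQ.rt K θ (hQ.sm K2 _ hr hineq)

end Pool.Agent.helper79.RS
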