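import Pool.Agent.helper79.RS.Seven
import Pool.Agent.helper79.RS.Norm2

/-!
RS-25: the regular heptagon is the only extremal body.
-/

open MeasureTheory
open scoped ENNReal Pointwise

namespace Pool.Agent.helper79.RS

open Pool.Agent.helper42.PD

/-- Regular heptagons. -/
def Reg7 (K : Set Plane) : Prop :=
  ∃ o v : Plane, v ≠ 0 ∧ K = convexHull ℝ {z | ∃ k : ℕ, z = o + rot (2 * Real.pi / 7 * k) v}

/-- The vertices of the standard regular heptagon. -/
def Vert7 : Set Plane := {z | ∃ k : ℕ, z = rot (2 * Real.pi / 7 * k) (pt 0 1)}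

theorem reg7_std : Reg7 (convexHull ℝ Vert7) := by
  refine ⟨0, pt 0 1, ?_, ?_⟩
  · intro h
    have := congrArg (fun z : Plane => z 1) h
    simp at this
  · simp only [zero_add]
    rfl

theorem image_hull (A : Plane →ₗ[ℝ] Plane) (a : Plane) (V : Set Plane) :
    (fun z => a + A z) '' (convexHull ℝ V) = convexHull ℝ ((fun z => a + A z) '' V) := by
  have h1 := (A.toAffineMap + AffineMap.const ℝ Plane a).image_convexHull V
  have h2 : (⇑(A.toAffineMap + AffineMap.const ℝ Plane a) : Plane → Plane) = fun z => a + A z := by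
    ext1 z
    simp [add_comm]
  rw [h2] at h1
  exact h1

theorem reg7_of {K K' : Set Plane} (A : Plane →ₗ[ℝ] Plane) (a : Plane)
    (hA : ∀ (θ : ℝ) (z : Plane), A (rot θ z) = rot θ (A z)) (hinj : ∀ z, A z = 0 → z = 0)
    (h : Reg7 K') (hK : K = (fun z => a + A z) '' K') : Reg7 K := by
  obtain ⟨o, v, hv, rfl⟩ := h
  refine ⟨a + A o, A v, fun h0 => hv (hinj v h0), ?_⟩
  rw [hK, image_hull]
  congr 1
  ext z
  constructor
  · rintro ⟨w, ⟨k, rfl⟩, rfl⟩
    refine ⟨k, ?_⟩
    change a + A (o + rot _ v) = _
    rw [map_add, hA]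
    abel
  · rintro ⟨k, rfl⟩
    refine ⟨_, ⟨k, rfl⟩, ?_⟩
    change a + A (o + rot _ v) = _
    rw [map_add, hA]
    abel

theorem inv_reg7 : Inv Reg7 where
  tr K o h := by
    apply reg7_of (LinearMap.id) o (fun _ _ => rfl) (fun z hz => hz) h
    rw [Set.image_image]
    simp
  rt K θ h := by
    apply reg7_of (rotIso (-θ)).toLinearEquiv.toLinearMap 0 _ _ h
    · rw [Set.image_image]
      symm
      convert Set.image_id K using 1
      apply Set.image_congr
      intro z _
      change (0 : Plane) + rot (-θ) (rot θ z) = z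
      rw [rot_rot, neg_add_cancel, rot_zero, zero_add]
    · intro φ z
      change rot (-θ) (rot φ z) = rot φ (rot (-θ) z)
      rw [rot_rot, rot_rot, add_comm]
    · intro z hz
      have h1 : rotIso (-θ) z = rotIso (-θ) 0 := by rw [map_zero]; exact hz
      exact (rotIso (-θ)).injective h1
  sm K r hr h := by
    apply reg7_of (r⁻¹ • LinearMap.id) 0 _ _ h
    · change K = (fun z : Plane => (0 : Plane) + r⁻¹ • z) '' ((fun z => r • z) '' K)
      rw [Set.image_image]
      symm
      convert Set.image_id K using 1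
      apply Set.image_congr
      intro z _
      change (0 : Plane) + r⁻¹ • r • z = z
      rw [smul_smul, inv_mul_cancel₀ hr.ne', one_smul, zero_add]
    · intro φ z
      change r⁻¹ • rot φ z = rot φ (r⁻¹ • z)
      rw [rot_smul]
    · intro z hz
      change r⁻¹ • z = 0 at hz
      exact (smul_eq_zero.mp hz).resolve_left (inv_ne_zero hr.ne')

/-- The convex hull of the vertices has the symmetry. -/
theorem sym_hull : SymK 7 (convexHull ℝ Vert7) := by
  intro z hz
  have h1 : (fun z => (0 : Plane) + (rotIso (2 * Real.pi / 7)).toLinearEquiv.toLinearMap z) ''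
      (convexHull ℝ Vert7) ⊆ convexHull ℝ Vert7 := by
    rw [image_hull]
    apply convexHull_mono
    rintro _ ⟨w, ⟨k, rfl⟩, rfl⟩
    refine ⟨k + 1, ?_⟩
    change (0 : Plane) + rot (2 * Real.pi / 7) (rot _ _) = _
    rw [rot_rot, zero_add]
    congr 1
    push_cast
    ring
  have h2 := h1 ⟨z, hz, rfl⟩
  have h3 : (0 : Plane) + rot (2 * Real.pi / 7) z ∈ convexHull ℝ Vert7 := h2
  rw [zero_add] at h3
  have e : ((7 : ℕ) : ℝ) = 7 := by norm_num
  rw [e]
  exact h3

/-- A body all of whose rotated copies lie above the bottom side. -/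
theorem eq_hull {K : Set Plane} (hF : FarK 7 K)
    (hlow : ∀ z ∈ K, -Real.cos (Real.pi / 7) ≤ z 1) : K = convexHull ℝ Vert7 := by
  have h := hF.sev
  have hpi := Real.pi_pos
  apply Set.Subset.antisymm
  · set C := Real.cos (Real.pi / 7) with hCd
    set S := Real.sin (Real.pi / 7) with hSd
    have hC := h.hept.C_pos
    have hS := h.hept.S_pos
    set H := convexHull ℝ Vert7 with hH
    have hHc : Convex ℝ H := convex_convexHull ℝ _
    have hsym : SymK 7 H := sym_hull
    have mem : ∀ k : ℕ, rot (2 * Real.pi / 7 * k) (pt 0 1) ∈ H := fun k =>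
      subset_convexHull ℝ _ ⟨k, rfl⟩
    have mtop : pt 0 1 ∈ H := by
      have := mem 0
      rwa [Nat.cast_zero, mul_zero, rot_zero] at this
    have e3 : 2 * Real.pi / ((7 : ℕ) : ℝ) * ((-3 : ℤ) : ℝ) = -(Real.pi - Real.pi / 7) := by
      push_cast; ring
    have e4 : 2 * Real.pi / ((7 : ℕ) : ℝ) * ((3 : ℤ) : ℝ) = Real.pi - Real.pi / 7 := by
      push_cast; ring
    have mvr : pt S (-C) ∈ H := by
      have := hsym.int (by norm_num) (-3) mtop
      rw [e3, rot_pt, Real.cos_neg, Real.sin_neg, Real.cos_pi_sub, Real.sin_pi_sub] at this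
      convert this using 2 <;> ring
    have mvl : pt (-S) (-C) ∈ H := by
      have := hsym.int (by norm_num) 3 mtop
      rw [e4, rot_pt, Real.cos_pi_sub, Real.sin_pi_sub] at this
      convert this using 2 <;> ring
    have hb : ∀ x, -S ≤ x → x ≤ S → pt x (-C) ∈ H := by
      intro x h1 h2
      have := convex_combo hHc mvl mvr (t := (x + S) / (2 * S)) (by
        apply div_nonneg <;> linarith) (by rw [div_le_one (by linarith)]; linarith)
      convert this using 2
      · field_simp
        ring
      · ring
    have h0 : pt 0 0 ∈ H := by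
      have h1 := hb 0 (by linarith) hS.le
      have := convex_combo hHc h1 mtop (t := C / (1 + C)) (by positivity)
        (by rw [div_le_one (by linarith)]; linarith)
      convert this using 2
      · ring
      · field_simp
        ring
    have hstar : ∀ x y τ, pt x y ∈ H → 0 ≤ τ → τ ≤ 1 → pt (τ * x) (τ * y) ∈ H := by
      intro x y τ h1 h2 h3
      have := convex_combo hHc h0 h1 h2 h3
      convert this using 2 <;> ring
    intro z hz
    by_cases hz0 : z = 0
    · rw [hz0]
      convert h0 using 1
      apply plane_ext <;> simp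
    · obtain ⟨θ, hθ⟩ := exists_rot hz0
      have hr : 0 < ‖z‖ := norm_pos_iff.mpr hz0
      set r := ‖z‖ with hrd
      set k : ℤ := round (7 * (θ + Real.pi) / (2 * Real.pi)) with hk
      have hround := abs_sub_round (7 * (θ + Real.pi) / (2 * Real.pi))
      rw [← hk] at hround
      set t : ℝ := 2 * Real.pi / 7 * k - θ - Real.pi with ht
      have ht' : |t| ≤ Real.pi / 7 := by
        have e1 : t = -(2 * Real.pi / 7) * (7 * (θ + Real.pi) / (2 * Real.pi) - k) := by
          rw [ht]
          field_simp
          ring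
        rw [e1, abs_mul, abs_neg, abs_of_pos (by positivity : (0:ℝ) < 2 * Real.pi / 7)]
        have := mul_le_mul_of_nonneg_left hround (by positivity : (0:ℝ) ≤ 2 * Real.pi / 7)
        linarith
      obtain ⟨ht1, ht2⟩ := abs_le.mp ht'
      have hcos : 0 < Real.cos t := Real.cos_pos_of_mem_Ioo ⟨by linarith, by linarith⟩
      have e5 : rot (2 * Real.pi / ((7 : ℕ) : ℝ) * k) z = pt (r * Real.sin t) (-(r * Real.cos t)) := by
        have e6 : z = rot (-θ) (pt 0 r) := by
          rw [← hθ, rot_rot, neg_add_cancel, rot_zero]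
        have e7 : 2 * Real.pi / ((7 : ℕ) : ℝ) * k + -θ = t + Real.pi := by
          rw [ht]
          push_cast
          ring
        rw [e6, rot_rot, e7, rot_pt, Real.cos_add_pi, Real.sin_add_pi]
        congr 1 <;> ring
      have m1 := hF.sym.int (by norm_num) k hz
      have m2 := hlow _ m1
      rw [e5, pt_one] at m2
      have f1 : 0 ≤ S * Real.cos t - C * Real.sin t := by
        rw [hSd, hCd, ← Real.sin_sub]
        exact Real.sin_nonneg_of_nonneg_of_le_pi (by linarith) (by linarith)
      have f2 : 0 ≤ S * Real.cos t + C * Real.sin t := by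
        rw [hSd, hCd, ← Real.sin_add]
        exact Real.sin_nonneg_of_nonneg_of_le_pi (by linarith) (by linarith)
      -- the point is in the hull
      have m3 : pt (r * Real.sin t) (-(r * Real.cos t)) ∈ H := by
        have hτ : 0 < r * Real.cos t := mul_pos hr hcos
        have m4 := hb (C * Real.sin t / Real.cos t) (by
          rw [le_div_iff₀ hcos]
          linarith) (by
          rw [div_le_iff₀ hcos]
          linarith)
        have m5 := hstar _ _ (r * Real.cos t / C) m4 (by positivity) (by
          rw [div_le_one hC]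
          linarith)
        convert m5 using 2
        · field_simp
        · field_simp
      have m6 := hsym.int (by norm_num) (-k) (show rot (2 * Real.pi / ((7 : ℕ) : ℝ) * k) z ∈ H by
        rw [e5]; exact m3)
      rw [rot_rot] at m6
      have e8 : 2 * Real.pi / ((7 : ℕ) : ℝ) * ((-k : ℤ) : ℝ) + 2 * Real.pi / ((7 : ℕ) : ℝ) * k = 0 := by
        push_cast
        ring
      rwa [e8, rot_zero] at m6
  · apply convexHull_min _ hF.conv
    rintro _ ⟨k, rfl⟩
    have := hF.sym.nat k hF.top
    have e : ((7 : ℕ) : ℝ) = 7 := by norm_num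
    rwa [e] at this

/-- Either the standard heptagon or better. -/
def Q7 (K : Set Plane) : Prop :=
  Reg7 K ∨ ∃ c, dens (Real.cos (Real.pi / 7)) < c ∧ AffDens c K

theorem inv_Q7 : Inv Q7 where
  tr K o h := by
    rcases h with h | ⟨c, h1, h2⟩
    · exact Or.inl (inv_reg7.tr K o h)
    · exact Or.inr ⟨c, h1, (inv_affDens c).tr K o h2⟩
  rt K θ h := by
    rcases h with h | ⟨c, h1, h2⟩
    · exact Or.inl (inv_reg7.rt K θ h)
    · exact Or.inr ⟨c, h1, (inv_affDens c).rt K θ h2⟩
  sm K r hr h := by
    rcases h with h | ⟨c, h1, h2⟩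
    · exact Or.inl (inv_reg7.sm K r hr h)
    · exact Or.inr ⟨c, h1, (inv_affDens c).sm K r hr h2⟩

theorem q7_of_far {K : Set Plane} (hc : IsCompact K) (hF : FarK 7 K) : Q7 K := by
  obtain ⟨s, hs, nt, hall⟩ := seven_aux hc hF
  have h := hF.sev
  have hC := h.hept.C_pos
  have hS := h.hept.S_pos
  rcases eq_or_lt_of_le hs with h0 | h0
  · left
    rw [← h0, add_zero] at nt
    have hlow : ∀ z ∈ K, -Real.cos (Real.pi / 7) ≤ z 1 := by
      intro z hz
      set C := Real.cos (Real.pi / 7) with hCd
      set S := Real.sin (Real.pi / 7) with hSd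
      by_contra hcon
      push Not at hcon
      have ez : pt (z 0) (z 1) = z := pt_eta z
      have hSC : 0 < S * C := mul_pos hS hC
      have hSz : 0 < S * (-z 1) := mul_pos hS (by linarith)
      rcases le_total 0 (z 0) with hx | hx
      · have i1 : 0 ≤ C * z 0 := mul_nonneg hC.le hx
        have := below hF.conv hF.zero h.vl (show pt (z 0) (z 1) ∈ K by rw [ez]; exact hz) nt
          (by rw [det2_pt]; linarith only [i1, hSz]) (by rw [det2_pt]; linarith only [hSC])
          (by rw [det2_pt]; linarith only [i1])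
        rw [det2_pt, det2_pt, det2_pt] at this
        have h2 : S * (-z 1) ≤ S * C := by linarith only [this]
        have h3 := le_of_mul_le_mul_left h2 hS
        linarith only [h3, hcon]
      · have i1 : 0 ≤ C * (-z 0) := mul_nonneg hC.le (by linarith)
        have := below hF.conv hF.zero (show pt (z 0) (z 1) ∈ K by rw [ez]; exact hz) h.vr nt
          (by rw [det2_pt]; linarith only [i1, hSz]) (by rw [det2_pt]; linarith only [i1])
          (by rw [det2_pt]; linarith only [hSC])
        rw [det2_pt, det2_pt, det2_pt] at this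
        have h2 : S * (-z 1) ≤ S * C := by linarith only [this]
        have h3 := le_of_mul_le_mul_left h2 hS
        linarith only [h3, hcon]
    rw [eq_hull hF hlow]
    exact reg7_std
  · right
    have hi : (interior K).Nonempty := ⟨0, hF.zero⟩
    obtain ⟨L, x0, y0, xr, yr, xl, yl, hch⟩ := exists_chords hF.conv hc hi
    have hL := hch.L_pos
    have hlt := hch.lt hF.conv hi
    have hpos : 0 < L * (xr - xl) := mul_pos hL (by linarith)
    refine ⟨dens (Real.cos (Real.pi / 7)) + 0.002 * s / (L * (xr - xl)), ?_, ?_⟩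
    · have : 0 < 0.002 * s / (L * (xr - xl)) := by positivity
      linarith
    · apply affDens_of_chords hF.conv hc hi hch
      refine le_trans (ENNReal.ofReal_le_ofReal ?_) (hall _ _ _ _ _ _ _ hch)
      rw [add_mul]
      have : 0.002 * s / (L * (xr - xl)) * (L * (xr - xl)) = 0.002 * s :=
        div_mul_cancel₀ _ hpos.ne'
      rw [this]

end Pool.Agent.helper79.RS
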