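import Pool.Agent.helper79.RS.Main
import Pool.Agent.helper79.RS.Seven2

/-!
RS-26: all orders of symmetry from five on, for affine images, with the uniqueness of the
regular heptagon.
-/

open MeasureTheory
open scoped ENNReal Pointwise

namespace Pool.Agent.helper79.RS

open Pool.Agent.helper42.PD

/-- A centred body. -/
theorem centred2 {n : ℕ} (hn : 5 ≤ n) {K : Set Plane} (hK : Convex ℝ K) (hc : IsCompact K)
    (h0 : (0 : Plane) ∈ interior K) (hsym : SymK n K) : Q7 K := by
  have hd1 := hept.dhi
  have hn0 : n ≠ 0 := by omega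
  have big : ∀ {c : ℝ}, 0.892698 ≤ c → AffDens c K → Q7 K := by
    intro c hc1 h
    exact Or.inr ⟨c, by linarith, h⟩
  rcases exists_order hn with hd | hd | hd | ⟨p, hp, hp5, hd⟩
  · apply big (c := 0.8927) (by norm_num)
    refine nearQ (inv_affDens _) (n := 6) ?_ hK hc h0 (hsym.dvd hn0 hd)
    intro K hK hc h0 hsym hball htop
    refine Ineq.affDens hK hc ⟨0, h0⟩ (ineq_six (by norm_num) ?_ hK h0 hsym hball htop)
    have p1 := Real.pi_gt_d6
    have := sqrt3_bounds.2
    linarith
  · apply big (c := 0.8927) (by norm_num)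
    exact farAQ (inv_affDens _) (n := 8) (φ := Real.pi / 8)
      (fun K h => (ineq_eight h).affDens h.conv h.cpt ⟨0, h.zero⟩) hK hc h0 (hsym.dvd hn0 hd)
  · apply big (c := 0.8927) (by norm_num)
    exact farAQ (inv_affDens _) (n := 9) (φ := -(Real.pi / 18))
      (fun K h => (ineq_nine h).affDens h.conv h.cpt ⟨0, h.zero⟩) hK hc h0 (hsym.dvd hn0 hd)
  · have hsymp := hsym.dvd hn0 hd
    rcases Nat.lt_or_ge p 23 with hlt | hge
    · interval_cases p
      · apply big (c := 0.892698) (by norm_num)
        exact farQ (inv_affDens _) (n := 5) (fun K hc hF =>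
          (ineq_five hc hF).affDens hF.conv hc ⟨0, hF.zero⟩) hK hc h0 hsymp
      · exact absurd hp (by norm_num)
      · exact farQ inv_Q7 (n := 7) (fun K hc hF => q7_of_far hc hF) hK hc h0 hsymp
      · exact absurd hp (by norm_num)
      · exact absurd hp (by norm_num)
      · exact absurd hp (by norm_num)
      · apply big (c := 0.8927) (by norm_num)
        exact nearQ (inv_affDens _) (n := 11) (fun K hK hc h0 hsym hball htop =>
          (ineq_eleven hK h0 hsym hball htop).affDens hK hc ⟨0, h0⟩) hK hc h0 hsymp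
      · exact absurd hp (by norm_num)
      · apply big (c := 0.8927) (by norm_num)
        exact nearQ (inv_affDens _) (n := 13) (fun K hK hc h0 hsym hball htop =>
          (ineq_thirteen hK h0 hsym hball htop).affDens hK hc ⟨0, h0⟩) hK hc h0 hsymp
      · exact absurd hp (by norm_num)
      · exact absurd hp (by norm_num)
      · exact absurd hp (by norm_num)
      · apply big (c := 0.8927) (by norm_num)
        exact nearQ (inv_affDens _) (n := 17) (fun K hK hc h0 hsym hball htop =>
          (ineq_seventeen hK h0 hsym hball htop).affDens hK hc ⟨0, h0⟩) hK hc h0 hsymp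
      · exact absurd hp (by norm_num)
      · apply big (c := 0.8927) (by norm_num)
        exact nearQ (inv_affDens _) (n := 19) (fun K hK hc h0 hsym hball htop =>
          (ineq_nineteen hK h0 hsym hball htop).affDens hK hc ⟨0, h0⟩) hK hc h0 hsymp
      · exact absurd hp (by norm_num)
      · exact absurd hp (by norm_num)
      · exact absurd hp (by norm_num)
    · apply big (c := 0.8927) (by norm_num)
      exact farQ (inv_affDens _) (n := p) (fun K hc hF =>
        (ineq_large hge hF).affDens hF.conv hc ⟨0, hF.zero⟩) hK hc h0 hsymp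

/-- Either a regular heptagon or better than the heptagon value. -/
theorem main_strict {n : ℕ} (hn : 5 ≤ n) {K : Set Plane} (hK : Convex ℝ K) (hc : IsCompact K)
    (hi : (interior K).Nonempty) (hrot : HasRot n K) : Q7 K :=
  reduceQ inv_Q7 (by omega) (fun _ hK hc h0 hsym => centred2 hn hK hc h0 hsym) hK hc hi hrot

/-- Affine images of bodies with a seven-fold symmetry. -/
theorem seven_aff {K : Set Plane} (hK : Convex ℝ K) (hc : IsCompact K)
    (hi : (interior K).Nonempty) (hrot : HasRot 7 K) :
    AffDens (dens (Real.cos (Real.pi / 7))) K :=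
  reduceQ (inv_affDens _) (by norm_num) (fun _ hK hc h0 hsym =>
    farQ (inv_affDens _) (n := 7) (fun _ hc hF =>
      (ineq_seven hc hF).affDens hF.conv hc ⟨0, hF.zero⟩) hK hc h0 hsym) hK hc hi hrot

/-- A regular heptagon has the seven-fold symmetry. -/
theorem Reg7.hasRot {K : Set Plane} (h : Reg7 K) : HasRot 7 K := by
  obtain ⟨o, v, hv, rfl⟩ := h
  refine ⟨o, ?_⟩
  intro z hz
  set A : Plane →ₗ[ℝ] Plane := (rotIso (2 * Real.pi / 7)).toLinearEquiv.toLinearMap with hA
  have hAr : ∀ w, A w = rot (2 * Real.pi / 7) w := fun w => rfl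
  have h1 : (fun z => (o - A o) + A z) ''
      (convexHull ℝ {z | ∃ k : ℕ, z = o + rot (2 * Real.pi / 7 * k) v}) ⊆
        convexHull ℝ {z | ∃ k : ℕ, z = o + rot (2 * Real.pi / 7 * k) v} := by
    rw [image_hull]
    apply convexHull_mono
    rintro _ ⟨w, ⟨k, rfl⟩, rfl⟩
    refine ⟨k + 1, ?_⟩
    change (o - A o) + A (o + rot _ v) = _
    rw [map_add, hAr (rot _ v), rot_rot]
    have e : 2 * Real.pi / 7 + 2 * Real.pi / 7 * (k : ℝ) = 2 * Real.pi / 7 * ((k + 1 : ℕ) : ℝ) := by
      push_cast
      ring
    rw [e]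
    abel
  have h2 := h1 ⟨z, hz, rfl⟩
  have e7 : ((7 : ℕ) : ℝ) = 7 := by norm_num
  rw [e7]
  convert h2 using 1
  change o + rot _ (z - o) = (o - A o) + A z
  rw [hAr, hAr]
  have e2 : z - o = z + (-1 : ℝ) • o := by
    rw [neg_one_smul]; abel
  rw [e2, rot_add, rot_smul, neg_one_smul]
  abel

/-- All affine images. -/
theorem main_aff {n : ℕ} (hn : 5 ≤ n) {K : Set Plane} (hK : Convex ℝ K) (hc : IsCompact K)
    (hi : (interior K).Nonempty) (hrot : HasRot n K) :
    AffDens (dens (Real.cos (Real.pi / 7))) K := by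
  rcases main_strict hn hK hc hi hrot with h | ⟨c, h1, h2⟩
  · exact seven_aff hK hc hi h.hasRot
  · exact h2.mono h1.le

end Pool.Agent.helper79.RS
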