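import Pool.Agent.helper79.RS.Norm

/-!
RS-4: bodies with an `n`-fold symmetry, `n` divisible by 6 or by a prime `≥ 11`.
-/

open MeasureTheory
open scoped ENNReal Pointwise

namespace Pool.Agent.helper79.RS

open Pool.Agent.helper42.PD

/-- The support lines of `K` at the points `(sin β, cos β)`, `β = 2 π j / n`. -/
theorem support_lines {n : ℕ} (hn : n ≠ 0) {K : Set Plane} (hK : Convex ℝ K)
    (h0 : (0 : Plane) ∈ interior K) (hsym : SymK n K) (hball : ∀ z : Plane, ‖z‖ ≤ 1 → z ∈ K)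
    (htop : pt 0 1 ∉ interior K) (j : ℤ) {x y : ℝ} (hz : pt x y ∈ K) :
    x * Real.sin (2 * Real.pi / n * j) + y * Real.cos (2 * Real.pi / n * j) ≤ 1 := by
  have h1 := hsym.not_interior hn (-j) htop
  rw [rot_pt] at h1
  have h2 := support_near hK h0 hball (v := _) ?_ h1 _ hz
  · simp only [pt_zero, pt_one, Int.cast_neg, mul_neg, Real.cos_neg, Real.sin_neg, mul_zero,
      mul_one, zero_sub, neg_neg, zero_add] at h2
    exact h2
  · have h3 : ‖pt (Real.cos (2 * Real.pi / n * (-j : ℤ)) * 0 - Real.sin (2 * Real.pi / n * (-j : ℤ)) * 1)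
        (Real.sin (2 * Real.pi / n * (-j : ℤ)) * 0 + Real.cos (2 * Real.pi / n * (-j : ℤ)) * 1)‖ ^ 2
        = 1 := by
      rw [norm_sq_plane, pt_zero, pt_one]
      have := Real.sin_sq_add_cos_sq (2 * Real.pi / n * (-j : ℤ))
      nlinarith
    nlinarith [norm_nonneg (pt (Real.cos (2 * Real.pi / n * (-j : ℤ)) * 0 -
      Real.sin (2 * Real.pi / n * (-j : ℤ)) * 1)
        (Real.sin (2 * Real.pi / n * (-j : ℤ)) * 0 + Real.cos (2 * Real.pi / n * (-j : ℤ)) * 1))]

/-- Upper bound for the chord data by support lines. -/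
theorem chords_near {n : ℕ} (hn : n ≠ 0) {K : Set Plane} (hK : Convex ℝ K)
    (h0 : (0 : Plane) ∈ interior K) (hsym : SymK n K) (hball : ∀ z : Plane, ‖z‖ ≤ 1 → z ∈ K)
    (htop : pt 0 1 ∉ interior K) {jb ja : ℤ} {Sb Cb Sa Ca : ℝ}
    (hSb : Real.sin (2 * Real.pi / n * jb) = Sb) (hCb : Real.cos (2 * Real.pi / n * jb) = Cb)
    (hSa : Real.sin (2 * Real.pi / n * ja) = Sa) (hCa : Real.cos (2 * Real.pi / n * ja) = -Ca)
    (hb : 0 ≤ Cb) (ha : 0 ≤ Ca)
    {L x0 y0 xr yr xl yl : ℝ} (h : Chords K L x0 y0 xr yr xl yl) :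
    (Ca * Sb + Cb * Sa) * xr + Ca * Cb * (L / 2) ≤ Ca + Cb ∧
      (Ca * Sb + Cb * Sa) * (-xl) + Ca * Cb * (L / 2) ≤ Ca + Cb := by
  constructor
  · have h1 := support_lines hn hK h0 hsym hball htop jb h.memr'
    have h2 := support_lines hn hK h0 hsym hball htop ja h.memr
    rw [hSb, hCb] at h1
    rw [hSa, hCa] at h2
    have h3 := mul_le_mul_of_nonneg_left h1 ha
    have h4 := mul_le_mul_of_nonneg_left h2 hb
    linarith
  · have h1 := support_lines hn hK h0 hsym hball htop (-jb) h.meml'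
    have h2 := support_lines hn hK h0 hsym hball htop (-ja) h.meml
    simp only [Int.cast_neg, mul_neg, Real.sin_neg, Real.cos_neg] at h1 h2
    rw [hSb, hCb] at h1
    rw [hSa, hCa] at h2
    have h3 := mul_le_mul_of_nonneg_left h1 ha
    have h4 := mul_le_mul_of_nonneg_left h2 hb
    linarith

/-- Six-fold symmetry. -/
theorem ineq_six {c : ℝ} (hc0 : 0 ≤ c) (hc : c * (2 * Real.sqrt 3) ≤ Real.pi) {K : Set Plane}
    (hK : Convex ℝ K)
    (h0 : (0 : Plane) ∈ interior K) (hsym : SymK 6 K) (hball : ∀ z : Plane, ‖z‖ ≤ 1 → z ∈ K)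
    (htop : pt 0 1 ∉ interior K) : Ineq c K := by
  intro L x0 y0 xr yr xl yl h
  have e1 : 2 * Real.pi / ((6 : ℕ) : ℝ) * ((1 : ℤ) : ℝ) = Real.pi / 3 := by
    push_cast; ring
  have e2 : 2 * Real.pi / ((6 : ℕ) : ℝ) * ((2 : ℤ) : ℝ) = Real.pi - Real.pi / 3 := by
    push_cast; ring
  have e3 : 2 * Real.pi / ((6 : ℕ) : ℝ) * ((3 : ℤ) : ℝ) = Real.pi := by
    push_cast; ring
  obtain ⟨h1, h2⟩ := chords_near (by norm_num) hK h0 hsym hball htop (jb := 1) (ja := 2)
    (Sb := Real.sqrt 3 / 2) (Cb := 1 / 2) (Sa := Real.sqrt 3 / 2) (Ca := 1 / 2)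
    (by rw [e1, Real.sin_pi_div_three]) (by rw [e1, Real.cos_pi_div_three])
    (by rw [e2, Real.sin_pi_sub, Real.sin_pi_div_three])
    (by rw [e2, Real.cos_pi_sub, Real.cos_pi_div_three]) (by norm_num) (by norm_num) h
  have hL : L ≤ 2 := by
    have h3 := support_lines (by norm_num) hK h0 hsym hball htop 0 h.mem0'
    have h4 := support_lines (by norm_num) hK h0 hsym hball htop 3 h.mem0
    simp only [Int.cast_zero, mul_zero, Real.sin_zero, Real.cos_zero, mul_one, zero_add] at h3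
    rw [e3, Real.sin_pi, Real.cos_pi] at h4
    linarith
  have hL0 := h.L_pos
  have h3 : (0 : ℝ) < Real.sqrt 3 := Real.sqrt_pos.mpr (by norm_num)
  have h33 : Real.sqrt 3 ^ 2 = 3 := Real.sq_sqrt (by norm_num)
  have h4 : Real.sqrt 3 * (L * (xr - xl)) ≤ Real.sqrt 3 * (2 * Real.sqrt 3) := by
    have h5 : Real.sqrt 3 * (xr - xl) ≤ 4 - L / 2 := by linarith
    have h6 := mul_le_mul_of_nonneg_left h5 hL0.le
    nlinarith
  have h5 : L * (xr - xl) ≤ 2 * Real.sqrt 3 := le_of_mul_le_mul_left h4 h3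
  have h6 : c * (L * (xr - xl)) ≤ Real.pi := le_trans (mul_le_mul_of_nonneg_left h5 hc0) hc
  have h7 : ENNReal.ofReal Real.pi ≤ volume K := by
    have h8 : volume (Metric.closedBall (0 : Plane) 1) = ENNReal.ofReal Real.pi := by
      rw [EuclideanSpace.volume_closedBall_fin_two]
      simp
    rw [← h8]
    apply measure_mono
    intro z hz
    exact hball z (by simpa using hz)
  exact (ENNReal.ofReal_le_ofReal h6).trans h7

theorem det2_smul_rot (a b r t : ℝ) (u : Plane) (hu : ‖u‖ = 1) :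
    det2 (r • rot a u) (t • rot b u) = r * t * Real.sin (b - a) := by
  have h := norm_sq_plane u
  rw [hu] at h
  simp only [det2, PiLp.smul_apply, smul_eq_mul, rot_zero', rot_one', Real.sin_sub]
  linear_combination (-(r * t * (Real.sin b * Real.cos a - Real.cos b * Real.sin a))) * h

/-- Lower bound for the area in the nearest point frame. -/
theorem area_cap {k : ℕ} (hk : 3 ≤ k) {K : Set Plane} (hK : Convex ℝ K) (hsym : SymK k K)
    (hball : ∀ z : Plane, ‖z‖ ≤ 1 → z ∈ K) {w : Plane} (hw : w ∈ K) (hw1 : 1 ≤ ‖w‖) :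
    ENNReal.ofReal (k * Real.sin (2 * Real.pi / k / 6) * (‖w‖ + 2)) ≤ volume K := by
  have hpi := Real.pi_pos
  have hk0 : (0 : ℝ) < k := by
    have : 0 < k := by omega
    exact_mod_cast this
  have hk3 : (3 : ℝ) ≤ k := by exact_mod_cast hk
  set ψ : ℝ := 2 * Real.pi / k with hψ
  have hψ0 : 0 < ψ := by positivity
  have hψk : ψ * k = 2 * Real.pi := by rw [hψ]; field_simp
  have hψ1 : ψ < Real.pi := by nlinarith
  have hwpos : 0 < ‖w‖ := by linarith
  set u : Plane := (1 / ‖w‖) • w with hu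
  have hu1 : ‖u‖ = 1 := by
    rw [hu, norm_smul, Real.norm_eq_abs, abs_of_pos (by positivity)]
    field_simp
  have hwu : w = ‖w‖ • u := by
    rw [hu, smul_smul]
    have : ‖w‖ * (1 / ‖w‖) = 1 := by field_simp
    rw [this, one_smul]
  set r : ℕ → ℝ := fun i => if i = 0 ∨ i = 6 then ‖w‖ else 1 with hr
  have hrpos : ∀ i, 0 < r i := by
    intro i
    simp only [hr]
    split_ifs
    · exact hwpos
    · norm_num
  set P : ℕ → Plane := fun i => r i • rot (i * (ψ / 6)) u with hP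
  have hdet : ∀ i j : ℕ, det2 (P i) (P j) = r i * r j * Real.sin (((j : ℝ) - i) * (ψ / 6)) := by
    intro i j
    simp only [hP]
    rw [det2_smul_rot _ _ _ _ _ hu1]
    congr 2
    ring
  have hr0 : r 0 = ‖w‖ := by simp [hr]
  have hr6 : r 6 = ‖w‖ := by simp [hr]
  have hrotw : rot ψ w = P 6 := by
    simp only [hP]
    rw [hr6]
    conv_lhs => rw [hwu]
    rw [rot_smul]
    congr 2
    push_cast
    ring
  have hPw : P 0 = w := by
    simp only [hP]
    rw [hr0]
    conv_rhs => rw [hwu]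
    rw [Nat.cast_zero, zero_mul, rot_zero]
  have hPK : ∀ i ≤ 6, P i ∈ K := by
    intro i hi
    by_cases h0 : i = 0
    · rw [h0, hPw]; exact hw
    by_cases h6 : i = 6
    · rw [h6, ← hrotw]; exact hsym w hw
    · apply hball
      simp only [hP, hr]
      rw [if_neg (by tauto), one_smul, norm_rot, hu1]
  have key := sector_area (n := k) (m := 6) hk hK (hball 0 (by simp)) hsym P hPK (by
    intro i j hij hj
    rw [hdet]
    have h1 : (i : ℝ) < j := by exact_mod_cast hij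
    have h2 : (j : ℝ) ≤ 6 := by exact_mod_cast hj
    have h3 : (0 : ℝ) ≤ i := Nat.cast_nonneg i
    apply mul_pos (mul_pos (hrpos i) (hrpos j))
    apply Real.sin_pos_of_pos_of_lt_pi
    · apply mul_pos <;> linarith
    · have : ((j : ℝ) - i) * (ψ / 6) ≤ 6 * (ψ / 6) :=
        mul_le_mul_of_nonneg_right (by linarith) (by positivity)
      linarith) (by norm_num) (by rw [← hrotw, hPw])
  refine le_trans (ENNReal.ofReal_le_ofReal ?_) key
  have e : ∀ i : ℕ, (((i + 1 : ℕ) : ℝ) - i) * (ψ / 6) = ψ / 6 := by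
    intro i
    push_cast
    ring
  simp only [hdet, e, Finset.sum_range_succ, Finset.sum_range_zero, hr]
  norm_num
  apply le_of_eq
  ring

/-- The general inequality in the nearest point frame: the support lines at the angles `β` and
`2 β` are used, where `β = 2 π j / k` is close to `π / 3`. -/
theorem ineq_near {k : ℕ} (hk : 3 ≤ k) {K : Set Plane} (hK : Convex ℝ K)
    (h0 : (0 : Plane) ∈ interior K) (hsym : SymK k K) (hball : ∀ z : Plane, ‖z‖ ≤ 1 → z ∈ K)
    (htop : pt 0 1 ∉ interior K) (j : ℤ) {Cb Sb σ c : ℝ}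
    (hSb : Real.sin (2 * Real.pi / k * j) = Sb) (hCb : Real.cos (2 * Real.pi / k * j) = Cb)
    (hC1 : 0 < Cb) (hC2 : 2 * Cb ^ 2 ≤ 1) (hS : 0 < Sb) (hc : 0 ≤ c)
    (hσ : σ ≤ Real.sin (2 * Real.pi / k / 6)) (hσ0 : 0 ≤ σ)
    (h1 : c * (2 * (2 * (Cb + (1 - 2 * Cb ^ 2)) - 2 * (Cb * (1 - 2 * Cb ^ 2)))) ≤
      3 * k * σ * Sb)
    (h2 : ∀ L : ℝ, 2 ≤ L → c * (L * (2 * (Cb + (1 - 2 * Cb ^ 2)) - Cb * (1 - 2 * Cb ^ 2) * L)) ≤
      k * σ * Sb * (L + 1)) : Ineq c K := by
  intro L x0 y0 xr yr xl yl h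
  have hkn : k ≠ 0 := by omega
  have hk0 : (0 : ℝ) < k := by exact_mod_cast Nat.pos_of_ne_zero hkn
  have hsq : Sb ^ 2 + Cb ^ 2 = 1 := by
    rw [← hSb, ← hCb]
    exact Real.sin_sq_add_cos_sq _
  have e2 : 2 * Real.pi / k * ((2 * j : ℤ) : ℝ) = 2 * (2 * Real.pi / k * j) := by
    push_cast; ring
  obtain ⟨i1, i2⟩ := chords_near hkn hK h0 hsym hball htop (jb := j) (ja := 2 * j)
    (Sb := Sb) (Cb := Cb) (Sa := 2 * Sb * Cb) (Ca := 1 - 2 * Cb ^ 2) hSb hCb
    (by rw [e2, Real.sin_two_mul, hSb, hCb])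
    (by rw [e2, Real.cos_two_mul, hCb]; ring) hC1.le (by linarith) h
  have es : (1 - 2 * Cb ^ 2) * Sb + Cb * (2 * Sb * Cb) = Sb := by ring
  rw [es] at i1 i2
  set U : ℝ := Cb + (1 - 2 * Cb ^ 2) with hU
  set V : ℝ := Cb * (1 - 2 * Cb ^ 2) with hV
  have hV0 : 0 ≤ V := mul_nonneg hC1.le (by linarith)
  have hLpos := h.L_pos
  have hD : Sb * (L * (xr - xl)) ≤ L * (2 * U - V * L) := by
    have i3 : Sb * (xr - xl) ≤ 2 * U - V * L := by
      rw [hU, hV]
      linarith
    have := mul_le_mul_of_nonneg_left i3 hLpos.le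
    linarith
  rcases le_total L 2 with hL | hL
  · have hcap := area_cap hk hK hsym hball (w := pt 0 1) (hball _ (by
      have := norm_sq_plane (pt 0 1)
      rw [pt_zero, pt_one] at this
      nlinarith [norm_nonneg (pt 0 1)])) (by
      have := norm_sq_plane (pt 0 1)
      rw [pt_zero, pt_one] at this
      nlinarith [norm_nonneg (pt 0 1)])
    refine le_trans (ENNReal.ofReal_le_ofReal ?_) hcap
    have hn1 : ‖pt 0 1‖ = 1 := by
      have := norm_sq_plane (pt 0 1)
      rw [pt_zero, pt_one] at this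
      nlinarith [norm_nonneg (pt 0 1)]
    rw [hn1]
    apply le_of_mul_le_mul_left _ hS
    have i4 : L * (2 * U - V * L) ≤ 2 * (2 * U - 2 * V) := by
      have i5 : 0 ≤ (2 - L) * (2 * U - V * (L + 2)) := by
        apply mul_nonneg (by linarith)
        have i6 : V * (L + 2) ≤ V * 4 := mul_le_mul_of_nonneg_left (by linarith) hV0
        have i7 : V * 4 ≤ 2 * U := by
          rw [hU, hV]
          nlinarith [mul_pos hC1 hC1, mul_pos (mul_pos hC1 hC1) hC1]
        linarith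
      linarith
    have i5 := mul_le_mul_of_nonneg_left (le_trans hD i4) hc
    have i8 : 3 * k * σ * Sb ≤ 3 * k * Real.sin (2 * Real.pi / k / 6) * Sb := by
      apply mul_le_mul_of_nonneg_right _ hS.le
      exact mul_le_mul_of_nonneg_left hσ (by positivity)
    linarith
  · have hy : y0 + L ≤ 1 := by
      have h3 := support_lines hkn hK h0 hsym hball htop 0 h.mem0'
      simp only [Int.cast_zero, mul_zero, Real.sin_zero, Real.cos_zero, mul_one, zero_add] at h3
      exact h3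
    have hn : L - 1 ≤ ‖pt x0 y0‖ := by
      have := norm_sq_plane (pt x0 y0)
      rw [pt_zero, pt_one] at this
      have h4 : (L - 1) ^ 2 ≤ ‖pt x0 y0‖ ^ 2 := by
        rw [this]
        nlinarith [sq_nonneg x0]
      exact (pow_le_pow_iff_left₀ (by linarith) (norm_nonneg _) (by norm_num)).mp h4
    have hcap := area_cap hk hK hsym hball (w := pt x0 y0) h.mem0 (by linarith)
    refine le_trans (ENNReal.ofReal_le_ofReal ?_) hcap
    apply le_of_mul_le_mul_left _ hS
    have i5 := mul_le_mul_of_nonneg_left hD hc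
    have i6 := h2 L hL
    have i7 : k * σ * Sb * (L + 1) ≤ k * Real.sin (2 * Real.pi / k / 6) * Sb * (L + 1) := by
      apply mul_le_mul_of_nonneg_right _ (by linarith)
      apply mul_le_mul_of_nonneg_right _ hS.le
      exact mul_le_mul_of_nonneg_left hσ hk0.le
    have hsin0 : 0 ≤ k * Real.sin (2 * Real.pi / k / 6) * Sb :=
      mul_nonneg (mul_nonneg hk0.le (le_trans hσ0 hσ)) hS.le
    have i8 : k * Real.sin (2 * Real.pi / k / 6) * Sb * (L + 1) ≤
        k * Real.sin (2 * Real.pi / k / 6) * Sb * (‖pt x0 y0‖ + 2) :=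
      mul_le_mul_of_nonneg_left (by linarith) hsin0
    linarith

end Pool.Agent.helper79.RS
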