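import Mathlib.Tactic

/-!
RS-13: the polynomial inequalities for the nine-fold symmetry.
-/

namespace Pool.Agent.helper79.RS

theorem poly9R {g e m : ℝ} (hg : 0 ≤ g) (he : 0 ≤ e) (he1 : e ≤ 0.030386) (hm : 0 ≤ m)
    (h1 : 0.6840402 * m ≤ g)
    (h2 : 0.5447 * m ≤ 1 - 0.8386 * (0.82077 + 0.532088 * g - 0.090993 * e)
      - 0.5447 * (0.492403 + e / 4)) :
    0.8927 * ((1.969616 + e) * (0.820781 + 0.53209 * g - 0.090992 * e)) ≤
      2.25 * (0.642787 + 0.18 * (1.34729 * e - 0.000079) + 0.82 * ((0.34202 + (0.363969 -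
      0.363972 * g + 0.532088 * e) / 2) * g - 0.642788 * m ^ 2)) + 0.0015 := by
  nlinarith [mul_nonneg hm (sub_nonneg.mpr h2), mul_nonneg (sub_nonneg.mpr h1)
    (le_trans (mul_nonneg (by norm_num : (0 : ℝ) ≤ 0.5447) hm) h2), mul_nonneg hg he,
    sq_nonneg (g - 0.0465), mul_nonneg he (sub_nonneg.mpr he1), sq_nonneg (g - 1.5 * e)]

theorem poly9L {g e : ℝ} (hg : 0 ≤ g) (he : 0 ≤ e) (he1 : e ≤ 0.030386) :
    0.8927 * ((1.969616 + e) * (0.813507 + 0.652704 * g - 0.209774 * e)) + 0.0015 ≤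
      2.25 * (0.642787 + (0.34202 + (0.291411 + 0.839096 * g - 0.652708 * e) / 2) * g) := by
  nlinarith [mul_nonneg hg he, sq_nonneg (g - 0.048), mul_nonneg he (sub_nonneg.mpr he1),
    mul_nonneg hg (sub_nonneg.mpr he1)]

end Pool.Agent.helper79.RS
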