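import Pool.Agent.helper79.RS.FarA
import Pool.Agent.helper79.RS.Poly9

/-!
RS-14: bodies with a nine-fold symmetry.
-/

open MeasureTheory
open scoped ENNReal Pointwise

namespace Pool.Agent.helper79.RS

open Pool.Agent.helper42.PD

theorem det2_pt9 (a b c d : ℝ) : det2 (pt a b) (pt c d) = a * d - b * c := rfl

/-- The body rotated to the standard frame. -/
theorem FarA.bot {n : ℕ} {φ : ℝ} {K : Set Plane} (h : FarA n φ K) :
    FarA n 0 (rot (-φ) '' K) where
  conv := h.conv.linear_image (rotIso (-φ)).toLinearEquiv.toLinearMap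
  cpt := h.cpt.image (rotIso (-φ)).continuous
  zero := by
    rw [interior_rot]
    refine ⟨0, h.zero, ?_⟩
    rw [← rotIso_apply, map_zero]
  sym := h.sym.image_rot _
  ball := by
    rintro _ ⟨z, hz, rfl⟩
    rw [norm_rot]
    exact h.ball z hz
  top := by
    refine ⟨_, h.top, ?_⟩
    rw [rot_rot]
    congr 1
    ring

theorem FarA.bot_mem {n : ℕ} (hn : n ≠ 0) {φ : ℝ} {K : Set Plane} (h : FarA n φ K) (j : ℤ)
    {z : Plane} (hz : z ∈ K) : rot (-φ + 2 * Real.pi / n * j) z ∈ rot (-φ) '' K := by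
  refine ⟨_, h.sym.int hn j hz, ?_⟩
  rw [rot_rot]

theorem FarA.bot_not {n : ℕ} (hn : n ≠ 0) {φ : ℝ} {K : Set Plane} (h : FarA n φ K) (j : ℤ)
    {z : Plane} (hz : z ∉ interior K) :
    rot (-φ + 2 * Real.pi / n * j) z ∉ interior (rot (-φ) '' K) := by
  rw [interior_rot]
  rintro ⟨w, hw, hw2⟩
  apply h.sym.not_interior hn j hz
  have : rot φ (rot (-φ) w) = rot φ (rot (-φ + 2 * Real.pi / n * j) z) := by rw [hw2]
  rw [rot_rot, rot_rot] at this
  have e1 : φ + -φ = 0 := by ring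
  have e2 : φ + (-φ + 2 * Real.pi / n * j) = 2 * Real.pi / n * j := by ring
  rw [e1, e2, rot_zero] at this
  rw [← this]
  exact hw

/-- The numbers of the regular 9-gon: sines and cosines of 10, 20 and 40 degrees. -/
structure Non (s k C S c4 s4 : ℝ) : Prop where
  sq : s ^ 2 + k ^ 2 = 1
  Ce : C = 1 - 2 * s ^ 2
  Se : S = 2 * s * k
  c4e : c4 = 2 * C ^ 2 - 1
  s4e : s4 = 2 * S * C
  min : 8 * s ^ 3 - 6 * s + 1 = 0
  slo : 0.173648177 < s
  shi : s < 0.173648178
  klo : 0.984807752 < k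
  khi : k < 0.984807754

theorem non : Non (Real.sin (Real.pi / 18)) (Real.cos (Real.pi / 18))
    (Real.cos (2 * (Real.pi / 18))) (Real.sin (2 * (Real.pi / 18)))
    (Real.cos (4 * (Real.pi / 18))) (Real.sin (4 * (Real.pi / 18))) := by
  have hpi := Real.pi_pos
  have p1 := Real.pi_gt_d6
  have p2 := Real.pi_lt_d6
  set θ := Real.pi / 18 with hθ
  set s := Real.sin θ with hs
  set k := Real.cos θ with hk
  have hsq : s ^ 2 + k ^ 2 = 1 := Real.sin_sq_add_cos_sq _
  have h3 : Real.sin (3 * θ) = 3 * s - 4 * s ^ 3 := Real.sin_three_mul θ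
  have h3' : Real.sin (3 * θ) = 1 / 2 := by
    rw [← Real.sin_pi_div_six]
    congr 1
    rw [hθ]; ring
  have hmin : 8 * s ^ 3 - 6 * s + 1 = 0 := by linarith
  have hs1 : s ≤ 0.175 := by
    have : s ≤ θ := Real.sin_le (by positivity)
    rw [hθ] at this
    linarith
  have hs0 : 0 < s := Real.sin_pos_of_pos_of_lt_pi (by positivity) (by rw [hθ]; linarith)
  have hk0 : 0 < k := Real.cos_pos_of_mem_Ioo ⟨by rw [hθ]; linarith, by rw [hθ]; linarith⟩
  have slo : 0.173648177 < s := by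
    by_contra h
    push Not at h
    nlinarith [mul_pos hs0 hs0, mul_nonneg (sub_nonneg.mpr h) (mul_pos hs0 hs0).le,
      mul_nonneg (sub_nonneg.mpr h) hs0.le]
  have shi : s < 0.173648178 := by
    by_contra h
    push Not at h
    nlinarith [mul_pos hs0 hs0, mul_nonneg (sub_nonneg.mpr h) (sub_nonneg.mpr hs1),
      mul_nonneg (mul_nonneg (sub_nonneg.mpr h) (sub_nonneg.mpr hs1)) hs0.le]
  refine ⟨hsq, ?_, ?_, ?_, ?_, hmin, slo, shi, ?_, ?_⟩
  · have := Real.cos_two_mul θ
    rw [← hk] at this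
    linarith
  · exact Real.sin_two_mul θ
  · have : 4 * θ = 2 * (2 * θ) := by ring
    rw [this, Real.cos_two_mul]
  · have : 4 * θ = 2 * (2 * θ) := by ring
    rw [this, Real.sin_two_mul]
  · nlinarith
  · nlinarith

namespace Non

variable {s k C S c4 s4 : ℝ} (h : Non s k C S c4 s4)

include h

theorem Clo : 0.9396926 < C := by rw [h.Ce]; nlinarith [h.slo, h.shi]
theorem Chi : C < 0.9396927 := by rw [h.Ce]; nlinarith [h.slo, h.shi]
theorem Slo : 0.3420201 < S := by
  rw [h.Se]; nlinarith [mul_pos (sub_pos.mpr h.slo) (sub_pos.mpr h.klo), h.slo, h.klo]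
theorem Shi : S < 0.3420202 := by
  rw [h.Se]; nlinarith [mul_pos (sub_pos.mpr h.shi) (sub_pos.mpr h.klo), h.slo, h.khi, h.shi]
theorem CS : S ^ 2 + C ^ 2 = 1 := by
  rw [h.Ce, h.Se]
  linear_combination (4 * s ^ 2) * h.sq
theorem c4lo : 0.7660443 < c4 := by rw [h.c4e]; nlinarith [h.Clo, h.Chi, h.CS]
theorem c4hi : c4 < 0.766045 := by rw [h.c4e]; nlinarith [h.Clo, h.Chi]
theorem s4lo : 0.6427874 < s4 := by
  rw [h.s4e]; nlinarith [mul_pos (sub_pos.mpr h.Slo) (sub_pos.mpr h.Clo), h.Slo, h.Clo]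
theorem s4hi : s4 < 0.642788 := by
  rw [h.s4e]; nlinarith [mul_pos (sub_pos.mpr h.Shi) (sub_pos.mpr h.Clo), h.Slo, h.Chi, h.Shi]

end Non

/-- The inequality on the right: normals at 70 and 110 degrees. -/
theorem side9R {s k C S c4 s4 : ℝ} (h : Non s k C S c4 s4) {x m L : ℝ} (hL1 : 2 * k ≤ L)
    (hL2 : L ≤ 2) (hx : 0 ≤ 2 * C * x + S * (L / 2) - 2 * C) (hm : 0 ≤ m)
    (hm1 : 2 * S * m ≤ 2 * C * x + S * (L / 2) - 2 * C) (hd : x ^ 2 + (m + L / 4) ^ 2 ≤ 1) :
    0.8927 * (L * x) ≤ 9 / 4 * (2 * S * C + 0.18 * (4 * S * k * (L - 2 * k) - S * (2 - L) ^ 2 / 4)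
      + 0.82 * ((S + (C * (L / 2) - 2 * S * x) / 2) * (2 * C * x + S * (L / 2) - 2 * C)
        - s4 * m ^ 2)) + 0.0015 := by
  have b1 := h.Clo
  have b2 := h.Chi
  have b3 := h.Slo
  have b4 := h.Shi
  have b5 := h.klo
  have b6 := h.khi
  have b7 := h.s4lo
  have b8 := h.s4hi
  obtain ⟨e, he⟩ : ∃ e, e = L - 2 * k := ⟨_, rfl⟩
  obtain ⟨g, hg⟩ : ∃ g, g = 2 * C * x + S * (L / 2) - 2 * C := ⟨_, rfl⟩
  rw [← hg] at hx hm1 ⊢
  rw [← he]
  have hL : L = 2 * k + e := by linarith only [he]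
  have he0 : 0 ≤ e := by linarith only [he, hL1]
  have he1 : e ≤ 0.030386 := by linarith only [he, hL2, b5]
  have hC2 : 0 < 2 * C := by linarith only [b1]
  -- approximations
  have hx2 : x ≤ 0.820781 + 0.53209 * g - 0.090992 * e := by
    apply le_of_mul_le_mul_left _ hC2
    have i1 : 2 * C * (0.820781 + 0.53209 * g - 0.090992 * e) =
        2 * C * 0.820781 + (2 * C * 0.53209) * g - (2 * C * 0.090992) * e := by ring
    rw [i1]
    have i2 : 1 * g ≤ (2 * C * 0.53209) * g :=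
      mul_le_mul_of_nonneg_right (by linarith only [b1]) hx
    have i3 : (2 * C * 0.090992) * e ≤ S / 2 * e :=
      mul_le_mul_of_nonneg_right (by linarith only [b2, b3]) he0
    have i4 : 2 * C * x = g + 2 * C - S * k - S / 2 * e := by rw [hg, hL]; ring
    have i5 : 0.3420201 * 0.984807752 ≤ S * k :=
      mul_le_mul b3.le b5.le (by norm_num) (by linarith only [b3])
    rw [i4]
    linarith only [i2, i3, i5, b2]
  have hx3 : 0.82077 + 0.532088 * g - 0.090993 * e ≤ x := by
    apply le_of_mul_le_mul_left _ hC2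
    have i1 : 2 * C * (0.82077 + 0.532088 * g - 0.090993 * e) =
        2 * C * 0.82077 + (2 * C * 0.532088) * g - (2 * C * 0.090993) * e := by ring
    rw [i1]
    have i2 : (2 * C * 0.532088) * g ≤ 1 * g :=
      mul_le_mul_of_nonneg_right (by linarith only [b2]) hx
    have i3 : S / 2 * e ≤ (2 * C * 0.090993) * e :=
      mul_le_mul_of_nonneg_right (by linarith only [b1, b4]) he0
    have i4 : 2 * C * x = g + 2 * C - S * k - S / 2 * e := by rw [hg, hL]; ring
    have i5 : S * k ≤ 0.3420202 * 0.984807754 :=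
      mul_le_mul b4.le b6.le (by linarith only [b5]) (by norm_num)
    rw [i4]
    linarith only [i2, i3, i5, b1]
  have hm2 : 0.6840402 * m ≤ g :=
    le_trans (mul_le_mul_of_nonneg_right (by linarith only [b3]) hm) hm1
  have hd2 : 0.8386 * x + 0.5447 * (m + L / 4) ≤ 1 := by
    nlinarith only [hd, sq_nonneg (0.8386 - x), sq_nonneg (0.5447 - (m + L / 4))]
  have hd3 : 0.5447 * m ≤ 1 - 0.8386 * (0.82077 + 0.532088 * g - 0.090993 * e)
      - 0.5447 * (0.492403 + e / 4) := by
    have i1 := mul_le_mul_of_nonneg_left hx3 (by norm_num : (0 : ℝ) ≤ 0.8386)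
    linarith only [hd2, i1, hL, b5]
  have fin := poly9R hx he0 he1 hm hm2 hd3
  -- lower bounds on the right
  have hLx : L * x ≤ (1.969616 + e) * (0.820781 + 0.53209 * g - 0.090992 * e) := by
    have i1 : 0 ≤ 0.820781 + 0.53209 * g - 0.090992 * e := by linarith only [hx, he1]
    have i2 : L * x ≤ L * (0.820781 + 0.53209 * g - 0.090992 * e) :=
      mul_le_mul_of_nonneg_left hx2 (by linarith only [hL1, b5])
    have i3 : L * (0.820781 + 0.53209 * g - 0.090992 * e) ≤
        (1.969616 + e) * (0.820781 + 0.53209 * g - 0.090992 * e) :=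
      mul_le_mul_of_nonneg_right (by linarith only [hL, b6]) i1
    linarith only [i2, i3]
  have hT : 0.363969 - 0.363972 * g + 0.532088 * e ≤ C * (L / 2) - 2 * S * x := by
    have i1 : 2 * S * x ≤ 0.6840404 * (0.820781 + 0.53209 * g - 0.090992 * e) := by
      have i2 : 0 ≤ 0.820781 + 0.53209 * g - 0.090992 * e := by linarith only [hx, he1]
      have i3 : 2 * S * x ≤ 2 * S * (0.820781 + 0.53209 * g - 0.090992 * e) :=
        mul_le_mul_of_nonneg_left hx2 (by linarith only [b3])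
      have i4 : 2 * S * (0.820781 + 0.53209 * g - 0.090992 * e) ≤
          0.6840404 * (0.820781 + 0.53209 * g - 0.090992 * e) :=
        mul_le_mul_of_nonneg_right (by linarith only [b4]) i2
      linarith only [i3, i4]
    have i5 : 0.9396926 * 0.984807752 ≤ C * k :=
      mul_le_mul b1.le b5.le (by norm_num) (by linarith only [b1])
    have i6 : 0.9396926 / 2 * e ≤ C / 2 * e :=
      mul_le_mul_of_nonneg_right (by linarith only [b1]) he0
    rw [hL]
    linarith only [i1, i5, i6, hx, he0]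
  have q1 : (0.34202 + (0.363969 - 0.363972 * g + 0.532088 * e) / 2) * g ≤
      (S + (C * (L / 2) - 2 * S * x) / 2) * g :=
    mul_le_mul_of_nonneg_right (by linarith only [hT, b3]) hx
  have q2 : s4 * m ^ 2 ≤ 0.642788 * m ^ 2 := mul_le_mul_of_nonneg_right b8.le (sq_nonneg m)
  have q3 : 0.642787 ≤ 2 * S * C := by rw [← h.s4e]; linarith only [b7]
  have q4 : 1.34729 * e ≤ 4 * S * k * e := by
    apply mul_le_mul_of_nonneg_right _ he0
    have i5 : 0.3420201 * 0.984807752 ≤ S * k :=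
      mul_le_mul b3.le b5.le (by norm_num) (by linarith only [b3])
    linarith only [i5]
  have q5 : S * (2 - L) ^ 2 / 4 ≤ 0.000079 := by
    have i1 : (2 - L) ^ 2 ≤ 0.030386 ^ 2 :=
      pow_le_pow_left₀ (by linarith only [hL2]) (by linarith only [hL1, b5]) 2
    have i2 : S * (2 - L) ^ 2 ≤ 0.3420202 * 0.030386 ^ 2 :=
      mul_le_mul b4.le i1 (sq_nonneg _) (by norm_num)
    norm_num at i2 ⊢
    linarith only [i2]
  linarith only [fin, hLx, q1, q2, q3, q4, q5]

/-- The inequality on the left: normals at 50 and 130 degrees. -/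
theorem side9L {s k C S c4 s4 : ℝ} (h : Non s k C S c4 s4) {x L : ℝ} (hL1 : 2 * k ≤ L)
    (hL2 : L ≤ 2) (hx : 0 ≤ 2 * c4 * x + s4 * (L / 2) - 2 * C) (hx1 : x ≤ 0.9) :
    0.8927 * (L * x) + 0.0015 ≤ 9 / 4 * (2 * S * C
      + (S + (2 * s4 * x - c4 * (L / 2)) / 2) * (2 * c4 * x + s4 * (L / 2) - 2 * C)) := by
  have b1 := h.Clo
  have b2 := h.Chi
  have b3 := h.Slo
  have b4 := h.Shi
  have b5 := h.klo
  have b6 := h.khi
  have b7 := h.s4lo
  have b8 := h.s4hi
  have b9 := h.c4lo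
  have b10 := h.c4hi
  obtain ⟨e, he⟩ : ∃ e, e = L - 2 * k := ⟨_, rfl⟩
  obtain ⟨g, hg⟩ : ∃ g, g = 2 * c4 * x + s4 * (L / 2) - 2 * C := ⟨_, rfl⟩
  rw [← hg] at hx ⊢
  have hL : L = 2 * k + e := by linarith only [he]
  have he0 : 0 ≤ e := by linarith only [he, hL1]
  have he1 : e ≤ 0.030386 := by linarith only [he, hL2, b5]
  have hC2 : 0 < 2 * c4 := by linarith only [b9]
  have i4 : 2 * c4 * x = g + 2 * C - s4 * k - s4 / 2 * e := by rw [hg, hL]; ring
  have hx2 : x ≤ 0.813507 + 0.652704 * g - 0.209774 * e := by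
    apply le_of_mul_le_mul_left _ hC2
    have i1 : 2 * c4 * (0.813507 + 0.652704 * g - 0.209774 * e) =
        2 * c4 * 0.813507 + (2 * c4 * 0.652704) * g - (2 * c4 * 0.209774) * e := by ring
    rw [i1]
    have i2 : 1 * g ≤ (2 * c4 * 0.652704) * g :=
      mul_le_mul_of_nonneg_right (by linarith only [b9]) hx
    have i3 : (2 * c4 * 0.209774) * e ≤ s4 / 2 * e :=
      mul_le_mul_of_nonneg_right (by linarith only [b10, b7]) he0
    have i5 : 0.6427874 * 0.984807752 ≤ s4 * k :=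
      mul_le_mul b7.le b5.le (by norm_num) (by linarith only [b7])
    rw [i4]
    linarith only [i2, i3, i5, b2, b9]
  have hx3 : 0.813504 + 0.652703 * g - 0.209776 * e ≤ x := by
    apply le_of_mul_le_mul_left _ hC2
    have i1 : 2 * c4 * (0.813504 + 0.652703 * g - 0.209776 * e) =
        2 * c4 * 0.813504 + (2 * c4 * 0.652703) * g - (2 * c4 * 0.209776) * e := by ring
    rw [i1]
    have i2 : (2 * c4 * 0.652703) * g ≤ 1 * g :=
      mul_le_mul_of_nonneg_right (by linarith only [b10]) hx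
    have i3 : s4 / 2 * e ≤ (2 * c4 * 0.209776) * e :=
      mul_le_mul_of_nonneg_right (by linarith only [b9, b8]) he0
    have i5 : s4 * k ≤ 0.642788 * 0.984807754 :=
      mul_le_mul b8.le b6.le (by linarith only [b5]) (by norm_num)
    rw [i4]
    linarith only [i2, i3, i5, b1, b10, b9]
  have fin := poly9L hx he0 he1
  have hx0 : 0 ≤ x := by linarith only [hx3, hx, he1]
  have hLx : L * x ≤ (1.969616 + e) * (0.813507 + 0.652704 * g - 0.209774 * e) := by
    have i1 : 0 ≤ 0.813507 + 0.652704 * g - 0.209774 * e := by linarith only [hx, he1]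
    have i2 : L * x ≤ L * (0.813507 + 0.652704 * g - 0.209774 * e) :=
      mul_le_mul_of_nonneg_left hx2 (by linarith only [hL1, b5])
    have i3 : L * (0.813507 + 0.652704 * g - 0.209774 * e) ≤
        (1.969616 + e) * (0.813507 + 0.652704 * g - 0.209774 * e) :=
      mul_le_mul_of_nonneg_right (by linarith only [hL, b6]) i1
    linarith only [i2, i3]
  have hT : 0.291411 + 0.839096 * g - 0.652708 * e ≤ 2 * s4 * x - c4 * (L / 2) := by
    have i1 : 2 * 0.6427874 * (0.813504 + 0.652703 * g - 0.209776 * e) ≤ 2 * s4 * x := by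
      have i2 : 2 * 0.6427874 * (0.813504 + 0.652703 * g - 0.209776 * e) ≤
          2 * 0.6427874 * x := mul_le_mul_of_nonneg_left hx3 (by norm_num)
      have i3 : 2 * 0.6427874 * x ≤ 2 * s4 * x :=
        mul_le_mul_of_nonneg_right (by linarith only [b7]) hx0
      linarith only [i2, i3]
    have i5 : c4 * k ≤ 0.766045 * 0.984807754 :=
      mul_le_mul b10.le b6.le (by linarith only [b5]) (by norm_num)
    have i6 : c4 / 2 * e ≤ 0.766045 / 2 * e :=
      mul_le_mul_of_nonneg_right (by linarith only [b10]) he0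
    rw [hL]
    linarith only [i1, i5, i6, hx, he0]
  have q1 : (0.34202 + (0.291411 + 0.839096 * g - 0.652708 * e) / 2) * g ≤
      (S + (2 * s4 * x - c4 * (L / 2)) / 2) * g :=
    mul_le_mul_of_nonneg_right (by linarith only [hT, b3]) hx
  have q3 : 0.642787 ≤ 2 * S * C := by rw [← h.s4e]; linarith only [b7]
  linarith only [fin, hLx, q1, q3]

end Pool.Agent.helper79.RS
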