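import Pool.Agent.helper79.RS.Sector

/-!
RS-3: normalisation: the centre of the symmetry is moved to the origin, a farthest or nearest
boundary point to `(0, 1)`.
-/

open MeasureTheory
open scoped ENNReal Pointwise

namespace Pool.Agent.helper79.RS

open Pool.Agent.helper42.PD

/-- The main inequality: for all vertical chord data, `c L (xr - xl) ≤ area K`. -/
def Ineq (c : ℝ) (K : Set Plane) : Prop :=
  ∀ L x0 y0 xr yr xl yl, Chords K L x0 y0 xr yr xl yl →
    ENNReal.ofReal (c * (L * (xr - xl))) ≤ volume K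

theorem Ineq.density {c : ℝ} {K : Set Plane} (hK : Convex ℝ K) (hc : IsCompact K)
    (hi : (interior K).Nonempty) (h : Ineq c K) : ENNReal.ofReal c ≤ packingDensity K := by
  obtain ⟨L, x0, y0, xr, yr, xl, yl, hch⟩ := exists_chords hK hc hi
  exact hch.packingDensity_ge hK hc hi le_rfl (h _ _ _ _ _ _ _ hch)

theorem mem_smul_pt {r : ℝ} (hr : 0 < r) {K : Set Plane} {x y : ℝ} :
    pt (r * x) (r * y) ∈ r • K ↔ pt x y ∈ K := by
  rw [← pt_smul]
  exact Set.smul_mem_smul_set_iff₀ hr.ne' K _

theorem mem_smul_pt' {r : ℝ} (hr : 0 < r) {K : Set Plane} {x y : ℝ} :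
    pt x y ∈ r • K ↔ pt (x / r) (y / r) ∈ K := by
  have h0 := mem_smul_pt hr (K := K) (x := x / r) (y := y / r)
  have h1 : r * (x / r) = x := by field_simp
  have h2 : r * (y / r) = y := by field_simp
  rwa [h1, h2] at h0

theorem Ineq.of_smul {c r : ℝ} (hr : 0 < r) {K : Set Plane} (h : Ineq c (r • K)) : Ineq c K := by
  intro L x0 y0 xr yr xl yl hch
  have h1 : Chords (r • K) (r * L) (r * x0) (r * y0) (r * xr) (r * yr) (r * xl) (r * yl) := by
    refine ⟨mul_pos hr hch.L_pos, (mem_smul_pt hr).mpr hch.mem0, ?_, ?_,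
      (mem_smul_pt hr).mpr hch.memr, ?_, ?_, (mem_smul_pt hr).mpr hch.meml, ?_, ?_⟩
    · rw [← mul_add]
      exact (mem_smul_pt hr).mpr hch.mem0'
    · intro x y t h1 h2
      rw [mem_smul_pt' hr] at h1 h2
      rw [add_div] at h2
      have := hch.max _ _ _ h1 h2
      rw [div_le_iff₀ hr] at this
      linarith
    · have e : r * yr + r * L / 2 = r * (yr + L / 2) := by ring
      rw [e]
      exact (mem_smul_pt hr).mpr hch.memr'
    · intro x y h1 h2
      rw [mem_smul_pt' hr] at h1 h2
      have e : (y + r * L / 2) / r = y / r + L / 2 := by field_simp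
      rw [e] at h2
      have := hch.right _ _ h1 h2
      rw [div_le_iff₀ hr] at this
      linarith
    · have e : r * yl + r * L / 2 = r * (yl + L / 2) := by ring
      rw [e]
      exact (mem_smul_pt hr).mpr hch.meml'
    · intro x y h1 h2
      rw [mem_smul_pt' hr] at h1 h2
      have e : (y + r * L / 2) / r = y / r + L / 2 := by field_simp
      rw [e] at h2
      have := hch.left _ _ h1 h2
      rw [le_div_iff₀ hr] at this
      linarith
  have h2 := h _ _ _ _ _ _ _ h1
  rw [Measure.addHaar_smul] at h2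
  have hfr : Module.finrank ℝ Plane = 2 := by simp
  rw [hfr, abs_of_pos (by positivity)] at h2
  have e : c * (r * L * (r * xr - r * xl)) = r ^ 2 * (c * (L * (xr - xl))) := by ring
  rw [e, ENNReal.ofReal_mul (by positivity)] at h2
  have hr2 : ENNReal.ofReal (r ^ 2) ≠ 0 := (ENNReal.ofReal_pos.mpr (by positivity)).ne'
  exact (ENNReal.mul_le_mul_iff_right hr2 ENNReal.ofReal_ne_top).mp h2

theorem isCopy_image {K S : Set Plane} (g : Plane ≃ᵢ Plane) : IsCopy (g '' K) S ↔ IsCopy K S := by
  constructor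
  · rintro ⟨h, rfl⟩
    refine ⟨g.trans h, ?_⟩
    rw [Set.image_image]
    rfl
  · rintro ⟨h, rfl⟩
    refine ⟨g.symm.trans h, ?_⟩
    rw [Set.image_image]
    apply Set.image_congr
    intro x _
    simp

theorem packingDensity_image {K : Set Plane} (g : Plane ≃ᵢ Plane) :
    packingDensity (g '' K) = packingDensity K := by
  unfold packingDensity
  have : ∀ P, IsPacking (g '' K) P ↔ IsPacking K P := by
    intro P
    unfold IsPacking
    simp only [isCopy_image]
  simp only [this]

/-- `K` is invariant under the rotation by `2 π / n` about some point. -/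
def HasRot (n : ℕ) (K : Set Plane) : Prop :=
  ∃ c : Plane, ∀ z ∈ K, c + rot (2 * Real.pi / n) (z - c) ∈ K

theorem rot_add (θ : ℝ) (u w : Plane) : rot θ (u + w) = rot θ u + rot θ w :=
  (rotIso θ).map_add u w

theorem rot_smul (θ t : ℝ) (u : Plane) : rot θ (t • u) = t • rot θ u :=
  (rotIso θ).map_smul t u

theorem rot_eq_self {θ : ℝ} (h : Real.cos θ < 1) {z : Plane} (hz : rot θ z = z) : z = 0 := by
  have h0 : Real.cos θ * z 0 - Real.sin θ * z 1 = z 0 := congrArg (fun w : Plane => w 0) hz
  have h1 : Real.sin θ * z 0 + Real.cos θ * z 1 = z 1 := congrArg (fun w : Plane => w 1) hz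
  have h2 := Real.sin_sq_add_cos_sq θ
  have h3 : (2 - 2 * Real.cos θ) * z 0 = 0 := by
    linear_combination (Real.cos θ - 1) * h0 + Real.sin θ * h1 - z 0 * h2
  have h4 : (2 - 2 * Real.cos θ) * z 1 = 0 := by
    linear_combination (Real.cos θ - 1) * h1 - Real.sin θ * h0 - z 1 * h2
  have h5 : 2 - 2 * Real.cos θ ≠ 0 := by
    have : 0 < 2 - 2 * Real.cos θ := by linarith
    exact this.ne'
  apply plane_ext
  · simpa using (mul_eq_zero.mp h3).resolve_left h5
  · simpa using (mul_eq_zero.mp h4).resolve_left h5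

theorem sum_rot_eq_zero {n : ℕ} (hn : 3 ≤ n) (z : Plane) :
    ∑ j ∈ Finset.range n, rot (2 * Real.pi / n * j) z = 0 := by
  have hn' : (0 : ℝ) < n := by
    have : 0 < n := by omega
    exact_mod_cast this
  set ψ : ℝ := 2 * Real.pi / n with hψ
  have hψn : ψ * n = 2 * Real.pi := by rw [hψ]; field_simp
  have hpi := Real.pi_pos
  have hψ0 : 0 < ψ := by positivity
  have hn3 : (3 : ℝ) ≤ n := by exact_mod_cast hn
  have hψ1 : ψ ≤ Real.pi := by nlinarith
  apply rot_eq_self (θ := ψ)
  · rw [← Real.cos_zero]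
    exact Real.cos_lt_cos_of_nonneg_of_le_pi le_rfl hψ1 hψ0
  · have h1 : rot ψ (∑ j ∈ Finset.range n, rot (ψ * j) z) =
        ∑ j ∈ Finset.range n, rot (ψ * (j + 1 : ℕ)) z := by
      rw [← rotIso_apply, map_sum]
      apply Finset.sum_congr rfl
      intro j _
      rw [rotIso_apply, rot_rot]
      congr 1
      push_cast
      ring
    rw [h1]
    have h2 := Finset.sum_range_succ' (fun j : ℕ => rot (ψ * j) z) n
    have h3 := Finset.sum_range_succ (fun j : ℕ => rot (ψ * j) z) n
    rw [h3] at h2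
    have h4 : rot (ψ * n) z = rot (ψ * (0 : ℕ)) z := by
      rw [hψn]
      have := rot_two_pi_mul 1 0 z
      simpa using this
    rw [h4] at h2
    exact (add_right_cancel h2).symm

/-- The centre of the symmetry is an interior point. -/
theorem zero_mem_interior {n : ℕ} (hn : 3 ≤ n) {K : Set Plane} (hK : Convex ℝ K)
    (hi : (interior K).Nonempty) (hsym : SymK n K) : (0 : Plane) ∈ interior K := by
  obtain ⟨z, hz⟩ := hi
  have hn' : (0 : ℝ) < n := by
    have : 0 < n := by omega
    exact_mod_cast this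
  have h1 := hK.interior.sum_mem (t := Finset.range n) (w := fun _ => (1 / n : ℝ))
    (z := fun j => rot (2 * Real.pi / n * j) z) (fun i _ => by positivity)
    (by simp only [Finset.sum_const, Finset.card_range, nsmul_eq_mul]; field_simp)
    (fun j _ => by
      have := hsym.interior_mem (by omega) (j : ℤ) hz
      simpa using this)
  rw [← Finset.smul_sum, sum_rot_eq_zero hn, smul_zero] at h1
  exact h1

theorem exists_angle {a b : ℝ} (h : a ^ 2 + b ^ 2 = 1) : ∃ θ, Real.cos θ = a ∧ Real.sin θ = b := by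
  have hn : ‖(⟨a, b⟩ : ℂ)‖ = 1 := by
    rw [Complex.norm_def, Complex.normSq_mk]
    have : a * a + b * b = 1 := by nlinarith
    rw [this, Real.sqrt_one]
  have hne : (⟨a, b⟩ : ℂ) ≠ 0 := by
    intro h0
    rw [h0] at hn
    simp at hn
  refine ⟨Complex.arg ⟨a, b⟩, ?_, ?_⟩
  · rw [Complex.cos_arg hne, hn, div_one]
  · rw [Complex.sin_arg, hn, div_one]

theorem exists_rot {v : Plane} (hv : v ≠ 0) : ∃ θ, rot θ v = pt 0 ‖v‖ := by
  have hpos : 0 < ‖v‖ := norm_pos_iff.mpr hv
  have hsq := norm_sq_plane v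
  obtain ⟨θ, h1, h2⟩ := exists_angle (a := v 1 / ‖v‖) (b := v 0 / ‖v‖) (by
    field_simp
    linarith)
  refine ⟨θ, ?_⟩
  rw [rot, h1, h2]
  congr 1
  · field_simp
    ring
  · field_simp
    linarith

theorem SymK.image_rot {n : ℕ} {K : Set Plane} (h : SymK n K) (θ : ℝ) : SymK n (rot θ '' K) := by
  rintro _ ⟨z, hz, rfl⟩
  refine ⟨rot (2 * Real.pi / n) z, h z hz, ?_⟩
  rw [rot_rot, rot_rot, add_comm]

theorem SymK.smul {n : ℕ} {K : Set Plane} (h : SymK n K) (r : ℝ) : SymK n (r • K) := by
  rintro _ ⟨z, hz, rfl⟩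
  exact ⟨rot (2 * Real.pi / n) z, h z hz, (rot_smul _ _ _).symm⟩

theorem SymK.dvd {n d : ℕ} (hn : n ≠ 0) (hd : d ∣ n) {K : Set Plane} (h : SymK n K) :
    SymK d K := by
  obtain ⟨e, rfl⟩ := hd
  intro z hz
  have h1 := h.nat e hz
  have hd0 : (d : ℝ) ≠ 0 := by
    have : d ≠ 0 := by rintro rfl; simp at hn
    exact_mod_cast this
  have he0 : (e : ℝ) ≠ 0 := by
    have : e ≠ 0 := by rintro rfl; simp at hn
    exact_mod_cast this
  have e1 : 2 * Real.pi / ((d * e : ℕ) : ℝ) * e = 2 * Real.pi / d := by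
    push_cast
    field_simp
  rwa [e1] at h1

theorem interior_smul_nonempty {r : ℝ} (hr : r ≠ 0) {K : Set Plane} (h : (interior K).Nonempty) :
    (interior (r • K)).Nonempty := by
  rw [interior_smul₀ hr]
  exact h.smul_set

theorem interior_rot (θ : ℝ) (K : Set Plane) : interior (rot θ '' K) = rot θ '' interior K :=
  ((rotIso θ).toHomeomorph.image_interior K).symm

/-- Reduction to bodies with centre of symmetry the origin. -/
theorem reduce {n : ℕ} (hn : 3 ≤ n) {c : ℝ}
    (H : ∀ K : Set Plane, Convex ℝ K → IsCompact K → (0 : Plane) ∈ interior K → SymK n K →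
      ENNReal.ofReal c ≤ packingDensity K)
    {K : Set Plane} (hK : Convex ℝ K) (hc : IsCompact K) (hi : (interior K).Nonempty)
    (hrot : HasRot n K) : ENNReal.ofReal c ≤ packingDensity K := by
  obtain ⟨o, ho⟩ := hrot
  set g : Plane ≃ᵢ Plane := IsometryEquiv.addLeft (-o) with hg
  have hgapp : ∀ z, g z = -o + z := fun z => rfl
  have h1 : Convex ℝ (g '' K) := hK.translate (-o)
  have h2 : IsCompact (g '' K) := hc.image g.continuous
  have h3 : (interior (g '' K)).Nonempty := by
    have : interior (g '' K) = g '' interior K := (g.toHomeomorph.image_interior K).symm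
    rw [this]
    exact hi.image _
  have h4 : SymK n (g '' K) := by
    rintro _ ⟨z, hz, rfl⟩
    refine ⟨o + rot (2 * Real.pi / n) (z - o), ho z hz, ?_⟩
    rw [hgapp, hgapp]
    have e : -o + z = z - o := by abel
    rw [e]
    abel
  rw [← packingDensity_image g]
  exact H _ h1 h2 (zero_mem_interior hn h1 h3 h4) h4

/-- Normalisation by a farthest point. -/
theorem far {n : ℕ} {c : ℝ}
    (H : ∀ K : Set Plane, Convex ℝ K → IsCompact K → (0 : Plane) ∈ interior K → SymK n K →
      (∀ z ∈ K, ‖z‖ ≤ 1) → pt 0 1 ∈ K → Ineq c K)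
    {K : Set Plane} (hK : Convex ℝ K) (hc : IsCompact K) (h0 : (0 : Plane) ∈ interior K)
    (hsym : SymK n K) : ENNReal.ofReal c ≤ packingDensity K := by
  obtain ⟨v, hv, hmax⟩ := hc.exists_isMaxOn (f := fun z => ‖z‖) ⟨0, interior_subset h0⟩
    continuous_norm.continuousOn
  have hv0 : v ≠ 0 := by
    rintro rfl
    have h1 : K ⊆ {0} := by
      intro z hz
      have h2 := hmax hz
      simp only [Set.mem_setOf_eq, norm_zero] at h2
      exact norm_le_zero_iff.mp h2
    have h3 : (0 : Plane) ∈ interior ({0} : Set Plane) := interior_mono h1 h0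
    rw [interior_singleton] at h3
    exact h3
  have hR : 0 < ‖v‖ := norm_pos_iff.mpr hv0
  obtain ⟨θ, hθ⟩ := exists_rot hv0
  set K2 : Set Plane := rot θ '' K with hK2
  have hconv : Convex ℝ K2 := hK.linear_image (rotIso θ).toLinearEquiv.toLinearMap
  have hcomp : IsCompact K2 := hc.image (rotIso θ).continuous
  have h02 : (0 : Plane) ∈ interior K2 := by
    rw [hK2, interior_rot]
    refine ⟨0, h0, ?_⟩
    rw [← rotIso_apply, map_zero]
  have hr : 0 < ‖v‖⁻¹ := inv_pos.mpr hR
  have hineq : Ineq c (‖v‖⁻¹ • K2) := by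
    apply H
    · exact hconv.smul _
    · exact hcomp.smul _
    · rw [interior_smul₀ hr.ne']
      exact ⟨0, h02, smul_zero _⟩
    · exact (hsym.image_rot θ).smul _
    · rintro _ ⟨_, ⟨z, hz, rfl⟩, rfl⟩
      have h1 : ‖z‖ ≤ ‖v‖ := hmax hz
      change ‖‖v‖⁻¹ • rot θ z‖ ≤ 1
      rw [norm_smul, norm_rot, Real.norm_of_nonneg hr.le, inv_mul_le_iff₀ hR, mul_one]
      exact h1
    · refine ⟨rot θ v, ⟨v, hv, rfl⟩, ?_⟩
      change ‖v‖⁻¹ • rot θ v = pt 0 1
      rw [hθ, pt_smul, mul_zero, inv_mul_cancel₀ hR.ne']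
  have h1 := (Ineq.of_smul hr hineq).density hconv hcomp ⟨0, h02⟩
  have h2 : packingDensity K2 = packingDensity K := packingDensity_image (rotIso θ).toIsometryEquiv
  rwa [h2] at h1

/-- Normalisation by a nearest boundary point. -/
theorem near {n : ℕ} {c : ℝ}
    (H : ∀ K : Set Plane, Convex ℝ K → IsCompact K → (0 : Plane) ∈ interior K → SymK n K →
      (∀ z : Plane, ‖z‖ ≤ 1 → z ∈ K) → pt 0 1 ∉ interior K → Ineq c K)
    {K : Set Plane} (hK : Convex ℝ K) (hc : IsCompact K) (h0 : (0 : Plane) ∈ interior K)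
    (hsym : SymK n K) : ENNReal.ofReal c ≤ packingDensity K := by
  have hKcl : IsClosed K := hc.isClosed
  have hfc : IsCompact (frontier K) := hc.of_isClosed_subset isClosed_frontier
    (by rw [hKcl.frontier_eq]; exact Set.diff_subset)
  have hne : K ≠ Set.univ := by
    intro h1
    have h2 : IsCompact (Set.univ : Set Plane) := h1 ▸ hc
    exact noncompact_univ Plane h2
  have hfn : (frontier K).Nonempty := by
    rw [nonempty_frontier_iff]
    exact ⟨⟨0, interior_subset h0⟩, hne⟩
  obtain ⟨v, hv, hmin⟩ := hfc.exists_isMinOn (f := fun z => ‖z‖) hfn continuous_norm.continuousOn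
  have hvK : v ∈ K := by
    rw [hKcl.frontier_eq] at hv
    exact hv.1
  have hvi : v ∉ interior K := by
    rw [hKcl.frontier_eq] at hv
    exact hv.2
  have hv0 : v ≠ 0 := by
    rintro rfl
    exact hvi h0
  have hR : 0 < ‖v‖ := norm_pos_iff.mpr hv0
  -- the ball is in `K`
  have hball : ∀ z : Plane, ‖z‖ < ‖v‖ → z ∈ K := by
    intro z hz
    by_contra hzK
    -- the segment from 0 to z meets the frontier
    have hseg : ∃ w ∈ segment ℝ (0 : Plane) z, w ∈ frontier K := by
      by_contra hcon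
      push Not at hcon
      have hpre : IsPreconnected (segment ℝ (0 : Plane) z) := (convex_segment 0 z).isPreconnected
      have hsub : segment ℝ (0 : Plane) z ⊆ interior K ∪ Kᶜ := by
        intro w hw
        by_cases hwK : w ∈ K
        · left
          by_contra hwi
          exact hcon w hw (by rw [hKcl.frontier_eq]; exact ⟨hwK, hwi⟩)
        · exact Or.inr hwK
      obtain ⟨w, _, hw1, hw2⟩ := hpre (interior K) Kᶜ isOpen_interior hKcl.isOpen_compl hsub
        ⟨0, left_mem_segment ℝ 0 z, h0⟩ ⟨z, right_mem_segment ℝ 0 z, hzK⟩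
      exact hw2 (interior_subset hw1)
    obtain ⟨w, hw, hwf⟩ := hseg
    have h1 : ‖v‖ ≤ ‖w‖ := hmin hwf
    rw [segment_eq_image] at hw
    obtain ⟨t, ⟨ht0, ht1⟩, rfl⟩ := hw
    simp only [smul_zero, zero_add, norm_smul, Real.norm_of_nonneg ht0] at h1
    have h2 : t * ‖z‖ ≤ ‖z‖ := mul_le_of_le_one_left (norm_nonneg _) ht1
    linarith
  have hball' : ∀ z : Plane, ‖z‖ ≤ ‖v‖ → z ∈ K := by
    intro z hz
    have h1 : Metric.closedBall (0 : Plane) ‖v‖ ⊆ K := by
      rw [← closure_ball (0 : Plane) hR.ne']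
      apply closure_minimal _ hKcl
      intro w hw
      exact hball w (by simpa using hw)
    exact h1 (by simpa using hz)
  obtain ⟨θ, hθ⟩ := exists_rot hv0
  set K2 : Set Plane := rot θ '' K with hK2
  have hconv : Convex ℝ K2 := hK.linear_image (rotIso θ).toLinearEquiv.toLinearMap
  have hcomp : IsCompact K2 := hc.image (rotIso θ).continuous
  have h02 : (0 : Plane) ∈ interior K2 := by
    rw [hK2, interior_rot]
    refine ⟨0, h0, ?_⟩
    rw [← rotIso_apply, map_zero]
  have hr : 0 < ‖v‖⁻¹ := inv_pos.mpr hR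
  have hineq : Ineq c (‖v‖⁻¹ • K2) := by
    apply H
    · exact hconv.smul _
    · exact hcomp.smul _
    · rw [interior_smul₀ hr.ne']
      exact ⟨0, h02, smul_zero _⟩
    · exact (hsym.image_rot θ).smul _
    · intro z hz
      refine ⟨‖v‖ • z, ⟨rot (-θ) (‖v‖ • z), hball' _ ?_, ?_⟩, ?_⟩
      · rw [norm_rot, norm_smul, norm_norm]
        exact mul_le_of_le_one_right hR.le hz
      · rw [rot_rot, add_neg_cancel, rot_zero]
      · change ‖v‖⁻¹ • ‖v‖ • z = z
        rw [smul_smul, inv_mul_cancel₀ hR.ne', one_smul]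
    · rw [interior_smul₀ hr.ne', hK2, interior_rot]
      rintro ⟨_, ⟨z, hz, rfl⟩, h1⟩
      have h2 : rot θ z = rot θ v := by
        rw [hθ]
        have h3 : ‖v‖ • (‖v‖⁻¹ • rot θ z) = ‖v‖ • pt 0 1 := by
          rw [← h1]
        rw [smul_smul, mul_inv_cancel₀ hR.ne', one_smul, pt_smul, mul_zero, mul_one] at h3
        exact h3
      have h3 : z = v := (rotIso θ).injective h2
      exact hvi (h3 ▸ hz)
  have h1 := (Ineq.of_smul hr hineq).density hconv hcomp ⟨0, h02⟩
  have h2 : packingDensity K2 = packingDensity K := packingDensity_image (rotIso θ).toIsometryEquiv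
  rwa [h2] at h1

/-- The support line at the nearest point. -/
theorem support_near {K : Set Plane} (hK : Convex ℝ K) (h0 : (0 : Plane) ∈ interior K)
    (hball : ∀ z : Plane, ‖z‖ ≤ 1 → z ∈ K) {v : Plane} (hv : ‖v‖ = 1) (hvi : v ∉ interior K) :
    ∀ z ∈ K, z 0 * v 0 + z 1 * v 1 ≤ 1 := by
  obtain ⟨f, hf⟩ := geometric_hahn_banach_open_point hK.interior isOpen_interior hvi
  have hcl : ∀ z ∈ K, f z ≤ f v := by
    intro z hz
    have h1 : z ∈ closure (interior K) := by
      rw [hK.closure_interior_eq_closure_of_nonempty_interior ⟨0, h0⟩]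
      exact subset_closure hz
    have h2 : closure (interior K) ⊆ {z | f z ≤ f v} :=
      closure_minimal (fun w hw => (hf w hw).le) (isClosed_le f.continuous continuous_const)
    exact h2 h1
  -- coordinates of `f`
  set a := f (pt 1 0) with ha
  set b := f (pt 0 1) with hb
  have hfz : ∀ z : Plane, f z = a * z 0 + b * z 1 := by
    intro z
    have e : z = z 0 • pt 1 0 + z 1 • pt 0 1 := by
      rw [pt_smul, pt_smul, pt_add]
      simp only [mul_one, mul_zero, add_zero, zero_add]
      exact (pt_eta z).symm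
    conv_lhs => rw [e]
    rw [map_add, map_smul, map_smul, smul_eq_mul, smul_eq_mul]
    ring
  have hv2 : v 0 ^ 2 + v 1 ^ 2 = 1 := by rw [← norm_sq_plane, hv, one_pow]
  have hfv : 0 < f v := by
    have := hf 0 h0
    rwa [map_zero] at this
  set m := Real.sqrt (a ^ 2 + b ^ 2) with hm
  have hm2 : m ^ 2 = a ^ 2 + b ^ 2 := Real.sq_sqrt (by positivity)
  have hm0 : 0 < m := by
    rw [hm, Real.sqrt_pos]
    by_contra hcon
    push Not at hcon
    have ha0 : a = 0 := by nlinarith [sq_nonneg a, sq_nonneg b]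
    have hb0 : b = 0 := by nlinarith [sq_nonneg a, sq_nonneg b]
    rw [hfz, ha0, hb0] at hfv
    simp at hfv
  have h1 : m ≤ f v := by
    have hmem : pt (a / m) (b / m) ∈ K := by
      apply hball
      have : ‖pt (a / m) (b / m)‖ ^ 2 = 1 := by
        rw [norm_sq_plane, pt_zero, pt_one]
        field_simp
        linarith
      nlinarith [norm_nonneg (pt (a / m) (b / m))]
    have h2 := hcl _ hmem
    rw [hfz (pt (a / m) (b / m)), pt_zero, pt_one] at h2
    have h3 : a * (a / m) + b * (b / m) = m := by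
      field_simp
      linarith
    linarith
  rw [hfz] at h1
  -- equality in Cauchy-Schwarz
  have h2 : a = m * v 0 ∧ b = m * v 1 := by
    have h3 : (a - m * v 0) ^ 2 + (b - m * v 1) ^ 2 ≤ 0 := by
      nlinarith
    constructor
    · nlinarith [sq_nonneg (a - m * v 0), sq_nonneg (b - m * v 1)]
    · nlinarith [sq_nonneg (a - m * v 0), sq_nonneg (b - m * v 1)]
  intro z hz
  have h3 := hcl z hz
  rw [hfz, hfz, h2.1, h2.2] at h3
  have h4 : m * (z 0 * v 0 + z 1 * v 1) ≤ m * 1 := by nlinarith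
  exact le_of_mul_le_mul_left h4 hm0

end Pool.Agent.helper79.RS
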