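import Pool.Agent.helper79.RS.FarA

/-!
RS-17: the numbers of the regular pentagon.
-/

namespace Pool.Agent.helper79.RS

/-- The numbers of the regular pentagon: cosines and sines of 36 and 72 degrees. -/
structure Pen (C S c2 s2 : ℝ) : Prop where
  min : 4 * C ^ 2 = 2 * C + 1
  c2e : c2 = C - 1 / 2
  sq : S ^ 2 = 1 - C ^ 2
  s2e : s2 = 2 * S * C
  Clo : 0.80901699435 < C
  Chi : C < 0.8090169944
  Slo : 0.5877852522 < S
  Shi : S < 0.5877852524

theorem pen : Pen (Real.cos (Real.pi / 5)) (Real.sin (Real.pi / 5))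
    (Real.cos (2 * (Real.pi / 5))) (Real.sin (2 * (Real.pi / 5))) := by
  have hpi := Real.pi_pos
  have h5a : (2.2360679774 : ℝ) < Real.sqrt 5 := by
    rw [Real.lt_sqrt (by norm_num)]; norm_num
  have h5b : Real.sqrt 5 < 2.2360679776 := by
    rw [Real.sqrt_lt' (by norm_num)]; norm_num
  have h5 : Real.sqrt 5 ^ 2 = 5 := Real.sq_sqrt (by norm_num)
  have hC := Real.cos_pi_div_five
  set C := Real.cos (Real.pi / 5) with hCd
  set S := Real.sin (Real.pi / 5) with hSd
  have hsq : S ^ 2 = 1 - C ^ 2 := by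
    have := Real.sin_sq_add_cos_sq (Real.pi / 5)
    linarith
  have hmin : 4 * C ^ 2 = 2 * C + 1 := by
    rw [hC]
    nlinarith only [h5]
  have hClo : 0.80901699435 < C := by rw [hC]; linarith
  have hChi : C < 0.8090169944 := by rw [hC]; linarith
  have hS0 : 0 < S := Real.sin_pos_of_pos_of_lt_pi (by positivity) (by linarith)
  refine ⟨hmin, ?_, hsq, Real.sin_two_mul _, hClo, hChi, ?_, ?_⟩
  · rw [Real.cos_two_mul]
    linarith only [hmin]
  · nlinarith only [hsq, hmin, hChi, hS0]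
  · nlinarith only [hsq, hmin, hClo, hS0]

namespace Pen

variable {C S c2 s2 : ℝ} (h : Pen C S c2 s2)

include h

theorem C_pos : 0 < C := by linarith [h.Clo]
theorem S_pos : 0 < S := by linarith [h.Slo]
theorem c2lo : 0.30901699435 < c2 := by rw [h.c2e]; linarith [h.Clo]
theorem c2hi : c2 < 0.3090169944 := by rw [h.c2e]; linarith [h.Chi]
theorem s2lo : 0.951056516 < s2 := by
  rw [h.s2e]
  nlinarith only [mul_pos (sub_pos.mpr h.Slo) (sub_pos.mpr h.Clo), h.Slo, h.Clo]
theorem s2hi : s2 < 0.951056517 := by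
  rw [h.s2e]
  nlinarith only [mul_pos (sub_pos.mpr h.Shi) (sub_pos.mpr h.Clo), h.Shi, h.Chi, h.Slo]
/-- `C c2 = 1 / 4`. -/
theorem Cc2 : C * c2 = 1 / 4 := by
  rw [h.c2e]
  linear_combination (1 / 4) * h.min
theorem Ss2 : S * s2 = 1 / 4 + c2 := by
  rw [h.s2e, h.c2e]
  linear_combination (2 * C) * h.sq - (C / 2 + 1 / 4) * h.min
theorem sum3 : S * c2 + C * s2 = s2 := by
  rw [h.s2e, h.c2e]
  linear_combination (S / 2) * h.min
theorem sq2 : s2 ^ 2 + c2 ^ 2 = 1 := by
  rw [h.s2e, h.c2e]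
  linear_combination (4 * C ^ 2) * h.sq - (C ^ 2 + C / 2 - 3 / 4) * h.min
theorem CS' : C ^ 2 - S ^ 2 = c2 := by
  rw [h.c2e]
  linear_combination (-1) * h.sq + (1 / 2) * h.min

end Pen

end Pool.Agent.helper79.RS
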