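import Mathlib.Tactic

/-!
RS-6: the polynomial inequality for the seven-fold symmetry.
-/

namespace Pool.Agent.helper79.RS

theorem poly7 {p q s e : ℝ} (hp : 0 ≤ p) (hq : 0 ≤ q) (hs : 0 ≤ s) (he : 0 ≤ e)
    (hA : 0 ≤ 0.758 * q - 0.5972 * p + 1.595 * (p * q) - 1.279 * q ^ 2 - 1.279 * p ^ 2
      + 0.3988 * ((s + e) * q) + 0.1424 * ((s + e) * p))
    (hB : 0 ≤ 0.3242 * q - 0.1633 * p - 0.1607 * s + 1.595 * (p * q) - 1.279 * q ^ 2
      - 1.279 * p ^ 2 + 0.3988 * ((s + e) * q) + 0.1424 * ((s + e) * p) + 0.4816 * (s * p)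
      + 0.4816 * (s * q) - 0.541 * ((s + e) * s))
    (hC : 0 ≤ 0.5973 * s - 0.4338 * q + 1.2791 * (p * s) - 0.7974 * (q * s)
      - 0.1423 * ((s + e) * s))
    (hD : 0 ≤ 0.2706 * p - 0.1097 * q + 1.595 * (p * q) - 1.279 * q ^ 2
      - 1.279 * p ^ 2 + 0.3988 * ((s + e) * q) + 0.1424 * ((s + e) * p))
    (hE : e ≤ 2.656 * s ^ 2)
    (hP : 0 ≤ 0.0427 - 1.2043 * p + 0.4145 * q - 0.1291 * (s + e))
    (hQ : 0 ≤ 0.0847 - 0.8594 * q - 0.2046 * p + 0.0228 * (s + e))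
    (_hS : s ≤ 0.09904) (hL : s + e ≤ 0.09904) :
    0 ≤ 0.5697 * s - 0.5692 * (s + e) + 0.6513 * q - 0.4065 * p + 4.4766 * (p * s)
      - 2.7912 * (q * s) - 0.4981 * ((s + e) * s) - 4.4767 * p ^ 2 - 4.4767 * q ^ 2
      + 5.5823 * (p * q) + 1.1414 * ((s + e) * q) - 0.2139 * ((s + e) * p)
      + 0.0792 * (s + e) ^ 2 := by
  have hE' := sub_nonneg.mpr hE
  have hL' := sub_nonneg.mpr hL
  linarith only [hp, hq, hs, he, hB, hE', mul_nonneg hA he, mul_nonneg hA hL', mul_nonneg hB hp,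
    mul_nonneg hB hQ, mul_nonneg hB hL', mul_nonneg hC hp, mul_nonneg hC hL', mul_nonneg hD hq,
    mul_nonneg hD hs, mul_nonneg hD hP, mul_nonneg hE' hp, mul_nonneg hE' he, mul_nonneg hE' hQ,
    mul_nonneg hE' hL', mul_nonneg (mul_nonneg hp hp) hP, mul_nonneg (mul_nonneg hp hs) he,
    mul_nonneg (mul_nonneg hp hs) hP, mul_nonneg (mul_nonneg hp he) he,
    mul_nonneg (mul_nonneg hp he) hP, mul_nonneg (mul_nonneg hq hq) hQ,
    mul_nonneg (mul_nonneg hq hs) hs, mul_nonneg (mul_nonneg hq he) he,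
    mul_nonneg (mul_nonneg hq he) hP, mul_nonneg (mul_nonneg hq he) hQ,
    mul_nonneg (mul_nonneg hq he) hL', mul_nonneg (mul_nonneg hp hP) hQ,
    mul_nonneg (mul_nonneg hp hP) hL', mul_nonneg (mul_nonneg hq hP) hQ,
    mul_nonneg (mul_nonneg hq hP) hL', mul_nonneg (mul_nonneg hs hs) hs,
    mul_nonneg (mul_nonneg hs he) he, mul_nonneg (mul_nonneg hs he) hL',
    mul_nonneg (mul_nonneg hs hP) hQ, mul_nonneg (mul_nonneg hs hP) hL']

end Pool.Agent.helper79.RS
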