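import Pool.Agent.helper79.RS.GDL
import Pool.Agent.helper42.PD.Area

/-!
RS-2: rotations and the lower bound for the area of a convex body with rotational symmetry by a
star-shaped polygon.
-/

open MeasureTheory
open scoped ENNReal

namespace Pool.Agent.helper79.RS

open Pool.Agent.helper42.PD

/-- Rotation by the angle `θ` (counterclockwise) about the origin. -/
noncomputable def rot (θ : ℝ) (z : Plane) : Plane :=
  pt (Real.cos θ * z 0 - Real.sin θ * z 1) (Real.sin θ * z 0 + Real.cos θ * z 1)

@[simp] theorem rot_zero' (θ : ℝ) (z : Plane) :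
    rot θ z 0 = Real.cos θ * z 0 - Real.sin θ * z 1 := rfl

@[simp] theorem rot_one' (θ : ℝ) (z : Plane) :
    rot θ z 1 = Real.sin θ * z 0 + Real.cos θ * z 1 := rfl

theorem plane_ext {z w : Plane} (h0 : z 0 = w 0) (h1 : z 1 = w 1) : z = w := by
  ext i
  fin_cases i
  · exact h0
  · exact h1

theorem rot_pt (θ x y : ℝ) : rot θ (pt x y) =
    pt (Real.cos θ * x - Real.sin θ * y) (Real.sin θ * x + Real.cos θ * y) := rfl

theorem rot_rot (a b : ℝ) (z : Plane) : rot a (rot b z) = rot (a + b) z := by
  apply plane_ext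
  · simp only [rot_zero', rot_one', Real.cos_add, Real.sin_add]; ring
  · simp only [rot_zero', rot_one', Real.cos_add, Real.sin_add]; ring

theorem rot_zero (z : Plane) : rot 0 z = z := by
  apply plane_ext <;> simp

theorem rot_two_pi_mul (k : ℤ) (θ : ℝ) (z : Plane) :
    rot (θ + k * (2 * Real.pi)) z = rot θ z := by
  apply plane_ext
  · simp only [rot_zero', Real.cos_add_int_mul_two_pi, Real.sin_add_int_mul_two_pi]
  · simp only [rot_one', Real.cos_add_int_mul_two_pi, Real.sin_add_int_mul_two_pi]

theorem norm_sq_plane (z : Plane) : ‖z‖ ^ 2 = z 0 ^ 2 + z 1 ^ 2 := by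
  rw [EuclideanSpace.norm_eq, Real.sq_sqrt (by positivity), Fin.sum_univ_two]
  simp

theorem norm_rot (θ : ℝ) (z : Plane) : ‖rot θ z‖ = ‖z‖ := by
  have h : ‖rot θ z‖ ^ 2 = ‖z‖ ^ 2 := by
    rw [norm_sq_plane, norm_sq_plane]
    simp only [rot_zero', rot_one']
    have := Real.sin_sq_add_cos_sq θ
    linear_combination (z 0 ^ 2 + z 1 ^ 2) * this
  exact (sq_eq_sq₀ (norm_nonneg _) (norm_nonneg _)).mp h

/-- Rotation as a linear isometry equivalence. -/
noncomputable def rotIso (θ : ℝ) : Plane ≃ₗᵢ[ℝ] Plane where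
  toFun := rot θ
  invFun := rot (-θ)
  map_add' u w := by
    apply plane_ext
    · simp only [rot_zero', PiLp.add_apply]; ring
    · simp only [rot_one', PiLp.add_apply]; ring
  map_smul' t u := by
    apply plane_ext
    · simp only [rot_zero', PiLp.smul_apply, smul_eq_mul, RingHom.id_apply]; ring
    · simp only [rot_one', PiLp.smul_apply, smul_eq_mul, RingHom.id_apply]; ring
  left_inv z := by rw [rot_rot, neg_add_cancel, rot_zero]
  right_inv z := by rw [rot_rot, add_neg_cancel, rot_zero]
  norm_map' z := norm_rot θ z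

theorem rotIso_apply (θ : ℝ) (z : Plane) : rotIso θ z = rot θ z := rfl

theorem det2_rot (θ : ℝ) (u w : Plane) : det2 (rot θ u) (rot θ w) = det2 u w := by
  simp only [det2, rot_zero', rot_one']
  have := Real.sin_sq_add_cos_sq θ
  linear_combination (u 0 * w 1 - u 1 * w 0) * this

theorem volume_rot (θ : ℝ) (S : Set Plane) : volume (rot θ '' S) = volume S := by
  have h1 : rot θ '' S = (rotIso θ).symm ⁻¹' S := by
    ext z
    constructor
    · rintro ⟨w, hw, rfl⟩
      have : (rotIso θ).symm (rot θ w) = w := (rotIso θ).symm_apply_apply w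
      simpa [this] using hw
    · intro hz
      exact ⟨(rotIso θ).symm z, hz, (rotIso θ).apply_symm_apply z⟩
  rw [h1]
  exact (rotIso θ).symm.measurePreserving.measure_preimage_emb
    (rotIso θ).symm.toHomeomorph.measurableEmbedding S

/-- `K` is mapped into itself by the rotation by `2 π / n` about the origin. -/
def SymK (n : ℕ) (K : Set Plane) : Prop := ∀ z ∈ K, rot (2 * Real.pi / n) z ∈ K

theorem SymK.nat {n : ℕ} {K : Set Plane} (h : SymK n K) (j : ℕ) {z : Plane} (hz : z ∈ K) :
    rot (2 * Real.pi / n * j) z ∈ K := by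
  induction j with
  | zero => simpa [rot_zero] using hz
  | succ j ih =>
    have := h _ ih
    rw [rot_rot] at this
    convert this using 2
    push_cast
    ring

theorem SymK.int {n : ℕ} (hn : n ≠ 0) {K : Set Plane} (h : SymK n K) (j : ℤ) {z : Plane}
    (hz : z ∈ K) : rot (2 * Real.pi / n * j) z ∈ K := by
  have hn' : (n : ℝ) ≠ 0 := by exact_mod_cast hn
  have h1 := h.nat (j % n).toNat hz
  have h2 : 0 ≤ j % n := Int.emod_nonneg _ (by exact_mod_cast hn)
  have h3 : (((j % n).toNat : ℕ) : ℝ) = ((j % n : ℤ) : ℝ) := by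
    have : (((j % n).toNat : ℕ) : ℤ) = j % n := Int.toNat_of_nonneg h2
    exact_mod_cast this
  rw [h3] at h1
  have h4 : (j : ℝ) = ((j % n : ℤ) : ℝ) + n * ((j / n : ℤ) : ℝ) := by
    have := Int.emod_add_mul_ediv j n
    exact_mod_cast this.symm
  rw [h4]
  have h5 : 2 * Real.pi / n * (((j % n : ℤ) : ℝ) + n * ((j / n : ℤ) : ℝ)) =
      2 * Real.pi / n * ((j % n : ℤ) : ℝ) + ((j / n : ℤ) : ℝ) * (2 * Real.pi) := by
    field_simp
  rw [h5, rot_two_pi_mul]
  exact h1

/-- Membership can be tested after a rotation. -/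
theorem SymK.interior_mem {n : ℕ} (hn : n ≠ 0) {K : Set Plane} (h : SymK n K) (j : ℤ) {z : Plane}
    (hz : z ∈ interior K) : rot (2 * Real.pi / n * j) z ∈ interior K := by
  have h1 : rot (2 * Real.pi / n * j) '' K ⊆ K := by
    rintro _ ⟨w, hw, rfl⟩
    exact h.int hn j hw
  have h2 : IsOpen (rot (2 * Real.pi / n * j) '' interior K) :=
    (rotIso (2 * Real.pi / n * j)).toHomeomorph.isOpenMap _ isOpen_interior
  have h3 : rot (2 * Real.pi / n * j) '' interior K ⊆ interior K :=
    interior_maximal ((Set.image_mono interior_subset).trans h1) h2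
  exact h3 ⟨z, hz, rfl⟩

theorem SymK.not_interior {n : ℕ} (hn : n ≠ 0) {K : Set Plane} (h : SymK n K) (j : ℤ) {z : Plane}
    (hz : z ∉ interior K) : rot (2 * Real.pi / n * j) z ∉ interior K := by
  intro h1
  have h2 := h.interior_mem hn (-j) h1
  rw [rot_rot] at h2
  apply hz
  convert h2 using 1
  rw [← rot_zero z]
  congr 1
  · push_cast; ring
  · rw [rot_zero]

/-- The open cone between two points. -/
def cone (p q : Plane) : Set Plane := {z | 0 < det2 p z ∧ 0 < det2 z q}

theorem cone_rot_disj {n : ℕ} (hn : 3 ≤ n) {p z : Plane} (hp : 0 < det2 p (rot (2 * Real.pi / n) p))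
    (j : ℕ) (hj1 : 1 ≤ j) (hj2 : j < n) (hz : z ∈ cone p (rot (2 * Real.pi / n) p)) :
    rot (2 * Real.pi / n * j) z ∉ cone p (rot (2 * Real.pi / n) p) := by
  rintro ⟨h1, h2⟩
  obtain ⟨hz1, hz2⟩ := hz
  have hpi := Real.pi_pos
  have hn' : (0 : ℝ) < n := by
    have : 0 < n := by omega
    exact_mod_cast this
  set ψ : ℝ := 2 * Real.pi / n with hψ
  have hψpos : 0 < ψ := by positivity
  have hψn : ψ * n = 2 * Real.pi := by rw [hψ]; field_simp
  set q := rot ψ p with hq
  set θ : ℝ := ψ * j with hθ
  have hj1' : (1 : ℝ) ≤ j := by exact_mod_cast hj1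
  have hj2' : (j : ℝ) + 1 ≤ n := by exact_mod_cast hj2
  have hθ1 : ψ ≤ θ := by rw [hθ]; nlinarith
  have hθ2 : θ + ψ ≤ 2 * Real.pi := by rw [hθ, ← hψn]; nlinarith
  -- `z = α p + β q` up to a positive factor
  set N : ℝ := p 0 ^ 2 + p 1 ^ 2 with hN
  set α := det2 z q with hα
  set β := det2 p z with hβ
  have e1 : det2 p q * det2 p (rot θ z) = N * (α * Real.sin θ + β * Real.sin (θ + ψ)) := by
    simp only [hα, hβ, hq, hN, det2, rot_zero', rot_one', Real.sin_add]
    ring
  have e2 : det2 p q * det2 (rot θ z) q = -(N * (α * Real.sin (θ - ψ) + β * Real.sin θ)) := by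
    simp only [hα, hβ, hq, hN, det2, rot_zero', rot_one', Real.sin_sub]
    have := Real.sin_sq_add_cos_sq ψ
    linear_combination (-(p 0 * z 1 - p 1 * z 0) * Real.sin θ * (p 0 ^ 2 + p 1 ^ 2)) * this
  have hN0 : 0 ≤ N := by positivity
  rcases le_total θ Real.pi with hle | hge
  · have s1 : 0 ≤ Real.sin θ := Real.sin_nonneg_of_nonneg_of_le_pi (by linarith) hle
    have s2 : 0 ≤ Real.sin (θ - ψ) :=
      Real.sin_nonneg_of_nonneg_of_le_pi (by linarith) (by linarith)
    have : 0 < det2 p q * det2 (rot θ z) q := mul_pos hp h2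
    have h3 : 0 ≤ N * (α * Real.sin (θ - ψ) + β * Real.sin θ) := by positivity
    linarith
  · have s1 : Real.sin θ ≤ 0 := by
      rw [← Real.sin_sub_two_pi]
      exact Real.sin_nonpos_of_nonpos_of_neg_pi_le (by linarith) (by linarith)
    have s2 : Real.sin (θ + ψ) ≤ 0 := by
      rw [← Real.sin_sub_two_pi]
      exact Real.sin_nonpos_of_nonpos_of_neg_pi_le (by linarith) (by linarith)
    have : 0 < det2 p q * det2 p (rot θ z) := mul_pos hp h1
    have h3 : 0 ≤ N * (α * -Real.sin θ + β * -Real.sin (θ + ψ)) := by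
      have : 0 ≤ -Real.sin θ := by linarith
      have : 0 ≤ -Real.sin (θ + ψ) := by linarith
      positivity
    linarith

theorem dd_zero (a b : Plane) : dd 0 a b = det2 a b := by
  simp only [dd, sub_zero]

theorem det2_expand (p q z w : Plane) :
    det2 p q * det2 w z = det2 z q * det2 w p + det2 p z * det2 w q := by
  simp only [det2]
  ring

/-- Lower bound for the area of a convex body with an `n`-fold rotational symmetry about the
origin by a star-shaped polygon. -/
theorem sector_area {n m : ℕ} (hn : 3 ≤ n) {K : Set Plane} (hK : Convex ℝ K)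
    (h0 : (0 : Plane) ∈ K) (hsym : SymK n K) (P : ℕ → Plane) (hP : ∀ i ≤ m, P i ∈ K)
    (hdet : ∀ i j, i < j → j ≤ m → 0 < det2 (P i) (P j)) (hm : 0 < m)
    (hPm : P m = rot (2 * Real.pi / n) (P 0)) :
    ENNReal.ofReal (n / 2 * ∑ i ∈ Finset.range m, det2 (P i) (P (i + 1))) ≤ volume K := by
  classical
  set T : ℕ → Set Plane := fun i => Area_OT 0 (P i) (P (i + 1)) with hT
  have hd1 : ∀ i, i < m → 0 < det2 (P i) (P (i + 1)) := fun i hi => hdet i (i + 1) (by omega) hi
  have hTsub : ∀ i, i < m → T i ⊆ K := fun i hi =>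
    Area_OT_subset (by rw [dd_zero]; exact hd1 i hi) hK h0 (hP i (by omega)) (hP (i + 1) hi)
  have hTopen : ∀ i, IsOpen (T i) := fun i => Area_OT_open _ _ _
  have hTvol : ∀ i, i < m → ENNReal.ofReal (det2 (P i) (P (i + 1)) / 2) ≤ volume (T i) := by
    intro i hi
    have := Area_OT_vol (a := 0) (b := P i) (c := P (i + 1)) (by rw [dd_zero]; exact hd1 i hi)
    rwa [dd_zero] at this
  have hTdisj : ∀ i j, i < j → j < m → Disjoint (T i) (T j) := by
    intro i j hij hj
    apply Area_OT_disj (p := P (i + 1))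
    · rw [dd_zero, det2_swap]
      linarith [hd1 i (by omega)]
    · rw [dd_zero, det2_self]
    · rw [dd_zero]
      rcases Nat.lt_or_ge (i + 1) j with h1 | h1
      · exact (hdet _ _ h1 (by omega)).le
      · have : j = i + 1 := by omega
        rw [this, det2_self]
    · rw [dd_zero]
      exact (hdet _ _ (by omega) (by omega)).le
    · rw [dd_zero]
      exact hd1 i (by omega)
    · rw [dd_zero]
      exact hd1 j hj
    · left
      rw [dd_zero, det2_swap]
      linarith [hd1 i (by omega)]
  set U : Set Plane := ⋃ i ∈ Finset.range m, T i with hU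
  have hUopen : IsOpen U := isOpen_biUnion fun i _ => hTopen i
  have hUsub : U ⊆ K := by
    intro z hz
    simp only [hU, Set.mem_iUnion, Finset.mem_range] at hz
    obtain ⟨i, hi, hz⟩ := hz
    exact hTsub i hi hz
  have hUvol : ENNReal.ofReal (∑ i ∈ Finset.range m, det2 (P i) (P (i + 1)) / 2) ≤ volume U := by
    rw [hU, measure_biUnion_finset]
    · rw [ENNReal.ofReal_sum_of_nonneg]
      · exact Finset.sum_le_sum fun i hi => hTvol i (Finset.mem_range.mp hi)
      · intro i hi
        have := hd1 i (Finset.mem_range.mp hi)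
        positivity
    · intro i hi j hj hij
      have hi' : i < m := by simpa using hi
      have hj' : j < m := by simpa using hj
      rcases lt_or_gt_of_ne hij with h1 | h1
      · exact hTdisj i j h1 hj'
      · exact (hTdisj j i h1 hi').symm
    · intro i _
      exact (hTopen i).measurableSet
  have hUcone : U ⊆ cone (P 0) (P m) := by
    intro z hz
    simp only [hU, Set.mem_iUnion, Finset.mem_range] at hz
    obtain ⟨i, hi, hz1, hz2, _⟩ := hz
    rw [dd_zero] at hz1 hz2
    have hd := hd1 i hi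
    constructor
    · have e := det2_expand (P i) (P (i + 1)) z (P 0)
      have h1 : 0 ≤ det2 (P 0) (P i) := by
        rcases Nat.eq_zero_or_pos i with rfl | h
        · rw [det2_self]
        · exact (hdet 0 i h (by omega)).le
      have h2 : 0 < det2 (P 0) (P (i + 1)) := hdet 0 (i + 1) (by omega) hi
      have h3 : 0 < det2 (P i) (P (i + 1)) * det2 (P 0) z := by
        rw [e]
        have := mul_nonneg hz1.le h1
        have := mul_pos hz2 h2
        linarith
      exact (pos_iff_pos_of_mul_pos h3).mp hd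
    · have e := det2_expand (P i) (P (i + 1)) z (P m)
      have h1 : 0 < det2 (P i) (P m) := hdet i m hi le_rfl
      have h2 : 0 ≤ det2 (P (i + 1)) (P m) := by
        rcases Nat.lt_or_ge (i + 1) m with h | h
        · exact (hdet (i + 1) m h le_rfl).le
        · have : i + 1 = m := by omega
          rw [this, det2_self]
      have h3 : 0 < det2 (P i) (P (i + 1)) * det2 z (P m) := by
        rw [det2_swap z (P m), mul_neg, e, det2_swap (P m) (P i), det2_swap (P m) (P (i + 1))]
        have := mul_pos hz1 h1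
        have := mul_nonneg hz2.le h2
        linarith
      exact (pos_iff_pos_of_mul_pos h3).mp hd
  -- rotated copies
  set ψ : ℝ := 2 * Real.pi / n with hψ
  set V : ℕ → Set Plane := fun j => rot (ψ * j) '' U with hV
  have hVopen : ∀ j, IsOpen (V j) := fun j =>
    (rotIso (ψ * j)).toHomeomorph.isOpenMap _ hUopen
  have hVsub : ∀ j, V j ⊆ K := by
    rintro j _ ⟨z, hz, rfl⟩
    exact hsym.nat j (hUsub hz)
  have hVdisj : ∀ i j, i < j → j < n → Disjoint (V i) (V j) := by
    intro i j hij hj
    rw [Set.disjoint_left]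
    rintro _ ⟨u, hu, rfl⟩ ⟨w, hw, hwu⟩
    -- `u = rot (ψ (j - i)) w`
    have h1 : u = rot (ψ * (j - i : ℕ)) w := by
      have h2 : rot (-(ψ * i)) (rot (ψ * j) w) = rot (-(ψ * i)) (rot (ψ * i) u) := by rw [hwu]
      rw [rot_rot, rot_rot, neg_add_cancel, rot_zero] at h2
      rw [← h2]
      congr 1
      rw [Nat.cast_sub hij.le]
      ring
    have hu' := hUcone hu
    rw [h1, hPm] at hu'
    have hw' := hUcone hw
    rw [hPm] at hw'
    refine cone_rot_disj hn ?_ (j - i) (by omega) (by omega) hw' hu'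
    have := hdet 0 m hm le_rfl
    rwa [hPm] at this
  have hVvol : ∀ j, volume (V j) = volume U := fun j => volume_rot _ _
  have hsum : ∑ j ∈ Finset.range n, volume (V j) ≤ volume K := by
    rw [← measure_biUnion_finset]
    · apply measure_mono
      intro z hz
      simp only [Set.mem_iUnion] at hz
      obtain ⟨j, _, hz⟩ := hz
      exact hVsub j hz
    · intro i hi j hj hij
      have hi' : i < n := by simpa using hi
      have hj' : j < n := by simpa using hj
      rcases lt_or_gt_of_ne hij with h1 | h1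
      · exact hVdisj i j h1 hj'
      · exact (hVdisj j i h1 hi').symm
    · intro i _
      exact (hVopen i).measurableSet
  simp only [hVvol, Finset.sum_const, Finset.card_range, nsmul_eq_mul] at hsum
  refine le_trans ?_ hsum
  have hsum0 : 0 ≤ ∑ i ∈ Finset.range m, det2 (P i) (P (i + 1)) / 2 :=
    Finset.sum_nonneg fun i hi => by
      have := hd1 i (Finset.mem_range.mp hi)
      positivity
  have e : (n : ℝ) / 2 * ∑ i ∈ Finset.range m, det2 (P i) (P (i + 1)) =
      n * ∑ i ∈ Finset.range m, det2 (P i) (P (i + 1)) / 2 := by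
    rw [← Finset.sum_div]
    ring
  rw [e, ENNReal.ofReal_mul (by positivity), ENNReal.ofReal_natCast]
  gcongr

end Pool.Agent.helper79.RS
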