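import Pool.Agent.helper79.RS.Pent

/-!
RS-18: approximations for the five-fold symmetry.
-/

namespace Pool.Agent.helper79.RS

/-- The data of one side. -/
structure Dat (C S c2 s2 x y L s p q Ta Tb l : ℝ) : Prop where
  pen : Pen C S c2 s2
  pe : p = S * x + C * (y + L / 2) - C
  qe : q = s2 * x - c2 * y - C
  Tae : Ta = -(c2 * x) - s2 * y
  Tbe : Tb = C * x - S * (y + L / 2)
  le : L = 1 + C + l
  hp : 0 ≤ p
  hq : 0 ≤ q
  hs : 0 ≤ s
  hls : s ≤ l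
  hL : L ≤ 2
  hna : x ^ 2 + y ^ 2 ≤ 1
  hnb : x ^ 2 + (y + L / 2) ^ 2 ≤ 1

/-- The quantity which has to be bounded from below. -/
noncomputable def gg (C S x L s p q Ta Tb : ℝ) : ℝ :=
  2.5 * (C * S + Ta * s + Tb * q + (S - Ta) * p) - 0.8927 * (L * x)

theorem tang5 {X Y a b : ℝ} (h : X ^ 2 + Y ^ 2 ≤ 1) (hab : a ^ 2 + b ^ 2 ≤ 1) :
    a * X + b * Y ≤ 1 := by
  nlinarith [sq_nonneg (a - X), sq_nonneg (b - Y)]

namespace Dat

variable {C S c2 s2 x y L s p q Ta Tb l : ℝ} (h : Dat C S c2 s2 x y L s p q Ta Tb l)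

include h

theorem hl0 : 0 ≤ l := le_trans h.hs h.hls
theorem hl1 : l ≤ 0.190984 := by linarith [h.hL, h.le, h.pen.Clo]

theorem eTa : s2 * Ta = 3 / 8 - C / 4 - p + c2 * q + C * l / 2 := by
  have e := h.le
  have h1 := h.pen.sq2
  have h2 := h.pen.Cc2
  have h4 := h.pen.min
  have h5 := h.pen.c2e
  rw [h.Tae, h.pe, h.qe, e]
  linear_combination (-2 * c2 * x) * h.pen.s2e + (-4 * S * x + 1) * h2 + (-y) * h1
    + (2 * y * (c2 + C - 1 / 2)) * h5 + (y / 2 + 1 / 8) * h4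
theorem eTb : s2 * Tb = C / 2 - 1 / 8 - c2 * p + q - c2 * l / 2 := by
  have e := h.le
  have h1 := h.pen.sum3
  have h2 := h.pen.Cc2
  have h3 := h.pen.Ss2
  have h5 := h.pen.c2e
  rw [h.Tbe, h.pe, h.qe, e]
  linear_combination x * h1 - (y + (1 + C + l) / 2) * h3
    + (y + (1 + C + l) / 2 - 1 - 1 / 2) * h2 - (1 / 2) * h5
theorem eX : s2 * x = 3 / 8 * (1 + C) + c2 * p + C * q - l / 8 := by
  have e := h.le
  have h1 := h.pen.sum3
  have h2 := h.pen.Cc2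
  have h4 := h.pen.min
  rw [h.pe, h.qe, e]
  linear_combination (-x) * h1 + (-((1 + C + l) / 2) + 1) * h2 - (-1 / 4) * h4

theorem hp1 : p ≤ 0.190984 := by
  have e1 : (C + p) ^ 2 + Tb ^ 2 = x ^ 2 + (y + L / 2) ^ 2 := by
    rw [h.pe, h.Tbe]
    linear_combination (x ^ 2 + (y + L / 2) ^ 2) * h.pen.sq
  have e2 : (C + p) ^ 2 + Tb ^ 2 ≤ 1 := by rw [e1]; exact h.hnb
  have := tang5 e2 (a := 1) (b := 0) (by norm_num)
  linarith [h.pen.Clo]
theorem hq1 : q ≤ 0.190984 := by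
  have e1 : (C + q) ^ 2 + Ta ^ 2 = x ^ 2 + y ^ 2 := by
    rw [h.qe, h.Tae]
    linear_combination (x ^ 2 + y ^ 2) * h.pen.sq2
  have e2 : (C + q) ^ 2 + Ta ^ 2 ≤ 1 := by rw [e1]; exact h.hna
  have := tang5 e2 (a := 1) (b := 0) (by norm_num)
  linarith [h.pen.Clo]

theorem tP : 0 ≤ 1 - 0.929 * (C + p) - 0.37 * Tb := by
  have e1 : (C + p) ^ 2 + Tb ^ 2 = x ^ 2 + (y + L / 2) ^ 2 := by
    rw [h.pe, h.Tbe]
    linear_combination (x ^ 2 + (y + L / 2) ^ 2) * h.pen.sq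
  have e2 : (C + p) ^ 2 + Tb ^ 2 ≤ 1 := by rw [e1]; exact h.hnb
  have := tang5 e2 (a := 0.929) (b := 0.37) (by norm_num)
  linarith only [this]
theorem tQ : 0 ≤ 1 - 0.9797 * (C + q) - 0.2 * Ta := by
  have e1 : (C + q) ^ 2 + Ta ^ 2 = x ^ 2 + y ^ 2 := by
    rw [h.qe, h.Tae]
    linear_combination (x ^ 2 + y ^ 2) * h.pen.sq2
  have e2 : (C + q) ^ 2 + Ta ^ 2 ≤ 1 := by rw [e1]; exact h.hna
  have := tang5 e2 (a := 0.9797) (b := 0.2) (by norm_num)
  linarith only [this]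

/-- Approximations. -/
theorem approx :
    (Ta ≤ (0.181635632 - 1.051462224 * p + 0.324919696 * q + 0.425325404 * l) + 1e-8 ∧ (0.181635632 - 1.051462224 * p + 0.324919696 * q + 0.425325404 * l) - 1e-8 ≤ Ta) ∧
    (Tb ≤ (0.293892626 - 0.324919696 * p + 1.051462224 * q - 0.162459848 * l) + 1e-8 ∧ (0.293892626 - 0.324919696 * p + 1.051462224 * q - 0.162459848 * l) - 1e-8 ≤ Tb) ∧
    (x ≤ (0.713292387 + 0.324919696 * p + 0.850650808 * q - 0.131432778 * l) + 1e-8 ∧ (0.713292387 + 0.324919696 * p + 0.850650808 * q - 0.131432778 * l) - 1e-8 ≤ x) := by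
  have a1 := h.pen.Clo
  have a2 := h.pen.Chi
  have a3 := h.pen.c2lo
  have a4 := h.pen.c2hi
  have a5 := h.pen.s2lo
  have a6 := h.pen.s2hi
  have hp := h.hp
  have hq := h.hq
  have hl := h.hl0
  have hp1 := h.hp1
  have hq1 := h.hq1
  have hl1 := h.hl1
  have e1 := h.eTa
  have e2 := h.eTb
  have e3 := h.eX
  have hs2 : 0 < s2 := by linarith only [a5]
  -- products
  have m1 := mul_le_mul_of_nonneg_right a5.le hp
  have m2 := mul_le_mul_of_nonneg_right a6.le hp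
  have m3 := mul_le_mul_of_nonneg_right a5.le hq
  have m4 := mul_le_mul_of_nonneg_right a6.le hq
  have m5 := mul_le_mul_of_nonneg_right a5.le hl
  have m6 := mul_le_mul_of_nonneg_right a6.le hl
  have n1 := mul_le_mul_of_nonneg_right a3.le hp
  have n2 := mul_le_mul_of_nonneg_right a4.le hp
  have n3 := mul_le_mul_of_nonneg_right a3.le hq
  have n4 := mul_le_mul_of_nonneg_right a4.le hq
  have n5 := mul_le_mul_of_nonneg_right a3.le hl
  have n6 := mul_le_mul_of_nonneg_right a4.le hl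
  have o1 := mul_le_mul_of_nonneg_right a1.le hq
  have o2 := mul_le_mul_of_nonneg_right a2.le hq
  have o3 := mul_le_mul_of_nonneg_right a1.le hl
  have o4 := mul_le_mul_of_nonneg_right a2.le hl
  refine ⟨⟨?_, ?_⟩, ⟨?_, ?_⟩, ?_, ?_⟩
  · apply le_of_mul_le_mul_left _ hs2
    rw [e1]
    linarith only [m1, m2, m3, m4, m5, m6, n3, n4, o3, o4, a1, a2, a5, a6, hp1, hq1, hl1]
  · apply le_of_mul_le_mul_left _ hs2
    rw [e1]
    linarith only [m1, m2, m3, m4, m5, m6, n3, n4, o3, o4, a1, a2, a5, a6, hp1, hq1, hl1]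
  · apply le_of_mul_le_mul_left _ hs2
    rw [e2]
    linarith only [m1, m2, m3, m4, m5, m6, n1, n2, n5, n6, a1, a2, a5, a6, hp1, hq1, hl1]
  · apply le_of_mul_le_mul_left _ hs2
    rw [e2]
    linarith only [m1, m2, m3, m4, m5, m6, n1, n2, n5, n6, a1, a2, a5, a6, hp1, hq1, hl1]
  · apply le_of_mul_le_mul_left _ hs2
    rw [e3]
    linarith only [m1, m2, m3, m4, m5, m6, n1, n2, o1, o2, a1, a2, a5, a6, hp1, hq1, hl1]
  · apply le_of_mul_le_mul_left _ hs2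
    rw [e3]
    linarith only [m1, m2, m3, m4, m5, m6, n1, n2, o1, o2, a1, a2, a5, a6, hp1, hq1, hl1]

end Dat

end Pool.Agent.helper79.RS
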