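import Pool.Agent.helper79.RS.Hept
import Pool.Agent.helper79.RS.Poly7

/-!
RS-7: the inequality for one side of a body with seven-fold symmetry.
-/

namespace Pool.Agent.helper79.RS

/-- The density of the double lattice packing of the regular heptagon, in terms of
`C = cos (π / 7)`. -/
noncomputable def dens (C : ℝ) : ℝ := 2 / 97 * (-111 + 492 * C - 356 * C ^ 2)

namespace Hept

variable {C S c2 s2 c3 s3 : ℝ}

theorem dlo (h : Hept C S c2 s2 c3 s3) : 0.8926904 < dens C := by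
  unfold dens; linarith [h.C2hi, h.Clo]
theorem dhi (h : Hept C S c2 s2 c3 s3) : dens C < 0.8926911 := by
  unfold dens; linarith [h.C2lo, h.Chi]

theorem add5 (h : Hept C S c2 s2 c3 s3) : c2 * s3 + c3 * s2 = s2 := by
  rw [h.c2e, h.c3e, h.s2e, h.s3e]
  linear_combination S * (C + 1) * h.min

theorem sub5 (h : Hept C S c2 s2 c3 s3) : s2 * s3 = c2 * c3 + c2 := by
  rw [h.c2e, h.c3e, h.s2e, h.s3e]
  linear_combination (2 * C * (4 * C ^ 2 - 1)) * h.sq + (1 / 2 - C ^ 2 - C) * h.min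

theorem dbl (h : Hept C S c2 s2 c3 s3) : s3 = 2 * s2 * c2 := by
  rw [h.c2e, h.s2e, h.s3e]
  linear_combination (-S) * h.min

theorem dbl' (h : Hept C S c2 s2 c3 s3) : c3 + c2 ^ 2 = s2 ^ 2 := by
  rw [h.c2e, h.s2e, h.c3e]
  linear_combination (-4 * C ^ 2) * h.sq + (C + 1 / 2) * h.min

theorem Cc2 (h : Hept C S c2 s2 c3 s3) : C * c2 = C ^ 2 - 1 / 4 := by
  rw [h.c2e]
  linear_combination (1 / 4) * h.min

theorem Cc3 (h : Hept C S c2 s2 c3 s3) : C * c3 = C / 2 - 1 / 4 := by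
  rw [h.c3e]
  linear_combination (1 / 4) * h.min

theorem c2c3 (h : Hept C S c2 s2 c3 s3) : c2 * c3 = C / 2 + 1 / 2 - C ^ 2 := by
  rw [h.c2e, h.c3e]
  linear_combination (C / 2) * h.min

theorem sq2 (h : Hept C S c2 s2 c3 s3) : s2 ^ 2 + c2 ^ 2 = 1 := by
  rw [h.c2e, h.s2e]
  linear_combination (4 * C ^ 2) * h.sq

theorem sq3 (h : Hept C S c2 s2 c3 s3) : s3 ^ 2 + c3 ^ 2 = 1 := by
  rw [h.c3e, h.s3e]
  linear_combination ((4 * C ^ 2 - 1) ^ 2) * h.sq
    - (1 / 2 * (4 * C ^ 3 + 2 * C ^ 2 - 4 * C - 1 / 2)) * h.min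

/-- The regular heptagon. -/
theorem exact0 (h : Hept C S c2 s2 c3 s3) :
    7 / 2 * (C * S) * s2 = dens C * ((1 + C) * ((c2 + c3) * C - c2 * c3 * (1 + C) / 2)) := by
  rw [h.c2e, h.s2e, h.c3e]
  unfold dens
  linear_combination (7 * C ^ 2) * h.sq + (-111 / 194 - 531 / 97 * C + 231 / 194 * C ^ 2
    + 659 / 97 * C ^ 3 - 110 / 97 * C ^ 4 - 178 / 97 * C ^ 5) * h.min

end Hept

theorem tang {X Y a b : ℝ} (h : X ^ 2 + Y ^ 2 ≤ 1) (hab : a ^ 2 + b ^ 2 ≤ 1) :
    a * X + b * Y ≤ 1 := by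
  nlinarith [sq_nonneg (a - X), sq_nonneg (b - Y)]

/-- The inequality for one side: `a = (x, y)` and `b = (x, y + L / 2)` are the ends of the chord of
half length, `s` is the height of the bump in the middle of the bottom side. -/
theorem side7 {C S c2 s2 c3 s3 : ℝ} (h : Hept C S c2 s2 c3 s3) {x y L s p q Ta Tb : ℝ}
    (hpe : p = s3 * x + c3 * (y + L / 2) - C) (hqe : q = s2 * x - c2 * y - C)
    (hTae : Ta = c2 * x + s2 * y) (hTbe : Tb = s3 * (y + L / 2) - c3 * x)
    (hp : 0 ≤ p) (hq : 0 ≤ q) (hs : 0 ≤ s)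
    (hL1 : 1 + C + s ≤ L) (hL2 : L ≤ 1 + C + s + s ^ 2 / (2 * S ^ 2)) (hL3 : L ≤ 2)
    (hna : x ^ 2 + y ^ 2 ≤ 1) (hnb : x ^ 2 + (y + L / 2) ^ 2 ≤ 1)
    (hA : (S + Ta) * p ≤ (S + Tb) * q)
    (hB : Tb * s + Ta * p ≤ Ta * s + Tb * q)
    (hC : S * q ≤ (S + Ta) * s)
    (hD : S * q + Ta * p ≤ Tb * q + S * p) :
    dens C * (L * x) + 0.001 * s ≤ 7 / 2 * (C * S + Ta * s + Tb * q + (S - Ta) * p) := by
  obtain ⟨e, he⟩ : ∃ e, L = 1 + C + s + e := ⟨L - (1 + C + s), by ring⟩
  have he0 : 0 ≤ e := by linarith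
  have b1 := h.Clo
  have b2 := h.Chi
  have b3 := h.Slo
  have b4 := h.Shi
  have b5 := h.c2lo
  have b6 := h.c2hi
  have b7 := h.c3lo
  have b8 := h.c3hi
  have b9 := h.s2lo
  have b10 := h.s2hi
  have b11 := h.s3lo
  have b12 := h.s3hi
  have b13 := h.dlo
  have b14 := h.dhi
  have b15 := h.C2lo
  have b16 := h.C2hi
  have hs2 : 0 < s2 := by linarith
  -- exact equations
  have ex : s2 * x = c2 * (C + p) + c3 * (C + q) - c2 * c3 * L / 2 := by
    rw [hpe, hqe]
    linear_combination (-x) * h.add5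
  have eTa : s2 * Ta = (C + p) - c2 * (C + q) - c3 * L / 2 := by
    rw [hpe, hqe, hTae]
    linear_combination (-x) * h.dbl - y * h.dbl'
  have eTb : s2 * Tb = c2 * (C + p) - (C + q) + c2 * L / 2 := by
    rw [hpe, hqe, hTbe]
    linear_combination (-x) * h.add5 + (y + L / 2) * h.sub5
  have e1 : (C + p) ^ 2 + Tb ^ 2 ≤ 1 := by
    have e1 : (C + p) ^ 2 + Tb ^ 2 = x ^ 2 + (y + L / 2) ^ 2 := by
      rw [hpe, hTbe]
      linear_combination (x ^ 2 + (y + L / 2) ^ 2) * h.sq3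
    rw [e1]
    exact hnb
  have e2 : (C + q) ^ 2 + Ta ^ 2 ≤ 1 := by
    have e1 : (C + q) ^ 2 + Ta ^ 2 = x ^ 2 + y ^ 2 := by
      rw [hqe, hTae]
      linear_combination (x ^ 2 + y ^ 2) * h.sq2
    rw [e1]
    exact hna
  have hq1 : q ≤ 0.1 := by
    have := tang e2 (a := 1) (b := 0) (by norm_num)
    linarith only [this, b1]
  have hp1 : p ≤ 0.1 := by
    have := tang e1 (a := 1) (b := 0) (by norm_num)
    linarith only [this, b1]
  have hP1 : 0.946 * (C + p) + 0.324 * Tb ≤ 1 := tang e1 (by norm_num)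
  have hQ1 : 0.987 * (C + q) + 0.16 * Ta ≤ 1 := tang e2 (by norm_num)
  have hs1 : s + e ≤ 0.09904 := by linarith only [he, hL3, b1]
  have hse : 0 ≤ s + e := by linarith only [he0, hs]
  have m1 := h.Cc2
  have m2 := h.Cc3
  have m3 := h.c2c3
  -- approximations of `Ta`, `Tb`
  have k1 : 1.279048 * s2 ≤ 1 + 1e-6 := by linarith only [b10]
  have k1' : 1 - 1e-6 ≤ 1.279048 * s2 := by linarith only [b9]
  have k2 : 0.7974734 * s2 ≤ c2 + 1e-6 := by linarith only [b10, b5]
  have k2' : c2 - 1e-6 ≤ 0.7974734 * s2 := by linarith only [b9, b6]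
  have k3 : 0.1423075 * s2 ≤ c3 / 2 + 1e-6 := by linarith only [b10, b7]
  have k3' : c3 / 2 - 1e-6 ≤ 0.1423075 * s2 := by linarith only [b9, b8]
  have k4 : 0.3987367 * s2 ≤ c2 / 2 + 1e-6 := by linarith only [b10, b5]
  have k4' : c2 / 2 - 1e-6 ≤ 0.3987367 * s2 := by linarith only [b9, b6]
  have eL : L = 1 + C + (s + e) := by linarith only [he]
  set l := s + e with hl
  have Ta1 : Ta ≤ 0.1633617 + 1.279048 * p - 0.7974734 * q - 0.1423075 * l + 1e-6 := by
    apply le_of_mul_le_mul_left _ hs2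
    rw [eTa, eL]
    have i1 := mul_le_mul_of_nonneg_left k1' hp
    have i2 := mul_le_mul_of_nonneg_left k2 hq
    have i3 := mul_le_mul_of_nonneg_left k3 hse
    linarith only [i1, i2, i3, m1, m2, b1, b15, b16, b7, b8, b9, b10, b2, hp1, hq1, hs1]
  have Ta2 : 0.1633617 + 1.279048 * p - 0.7974734 * q - 0.1423075 * l - 1e-6 ≤ Ta := by
    apply le_of_mul_le_mul_left _ hs2
    rw [eTa, eL]
    have i1 := mul_le_mul_of_nonneg_left k1 hp
    have i2 := mul_le_mul_of_nonneg_left k2' hq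
    have i3 := mul_le_mul_of_nonneg_left k3' hse
    linarith only [i1, i2, i3, m1, m2, b1, b15, b16, b7, b8, b9, b10, b2, hp1, hq1, hs1]
  have Tb1 : Tb ≤ 0.3241023 + 0.7974734 * p - 1.279048 * q + 0.3987367 * l + 1e-6 := by
    apply le_of_mul_le_mul_left _ hs2
    rw [eTb, eL]
    have i1 := mul_le_mul_of_nonneg_left k2' hp
    have i2 := mul_le_mul_of_nonneg_left k1 hq
    have i3 := mul_le_mul_of_nonneg_left k4' hse
    linarith only [i1, i2, i3, m1, m2, b1, b15, b16, b5, b6, b9, b10, b2, hp1, hq1, hs1]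
  have Tb2 : 0.3241023 + 0.7974734 * p - 1.279048 * q + 0.3987367 * l - 1e-6 ≤ Tb := by
    apply le_of_mul_le_mul_left _ hs2
    rw [eTb, eL]
    have i1 := mul_le_mul_of_nonneg_left k2 hp
    have i2 := mul_le_mul_of_nonneg_left k1' hq
    have i3 := mul_le_mul_of_nonneg_left k4 hse
    linarith only [i1, i2, i3, m1, m2, b1, b15, b16, b5, b6, b9, b10, b2, hp1, hq1, hs1]
  have hpq := mul_nonneg hp hq
  have hpp := mul_nonneg hp hp
  have hqq := mul_nonneg hq hq
  have hlp := mul_nonneg hse hp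
  have hlq := mul_nonneg hse hq
  have hls := mul_nonneg hse hs
  have hps := mul_nonneg hp hs
  have hqs := mul_nonneg hq hs
  have hSp := mul_le_mul_of_nonneg_right b3.le hp
  have hSq := mul_le_mul_of_nonneg_right b3.le hq
  have hSp' := mul_le_mul_of_nonneg_right b4.le hp
  have hSq' := mul_le_mul_of_nonneg_right b4.le hq
  have hSs' := mul_le_mul_of_nonneg_right b4.le hs
  have A' : 0 ≤ 0.758 * q - 0.5972 * p + 1.595 * (p * q) - 1.279 * q ^ 2 - 1.279 * p ^ 2
      + 0.3988 * (l * q) + 0.1424 * (l * p) := by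
    have i1 := mul_le_mul_of_nonneg_left Tb1 hq
    have i2 := mul_le_mul_of_nonneg_left Ta2 hp
    linarith only [i1, i2, hA, hpq, hpp, hqq, hlp, hlq, hSp, hSq', hp, hq]
  have B' : 0 ≤ 0.3242 * q - 0.1633 * p - 0.1607 * s + 1.595 * (p * q) - 1.279 * q ^ 2
      - 1.279 * p ^ 2 + 0.3988 * (l * q) + 0.1424 * (l * p) + 0.4816 * (s * p)
      + 0.4816 * (s * q) - 0.541 * (l * s) := by
    have i1 := mul_le_mul_of_nonneg_left Tb1 hq
    have i2 := mul_le_mul_of_nonneg_left Ta2 hp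
    have i3 := mul_le_mul_of_nonneg_left Ta1 hs
    have i4 := mul_le_mul_of_nonneg_left Tb2 hs
    linarith only [i1, i2, i3, i4, hB, hpq, hpp, hqq, hlp, hlq, hls, hps, hqs, hp, hq, hs]
  have C' : 0 ≤ 0.5973 * s - 0.4338 * q + 1.2791 * (p * s) - 0.7974 * (q * s)
      - 0.1423 * (l * s) := by
    have i3 := mul_le_mul_of_nonneg_left Ta1 hs
    linarith only [i3, hC, hls, hps, hqs, hs, hq, hSs', hSq]
  have D' : 0 ≤ 0.2706 * p - 0.1097 * q + 1.595 * (p * q) - 1.279 * q ^ 2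
      - 1.279 * p ^ 2 + 0.3988 * (l * q) + 0.1424 * (l * p) := by
    have i1 := mul_le_mul_of_nonneg_left Tb1 hq
    have i2 := mul_le_mul_of_nonneg_left Ta2 hp
    linarith only [i1, i2, hD, hpq, hpp, hqq, hlp, hlq, hSp', hSq, hp, hq]
  have E' : e ≤ 2.656 * s ^ 2 := by
    have i1 : e ≤ s ^ 2 / (2 * S ^ 2) := by linarith only [he, hL2]
    have i2 : s ^ 2 / (2 * S ^ 2) ≤ 2.656 * s ^ 2 := by
      have h3 : 0 < 2 * S ^ 2 := by
        have := h.S_pos
        positivity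
      rw [div_le_iff₀ h3, h.sq]
      have h4 : 0 ≤ s ^ 2 * (0.811744905 - C ^ 2) := mul_nonneg (sq_nonneg _) (by linarith only [b16])
      have h5 := sq_nonneg s
      nlinarith only [h4, h5]
    linarith only [i1, i2]
  have P' : 0 ≤ 0.0427 - 1.2043 * p + 0.4145 * q - 0.1291 * l := by
    linarith only [hP1, Tb2, b1, hp, hq, hse]
  have Q' : 0 ≤ 0.0847 - 0.8594 * q - 0.2046 * p + 0.0228 * l := by
    linarith only [hQ1, Ta2, b1, hp, hq, hse]
  have S' : s ≤ 0.09904 := by linarith only [hs1, he0, hl]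
  have fin := poly7 hp hq hs he0 (by rw [← hl]; exact A') (by rw [← hl]; exact B')
    (by rw [← hl]; exact C') (by rw [← hl]; exact D') E' (by rw [← hl]; exact P')
    (by rw [← hl]; exact Q') S' (by rw [← hl]; exact hs1)
  rw [← hl] at fin
  -- the other side
  obtain ⟨X0, hX0⟩ : ∃ X0, s2 * X0 = 3 / 2 * C ^ 2 + C / 4 - 13 / 16 :=
    ⟨(3 / 2 * C ^ 2 + C / 4 - 13 / 16) / s2, by field_simp⟩
  obtain ⟨m, hm⟩ : ∃ m, s2 * m = c2 := ⟨c2 / s2, by field_simp⟩
  obtain ⟨n, hn⟩ : ∃ n, s2 * n = c3 := ⟨c3 / s2, by field_simp⟩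
  obtain ⟨v, hv⟩ : ∃ v, s2 * v = c2 * c3 / 2 := ⟨(c2 * c3 / 2) / s2, by field_simp⟩
  have hX1 : X0 ≤ 0.806272 := by
    apply le_of_mul_le_mul_left _ hs2
    rw [hX0]
    linarith only [b2, b16, b9]
  have hX2 : 0 ≤ X0 := by
    apply le_of_mul_le_mul_left _ hs2
    rw [hX0]
    linarith only [b1, b15]
  have hm1 : m ≤ 0.7974735 := by
    apply le_of_mul_le_mul_left _ hs2
    rw [hm]
    linarith only [b6, b9]
  have hm2 : 0 ≤ m := by
    apply le_of_mul_le_mul_left _ hs2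
    rw [hm]
    linarith only [b5]
  have hn1 : n ≤ 0.284616 := by
    apply le_of_mul_le_mul_left _ hs2
    rw [hn]
    linarith only [b8, b9]
  have hn2 : 0 ≤ n := by
    apply le_of_mul_le_mul_left _ hs2
    rw [hn]
    linarith only [b7]
  have hv1 : 0.088727 ≤ v := by
    apply le_of_mul_le_mul_left _ hs2
    rw [hv, m3]
    linarith only [b1, b16, b10]
  have cc : C * (c2 * c3) = 1 / 8 := by
    rw [m3]
    linear_combination (-1 / 8) * h.min
  have ex' : x = X0 + m * p + n * q - v * l := by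
    have : s2 * x = s2 * (X0 + m * p + n * q - v * l) := by
      rw [ex, eL]
      linear_combination (-1) * hX0 - p * hm - q * hn + l * hv + m1 + m2 - (1 / 2) * cc
        - (1 / 2) * m3
    exact mul_left_cancel₀ hs2.ne' this
  have base : 7 / 2 * (C * S) = dens C * (1 + C) * X0 := by
    have : s2 * (7 / 2 * (C * S)) = s2 * (dens C * (1 + C) * X0) := by
      linear_combination h.exact0 - dens C * (1 + C) * hX0 + dens C * (1 + C) * (m1 + m2
        - (1 / 2) * cc - (1 / 2) * m3)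
    exact mul_left_cancel₀ hs2.ne' this
  set d := dens C with hd
  have hd0 : 0 ≤ d := by linarith only [b13]
  have M1 : d * (1 + C) ≤ 1.696979 := by
    have := mul_le_mul b14.le (show 1 + C ≤ 1.90096887 by linarith only [b2])
      (by linarith only [b1]) (by norm_num)
    linarith only [this]
  have M2 : 1.696976 ≤ d * (1 + C) := by
    have := mul_le_mul b13.le (show 1.90096886 ≤ 1 + C by linarith only [b1])
      (by norm_num) hd0
    linarith only [this]
  have w1 : d * (1 + C) * m ≤ 1.353305 := by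
    have := mul_le_mul M1 hm1 hm2 (by norm_num)
    linarith only [this]
  have w2 : d * (1 + C) * n ≤ 0.483 := by
    have := mul_le_mul M1 hn1 hn2 (by norm_num)
    linarith only [this]
  have w3 : 0.15056 ≤ d * (1 + C) * v := by
    have := mul_le_mul M2 hv1 (by norm_num) (by linarith only [M2])
    linarith only [this]
  have w4 : d * X0 ≤ 0.719755 := by
    have := mul_le_mul b14.le hX1 hX2 (by norm_num)
    linarith only [this]
  have w5 : d * m ≤ 0.7119 := by
    have := mul_le_mul b14.le hm1 hm2 (by norm_num)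
    linarith only [this]
  have w6 : d * n ≤ 0.25408 := by
    have := mul_le_mul b14.le hn1 hn2 (by norm_num)
    linarith only [this]
  have w7 : 0.0792 ≤ d * v := by
    have := mul_le_mul b13.le hv1 (by norm_num) hd0
    linarith only [this]
  have hll := mul_nonneg hse hse
  have z1 := mul_le_mul_of_nonneg_right w1 hp
  have z2 := mul_le_mul_of_nonneg_right w2 hq
  have z3 := mul_le_mul_of_nonneg_right w3 hse
  have z4 := mul_le_mul_of_nonneg_right w4 hse
  have z5 := mul_le_mul_of_nonneg_right w5 hlp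
  have z6 := mul_le_mul_of_nonneg_right w6 hlq
  have z7 := mul_le_mul_of_nonneg_right w7 hll
  have lhs : d * (L * x) = 7 / 2 * (C * S) + d * (1 + C) * m * p + d * (1 + C) * n * q
      - d * (1 + C) * v * l + d * X0 * l + d * m * (l * p) + d * n * (l * q)
      - d * v * (l * l) := by
    rw [ex', base, eL]
    ring
  rw [lhs]
  have i1 := mul_le_mul_of_nonneg_left Ta2 hs
  have i2 := mul_le_mul_of_nonneg_left Tb2 hq
  have i3 := mul_le_mul_of_nonneg_left Ta1 hp
  linarith only [fin, z1, z2, z3, z4, z5, z6, z7, i1, i2, i3, hSp, hp, hq, hs, hse, hpq, hpp,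
    hqq, hlp, hlq, hls, hps, hqs, hll]

end Pool.Agent.helper79.RS
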